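import Pool.Agent.K1H29.NC.BlkM

/-!
# Almost every `Θ` is good
-/

open Set MeasureTheory ENNReal

namespace Pool.Agent.K1H29.NC.AE

open Pool.Agent.K1H29.NC.BM (e e_zero e_add conj_e norm_e e_int)

/-! ## The Dirichlet kernel -/

lemma dk_eq (M : ℕ) (x : ℝ) : dk M x = ‖∑ n ∈ Finset.Icc (-(M : ℤ)) M, e (n * x)‖ := by
  unfold dk e
  congr 1
  refine Finset.sum_congr rfl fun n _ => ?_
  congr 1
  push_cast
  ring

lemma continuous_e : Continuous e := by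
  unfold e; fun_prop

lemma dk_cont (M : ℕ) : Continuous (dk M) := by
  unfold dk; fun_prop

lemma dk_nonneg (M : ℕ) (x : ℝ) : 0 ≤ dk M x := norm_nonneg _

lemma dk_periodic (M : ℕ) : Function.Periodic (dk M) 1 := by
  intro x
  rw [dk_eq, dk_eq]
  congr 1
  refine Finset.sum_congr rfl fun n _ => ?_
  rw [mul_add, mul_one, e_add, e_int, mul_one]

lemma dk_le (M : ℕ) (x : ℝ) : dk M x ≤ 2 * M + 1 := by
  rw [dk_eq]
  refine (norm_sum_le _ _).trans ?_
  simp only [norm_e, Finset.sum_const, nsmul_eq_mul, mul_one, Int.card_Icc]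
  have : (((M : ℤ) + 1 - -(M : ℤ)).toNat : ℤ) = 2 * M + 1 := by
    rw [Int.toNat_of_nonneg (by omega)]; ring
  have h2 : ((((M : ℤ) + 1 - -(M : ℤ)).toNat : ℤ) : ℝ) = 2 * M + 1 := by rw [this]; push_cast; ring
  rw [Int.cast_natCast] at h2
  exact h2.le

lemma sum_e (M : ℕ) (x : ℝ) : (∑ n ∈ Finset.Icc (-(M : ℤ)) M, e (n * x)) * (e (x / 2) - e (-(x / 2)))
    = e ((M + 1 / 2) * x) - e (-((M + 1 / 2) * x)) := by
  induction M with
  | zero =>
    simp [e_zero]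
    congr 2 <;> ring_nf
  | succ M ih =>
    have h1 : Finset.Icc (-((M + 1 : ℕ) : ℤ)) ((M + 1 : ℕ) : ℤ)
        = insert (-((M + 1 : ℕ) : ℤ)) (insert (((M + 1 : ℕ) : ℤ)) (Finset.Icc (-(M : ℤ)) M)) := by
      ext n
      simp only [Finset.mem_insert, Finset.mem_Icc]
      push_cast
      omega
    rw [h1, Finset.sum_insert, Finset.sum_insert, add_mul, add_mul, ih]
    · push_cast
      have a1 : e (-((M : ℝ) + 1) * x) * (e (x / 2) - e (-(x / 2)))
          = e (-((M + 1 / 2) * x)) - e (-((M + 1 + 1 / 2) * x)) := by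
        rw [mul_sub, ← e_add, ← e_add]
        congr 2 <;> ring
      have a2 : e (((M : ℝ) + 1) * x) * (e (x / 2) - e (-(x / 2)))
          = e ((M + 1 + 1 / 2) * x) - e ((M + 1 / 2) * x) := by
        rw [mul_sub, ← e_add, ← e_add]
        congr 2 <;> ring
      rw [a1, a2]; ring
    · simp only [Finset.mem_Icc]; push_cast; omega
    · simp only [Finset.mem_insert, Finset.mem_Icc]; push_cast; omega

lemma e_sub (y : ℝ) : ‖e y - e (-y)‖ = 2 * |Real.sin (2 * Real.pi * y)| := by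
  have h1 : e y - e (-y) = ((2 * Real.sin (2 * Real.pi * y) : ℝ) : ℂ) * Complex.I := by
    unfold e
    push_cast
    rw [Complex.sin]
    have : ∀ z : ℂ, (2 * ((Complex.exp (-z * Complex.I) - Complex.exp (z * Complex.I)) * Complex.I / 2)) * Complex.I
        = Complex.exp (z * Complex.I) - Complex.exp (-z * Complex.I) := by
      intro z
      have := Complex.I_mul_I
      linear_combination (Complex.exp (-z * Complex.I) - Complex.exp (z * Complex.I)) * this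
    rw [this]
    congr 2 <;> ring
  rw [h1, norm_mul, Complex.norm_I, mul_one, Complex.norm_real, Real.norm_eq_abs, abs_mul, abs_two]

lemma dk_sin (M : ℕ) (x : ℝ) : dk M x * |Real.sin (Real.pi * x)| ≤ 1 := by
  have h := congrArg norm (sum_e M x)
  rw [norm_mul, ← dk_eq, e_sub, e_sub, show 2 * Real.pi * (x / 2) = Real.pi * x by ring] at h
  have := Real.abs_sin_le_one (2 * Real.pi * ((M + 1 / 2) * x))
  linarith

/-- majorant of the kernel -/
noncomputable def gm (x : ℝ) : ℝ := (2 * x) ^ (-(3 / 4) : ℝ) + (2 * (1 - x)) ^ (-(3 / 4) : ℝ)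

lemma dk_le_gm (M : ℕ) {x : ℝ} (h0 : 0 < x) (h1 : x < 1) :
    dk M x ≤ (2 * M + 1) ^ (1 / 4 : ℝ) * gm x := by
  have hpi := Real.pi_pos
  have key : ∀ s : ℝ, 0 < s → dk M x * s ≤ 1 → dk M x ≤ (2 * M + 1) ^ (1 / 4 : ℝ) * s ^ (-(3 / 4) : ℝ) := by
    intro s hs hd
    have h2 : dk M x ≤ s⁻¹ := by rwa [← one_div, le_div_iff₀ hs]
    have h3 : dk M x = dk M x ^ (1 / 4 : ℝ) * dk M x ^ (3 / 4 : ℝ) := by
      rw [← Real.rpow_add_of_nonneg (dk_nonneg M x) (by norm_num) (by norm_num)]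
      norm_num
    rw [h3, Real.rpow_neg hs.le, ← Real.inv_rpow hs.le]
    have := dk_nonneg M x
    have := dk_le M x
    gcongr
  have hsin : ∀ y : ℝ, 0 ≤ y → y ≤ 1 / 2 → 2 * y ≤ Real.sin (Real.pi * y) := by
    intro y hy0 hy1
    have := Real.mul_le_sin (x := Real.pi * y) (by positivity) (by nlinarith)
    calc 2 * y = 2 / Real.pi * (Real.pi * y) := by field_simp
      _ ≤ _ := this
  have hc : (0 : ℝ) ≤ (2 * M + 1) ^ (1 / 4 : ℝ) := by positivity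
  have hg1 : 0 ≤ (2 * x) ^ (-(3 / 4) : ℝ) := by positivity
  have hg2 : 0 ≤ (2 * (1 - x)) ^ (-(3 / 4) : ℝ) := by
    have : 0 < 1 - x := by linarith
    positivity
  unfold gm
  rcases le_total x (1 / 2) with hx | hx
  · refine (key (2 * x) (by linarith) ?_).trans ?_
    · refine le_trans ?_ (dk_sin M x)
      exact mul_le_mul_of_nonneg_left ((hsin x h0.le hx).trans (le_abs_self _)) (dk_nonneg _ _)
    · exact mul_le_mul_of_nonneg_left (by linarith) hc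
  · refine (key (2 * (1 - x)) (by linarith) ?_).trans ?_
    · refine le_trans ?_ (dk_sin M x)
      refine mul_le_mul_of_nonneg_left (((hsin (1 - x) (by linarith) (by linarith)).trans (le_of_eq ?_)).trans
        (le_abs_self _)) (dk_nonneg _ _)
      rw [mul_sub, mul_one, Real.sin_pi_sub]
    · exact mul_le_mul_of_nonneg_left (by linarith) hc

lemma gm_int : IntervalIntegrable gm volume 0 1 := by
  have h1 : IntervalIntegrable (fun x : ℝ => x ^ (-(3 / 4) : ℝ)) volume 0 2 :=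
    intervalIntegral.intervalIntegrable_rpow' (by norm_num)
  have h2 : IntervalIntegrable (fun x : ℝ => (2 * x) ^ (-(3 / 4) : ℝ)) volume 0 1 := by
    have := h1.comp_mul_left (c := 2)
    simpa using this
  have h3 : IntervalIntegrable (fun x : ℝ => (2 * (1 - x)) ^ (-(3 / 4) : ℝ)) volume 0 1 := by
    have := (h2.comp_sub_left 1).symm
    simpa using this
  exact h2.add h3

/-- the constant -/
noncomputable def c1 : ℝ := ∫ x in (0 : ℝ)..1, gm x

lemma dk_int (M : ℕ) : ∫ x in (0 : ℝ)..1, dk M x ≤ (2 * M + 1) ^ (1 / 4 : ℝ) * c1 := by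
  unfold c1
  rw [← intervalIntegral.integral_const_mul]
  refine intervalIntegral.integral_mono_on_of_le_Ioo zero_le_one ((dk_cont M).intervalIntegrable _ _)
    (gm_int.const_mul _) fun x hx => dk_le_gm M hx.1 hx.2

lemma dk_int_mul (M : ℕ) (h : ℤ) (hh : h ≠ 0) (a : ℤ) :
    ∫ x in (a : ℝ)..(a + 1), dk M (h * x) = ∫ x in (0 : ℝ)..1, dk M x := by
  have hh' : (h : ℝ) ≠ 0 := by exact_mod_cast hh
  rw [intervalIntegral.integral_comp_mul_left (fun x => dk M x) hh']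
  have h1 := (dk_periodic M).intervalIntegral_add_zsmul_eq h ((h : ℝ) * a)
    (fun t₁ t₂ => (dk_cont M).intervalIntegrable _ _)
  rw [zsmul_eq_mul, mul_one] at h1
  rw [mul_add, mul_one, h1, (dk_periodic M).intervalIntegral_add_eq _ 0, zero_add, zsmul_eq_mul, smul_eq_mul,
    inv_mul_cancel_left₀ hh']

lemma dk_lint (M : ℕ) (h : ℤ) (hh : h ≠ 0) (a : ℤ) :
    ∫⁻ x in Ioc (a : ℝ) (a + 1), ENNReal.ofReal (dk M (h * x)) ≤ ENNReal.ofReal ((2 * M + 1) ^ (1 / 4 : ℝ) * c1) := by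
  have hc : Continuous fun x : ℝ => dk M (h * x) := (dk_cont M).comp (by fun_prop)
  rw [← ofReal_integral_eq_lintegral_ofReal (hc.integrableOn_Ioc) (Filter.Eventually.of_forall fun x => dk_nonneg _ _),
    ← intervalIntegral.integral_of_le (by linarith), dk_int_mul M h hh]
  exact ENNReal.ofReal_le_ofReal (dk_int M)

/-! ## The sum -/

/-- nonzero frequencies -/
noncomputable def Hs (m : ℕ) : Finset ℤ := (Finset.Icc (-(2 ^ (m + 1) : ℤ)) (2 ^ (m + 1))).erase 0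

noncomputable def fm (m : ℕ) (p : ℝ × ℝ) : ℝ≥0∞ :=
  ∑ h ∈ Hs m, ENNReal.ofReal (dk (2 ^ m) (h * p.1)) * ENNReal.ofReal (dk (2 ^ m) (h * p.2))

lemma fm_meas (m : ℕ) : Measurable (fm m) := by
  unfold fm
  refine Finset.measurable_sum _ fun h _ => ?_
  have := (dk_cont (2 ^ m)).measurable
  fun_prop

lemma fm_lint (m : ℕ) (a b : ℤ) :
    ∫⁻ p in Ioc (a : ℝ) (a + 1) ×ˢ Ioc (b : ℝ) (b + 1), fm m p
      ≤ (Hs m).card * ENNReal.ofReal ((2 * (2 ^ m : ℕ) + 1) ^ (1 / 4 : ℝ) * c1) ^ 2 := by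
  unfold fm
  have hmeas : ∀ h : ℤ, Measurable fun x : ℝ => ENNReal.ofReal (dk (2 ^ m) (h * x)) := by
    intro h
    have := (dk_cont (2 ^ m)).measurable
    fun_prop
  rw [lintegral_finsetSum]
  · rw [← nsmul_eq_mul, ← Finset.sum_const]
    refine Finset.sum_le_sum fun h hh => ?_
    have hh0 : h ≠ 0 := (Finset.mem_erase.1 hh).1
    rw [Measure.volume_eq_prod, ← Measure.prod_restrict,
      lintegral_prod_mul (hmeas h).aemeasurable (hmeas h).aemeasurable, sq]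
    exact mul_le_mul' (dk_lint _ h hh0 a) (dk_lint _ h hh0 b)
  · intro h _
    have := hmeas h
    exact (this.comp measurable_fst).mul (this.comp measurable_snd)

lemma card_Hs (m : ℕ) : ((Hs m).card : ℝ) ≤ 4 * 2 ^ m := by
  have h1 : (Hs m).card = (Finset.Icc (-(2 ^ (m + 1) : ℤ)) (2 ^ (m + 1))).card - 1 := by
    unfold Hs
    refine Finset.card_erase_of_mem ?_
    have : (0 : ℤ) < 2 ^ (m + 1) := by positivity
    rw [Finset.mem_Icc]; constructor <;> linarith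
  rw [h1, Int.card_Icc]
  have h2 : ((2 : ℤ) ^ (m + 1) + 1 - -2 ^ (m + 1)).toNat - 1 = 4 * 2 ^ m := by
    have : ((2 : ℤ) ^ (m + 1) + 1 - -2 ^ (m + 1)) = ((4 * 2 ^ m + 1 : ℕ) : ℤ) := by push_cast; ring
    rw [this, Int.toNat_natCast]; omega
  rw [h2]; push_cast; exact le_rfl

lemma c1_nonneg : 0 ≤ c1 := by
  unfold c1
  refine intervalIntegral.integral_nonneg zero_le_one fun x hx => ?_
  unfold gm
  have h1 : 0 ≤ 2 * x := by linarith [hx.1]
  have h2 : 0 ≤ 2 * (1 - x) := by linarith [hx.2]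
  positivity

lemma term_le (m : ℕ) (a b : ℤ) :
    ENNReal.ofReal ((1 / 4) ^ m) * ∫⁻ p in Ioc (a : ℝ) (a + 1) ×ˢ Ioc (b : ℝ) (b + 1), fm m p
      ≤ ENNReal.ofReal ((8 * c1 ^ 2) * (3 / 4) ^ m) := by
  refine (mul_le_mul_right (fm_lint m a b) _).trans ?_
  have h1 : ((Hs m).card : ℝ≥0∞) ≤ ENNReal.ofReal (4 * 2 ^ m) := by
    rw [← ENNReal.ofReal_natCast]
    exact ENNReal.ofReal_le_ofReal (card_Hs m)
  have hc := c1_nonneg
  have h2 : (2 * ((2 ^ m : ℕ) : ℝ) + 1) ^ (1 / 4 : ℝ) ≤ √2 * √((3 / 2) ^ m) := by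
    have hX : 0 ≤ √2 * √((3 / 2) ^ m) := by positivity
    have h3 : (√2 * √((3 / 2) ^ m)) ^ 4 = 4 * (9 / 4) ^ m := by
      rw [show (√2 * √((3 / 2) ^ m)) ^ 4 = (√2 ^ 2) ^ 2 * (√((3 / 2) ^ m) ^ 2) ^ 2 by ring,
        Real.sq_sqrt (by norm_num), Real.sq_sqrt (by positivity), ← pow_mul, mul_comm m 2, pow_mul]
      norm_num
    have h4 : (2 * ((2 ^ m : ℕ) : ℝ) + 1) ≤ (√2 * √((3 / 2) ^ m)) ^ 4 := by
      rw [h3]
      push_cast
      have h5 : (1 : ℝ) ≤ 2 ^ m := one_le_pow₀ (by norm_num)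
      have h6 : (2 : ℝ) ^ m ≤ (9 / 4) ^ m := pow_le_pow_left₀ (by norm_num) (by norm_num) m
      linarith
    calc (2 * ((2 ^ m : ℕ) : ℝ) + 1) ^ (1 / 4 : ℝ) ≤ ((√2 * √((3 / 2) ^ m)) ^ 4) ^ (1 / 4 : ℝ) :=
          Real.rpow_le_rpow (by positivity) h4 (by norm_num)
      _ = _ := by
          have := Real.pow_rpow_inv_natCast hX (n := 4) (by norm_num)
          rwa [show (((4 : ℕ) : ℝ))⁻¹ = 1 / 4 by norm_num] at this
  calc ENNReal.ofReal ((1 / 4) ^ m) * ((Hs m).card * ENNReal.ofReal ((2 * (2 ^ m : ℕ) + 1) ^ (1 / 4 : ℝ) * c1) ^ 2)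
      ≤ ENNReal.ofReal ((1 / 4) ^ m) * (ENNReal.ofReal (4 * 2 ^ m) *
        ENNReal.ofReal ((√2 * √((3 / 2) ^ m)) * c1) ^ 2) := by
        gcongr
    _ = ENNReal.ofReal (((1 / 4) ^ m) * ((4 * 2 ^ m) * ((√2 * √((3 / 2) ^ m)) * c1) ^ 2)) := by
        rw [← ENNReal.ofReal_pow (by positivity), ← ENNReal.ofReal_mul (by positivity),
          ← ENNReal.ofReal_mul (by positivity)]
    _ = _ := by
        congr 1
        rw [mul_pow, mul_pow, Real.sq_sqrt (by norm_num), Real.sq_sqrt (by positivity)]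
        rw [show ((3 : ℝ) / 4) ^ m = (1 / 4) ^ m * 2 ^ m * (3 / 2) ^ m by
          rw [← mul_pow, ← mul_pow]; norm_num]
        ring

lemma ae_sq (a b : ℤ) : ∀ᵐ p : ℝ × ℝ ∂(volume.restrict (Ioc (a : ℝ) (a + 1) ×ˢ Ioc (b : ℝ) (b + 1))),
    ∑' m, ENNReal.ofReal ((1 / 4) ^ m) * fm m p < ∞ := by
  refine ae_lt_top ?_ (ne_of_lt ?_)
  · exact Measurable.tsum fun m => (fm_meas m).const_mul _
  · rw [lintegral_tsum fun m => ((fm_meas m).const_mul _).aemeasurable]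
    have h1 : ∀ m, ∫⁻ p in Ioc (a : ℝ) (a + 1) ×ˢ Ioc (b : ℝ) (b + 1), ENNReal.ofReal ((1 / 4) ^ m) * fm m p
        ≤ ENNReal.ofReal ((8 * c1 ^ 2) * (3 / 4) ^ m) := by
      intro m
      rw [lintegral_const_mul _ (fm_meas m)]
      exact term_le m a b
    refine (ENNReal.tsum_le_tsum h1).trans_lt ?_
    rw [← ENNReal.ofReal_tsum_of_nonneg (fun m => by positivity)
      ((summable_geometric_of_lt_one (by norm_num) (by norm_num)).mul_left _)]
    exact ENNReal.ofReal_lt_top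

lemma ae_prod : ∀ᵐ p : ℝ × ℝ, ∑' m, ENNReal.ofReal ((1 / 4) ^ m) * fm m p < ∞ := by
  have h : ∀ᵐ p : ℝ × ℝ, ∀ a b : ℤ, p ∈ Ioc (a : ℝ) (a + 1) ×ˢ Ioc (b : ℝ) (b + 1) →
      ∑' m, ENNReal.ofReal ((1 / 4) ^ m) * fm m p < ∞ := by
    rw [ae_all_iff]; intro a
    rw [ae_all_iff]; intro b
    rw [← ae_restrict_iff' (measurableSet_Ioc.prod measurableSet_Ioc)]
    exact ae_sq a b
  filter_upwards [h] with p hp
  refine hp (⌈p.1⌉ - 1) (⌈p.2⌉ - 1) ⟨⟨?_, ?_⟩, ⟨?_, ?_⟩⟩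
  · push_cast; linarith [Int.ceil_lt_add_one p.1]
  · push_cast; linarith [Int.le_ceil p.1]
  · push_cast; linarith [Int.ceil_lt_add_one p.2]
  · push_cast; linarith [Int.le_ceil p.2]

lemma qmp : Measure.QuasiMeasurePreserving (fun Θ : Fin 3 → ℝ => (Θ 0, Θ 2)) volume volume := by
  have h1 := (volume_preserving_piFinSuccAbove (fun _ : Fin 3 => ℝ) 1).quasiMeasurePreserving
  have h2 : Measure.QuasiMeasurePreserving (Prod.snd : ℝ × (Fin 2 → ℝ) → (Fin 2 → ℝ)) volume volume :=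
    Measure.quasiMeasurePreserving_snd
  have h3 := (volume_preserving_finTwoArrow ℝ).quasiMeasurePreserving
  exact (h3.comp (h2.comp h1))

lemma good_of {Θ : Fin 3 → ℝ} (h : ∑' m, ENNReal.ofReal ((1 / 4) ^ m) * fm m (Θ 0, Θ 2) < ∞) :
    ∃ C, Good Θ C := by
  set S := ∑' m, ENNReal.ofReal ((1 / 4) ^ m) * fm m (Θ 0, Θ 2) with hS
  refine ⟨S.toReal + 9, fun m => ?_⟩
  have h1 : ENNReal.ofReal ((1 / 4) ^ m) * fm m (Θ 0, Θ 2) ≤ S := ENNReal.le_tsum m
  have h2 : fm m (Θ 0, Θ 2) = ENNReal.ofReal (∑ h ∈ Hs m, dk (2 ^ m) (h * Θ 0) * dk (2 ^ m) (h * Θ 2)) := by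
    unfold fm
    rw [ENNReal.ofReal_sum_of_nonneg fun h _ => mul_nonneg (dk_nonneg _ _) (dk_nonneg _ _)]
    exact Finset.sum_congr rfl fun h _ => (ENNReal.ofReal_mul (dk_nonneg _ _)).symm
  rw [h2, ← ENNReal.ofReal_mul (by positivity), ENNReal.ofReal_le_iff_le_toReal h.ne] at h1
  have h3 : ∑ h ∈ Hs m, dk (2 ^ m) (h * Θ 0) * dk (2 ^ m) (h * Θ 2) ≤ S.toReal * 4 ^ m := by
    have : (1 / 4 : ℝ) ^ m * 4 ^ m = 1 := by rw [← mul_pow]; norm_num
    have h4 : (0 : ℝ) < 4 ^ m := by positivity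
    have h5 := mul_le_mul_of_nonneg_right h1 h4.le
    calc _ = ((1 / 4 : ℝ) ^ m * 4 ^ m) * ∑ h ∈ Hs m, dk (2 ^ m) (h * Θ 0) * dk (2 ^ m) (h * Θ 2) := by
          rw [this, one_mul]
      _ = _ := by ring
      _ ≤ _ := h5
  have h0 : (0 : ℤ) ∈ Finset.Icc (-(2 ^ (m + 1) : ℤ)) (2 ^ (m + 1)) := by
    have : (0 : ℤ) < 2 ^ (m + 1) := by positivity
    rw [Finset.mem_Icc]; constructor <;> linarith
  rw [← Finset.add_sum_erase _ _ h0]
  have h5 : dk (2 ^ m) (((0 : ℤ) : ℝ) * Θ 0) * dk (2 ^ m) (((0 : ℤ) : ℝ) * Θ 2) ≤ 9 * 4 ^ m := by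
    have a1 := dk_le (2 ^ m) (((0 : ℤ) : ℝ) * Θ 0)
    have a2 := dk_le (2 ^ m) (((0 : ℤ) : ℝ) * Θ 2)
    have b1 := dk_nonneg (2 ^ m) (((0 : ℤ) : ℝ) * Θ 0)
    have b2 := dk_nonneg (2 ^ m) (((0 : ℤ) : ℝ) * Θ 2)
    push_cast at a1 a2 b1 b2 ⊢
    have h6 : (1 : ℝ) ≤ 2 ^ m := one_le_pow₀ (by norm_num)
    have h7 : (4 : ℝ) ^ m = 2 ^ m * 2 ^ m := by rw [← mul_pow]; norm_num
    rw [h7]
    calc _ ≤ (3 * 2 ^ m) * (3 * 2 ^ m) :=
          mul_le_mul (a1.trans (by linarith)) (a2.trans (by linarith)) b2 (by positivity)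
      _ = _ := by ring
  rw [add_mul, add_comm]
  exact add_le_add h3 h5

end Pool.Agent.K1H29.NC.AE

namespace Pool.Agent.K1H29.NC

/-- **Almost every `Θ` is good.** -/
theorem ae_good : ∀ᵐ Θ : Fin 3 → ℝ, ∃ C, Good Θ C := by
  filter_upwards [AE.qmp.ae AE.ae_prod] with Θ h
  exact AE.good_of h

end Pool.Agent.K1H29.NC
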