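import Pool.Agent.K1H29.NC.TriDefs

/-!
# The block inequality at infinitely many scales: definitions
-/

namespace Pool.Agent.K1H29.NC

open Pool.Agent.H356R3.NS (K C3)
open Pool.Agent.K1H29.SH (nn)

/-- The block inequality at the scale `2^n`, and the bound `X 4^m / 2^n` at the larger scales `2^m`. -/
def BlkAt (φ : K → K → ℝ) (X : ℝ) (n : ℕ) : Prop := ∀ m : ℕ, n ≤ m →
  ∀ (B : Finset K) (f g h : K → ℂ),
  (∀ k, k ∉ B → f k = 0) → (∀ k, k ∉ B → g k = 0) → (∀ k, k ∉ B → h k = 0) →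
  (∀ k, 2 ^ m < nn k → f k = 0) →
  ‖Tr φ B f g h‖ ≤ X * (4 ^ m / 2 ^ n) * (n2 B f * n2 B g * n2 B h)

/-- The block inequality holds at infinitely many scales. -/
def BlkInf (φ : K → K → ℝ) (X : ℝ) : Prop := 0 ≤ X ∧ ∀ n₀ : ℕ, ∃ n, n₀ ≤ n ∧ BlkAt φ X n

end Pool.Agent.K1H29.NC
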