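import Pool.Agent.K1H29.NC.Sieve
import Pool.Agent.K1H29.NC.InfDefs

/-!
# The block inequality at infinitely many scales for irrational `Θ`
-/

open ComplexConjugate Finset
open Pool.Agent.H356R3.NS (K C3)
open Pool.Agent.K1H29.SH (nn)

namespace Pool.Agent.K1H29.NC.BM

lemma norm_S' (Θ : Fin 3 → ℝ) (M : ℕ) {D0 : ℝ} (hD0' : 0 ≤ D0)
    (hsv : ∀ (R : ℤ) (b : ℤ → ℂ) (x : ℤ × ℤ) (α : ℝ), M ≤ R → (∀ n, n ∉ I M → b n = 0) →
      ∑ y ∈ Q M, ‖P R b (α + w Θ (x + y))‖ ^ 2 ≤ D0 * ∑ l ∈ I R, ‖b l‖ ^ 2)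
    (B : Finset K) (f g h : K → ℂ)
    (hf : ∀ k, k ∉ B → f k = 0) (hg : ∀ k, k ∉ B → g k = 0) (hh : ∀ k, k ∉ B → h k = 0)
    (hfm : ∀ k, (M : ℝ) < nn k → f k = 0) :
    ‖S Θ B f g h‖ ≤ 2 * √D0 * (n2 B f * n2 B g * n2 B h) := by
  -- the size of the box
  obtain ⟨R, hR, hB⟩ : ∃ R : ℤ, (M : ℤ) ≤ R ∧ ∀ k ∈ B, ∀ j, |k j| ≤ R := by
    refine ⟨(M : ℤ) + ∑ k ∈ B, ∑ j, |k j|, ?_, fun k hk j => ?_⟩
    · have : 0 ≤ ∑ k ∈ B, ∑ j, |k j| := sum_nonneg fun _ _ => sum_nonneg fun _ _ => abs_nonneg _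
      linarith
    · have h1 : |k j| ≤ ∑ j, |k j| :=
        Finset.single_le_sum (f := fun j => |k j|) (fun _ _ => abs_nonneg _) (Finset.mem_univ j)
      have h2 : ∑ j, |k j| ≤ ∑ k ∈ B, ∑ j, |k j| :=
        Finset.single_le_sum (f := fun k : K => ∑ j, |k j|) (fun _ _ => sum_nonneg fun _ _ => abs_nonneg _) hk
      have : (0 : ℤ) ≤ (M : ℤ) := Int.natCast_nonneg _
      linarith
  obtain ⟨N, hN⟩ : ∃ N : ℕ, 3 * R < N := ⟨(3 * R + 1).toNat, by
    have := Int.self_le_toNat (3 * R + 1)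
    omega⟩
  have hR0 : 0 ≤ R := le_trans (Int.natCast_nonneg _) hR
  have hN0 : 0 < N := by omega
  -- the three functions
  set A : ℕ → ℤ × ℤ → ℤ × ℤ → ℂ := fun j l q => P R (cu f l) (j / N + (w Θ l / 2 + w Θ q)) with hA
  set G : ℕ → ℤ × ℤ → ℂ := fun j q => P R (cu g q) (j / N + w Θ q / 2) with hG
  set H : ℕ → ℤ × ℤ → ℂ := fun j k => P R (cu h k) (j / N + w Θ k / 2) with hH
  have hout : ∀ F : K → ℂ, (∀ k, k ∉ B → F k = 0) → ∀ x n, (x ∉ Q R ∨ n ∉ I R) → cu F x n = 0 := by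
    intro F hF x n hx
    refine hF _ fun h1 => ?_
    have h2 := hB _ h1
    have h20 := h2 0
    have h21 := h2 1
    have h22 := h2 2
    rw [eqK0] at h20
    rw [eqK1] at h21
    rw [eqK2] at h22
    rw [mem_Q, mem_I] at hx
    rcases hx with hx | hx
    · exact hx ⟨h20, h22⟩
    · exact hx h21
  have hG0 : ∀ j x, x ∉ Q R → G j x = 0 := fun j x hx => by
    rw [hG]; exact sum_eq_zero fun n _ => by rw [hout g hg x n (Or.inl hx), zero_mul]
  have hH0 : ∀ j x, x ∉ Q R → H j x = 0 := fun j x hx => by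
    rw [hH]; exact sum_eq_zero fun n _ => by rw [hout h hh x n (Or.inl hx), zero_mul]
  have hfout : ∀ x n, (x ∉ Q M ∨ n ∉ I M) → cu f x n = 0 := by
    intro x n hx
    refine hfm _ ?_
    by_contra h1
    rw [not_lt, SH.nn_le_iff] at h1
    have h20 := h1 0
    have h21 := h1 1
    have h22 := h1 2
    rw [eqK0] at h20
    rw [eqK1] at h21
    rw [eqK2] at h22
    rw [mem_Q, mem_I] at hx
    rcases hx with hx | hx
    · exact hx ⟨h20, h22⟩
    · exact hx h21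
  have hA0 : ∀ j l q, l ∉ Q M → A j l q = 0 := fun j l q hl => by
    rw [hA]; exact sum_eq_zero fun n _ => by rw [hfout l n (Or.inl hl), zero_mul]
  have hsub : Q (M : ℤ) ⊆ Q R := fun x hx => by
    rw [mem_Q] at *; exact ⟨hx.1.trans hR, hx.2.trans hR⟩
  -- the norms
  have hn2 : ∀ F : K → ℂ, (∀ k, k ∉ B → F k = 0) →
      n2 B F = √(∑ x ∈ Q R, ∑ n ∈ I R, ‖cu F x n‖ ^ 2) := by
    intro F hF
    unfold n2
    rw [sum_K (fun k => ‖F k‖ ^ 2) B R (fun k hk => by simp [hF k hk]) hB]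
    rfl
  set D : ℝ := D0 * n2 B f ^ 2 with hD
  have hblock : ∀ j, ∑ q ∈ Q R, ∑ l ∈ Q M, ‖A j l q‖ * ‖G j q‖ * ‖H j (l + q)‖
      ≤ 2 * (√D * (√(∑ q ∈ Q R, ‖G j q‖ ^ 2) * √(∑ q ∈ Q R, ‖H j q‖ ^ 2))) := by
    intro j
    refine block M R D (fun l q => ‖A j l q‖) (fun q => ‖G j q‖) (fun q => ‖H j q‖)
      (fun x hx => by rw [hG0 j x hx, norm_zero]) (fun x hx => by rw [hH0 j x hx, norm_zero]) ?_
    intro x
    rw [Finset.sum_comm, hD, hn2 f hf, Real.sq_sqrt (sum_nonneg fun _ _ => sum_nonneg fun _ _ => sq_nonneg _),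
      Finset.mul_sum]
    refine (sum_le_sum fun l _ => ?_).trans (sum_le_sum_of_subset_of_nonneg hsub fun x _ _ =>
      mul_nonneg hD0' (sum_nonneg fun _ _ => sq_nonneg _))
    have := hsv R (cu f l) x (j / N + w Θ l / 2) hR (fun n hn => hfout l n (Or.inr hn))
    refine le_trans (le_of_eq ?_) this
    refine sum_congr rfl fun y _ => ?_
    rw [hA]
    simp only
    rw [add_assoc]
  -- the mean over the roots of unity
  have hmean : ∀ F : K → ℂ, (∀ k, k ∉ B → F k = 0) → ∀ v : ℤ × ℤ → ℝ,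
      ∑ j ∈ range N, (N : ℝ)⁻¹ * ∑ q ∈ Q R, ‖P R (cu F q) (j / N + v q)‖ ^ 2 = n2 B F ^ 2 := by
    intro F hF v
    rw [hn2 F hF, Real.sq_sqrt (sum_nonneg fun _ _ => sum_nonneg fun _ _ => sq_nonneg _),
      ← Finset.mul_sum, Finset.sum_comm, Finset.mul_sum]
    exact sum_congr rfl fun q _ => parseval N hN0 R hN _ _
  have hNN : (0 : ℝ) ≤ (N : ℝ)⁻¹ := by positivity
  calc ‖S Θ B f g h‖
      = ‖∑ q ∈ Q R, ∑ l ∈ Q R, e (Θ 1 * (l.2 * q.1 - l.1 * q.2) / 2) *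
        ((N : ℂ)⁻¹ * ∑ j ∈ range N, A j l q * G j q * conj (H j (l + q)))‖ := by
        rw [S_eq Θ B f g h R hB hf hg hh]
        congr 1
        refine sum_congr rfl fun q _ => sum_congr rfl fun l _ => ?_
        rw [avg_three N hN0 R hN (cu f l) (cu g q) (cu h (l + q))
          (fun n hn => hout h hh _ _ (Or.inr hn))]
    _ ≤ ∑ q ∈ Q R, ∑ l ∈ Q R, ∑ j ∈ range N, (N : ℝ)⁻¹ * (‖A j l q‖ * ‖G j q‖ * ‖H j (l + q)‖) := by
        refine (norm_sum_le _ _).trans (sum_le_sum fun q _ => (norm_sum_le _ _).trans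
          (sum_le_sum fun l _ => ?_))
        rw [norm_mul, norm_e, one_mul, norm_mul, norm_inv, Complex.norm_natCast, ← Finset.mul_sum]
        refine mul_le_mul_of_nonneg_left ?_ hNN
        refine (norm_sum_le _ _).trans (sum_le_sum fun j _ => ?_)
        rw [norm_mul, norm_mul, RCLike.norm_conj]
    _ = ∑ j ∈ range N, (N : ℝ)⁻¹ * ∑ q ∈ Q R, ∑ l ∈ Q R, ‖A j l q‖ * ‖G j q‖ * ‖H j (l + q)‖ := by
        simp only [Finset.mul_sum]
        calc _ = ∑ q ∈ Q R, ∑ j ∈ range N, ∑ l ∈ Q R, (N : ℝ)⁻¹ * (‖A j l q‖ * ‖G j q‖ * ‖H j (l + q)‖) :=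
              sum_congr rfl fun q _ => Finset.sum_comm
          _ = _ := Finset.sum_comm
    _ = ∑ j ∈ range N, (N : ℝ)⁻¹ * ∑ q ∈ Q R, ∑ l ∈ Q M, ‖A j l q‖ * ‖G j q‖ * ‖H j (l + q)‖ := by
        refine sum_congr rfl fun j _ => ?_
        congr 1
        refine sum_congr rfl fun q _ => ?_
        exact (Finset.sum_subset hsub fun l _ hl => by rw [hA0 j l q hl]; simp).symm
    _ ≤ ∑ j ∈ range N, (N : ℝ)⁻¹ *
        (2 * (√D * (√(∑ q ∈ Q R, ‖G j q‖ ^ 2) * √(∑ q ∈ Q R, ‖H j q‖ ^ 2)))) :=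
        sum_le_sum fun j _ => mul_le_mul_of_nonneg_left (hblock j) hNN
    _ = 2 * √D * ∑ j ∈ range N, √((N : ℝ)⁻¹ * ∑ q ∈ Q R, ‖G j q‖ ^ 2) *
          √((N : ℝ)⁻¹ * ∑ q ∈ Q R, ‖H j q‖ ^ 2) := by
        rw [Finset.mul_sum]
        refine sum_congr rfl fun j _ => ?_
        rw [Real.sqrt_mul hNN, Real.sqrt_mul hNN]
        have := Real.mul_self_sqrt hNN
        calc _ = (N : ℝ)⁻¹ * (2 * (√D * (√(∑ q ∈ Q R, ‖G j q‖ ^ 2) * √(∑ q ∈ Q R, ‖H j q‖ ^ 2)))) := rfl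
          _ = (√(N : ℝ)⁻¹ * √(N : ℝ)⁻¹) * (2 * (√D * (√(∑ q ∈ Q R, ‖G j q‖ ^ 2) * √(∑ q ∈ Q R, ‖H j q‖ ^ 2)))) := by
              rw [this]
          _ = _ := by ring
    _ ≤ 2 * √D * (√(∑ j ∈ range N, (N : ℝ)⁻¹ * ∑ q ∈ Q R, ‖G j q‖ ^ 2) *
          √(∑ j ∈ range N, (N : ℝ)⁻¹ * ∑ q ∈ Q R, ‖H j q‖ ^ 2)) := by
        refine mul_le_mul_of_nonneg_left ?_ (by positivity)
        exact Real.sum_sqrt_mul_sqrt_le _ (fun j => mul_nonneg hNN (sum_nonneg fun _ _ => sq_nonneg _))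
          (fun j => mul_nonneg hNN (sum_nonneg fun _ _ => sq_nonneg _))
    _ = 2 * √D * (n2 B g * n2 B h) := by
        rw [hG, hH, hmean g hg, hmean h hh, Real.sqrt_sq (n2_nonneg _ _), Real.sqrt_sq (n2_nonneg _ _)]
    _ = _ := by
        rw [hD, Real.sqrt_mul hD0', Real.sqrt_sq (n2_nonneg _ _)]
        ring

end Pool.Agent.K1H29.NC.BM

namespace Pool.Agent.K1H29.NC.SV

open BM

/-- the sieve for the box -/
lemma sieve2 {Θ : Fin 3 → ℝ} {p : ℤ} {q M : ℕ} (h : App (Θ 2) p q) (hM : q ≤ M) (R : ℤ) (b : ℤ → ℂ)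
    (x : ℤ × ℤ) (α : ℝ) (hR : M ≤ R) (hb : ∀ n, n ∉ I M → b n = 0) :
    ∑ y ∈ Q M, ‖P R b (α + w Θ (x + y))‖ ^ 2 ≤ 729 * ((M : ℝ) ^ 3 / q) * ∑ l ∈ I R, ‖b l‖ ^ 2 := by
  have hq' : (0 : ℝ) < q := by exact_mod_cast h.1
  have hM1 : (1 : ℝ) ≤ M := by
    have : 1 ≤ M := le_trans h.1 hM
    exact_mod_cast this
  have hsub : I (M : ℤ) ⊆ I R := fun n hn => by rw [mem_I] at *; linarith
  have hP : ∀ z, P R b z = ∑ l ∈ I (M : ℤ), b l * e (l * z) := by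
    intro z
    unfold P
    exact (Finset.sum_subset hsub fun n _ hn => by rw [hb n hn]; simp).symm
  have hB : ∑ l ∈ I (M : ℤ), ‖b l‖ ^ 2 = ∑ l ∈ I R, ‖b l‖ ^ 2 :=
    Finset.sum_subset hsub fun n _ hn => by rw [hb n hn]; simp
  rw [← hB]
  set E := ∑ l ∈ I (M : ℤ), ‖b l‖ ^ 2 with hE
  have hE0 : 0 ≤ E := sum_nonneg fun _ _ => sq_nonneg _
  have h1 : ∀ y2 ∈ I (M : ℤ), ∑ y1 ∈ I (M : ℤ), ‖P R b (α + w Θ (x + (y1, y2)))‖ ^ 2
      ≤ 242 * ((M : ℝ) ^ 2 / q) * E := by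
    intro y2 _
    have h2 := sieve1 (-(Θ 2)) M (242 * ((M : ℝ) ^ 3 / q)) (sum_dk_sq h.neg hM) b (α + w Θ (x + (0, y2)))
    have h3 : ∀ y1 : ℤ, P R b (α + w Θ (x + (y1, y2)))
        = ∑ l ∈ I (M : ℤ), b l * e (l * (α + w Θ (x + (0, y2)) + y1 * -(Θ 2))) := by
      intro y1
      rw [hP]
      refine sum_congr rfl fun l _ => ?_
      congr 3
      unfold w
      simp only [Prod.fst_add, Prod.snd_add, Int.cast_add, Int.cast_zero]
      ring
    simp only [h3]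
    have h4 : (0 : ℝ) < M + 1 := by linarith
    rw [← mul_le_mul_iff_right₀ h4]
    refine h2.trans ?_
    have h5 : 242 * ((M : ℝ) ^ 3 / q) ≤ (M + 1) * (242 * ((M : ℝ) ^ 2 / q)) := by
      have : 0 ≤ (M : ℝ) ^ 2 / q := by positivity
      calc 242 * ((M : ℝ) ^ 3 / q) = M * (242 * ((M : ℝ) ^ 2 / q)) := by ring
        _ ≤ _ := mul_le_mul_of_nonneg_right (by linarith) (by positivity)
    calc _ ≤ ((M + 1) * (242 * ((M : ℝ) ^ 2 / q))) * E := mul_le_mul_of_nonneg_right h5 hE0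
      _ = _ := by ring
  have h2 : ∑ y ∈ Q (M : ℤ), ‖P R b (α + w Θ (x + y))‖ ^ 2
      = ∑ y2 ∈ I (M : ℤ), ∑ y1 ∈ I (M : ℤ), ‖P R b (α + w Θ (x + (y1, y2)))‖ ^ 2 := by
    unfold Q
    rw [sum_product, sum_comm]
  rw [h2]
  refine (sum_le_sum h1).trans ?_
  rw [sum_const, nsmul_eq_mul, card_I (Int.natCast_nonneg _)]
  push_cast
  have h3 : (2 * (M : ℝ) + 1) ≤ 3 * M := by linarith
  have h4 : 0 ≤ 242 * ((M : ℝ) ^ 2 / q) * E := by positivity
  have h5 : 0 ≤ (M : ℝ) ^ 3 / q * E := by positivity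
  calc (2 * (M : ℝ) + 1) * (242 * ((M : ℝ) ^ 2 / q) * E) ≤ 3 * M * (242 * ((M : ℝ) ^ 2 / q) * E) :=
        mul_le_mul_of_nonneg_right h3 h4
    _ = 726 * ((M : ℝ) ^ 3 / q * E) := by ring
    _ ≤ 729 * ((M : ℝ) ^ 3 / q * E) := by linarith
    _ = _ := by ring

/-- the block inequality at the scale of a good approximation -/
lemma blkAt_of_app {Θ : Fin 3 → ℝ} {p : ℤ} {q n : ℕ} (h : App (Θ 2) p q) (hn : q ≤ 2 ^ n)
    (hn' : 2 ^ n ≤ 2 * q) : BlkAt (wt Θ) 108 n := by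
  intro m hm B f g k hf hg hk hfm
  have hq' : (0 : ℝ) < q := by exact_mod_cast h.1
  set M : ℕ := 2 ^ m with hMd
  have hM : q ≤ M := hn.trans (Nat.pow_le_pow_right (by norm_num) hm)
  have hMq : (q : ℝ) ≤ M := by exact_mod_cast hM
  have hM0 : (0 : ℝ) < M := lt_of_lt_of_le hq' hMq
  have hD0 : 0 ≤ 729 * ((M : ℝ) ^ 3 / q) := by positivity
  have hfm' : ∀ k, (M : ℝ) < nn k → f k = 0 := fun k hk => hfm k (by
    rw [hMd] at hk; push_cast at hk; exact hk)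
  have h1 := norm_S' Θ M hD0 (fun R b x α hR hb => sieve2 h hM R b x α hR hb) B f g k hf hg hk hfm'
  have hneg : App ((-Θ) 2) (-p) q := by rw [Pi.neg_apply]; exact h.neg
  have h2 := norm_S' (-Θ) M hD0 (fun R b x α hR hb => sieve2 hneg hM R b x α hR hb) B f g k hf hg hk hfm'
  have hsq : √(729 * ((M : ℝ) ^ 3 / q)) ≤ 27 * ((M : ℝ) ^ 2 / q) := by
    rw [Real.sqrt_le_left (by positivity)]
    rw [mul_pow, div_pow]
    have h3 : (M : ℝ) ^ 3 / q ≤ ((M : ℝ) ^ 2) ^ 2 / (q : ℝ) ^ 2 := by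
      rw [div_le_div_iff₀ hq' (by positivity)]
      have h4 : (0 : ℝ) ≤ (M : ℝ) ^ 3 * q := by positivity
      nlinarith
    linarith
  have hfin : 27 * ((M : ℝ) ^ 2 / q) ≤ 54 * (4 ^ m / 2 ^ n) := by
    have h3 : (M : ℝ) ^ 2 = 4 ^ m := by
      rw [hMd]; push_cast; rw [← pow_mul, mul_comm, pow_mul]; norm_num
    have h4 : (2 : ℝ) ^ n ≤ 2 * q := by exact_mod_cast hn'
    rw [h3]
    have h5 : (4 : ℝ) ^ m / q ≤ 2 * (4 ^ m / 2 ^ n) := by
      rw [← mul_div_assoc, div_le_div_iff₀ hq' (by positivity)]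
      have : (0 : ℝ) < 4 ^ m := by positivity
      nlinarith
    linarith
  set T := n2 B f * n2 B g * n2 B k with hT
  have hT0 : 0 ≤ T := mul_nonneg (mul_nonneg (n2_nonneg _ _) (n2_nonneg _ _)) (n2_nonneg _ _)
  have h3 : 2 * √(729 * ((M : ℝ) ^ 3 / q)) * T ≤ 108 * (4 ^ m / 2 ^ n) * T := by
    apply mul_le_mul_of_nonneg_right _ hT0
    linarith
  rw [Tr_eq, norm_div]
  have h4 : ‖(2 : ℂ)‖ = 2 := by simp
  rw [h4, div_le_iff₀ (by norm_num)]
  refine (norm_add_le _ _).trans ?_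
  linarith

/-- good approximations of arbitrarily large denominator -/
lemma exists_app {θ : ℝ} (hθ : Irrational θ) (Q0 : ℕ) : ∃ (p : ℤ) (q : ℕ), Q0 ≤ q ∧ App θ p q := by
  have hinf := Real.infinite_rat_abs_sub_lt_one_div_den_sq_of_irrational hθ
  by_contra hcon
  push Not at hcon
  apply hinf
  set A : ℕ := ⌈(|θ| + 1) * Q0⌉₊ with hA
  have hfin : ((Icc (-(A : ℤ)) A) ×ˢ (range Q0) : Finset (ℤ × ℕ)).Nonempty ∨ True := Or.inr trivial
  refine Set.Finite.of_finite_image (f := fun x : ℚ => (x.num, x.den)) ?_ ?_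
  · refine ((Icc (-(A : ℤ)) A) ×ˢ (range Q0)).finite_toSet.subset ?_
    rintro ⟨a, b⟩ ⟨x, hx, hxy⟩
    simp only [Prod.mk.injEq] at hxy
    obtain ⟨rfl, rfl⟩ := hxy
    have hxl : |θ - x| < 1 / (x.den : ℝ) ^ 2 := hx
    have hd0 : 0 < x.den := x.den_pos
    have hd0' : (0 : ℝ) < x.den := by exact_mod_cast hd0
    have hd1 : (1 : ℝ) ≤ x.den := by exact_mod_cast hd0
    have happ : App θ x.num x.den := by
      refine ⟨hd0, Int.isCoprime_iff_gcd_eq_one.2 x.reduced, ?_⟩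
      have : (x.num : ℝ) / x.den = x := by exact_mod_cast Rat.num_div_den x
      rw [this]; exact hxl.le
    have hden : x.den < Q0 := by
      by_contra h
      exact hcon x.num x.den (not_lt.1 h) happ
    have hnum : |(x.num : ℝ)| ≤ A := by
      have h1 : (x.num : ℝ) = x * x.den := by
        have : (x.num : ℝ) / x.den = x := by exact_mod_cast Rat.num_div_den x
        rw [← this]; field_simp
      have h2 : |(x : ℝ)| ≤ |θ| + 1 := by
        have h3 : 1 / (x.den : ℝ) ^ 2 ≤ 1 := by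
          rw [div_le_one (by positivity)]
          nlinarith
        have h4 := abs_sub_abs_le_abs_sub (x : ℝ) θ
        rw [abs_sub_comm] at h4
        linarith
      rw [h1, abs_mul, abs_of_pos hd0']
      have h5 : (x.den : ℝ) ≤ Q0 := by exact_mod_cast hden.le
      calc |(x : ℝ)| * x.den ≤ (|θ| + 1) * Q0 := mul_le_mul h2 h5 hd0'.le (by positivity)
        _ ≤ _ := Nat.le_ceil _
    have hnum' : |x.num| ≤ (A : ℤ) := by
      have : ((|x.num| : ℤ) : ℝ) ≤ ((A : ℤ) : ℝ) := by push_cast; exact hnum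
      exact_mod_cast this
    rw [abs_le] at hnum'
    simp only [coe_product, Set.mem_prod, coe_Icc, Set.mem_Icc, coe_range, Set.mem_Iio]
    exact ⟨hnum', hden⟩
  · intro x _ y _ hxy
    simp only [Prod.mk.injEq] at hxy
    exact Rat.ext hxy.1 hxy.2

lemma blkInf_two {Θ : Fin 3 → ℝ} (h : Irrational (Θ 2)) : BlkInf (wt Θ) 108 := by
  refine ⟨by norm_num, fun n₀ => ?_⟩
  obtain ⟨p, q, hq, happ⟩ := exists_app h (2 ^ n₀)
  refine ⟨Nat.clog 2 q, ?_, blkAt_of_app happ (Nat.le_pow_clog (by norm_num) q) ?_⟩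
  · have h1 := hq.trans (Nat.le_pow_clog (by norm_num : 1 < 2) q)
    exact (Nat.pow_le_pow_iff_right (by norm_num)).1 h1
  · rcases Nat.lt_or_ge 1 q with h1 | h1
    · have h2 := Nat.pow_pred_clog_lt_self (b := 2) (by norm_num) h1
      have h3 : 0 < Nat.clog 2 q := Nat.clog_pos (by norm_num) h1
      obtain ⟨c, hc⟩ : ∃ c, Nat.clog 2 q = c + 1 := ⟨_, (Nat.succ_pred_eq_of_pos h3).symm⟩
      rw [hc] at h2 ⊢
      rw [Nat.pred_succ] at h2
      rw [pow_succ]; linarith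
    · have h2 : q = 1 := le_antisymm h1 happ.1
      rw [h2]; norm_num

/-! ### Cyclic permutations of the coordinates -/

/-- the cyclic permutation of the coordinates -/
def cyc : K ≃ K where
  toFun k := fun i => k (i + 1)
  invFun k := fun i => k (i + 2)
  left_inv k := by funext i; fin_cases i <;> rfl
  right_inv k := by funext i; fin_cases i <;> rfl

lemma cyc_sub (k l : K) : cyc (k - l) = cyc k - cyc l := rfl

lemma wt_cyc (Θ : Fin 3 → ℝ) (l k : K) : wt (fun i => Θ (i + 1)) (cyc l) (cyc k) = wt Θ l k := by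
  unfold wt cyc
  simp only [Equiv.coe_fn_mk]
  congr 1
  have e0 : (0 : Fin 3) + 1 = 1 := rfl
  have e1 : (1 : Fin 3) + 1 = 2 := rfl
  have e2 : (2 : Fin 3) + 1 = 0 := rfl
  simp only [e0, e1, e2]
  ring

lemma nn_cyc (k : K) : nn (cyc k) = nn k := by
  have h : ∀ k : K, nn (cyc k) ≤ nn k := by
    intro k
    unfold SH.nn
    have h1 := (H459R3.NS.N_le_iff k _).1 le_rfl
    rw [Nat.cast_le, H459R3.NS.N_le_iff]
    intro j
    exact h1 (j + 1)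
  refine le_antisymm (h k) ?_
  have h1 := (h (cyc k)).trans' (h (cyc (cyc k)))
  have h2 : cyc (cyc (cyc k)) = k := by
    funext i; fin_cases i <;> rfl
  rwa [h2] at h1

lemma n2_cyc (B : Finset K) (f : K → ℂ) : n2 (B.map cyc.toEmbedding) (fun k => f (cyc.symm k)) = n2 B f := by
  unfold n2
  rw [sum_map]
  simp

lemma blkAt_cyc {Θ : Fin 3 → ℝ} {X : ℝ} {n : ℕ} (h : BlkAt (wt fun i => Θ (i + 1)) X n) : BlkAt (wt Θ) X n := by
  intro m hm B f g k hf hg hk hfm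
  have hs : ∀ {f : K → ℂ}, (∀ k, k ∉ B → f k = 0) →
      ∀ k, k ∉ B.map cyc.toEmbedding → f (cyc.symm k) = 0 := by
    intro f hf k hk
    refine hf _ fun h1 => hk ?_
    rw [mem_map]
    exact ⟨cyc.symm k, h1, by simp⟩
  have h1 := h m hm (B.map cyc.toEmbedding) (fun k => f (cyc.symm k)) (fun k => g (cyc.symm k))
    (fun l => k (cyc.symm l)) (hs hf) (hs hg) (hs hk) (fun k hk => hfm _ (by
      have := nn_cyc (cyc.symm k)
      rw [Equiv.apply_symm_apply] at this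
      rwa [← this]))
  rw [n2_cyc, n2_cyc, n2_cyc] at h1
  refine le_trans (le_of_eq ?_) h1
  congr 1
  unfold Tr
  rw [sum_map]
  refine sum_congr rfl fun a _ => ?_
  rw [sum_map]
  refine sum_congr rfl fun b _ => ?_
  simp only [Equiv.coe_toEmbedding, Equiv.symm_apply_apply, wt_cyc]
  rw [← cyc_sub, Equiv.symm_apply_apply]

end Pool.Agent.K1H29.NC.SV

namespace Pool.Agent.K1H29.NC

/-- **The block inequality at infinitely many scales**, if one coordinate of `Θ` is irrational. -/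
theorem blkInf_wt {Θ : Fin 3 → ℝ} (h : ∃ i, Irrational (Θ i)) : BlkInf (wt Θ) 108 := by
  obtain ⟨i, hi⟩ := h
  fin_cases i
  · refine ⟨by norm_num, fun n₀ => ?_⟩
    have e : Irrational ((fun i => Θ (i + 1)) 2) := by
      have h0 : (2 : Fin 3) + 1 = 0 := rfl
      show Irrational (Θ (2 + 1))
      rw [h0]; exact hi
    obtain ⟨n, hn, h1⟩ := (SV.blkInf_two (Θ := fun i => Θ (i + 1)) e).2 n₀
    exact ⟨n, hn, SV.blkAt_cyc h1⟩
  · refine ⟨by norm_num, fun n₀ => ?_⟩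
    have e : Irrational ((fun i => Θ (i + 1 + 1)) 2) := by
      have h0 : (2 : Fin 3) + 1 + 1 = 1 := rfl
      show Irrational (Θ (2 + 1 + 1))
      rw [h0]; exact hi
    obtain ⟨n, hn, h1⟩ := (SV.blkInf_two (Θ := fun i => Θ (i + 1 + 1)) e).2 n₀
    exact ⟨n, hn, SV.blkAt_cyc (SV.blkAt_cyc (Θ := fun i => Θ (i + 1)) h1)⟩
  · exact SV.blkInf_two hi

end Pool.Agent.K1H29.NC
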