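import Pool.Agent.K1H29.NC.TriDefs

/-!
# The block bound for the weights of the noncommutative torus

If the Dirichlet kernels at the multiples of `Θ₀` and `Θ₂` are small on average (`Good Θ C`), then the
twisted convolution with a function of frequencies at most `2^m` has norm at most `2 √C 2^m` times its
`ℓ²` norm.
-/

open Set ComplexConjugate MeasureTheory Finset

namespace Pool.Agent.K1H29.NC.BM

open Pool.Agent.H356R3.NS (K C3)
open Pool.Agent.K1H29.SH (nn)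

/-! ## Exponentials -/

noncomputable def e (x : ℝ) : ℂ := Complex.exp (2 * Real.pi * Complex.I * (x : ℂ))

lemma e_zero : e 0 = 1 := by simp [e]

lemma e_add (x y : ℝ) : e (x + y) = e x * e y := by
  unfold e; rw [← Complex.exp_add]; congr 1; push_cast; ring

lemma conj_e (x : ℝ) : conj (e x) = e (-x) := by
  unfold e
  rw [← Complex.exp_conj]
  congr 1
  simp only [map_mul, map_ofNat, Complex.conj_ofReal, Complex.conj_I, Complex.ofReal_neg]
  ring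

lemma norm_e (x : ℝ) : ‖e x‖ = 1 := by
  unfold e
  rw [show (2 * Real.pi * Complex.I * (x : ℂ)) = ((2 * Real.pi * x : ℝ) : ℂ) * Complex.I by
    push_cast; ring]
  exact Complex.norm_exp_ofReal_mul_I _

lemma e_int (n : ℤ) : e n = 1 := by
  unfold e
  rw [show (2 * Real.pi * Complex.I * ((n : ℝ) : ℂ)) = n * (2 * Real.pi * Complex.I) by
    push_cast; ring]
  exact Complex.exp_int_mul_two_pi_mul_I n

lemma e_pow (x : ℝ) (n : ℕ) : e x ^ n = e (n * x) := by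
  unfold e
  rw [← Complex.exp_nat_mul]
  congr 1
  push_cast; ring

lemma e_eq_one {x : ℝ} (h : e x = 1) : ∃ n : ℤ, x = n := by
  unfold e at h
  rw [Complex.exp_eq_one_iff] at h
  obtain ⟨n, hn⟩ := h
  refine ⟨n, ?_⟩
  have h2 : (2 * Real.pi * Complex.I : ℂ) ≠ 0 := Complex.two_pi_I_ne_zero
  have h3 : (2 * Real.pi * Complex.I) * (x : ℂ) = (2 * Real.pi * Complex.I) * (n : ℂ) := by
    rw [hn]; ring
  have h4 := mul_left_cancel₀ h2 h3
  exact_mod_cast h4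

/-- orthogonality -/
lemma avg (N : ℕ) (hN : 0 < N) (n : ℤ) (hn : |n| < N) :
    (N : ℂ)⁻¹ * ∑ j ∈ range N, e (n * (j / N)) = if n = 0 then 1 else 0 := by
  have hN' : (N : ℂ) ≠ 0 := by exact_mod_cast hN.ne'
  have hNr : (N : ℝ) ≠ 0 := by exact_mod_cast hN.ne'
  split_ifs with h
  · subst h
    simp [e_zero, hN']
  · have h1 : ∀ j ∈ range N, e (n * (j / N)) = e (n / N) ^ j := by
      intro j _
      rw [e_pow]; congr 1; ring
    rw [sum_congr rfl h1]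
    have h2 : e ((n : ℝ) / N) ≠ 1 := by
      intro h3
      obtain ⟨k, hk⟩ := e_eq_one h3
      rw [div_eq_iff hNr] at hk
      have hk' : n = k * N := by exact_mod_cast hk
      have hk0 : k ≠ 0 := by rintro rfl; exact h (by simpa using hk')
      have : (N : ℤ) ≤ |n| := by
        rw [hk', abs_mul, Nat.abs_cast]
        have := Int.one_le_abs hk0
        nlinarith [(Nat.cast_nonneg N : (0 : ℤ) ≤ N)]
      omega
    rw [geom_sum_eq h2, e_pow, mul_div_cancel₀ _ hNr, e_int]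
    simp

/-! ## Sums over finite sets containing the support -/

lemma shift {G E : Type*} [AddGroup G] [AddCommMonoid E] (F : G → E) (S T : Finset G) (y : G)
    (h1 : ∀ x, x ∉ S → F x = 0) (h2 : ∀ x, x ∉ T → F (x + y) = 0) :
    ∑ x ∈ T, F (x + y) = ∑ x ∈ S, F x := by
  classical
  rw [← finsum_eq_sum_of_support_subset (fun x => F (x + y)) (s := T)
    (fun x hx => by by_contra h; exact hx (h2 x (by simpa using h))),
    ← finsum_eq_sum_of_support_subset F (s := S)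
    (fun x hx => by by_contra h; exact hx (h1 x (by simpa using h)))]
  exact finsum_comp_equiv (Equiv.addRight y)

/-- coordinates -/
def eqK : (ℤ × ℤ) × ℤ ≃ K where
  toFun p := ![p.1.1, p.2, p.1.2]
  invFun k := ((k 0, k 2), k 1)
  left_inv p := by simp
  right_inv k := by
    funext j
    fin_cases j <;> simp

lemma eqK0 (x : ℤ × ℤ) (n : ℤ) : eqK (x, n) 0 = x.1 := rfl
lemma eqK1 (x : ℤ × ℤ) (n : ℤ) : eqK (x, n) 1 = n := rfl
lemma eqK2 (x : ℤ × ℤ) (n : ℤ) : eqK (x, n) 2 = x.2 := rfl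

noncomputable def I (n : ℤ) : Finset ℤ := Icc (-n) n

noncomputable def Q (n : ℤ) : Finset (ℤ × ℤ) := I n ×ˢ I n

lemma mem_I {n x : ℤ} : x ∈ I n ↔ |x| ≤ n := by
  unfold I; rw [Finset.mem_Icc, abs_le]

lemma mem_Q {n : ℤ} {x : ℤ × ℤ} : x ∈ Q n ↔ |x.1| ≤ n ∧ |x.2| ≤ n := by
  unfold Q; rw [Finset.mem_product, mem_I, mem_I]

lemma card_I {n : ℤ} (hn : 0 ≤ n) : ((I n).card : ℝ) = 2 * n + 1 := by
  unfold I
  rw [Int.card_Icc]
  have : ((n + 1 - -n).toNat : ℤ) = 2 * n + 1 := by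
    rw [Int.toNat_of_nonneg (by linarith)]; ring
  have h2 : (((n + 1 - -n).toNat : ℤ) : ℝ) = 2 * n + 1 := by rw [this]; push_cast; ring
  exact_mod_cast h2

lemma card_Q {n : ℤ} (hn : 0 ≤ n) : ((Q n).card : ℝ) = (2 * n + 1) ^ 2 := by
  unfold Q
  rw [Finset.card_product]
  push_cast
  rw [card_I hn]; ring

lemma sum_K {E : Type*} [AddCommMonoid E] (G : K → E) (B : Finset K) (R : ℤ)
    (h1 : ∀ k, k ∉ B → G k = 0) (h2 : ∀ k ∈ B, ∀ j, |k j| ≤ R) :
    ∑ k ∈ B, G k = ∑ x ∈ Q R, ∑ n ∈ I R, G (eqK (x, n)) := by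
  classical
  rw [← Finset.sum_product', ← finsum_eq_sum_of_support_subset G (s := B)
    (fun x hx => by by_contra h; exact hx (h1 x (by simpa using h))),
    ← finsum_eq_sum_of_support_subset (fun p : (ℤ × ℤ) × ℤ => G (eqK (p.1, p.2))) (s := Q R ×ˢ I R)]
  · exact (finsum_comp_equiv eqK).symm
  · intro p hp
    by_contra h
    apply hp
    show G (eqK (p.1, p.2)) = 0
    apply h1
    intro h3
    apply h
    have h4 := h2 _ h3
    have h40 := h4 0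
    have h41 := h4 1
    have h42 := h4 2
    simp only [eqK, Equiv.coe_fn_mk, Matrix.cons_val_zero, Matrix.cons_val_one, Matrix.cons_val_two] at h40 h41 h42
    rw [Finset.mem_coe, Finset.mem_product, mem_Q, mem_I]
    exact ⟨⟨h40, h42⟩, h41⟩

/-! ## Means over the roots of unity -/

/-- trigonometric polynomial -/
noncomputable def P (R : ℤ) (a : ℤ → ℂ) (x : ℝ) : ℂ := ∑ n ∈ I R, a n * e (n * x)

lemma avg_three (N : ℕ) (hN : 0 < N) (R : ℤ) (hR : 3 * R < N) (a b c : ℤ → ℂ)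
    (hc : ∀ n, n ∉ I R → c n = 0) (α β γ : ℝ) :
    (N : ℂ)⁻¹ * ∑ j ∈ range N, P R a (j / N + α) * P R b (j / N + β) * conj (P R c (j / N + γ))
      = ∑ n ∈ I R, ∑ m ∈ I R, e (n * α + m * β - (n + m) * γ) * (a n * b m * conj (c (n + m))) := by
  have h1 : ∀ j ∈ range N, P R a (j / N + α) * P R b (j / N + β) * conj (P R c (j / N + γ))
      = ∑ n ∈ I R, ∑ m ∈ I R, ∑ k ∈ I R, (a n * b m * conj (c k) * e (n * α + m * β - k * γ)) *
        e (((n + m - k : ℤ) : ℝ) * (j / N)) := by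
    intro j _
    unfold P
    rw [map_sum, Finset.sum_mul_sum, Finset.sum_mul]
    refine sum_congr rfl fun n _ => ?_
    rw [Finset.sum_mul]
    refine sum_congr rfl fun m _ => ?_
    rw [Finset.mul_sum]
    refine sum_congr rfl fun k _ => ?_
    rw [map_mul, conj_e]
    have : e (n * (j / N + α)) * e (m * (j / N + β)) * e (-(k * (j / N + γ)))
        = e (n * α + m * β - k * γ) * e (((n + m - k : ℤ) : ℝ) * (j / N)) := by
      rw [← e_add, ← e_add, ← e_add]; congr 1; push_cast; ring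
    linear_combination (a n * b m * conj (c k)) * this
  rw [sum_congr rfl h1, Finset.sum_comm, Finset.mul_sum]
  refine sum_congr rfl fun n hn => ?_
  rw [Finset.sum_comm, Finset.mul_sum]
  refine sum_congr rfl fun m hm => ?_
  rw [Finset.sum_comm, Finset.mul_sum]
  have h2 : ∀ k ∈ I R, (N : ℂ)⁻¹ * ∑ j ∈ range N, (a n * b m * conj (c k) * e (n * α + m * β - k * γ)) *
        e (((n + m - k : ℤ) : ℝ) * (j / N))
      = if k = n + m then e (n * α + m * β - (n + m) * γ) * (a n * b m * conj (c (n + m))) else 0 := by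
    intro k hk
    rw [← Finset.mul_sum, mul_left_comm, avg N hN]
    · by_cases h : k = n + m
      · subst h
        simp; ring
      · rw [if_neg, if_neg h, mul_zero]
        omega
    · rw [mem_I] at hn hm hk
      rw [abs_le] at hn hm hk
      rw [abs_lt]
      omega
  rw [sum_congr rfl h2, Finset.sum_ite_eq']
  split_ifs with h
  · rfl
  · rw [hc _ h]; simp

lemma parseval (N : ℕ) (hN : 0 < N) (R : ℤ) (hR : 3 * R < N) (a : ℤ → ℂ) (α : ℝ) :
    (N : ℝ)⁻¹ * ∑ j ∈ range N, ‖P R a (j / N + α)‖ ^ 2 = ∑ n ∈ I R, ‖a n‖ ^ 2 := by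
  have key : ((((N : ℝ)⁻¹ * ∑ j ∈ range N, ‖P R a (j / N + α)‖ ^ 2 : ℝ)) : ℂ)
      = ((∑ n ∈ I R, ‖a n‖ ^ 2 : ℝ) : ℂ) := by
    push_cast
    have h1 : ∀ j ∈ range N, (‖P R a (j / N + α)‖ : ℂ) ^ 2
        = ∑ n ∈ I R, ∑ k ∈ I R, (a n * conj (a k) * e (n * α - k * α)) *
        e (((n - k : ℤ) : ℝ) * (j / N)) := by
      intro j _
      rw [← Complex.conj_mul', mul_comm]
      unfold P
      rw [map_sum, Finset.sum_mul_sum]
      refine sum_congr rfl fun n _ => ?_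
      refine sum_congr rfl fun k _ => ?_
      rw [map_mul, conj_e]
      have : e (n * (j / N + α)) * e (-(k * (j / N + α)))
          = e (n * α - k * α) * e (((n - k : ℤ) : ℝ) * (j / N)) := by
        rw [← e_add, ← e_add]; congr 1; push_cast; ring
      linear_combination (a n * conj (a k)) * this
    rw [sum_congr rfl h1, Finset.sum_comm, Finset.mul_sum]
    refine sum_congr rfl fun n hn => ?_
    rw [Finset.sum_comm, Finset.mul_sum]
    have h2 : ∀ k ∈ I R, (N : ℂ)⁻¹ * ∑ j ∈ range N, (a n * conj (a k) * e (n * α - k * α)) *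
          e (((n - k : ℤ) : ℝ) * (j / N))
        = if k = n then (‖a n‖ : ℂ) ^ 2 else 0 := by
      intro k hk
      rw [← Finset.mul_sum, mul_left_comm, avg N hN]
      · by_cases h : k = n
        · subst h
          rw [if_pos (sub_self _), if_pos rfl, sub_self, e_zero, mul_one, mul_one, Complex.mul_conj']
        · rw [if_neg, if_neg h, mul_zero]
          omega
      · rw [mem_I] at hn hk
        rw [abs_le] at hn hk
        rw [abs_lt]
        omega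
    rw [sum_congr rfl h2, Finset.sum_ite_eq', if_pos hn]
  exact_mod_cast key

/-! ## The large sieve for the boxes -/

/-- the linear form on `ℤ²` -/
noncomputable def w (Θ : Fin 3 → ℝ) (x : ℤ × ℤ) : ℝ := Θ 0 * x.2 - Θ 2 * x.1

lemma w_add (Θ : Fin 3 → ℝ) (x y : ℤ × ℤ) : w Θ (x + y) = w Θ x + w Θ y := by
  unfold w; simp only [Prod.snd_add, Prod.fst_add, Int.cast_add]; ring

lemma dk_eq (M : ℕ) (x : ℝ) : dk M x = ‖∑ n ∈ I M, e (n * x)‖ := by
  unfold dk I e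
  congr 1
  refine sum_congr rfl fun n _ => ?_
  congr 1
  push_cast
  ring

lemma dk_neg (M : ℕ) (x : ℝ) : dk M (-x) = dk M x := by
  rw [dk_eq, dk_eq, ← RCLike.norm_conj, map_sum]
  congr 1
  refine sum_congr rfl fun n _ => ?_
  rw [conj_e]; congr 1; ring

/-- the kernel -/
noncomputable def ka (Θ : Fin 3 → ℝ) (M : ℕ) (h : ℤ) : ℝ := dk M (h * Θ 0) * dk M (h * Θ 2)

lemma ka_nonneg (Θ : Fin 3 → ℝ) (M : ℕ) (h : ℤ) : 0 ≤ ka Θ M h :=
  mul_nonneg (norm_nonneg _) (norm_nonneg _)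

lemma ka_neg (Θ : Fin 3 → ℝ) (M : ℕ) (h : ℤ) : ka Θ M (-h) = ka Θ M h := by
  unfold ka
  rw [Int.cast_neg, neg_mul, neg_mul, dk_neg, dk_neg]

lemma norm_box (Θ : Fin 3 → ℝ) (M : ℕ) (h : ℤ) : ‖∑ y ∈ Q M, e (h * w Θ y)‖ = ka Θ M h := by
  have h1 : ∑ y ∈ Q M, e (h * w Θ y) = (∑ x ∈ I M, e (x * (-(h * Θ 2)))) * ∑ y ∈ I M, e (y * (h * Θ 0)) := by
    unfold Q
    rw [Finset.sum_mul_sum, Finset.sum_product]
    refine sum_congr rfl fun x _ => sum_congr rfl fun y _ => ?_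
    rw [← e_add]
    congr 1
    unfold w
    ring
  rw [h1, norm_mul, ← dk_eq, ← dk_eq, dk_neg, mul_comm]
  rfl

lemma sieve (Θ : Fin 3 → ℝ) (M : ℕ) (D : ℝ) (hD : ∑ h ∈ I (2 * M), ka Θ M h ≤ D) (b : ℤ → ℂ) :
    ∑ y ∈ Q M, ‖∑ l ∈ I M, b l * e (l * w Θ y)‖ ^ 2 ≤ D * ∑ l ∈ I M, ‖b l‖ ^ 2 := by
  have h1 : ((∑ y ∈ Q M, ‖∑ l ∈ I M, b l * e (l * w Θ y)‖ ^ 2 : ℝ) : ℂ)
      = ∑ l ∈ I M, ∑ k ∈ I M, (b l * conj (b k)) * ∑ y ∈ Q M, e (((l - k : ℤ) : ℝ) * w Θ y) := by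
    push_cast
    have : ∀ y ∈ Q M, (‖∑ l ∈ I M, b l * e (l * w Θ y)‖ : ℂ) ^ 2
        = ∑ l ∈ I M, ∑ k ∈ I M, (b l * conj (b k)) * e (((l - k : ℤ) : ℝ) * w Θ y) := by
      intro y _
      rw [← Complex.conj_mul', mul_comm, map_sum, Finset.sum_mul_sum]
      refine sum_congr rfl fun l _ => sum_congr rfl fun k _ => ?_
      rw [map_mul, conj_e]
      have : e (l * w Θ y) * e (-(k * w Θ y)) = e (((l - k : ℤ) : ℝ) * w Θ y) := by
        rw [← e_add]; congr 1; push_cast; ring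
      linear_combination (b l * conj (b k)) * this
    rw [sum_congr rfl this, Finset.sum_comm]
    refine sum_congr rfl fun l _ => ?_
    rw [Finset.sum_comm]
    refine sum_congr rfl fun k _ => ?_
    rw [Finset.mul_sum]
    simp only [Int.cast_sub]
  have h2 : ∑ y ∈ Q M, ‖∑ l ∈ I M, b l * e (l * w Θ y)‖ ^ 2
      ≤ ∑ l ∈ I M, ∑ k ∈ I M, (‖b l‖ * ‖b k‖) * ka Θ M (l - k) := by
    have h0 : 0 ≤ ∑ y ∈ Q M, ‖∑ l ∈ I M, b l * e (l * w Θ y)‖ ^ 2 :=
      sum_nonneg fun _ _ => sq_nonneg _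
    calc _ = ‖((∑ y ∈ Q M, ‖∑ l ∈ I M, b l * e (l * w Θ y)‖ ^ 2 : ℝ) : ℂ)‖ := by
            rw [Complex.norm_real, Real.norm_eq_abs, abs_of_nonneg h0]
      _ ≤ _ := by
            rw [h1]
            refine (norm_sum_le _ _).trans (sum_le_sum fun l _ => (norm_sum_le _ _).trans
              (sum_le_sum fun k _ => ?_))
            rw [norm_mul, norm_mul, RCLike.norm_conj, norm_box]
  have h3 : ∀ l ∈ I (M : ℤ), ∑ k ∈ I (M : ℤ), ka Θ M (l - k) ≤ D := by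
    intro l hl
    refine le_trans ?_ hD
    rw [← Finset.sum_image (f := fun h => ka Θ M h) (g := fun k => l - k) (s := I (M : ℤ))
      (fun x _ y _ h => by simpa using h)]
    refine sum_le_sum_of_subset_of_nonneg ?_ fun _ _ _ => ka_nonneg _ _ _
    intro x hx
    rw [Finset.mem_image] at hx
    obtain ⟨k, hk, rfl⟩ := hx
    rw [mem_I] at *
    rw [abs_le] at *
    constructor <;> linarith [hk.1, hk.2, hl.1, hl.2]
  have h4 : ∀ l ∈ I (M : ℤ), ∑ k ∈ I (M : ℤ), ka Θ M (k - l) ≤ D := by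
    intro l hl
    rw [sum_congr rfl fun k _ => (by rw [← neg_sub, ka_neg] : ka Θ M (k - l) = ka Θ M (l - k))]
    exact h3 l hl
  calc _ ≤ _ := h2
    _ ≤ ∑ l ∈ I M, ∑ k ∈ I M, ((‖b l‖ ^ 2 * ka Θ M (l - k)) / 2 + (‖b k‖ ^ 2 * ka Θ M (l - k)) / 2) := by
        refine sum_le_sum fun l _ => sum_le_sum fun k _ => ?_
        have := mul_nonneg (sq_nonneg (‖b l‖ - ‖b k‖)) (ka_nonneg Θ M (l - k))
        nlinarith
    _ = (∑ l ∈ I M, ‖b l‖ ^ 2 * ∑ k ∈ I M, ka Θ M (l - k)) / 2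
        + (∑ k ∈ I M, ‖b k‖ ^ 2 * ∑ l ∈ I M, ka Θ M (l - k)) / 2 := by
        simp only [Finset.sum_add_distrib]
        congr 1
        · rw [Finset.sum_div]
          refine sum_congr rfl fun l _ => ?_
          rw [Finset.mul_sum, Finset.sum_div]
        · rw [Finset.sum_comm, Finset.sum_div]
          refine sum_congr rfl fun l _ => ?_
          rw [Finset.mul_sum, Finset.sum_div]
    _ ≤ (∑ l ∈ I M, ‖b l‖ ^ 2 * D) / 2 + (∑ k ∈ I M, ‖b k‖ ^ 2 * D) / 2 := by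
        gcongr with l hl k hk
        · exact h3 l hl
        · exact h4 k hk
    _ = _ := by rw [← Finset.sum_mul]; ring

/-- the same for the translates of the box -/
lemma sieve_shift (Θ : Fin 3 → ℝ) (M : ℕ) (D : ℝ) (hD : ∑ h ∈ I (2 * M), ka Θ M h ≤ D) (R : ℤ)
    (hR : M ≤ R) (b : ℤ → ℂ) (hb : ∀ n, n ∉ I M → b n = 0) (x : ℤ × ℤ) (α : ℝ) :
    ∑ y ∈ Q M, ‖P R b (α + w Θ (x + y))‖ ^ 2 ≤ D * ∑ l ∈ I R, ‖b l‖ ^ 2 := by
  have hsub : I (M : ℤ) ⊆ I R := fun n hn => by rw [mem_I] at *; linarith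
  have h1 : ∑ l ∈ I R, ‖b l‖ ^ 2 = ∑ l ∈ I (M : ℤ), ‖b l * e (l * (α + w Θ x))‖ ^ 2 := by
    rw [← Finset.sum_subset hsub fun n _ hn => by rw [hb n hn]; simp]
    refine sum_congr rfl fun l _ => ?_
    rw [norm_mul, norm_e, mul_one]
  rw [h1]
  refine le_trans (le_of_eq ?_) (sieve Θ M D hD fun l => b l * e (l * (α + w Θ x)))
  refine sum_congr rfl fun y _ => ?_
  congr 2
  unfold P
  rw [← Finset.sum_subset hsub fun n _ hn => by rw [hb n hn]; simp]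
  refine sum_congr rfl fun l _ => ?_
  rw [mul_assoc, ← e_add]
  congr 2
  rw [w_add]; ring

/-! ## The block lemma -/

lemma card_mul {E : Type*} [AddCommMonoid E] (F : ℤ × ℤ → E) (R M : ℤ) (hF : ∀ x, x ∉ Q R → F x = 0) :
    ∑ x ∈ Q (R + M), ∑ y ∈ Q M, F (x + y) = (Q M).card • ∑ x ∈ Q R, F x := by
  rw [Finset.sum_comm, ← Finset.sum_const]
  refine sum_congr rfl fun y hy => ?_
  refine shift F (Q R) (Q (R + M)) y hF fun x hx => hF _ fun h => hx ?_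
  rw [mem_Q] at *
  simp only [Prod.fst_add, Prod.snd_add] at h
  rw [abs_le, abs_le] at *
  omega

/-- A sum `∑ a(l,q) b(q) c(l+q)` with `|l| ≤ M` is bounded if the square of `a` has bounded sums over the
translates of the box. -/
lemma block (M : ℕ) (R : ℤ) (D : ℝ) (a : ℤ × ℤ → ℤ × ℤ → ℝ) (b c : ℤ × ℤ → ℝ)
    (hb : ∀ x, x ∉ Q R → b x = 0) (hc : ∀ x, x ∉ Q R → c x = 0)
    (ha : ∀ x, ∑ y ∈ Q M, ∑ l ∈ Q M, a l (x + y) ^ 2 ≤ D) :
    ∑ q ∈ Q R, ∑ l ∈ Q M, a l q * b q * c (l + q)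
      ≤ 2 * (√D * (√(∑ q ∈ Q R, b q ^ 2) * √(∑ q ∈ Q R, c q ^ 2))) := by
  have hM0 : (0 : ℤ) ≤ M := Int.natCast_nonneg _
  set F : ℤ × ℤ → ℝ := fun q => ∑ l ∈ Q M, a l q * b q * c (l + q) with hF
  have hF0 : ∀ x, x ∉ Q R → F x = 0 := fun x hx => by rw [hF]; simp [hb x hx]
  have hmain := card_mul F R M hF0
  set B : ℤ × ℤ → ℝ := fun x => ∑ y ∈ Q M, b (x + y) ^ 2 with hB
  set C : ℤ × ℤ → ℝ := fun x => ∑ y ∈ Q (2 * M), c (x + y) ^ 2 with hC
  have hB0 : ∀ x, 0 ≤ B x := fun x => sum_nonneg fun _ _ => sq_nonneg _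
  have hC0 : ∀ x, 0 ≤ C x := fun x => sum_nonneg fun _ _ => sq_nonneg _
  have hx : ∀ x, ∑ y ∈ Q M, F (x + y) ≤ √D * (√(B x) * √(C x)) := by
    intro x
    have h1 : ∑ y ∈ Q M, F (x + y)
        = ∑ p ∈ Q M ×ˢ Q M, a p.2 (x + p.1) * (b (x + p.1) * c (p.2 + (x + p.1))) := by
      rw [Finset.sum_product]
      refine sum_congr rfl fun y _ => sum_congr rfl fun l _ => ?_
      ring
    rw [h1]
    refine (Real.sum_mul_le_sqrt_mul_sqrt _ _ _).trans ?_
    have h2 : ∑ p ∈ Q M ×ˢ Q M, a p.2 (x + p.1) ^ 2 ≤ D := by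
      rw [Finset.sum_product]; exact ha x
    have h3 : ∑ p ∈ Q M ×ˢ Q M, (b (x + p.1) * c (p.2 + (x + p.1))) ^ 2 ≤ B x * C x := by
      rw [Finset.sum_product, hB]
      simp only
      rw [Finset.sum_mul]
      refine sum_le_sum fun y hy => ?_
      have : ∑ l ∈ Q M, (b (x + y) * c (l + (x + y))) ^ 2 = b (x + y) ^ 2 * ∑ l ∈ Q M, c (x + (y + l)) ^ 2 := by
        rw [Finset.mul_sum]
        refine sum_congr rfl fun l _ => ?_
        rw [mul_pow]; congr 3; abel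
      rw [this]
      refine mul_le_mul_of_nonneg_left ?_ (sq_nonneg _)
      rw [hC]
      simp only
      rw [← Finset.sum_image (f := fun z => c (x + z) ^ 2) (g := fun l => y + l) (s := Q (M : ℤ))
        (fun _ _ _ _ h => by simpa using h)]
      refine sum_le_sum_of_subset_of_nonneg ?_ fun _ _ _ => sq_nonneg _
      intro z hz
      rw [Finset.mem_image] at hz
      obtain ⟨l, hl, rfl⟩ := hz
      rw [mem_Q] at *
      simp only [Prod.fst_add, Prod.snd_add]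
      rw [abs_le, abs_le] at *
      omega
    rw [← Real.sqrt_mul (hB0 x)]
    exact mul_le_mul (Real.sqrt_le_sqrt h2) (Real.sqrt_le_sqrt h3) (Real.sqrt_nonneg _) (Real.sqrt_nonneg _)
  have h4 : ∑ x ∈ Q (R + M), ∑ y ∈ Q M, F (x + y)
      ≤ √D * (√(∑ x ∈ Q (R + M), B x) * √(∑ x ∈ Q (R + M), C x)) := by
    refine (sum_le_sum fun x _ => hx x).trans ?_
    rw [← Finset.mul_sum]
    refine mul_le_mul_of_nonneg_left ?_ (Real.sqrt_nonneg _)
    exact Real.sum_sqrt_mul_sqrt_le _ hB0 hC0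
  have h5 : ∑ x ∈ Q (R + M), B x = (Q (M : ℤ)).card * ∑ q ∈ Q R, b q ^ 2 := by
    rw [hB, card_mul (fun q => b q ^ 2) R M (fun x hx => by simp [hb x hx]), nsmul_eq_mul]
  have h6 : ∑ x ∈ Q (R + M), C x ≤ (Q (2 * M : ℤ)).card * ∑ q ∈ Q R, c q ^ 2 := by
    rw [← nsmul_eq_mul, ← card_mul (fun q => c q ^ 2) R (2 * M) (fun x hx => by simp [hc x hx])]
    refine sum_le_sum_of_subset_of_nonneg ?_ fun _ _ _ => hC0 _
    intro z hz
    rw [mem_Q] at *
    constructor <;> linarith [hz.1, hz.2]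
  have hk : (0 : ℝ) < (Q (M : ℤ)).card := by
    rw [card_Q hM0]; positivity
  have h7 : ((Q (2 * M : ℤ)).card : ℝ) ≤ 4 * (Q (M : ℤ)).card := by
    rw [card_Q hM0, card_Q (by linarith)]
    push_cast
    have : (0 : ℝ) ≤ M := Nat.cast_nonneg _
    nlinarith
  set X := ∑ q ∈ Q R, b q ^ 2 with hX
  set Y := ∑ q ∈ Q R, c q ^ 2 with hY
  have hX0 : 0 ≤ X := sum_nonneg fun _ _ => sq_nonneg _
  have hY0 : 0 ≤ Y := sum_nonneg fun _ _ => sq_nonneg _
  set κ : ℝ := ((Q (M : ℤ)).card : ℝ) with hκ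
  have h8 : √(∑ x ∈ Q (R + M), C x) ≤ 2 * (√κ * √Y) := by
    rw [← Real.sqrt_mul hk.le]
    have : (2 : ℝ) = √4 := by
      rw [show (4 : ℝ) = 2 ^ 2 by norm_num, Real.sqrt_sq (by norm_num)]
    rw [this, ← Real.sqrt_mul (by norm_num)]
    refine Real.sqrt_le_sqrt (h6.trans ?_)
    rw [← mul_assoc]
    exact mul_le_mul_of_nonneg_right h7 hY0
  have h9 : κ * ∑ q ∈ Q R, F q ≤ κ * (2 * (√D * (√X * √Y))) := by
    rw [nsmul_eq_mul] at hmain
    rw [← hmain]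
    refine h4.trans ?_
    rw [h5, Real.sqrt_mul hk.le]
    calc √D * (√κ * √X * √(∑ x ∈ Q (R + M), C x)) ≤ √D * (√κ * √X * (2 * (√κ * √Y))) := by
          gcongr
      _ = (√κ * √κ) * (2 * (√D * (√X * √Y))) := by ring
      _ = _ := by rw [Real.mul_self_sqrt hk.le]
  exact le_of_mul_le_mul_left h9 hk

/-! ## The trilinear form -/

/-- the phase `½ Θ·(l × k)` -/
noncomputable def ph (Θ : Fin 3 → ℝ) (l k : K) : ℝ :=
  (Θ 0 * (l 1 * k 2 - l 2 * k 1) + Θ 1 * (l 2 * k 0 - l 0 * k 2) + Θ 2 * (l 0 * k 1 - l 1 * k 0)) / 2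

/-- one half of the form -/
noncomputable def S (Θ : Fin 3 → ℝ) (B : Finset K) (f g h : K → ℂ) : ℂ :=
  ∑ k ∈ B, ∑ l ∈ B, e (ph Θ l k) * (f l * g (k - l) * conj (h k))

lemma wt_eq (Θ : Fin 3 → ℝ) (l k : K) : (wt Θ l k : ℂ) = (e (ph Θ l k) + e (ph (-Θ) l k)) / 2 := by
  have h1 : wt Θ l k = Real.cos (2 * Real.pi * ph Θ l k) := by
    unfold wt ph; congr 1; ring
  have h2 : ph (-Θ) l k = -ph Θ l k := by
    unfold ph; simp only [Pi.neg_apply]; ring
  rw [h1, h2, Complex.ofReal_cos, Complex.cos]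
  unfold e
  congr 3
  · push_cast; ring
  · push_cast; ring

lemma Tr_eq (Θ : Fin 3 → ℝ) (B : Finset K) (f g h : K → ℂ) :
    Tr (wt Θ) B f g h = (S Θ B f g h + S (-Θ) B f g h) / 2 := by
  unfold Tr S
  rw [← Finset.sum_add_distrib, Finset.sum_div]
  refine sum_congr rfl fun k _ => ?_
  rw [← Finset.sum_add_distrib, Finset.sum_div]
  refine sum_congr rfl fun l _ => ?_
  rw [wt_eq]; ring

/-- the function in coordinates -/
def cu (f : K → ℂ) (x : ℤ × ℤ) (n : ℤ) : ℂ := f (eqK (x, n))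

lemma eqK_add (x y : ℤ × ℤ) (n m : ℤ) : eqK (x, n) + eqK (y, m) = eqK (x + y, n + m) := by
  funext j
  fin_cases j <;> simp [eqK]

lemma S_eq (Θ : Fin 3 → ℝ) (B : Finset K) (f g h : K → ℂ) (R : ℤ) (hB : ∀ k ∈ B, ∀ j, |k j| ≤ R)
    (hf : ∀ k, k ∉ B → f k = 0) (hg : ∀ k, k ∉ B → g k = 0) (hh : ∀ k, k ∉ B → h k = 0) :
    S Θ B f g h = ∑ q ∈ Q R, ∑ l ∈ Q R, e (Θ 1 * (l.2 * q.1 - l.1 * q.2) / 2) *
      ∑ n ∈ I R, ∑ m ∈ I R, e (n * (w Θ l / 2 + w Θ q) + m * (w Θ q / 2) - (n + m) * (w Θ (l + q) / 2)) *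
        (cu f l n * cu g q m * conj (cu h (l + q) (n + m))) := by
  have h1 : S Θ B f g h = ∑ l ∈ B, ∑ q ∈ B, e (ph Θ l (q + l)) * (f l * g q * conj (h (q + l))) := by
    unfold S
    rw [Finset.sum_comm]
    refine sum_congr rfl fun l hl => ?_
    have := shift (fun k => e (ph Θ l k) * (f l * g (k - l) * conj (h k))) B B l
      (fun k hk => by simp [hh k hk]) (fun q hq => by simp [hg q hq])
    rw [← this]
    refine sum_congr rfl fun q _ => ?_
    rw [add_sub_cancel_right]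
  rw [h1, sum_K (fun l => ∑ q ∈ B, e (ph Θ l (q + l)) * (f l * g q * conj (h (q + l)))) B R
    (fun l hl => sum_eq_zero fun q _ => by rw [hf l hl]; simp) hB]
  have h2 : ∀ l : K, ∑ q ∈ B, e (ph Θ l (q + l)) * (f l * g q * conj (h (q + l)))
      = ∑ x ∈ Q R, ∑ m ∈ I R, e (ph Θ l (eqK (x, m) + l)) * (f l * g (eqK (x, m)) * conj (h (eqK (x, m) + l))) :=
    fun l => sum_K (fun q => e (ph Θ l (q + l)) * (f l * g q * conj (h (q + l)))) B R
      (fun q hq => by simp [hg q hq]) hB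
  simp only [h2]
  calc _ = ∑ l ∈ Q R, ∑ q ∈ Q R, ∑ n ∈ I R, ∑ m ∈ I R, e (ph Θ (eqK (l, n)) (eqK (q, m) + eqK (l, n))) *
        (f (eqK (l, n)) * g (eqK (q, m)) * conj (h (eqK (q, m) + eqK (l, n)))) :=
        sum_congr rfl fun l _ => Finset.sum_comm
    _ = ∑ q ∈ Q R, ∑ l ∈ Q R, ∑ n ∈ I R, ∑ m ∈ I R, e (ph Θ (eqK (l, n)) (eqK (q, m) + eqK (l, n))) *
        (f (eqK (l, n)) * g (eqK (q, m)) * conj (h (eqK (q, m) + eqK (l, n)))) := Finset.sum_comm
    _ = _ := by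
        refine sum_congr rfl fun q _ => sum_congr rfl fun l _ => ?_
        rw [Finset.mul_sum]
        refine sum_congr rfl fun n _ => ?_
        rw [Finset.mul_sum]
        refine sum_congr rfl fun m _ => ?_
        unfold cu
        rw [add_comm (eqK (q, m)), eqK_add, ← mul_assoc (e _) (e _), ← e_add]
        congr 2
        unfold ph w
        simp only [eqK0, eqK1, eqK2, Prod.fst_add, Prod.snd_add, Int.cast_add]
        ring

lemma n2_nonneg (B : Finset K) (f : K → ℂ) : 0 ≤ n2 B f := Real.sqrt_nonneg _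

lemma norm_S (Θ : Fin 3 → ℝ) {C : ℝ} (hC : Good Θ C) (m : ℕ) (B : Finset K) (f g h : K → ℂ)
    (hf : ∀ k, k ∉ B → f k = 0) (hg : ∀ k, k ∉ B → g k = 0) (hh : ∀ k, k ∉ B → h k = 0)
    (hfm : ∀ k, 2 ^ m < nn k → f k = 0) :
    ‖S Θ B f g h‖ ≤ 2 * √C * 2 ^ m * (n2 B f * n2 B g * n2 B h) := by
  -- the size of the box
  obtain ⟨R, hR, hB⟩ : ∃ R : ℤ, (2 ^ m : ℕ) ≤ R ∧ ∀ k ∈ B, ∀ j, |k j| ≤ R := by
    refine ⟨(2 ^ m : ℕ) + ∑ k ∈ B, ∑ j, |k j|, ?_, fun k hk j => ?_⟩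
    · have : 0 ≤ ∑ k ∈ B, ∑ j, |k j| := sum_nonneg fun _ _ => sum_nonneg fun _ _ => abs_nonneg _
      linarith
    · have h1 : |k j| ≤ ∑ j, |k j| :=
        Finset.single_le_sum (f := fun j => |k j|) (fun _ _ => abs_nonneg _) (Finset.mem_univ j)
      have h2 : ∑ j, |k j| ≤ ∑ k ∈ B, ∑ j, |k j| :=
        Finset.single_le_sum (f := fun k : K => ∑ j, |k j|) (fun _ _ => sum_nonneg fun _ _ => abs_nonneg _) hk
      have : (0 : ℤ) ≤ (2 ^ m : ℕ) := Int.natCast_nonneg _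
      linarith
  obtain ⟨N, hN⟩ : ∃ N : ℕ, 3 * R < N := ⟨(3 * R + 1).toNat, by
    have := Int.self_le_toNat (3 * R + 1)
    omega⟩
  have hR0 : 0 ≤ R := le_trans (Int.natCast_nonneg _) hR
  have hN0 : 0 < N := by omega
  set M : ℕ := 2 ^ m with hM
  -- the three functions
  set A : ℕ → ℤ × ℤ → ℤ × ℤ → ℂ := fun j l q => P R (cu f l) (j / N + (w Θ l / 2 + w Θ q)) with hA
  set G : ℕ → ℤ × ℤ → ℂ := fun j q => P R (cu g q) (j / N + w Θ q / 2) with hG
  set H : ℕ → ℤ × ℤ → ℂ := fun j k => P R (cu h k) (j / N + w Θ k / 2) with hH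
  have hout : ∀ F : K → ℂ, (∀ k, k ∉ B → F k = 0) → ∀ x n, (x ∉ Q R ∨ n ∉ I R) → cu F x n = 0 := by
    intro F hF x n hx
    refine hF _ fun h1 => ?_
    have h2 := hB _ h1
    have h20 := h2 0
    have h21 := h2 1
    have h22 := h2 2
    rw [eqK0] at h20
    rw [eqK1] at h21
    rw [eqK2] at h22
    rw [mem_Q, mem_I] at hx
    rcases hx with hx | hx
    · exact hx ⟨h20, h22⟩
    · exact hx h21
  have hG0 : ∀ j x, x ∉ Q R → G j x = 0 := fun j x hx => by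
    rw [hG]; exact sum_eq_zero fun n _ => by rw [hout g hg x n (Or.inl hx), zero_mul]
  have hH0 : ∀ j x, x ∉ Q R → H j x = 0 := fun j x hx => by
    rw [hH]; exact sum_eq_zero fun n _ => by rw [hout h hh x n (Or.inl hx), zero_mul]
  have hfout : ∀ x n, (x ∉ Q M ∨ n ∉ I M) → cu f x n = 0 := by
    intro x n hx
    refine hfm _ ?_
    by_contra h1
    rw [not_lt, show ((2 : ℝ) ^ m) = ((2 ^ m : ℕ) : ℝ) by push_cast; ring, SH.nn_le_iff] at h1
    have h20 := h1 0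
    have h21 := h1 1
    have h22 := h1 2
    rw [eqK0] at h20
    rw [eqK1] at h21
    rw [eqK2] at h22
    rw [mem_Q, mem_I] at hx
    rcases hx with hx | hx
    · exact hx ⟨h20, h22⟩
    · exact hx h21
  have hA0 : ∀ j l q, l ∉ Q M → A j l q = 0 := fun j l q hl => by
    rw [hA]; exact sum_eq_zero fun n _ => by rw [hfout l n (Or.inl hl), zero_mul]
  have hsub : Q (M : ℤ) ⊆ Q R := fun x hx => by
    rw [mem_Q] at *; exact ⟨hx.1.trans hR, hx.2.trans hR⟩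
  -- the norms
  have hn2 : ∀ F : K → ℂ, (∀ k, k ∉ B → F k = 0) →
      n2 B F = √(∑ x ∈ Q R, ∑ n ∈ I R, ‖cu F x n‖ ^ 2) := by
    intro F hF
    unfold n2
    rw [sum_K (fun k => ‖F k‖ ^ 2) B R (fun k hk => by simp [hF k hk]) hB]
    rfl
  -- the constant
  set D0 : ℝ := C * 4 ^ m with hD0
  have hsv : ∑ h ∈ I (2 * M), ka Θ M h ≤ D0 := by
    have := hC m
    rw [hD0]
    refine le_trans (le_of_eq ?_) this
    unfold I ka
    have h1 : (2 * (M : ℤ)) = 2 ^ (m + 1) := by rw [hM]; push_cast; ring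
    rw [h1]
  have hD0' : 0 ≤ D0 := le_trans (sum_nonneg fun _ _ => ka_nonneg _ _ _) hsv
  set D : ℝ := D0 * n2 B f ^ 2 with hD
  have hblock : ∀ j, ∑ q ∈ Q R, ∑ l ∈ Q M, ‖A j l q‖ * ‖G j q‖ * ‖H j (l + q)‖
      ≤ 2 * (√D * (√(∑ q ∈ Q R, ‖G j q‖ ^ 2) * √(∑ q ∈ Q R, ‖H j q‖ ^ 2))) := by
    intro j
    refine block M R D (fun l q => ‖A j l q‖) (fun q => ‖G j q‖) (fun q => ‖H j q‖)
      (fun x hx => by rw [hG0 j x hx, norm_zero]) (fun x hx => by rw [hH0 j x hx, norm_zero]) ?_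
    intro x
    rw [Finset.sum_comm, hD, hn2 f hf, Real.sq_sqrt (sum_nonneg fun _ _ => sum_nonneg fun _ _ => sq_nonneg _),
      Finset.mul_sum]
    refine (sum_le_sum fun l _ => ?_).trans (sum_le_sum_of_subset_of_nonneg hsub fun x _ _ =>
      mul_nonneg hD0' (sum_nonneg fun _ _ => sq_nonneg _))
    have := sieve_shift Θ M D0 hsv R hR (cu f l) (fun n hn => hfout l n (Or.inr hn)) x (j / N + w Θ l / 2)
    refine le_trans (le_of_eq ?_) this
    refine sum_congr rfl fun y _ => ?_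
    rw [hA]
    simp only
    rw [add_assoc]
  -- the mean over the roots of unity
  have hmean : ∀ F : K → ℂ, (∀ k, k ∉ B → F k = 0) → ∀ v : ℤ × ℤ → ℝ,
      ∑ j ∈ range N, (N : ℝ)⁻¹ * ∑ q ∈ Q R, ‖P R (cu F q) (j / N + v q)‖ ^ 2 = n2 B F ^ 2 := by
    intro F hF v
    rw [hn2 F hF, Real.sq_sqrt (sum_nonneg fun _ _ => sum_nonneg fun _ _ => sq_nonneg _),
      ← Finset.mul_sum, Finset.sum_comm, Finset.mul_sum]
    exact sum_congr rfl fun q _ => parseval N hN0 R hN _ _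
  have hNN : (0 : ℝ) ≤ (N : ℝ)⁻¹ := by positivity
  calc ‖S Θ B f g h‖
      = ‖∑ q ∈ Q R, ∑ l ∈ Q R, e (Θ 1 * (l.2 * q.1 - l.1 * q.2) / 2) *
        ((N : ℂ)⁻¹ * ∑ j ∈ range N, A j l q * G j q * conj (H j (l + q)))‖ := by
        rw [S_eq Θ B f g h R hB hf hg hh]
        congr 1
        refine sum_congr rfl fun q _ => sum_congr rfl fun l _ => ?_
        rw [avg_three N hN0 R hN (cu f l) (cu g q) (cu h (l + q))
          (fun n hn => hout h hh _ _ (Or.inr hn))]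
    _ ≤ ∑ q ∈ Q R, ∑ l ∈ Q R, ∑ j ∈ range N, (N : ℝ)⁻¹ * (‖A j l q‖ * ‖G j q‖ * ‖H j (l + q)‖) := by
        refine (norm_sum_le _ _).trans (sum_le_sum fun q _ => (norm_sum_le _ _).trans
          (sum_le_sum fun l _ => ?_))
        rw [norm_mul, norm_e, one_mul, norm_mul, norm_inv, Complex.norm_natCast, ← Finset.mul_sum]
        refine mul_le_mul_of_nonneg_left ?_ hNN
        refine (norm_sum_le _ _).trans (sum_le_sum fun j _ => ?_)
        rw [norm_mul, norm_mul, RCLike.norm_conj]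
    _ = ∑ j ∈ range N, (N : ℝ)⁻¹ * ∑ q ∈ Q R, ∑ l ∈ Q R, ‖A j l q‖ * ‖G j q‖ * ‖H j (l + q)‖ := by
        simp only [Finset.mul_sum]
        calc _ = ∑ q ∈ Q R, ∑ j ∈ range N, ∑ l ∈ Q R, (N : ℝ)⁻¹ * (‖A j l q‖ * ‖G j q‖ * ‖H j (l + q)‖) :=
              sum_congr rfl fun q _ => Finset.sum_comm
          _ = _ := Finset.sum_comm
    _ = ∑ j ∈ range N, (N : ℝ)⁻¹ * ∑ q ∈ Q R, ∑ l ∈ Q M, ‖A j l q‖ * ‖G j q‖ * ‖H j (l + q)‖ := by
        refine sum_congr rfl fun j _ => ?_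
        congr 1
        refine sum_congr rfl fun q _ => ?_
        exact (Finset.sum_subset hsub fun l _ hl => by rw [hA0 j l q hl]; simp).symm
    _ ≤ ∑ j ∈ range N, (N : ℝ)⁻¹ *
        (2 * (√D * (√(∑ q ∈ Q R, ‖G j q‖ ^ 2) * √(∑ q ∈ Q R, ‖H j q‖ ^ 2)))) :=
        sum_le_sum fun j _ => mul_le_mul_of_nonneg_left (hblock j) hNN
    _ = 2 * √D * ∑ j ∈ range N, √((N : ℝ)⁻¹ * ∑ q ∈ Q R, ‖G j q‖ ^ 2) *
          √((N : ℝ)⁻¹ * ∑ q ∈ Q R, ‖H j q‖ ^ 2) := by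
        rw [Finset.mul_sum]
        refine sum_congr rfl fun j _ => ?_
        rw [Real.sqrt_mul hNN, Real.sqrt_mul hNN]
        have := Real.mul_self_sqrt hNN
        calc _ = (N : ℝ)⁻¹ * (2 * (√D * (√(∑ q ∈ Q R, ‖G j q‖ ^ 2) * √(∑ q ∈ Q R, ‖H j q‖ ^ 2)))) := rfl
          _ = (√(N : ℝ)⁻¹ * √(N : ℝ)⁻¹) * (2 * (√D * (√(∑ q ∈ Q R, ‖G j q‖ ^ 2) * √(∑ q ∈ Q R, ‖H j q‖ ^ 2)))) := by
              rw [this]
          _ = _ := by ring
    _ ≤ 2 * √D * (√(∑ j ∈ range N, (N : ℝ)⁻¹ * ∑ q ∈ Q R, ‖G j q‖ ^ 2) *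
          √(∑ j ∈ range N, (N : ℝ)⁻¹ * ∑ q ∈ Q R, ‖H j q‖ ^ 2)) := by
        refine mul_le_mul_of_nonneg_left ?_ (by positivity)
        exact Real.sum_sqrt_mul_sqrt_le _ (fun j => mul_nonneg hNN (sum_nonneg fun _ _ => sq_nonneg _))
          (fun j => mul_nonneg hNN (sum_nonneg fun _ _ => sq_nonneg _))
    _ = 2 * √D * (n2 B g * n2 B h) := by
        rw [hG, hH, hmean g hg, hmean h hh, Real.sqrt_sq (n2_nonneg _ _), Real.sqrt_sq (n2_nonneg _ _)]
    _ = _ := by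
        rw [hD, Real.sqrt_mul hD0', Real.sqrt_sq (n2_nonneg _ _), hD0]
        have h4 : √(C * 4 ^ m) = √C * 2 ^ m := by
          rw [show (4 : ℝ) ^ m = (2 ^ m) ^ 2 by rw [← pow_mul, mul_comm, pow_mul]; norm_num,
            Real.sqrt_mul' _ (by positivity), Real.sqrt_sq (by positivity)]
        rw [h4]; ring

end Pool.Agent.K1H29.NC.BM

namespace Pool.Agent.K1H29.NC

open BM

/-- **The block bound.** -/
theorem blk_wt {Θ : Fin 3 → ℝ} {C : ℝ} (h : Good Θ C) : ∃ X, 0 ≤ X ∧ Blk (wt Θ) X := by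
  have h' : Good (-Θ) C := by
    intro m
    refine le_trans (le_of_eq ?_) (h m)
    refine sum_congr rfl fun n _ => ?_
    rw [Pi.neg_apply, Pi.neg_apply, mul_neg, mul_neg, dk_neg, dk_neg]
  refine ⟨2 * √C, by positivity, fun m B f g h hf hg hh hfm => ?_⟩
  rw [Tr_eq, norm_div, RCLike.norm_ofNat, div_le_iff₀ (by norm_num)]
  refine (norm_add_le _ _).trans ?_
  have h1 := norm_S Θ ‹_› m B f g h hf hg hh hfm
  have h2 := norm_S (-Θ) h' m B f g h hf hg hh hfm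
  linarith

end Pool.Agent.K1H29.NC
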