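import Pool.Agent.H356R3.NS.Defs

/-!
# The periodic Navier-Stokes equations with weighted triads; the noncommutative torus
-/

open Set MeasureTheory
open scoped ContDiff

namespace Pool.Agent.K1H29.NC

open Pool.Agent.H356R3.NS (R3 pd)

/-- The Fourier coefficients `∫_{[0,1]³} f(x) exp(-2πi k·x) dx` of a real function. -/
noncomputable def four (f : R3 → ℝ) (k : Fin 3 → ℤ) : ℂ :=
  ∫ x in Icc (0 : R3) 1,
    (f x : ℂ) * Complex.exp (-(2 * Real.pi * Complex.I * ∑ j, (k j : ℂ) * (x j : ℂ)))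

/-- The product of two real periodic functions with the weights `φ`:
`∑_k (∑_l φ(l,k) f^(l) g^(k-l)) exp(2πi k·x)`. For `φ = 1` it is `f(x) g(x)`. -/
noncomputable def prod (φ : (Fin 3 → ℤ) → (Fin 3 → ℤ) → ℝ) (f g : R3 → ℝ) (x : R3) : ℝ :=
  (∑' k : Fin 3 → ℤ, (∑' l : Fin 3 → ℤ, (φ l k : ℂ) * (four f l * four g (k - l))) *
    Complex.exp (2 * Real.pi * Complex.I * ∑ j, (k j : ℂ) * (x j : ℂ))).re

/-- The weights of the noncommutative torus: `cos(π Θ·(l × k))`. Since `l × k = l × (k - l)`, the product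
`prod (wt Θ) f g` is the symmetrised Moyal product `(f ⋆ g + g ⋆ f) / 2`, where
`exp(2πi p·x) ⋆ exp(2πi q·x) = exp(πi Θ·(p × q)) exp(2πi (p+q)·x)`. -/
noncomputable def wt (Θ : Fin 3 → ℝ) (l k : Fin 3 → ℤ) : ℝ :=
  Real.cos (Real.pi * (Θ 0 * (l 1 * k 2 - l 2 * k 1) + Θ 1 * (l 2 * k 0 - l 0 * k 2)
    + Θ 2 * (l 0 * k 1 - l 1 * k 0)))

/-- Smooth periodic divergence free vector fields. -/
structure Data (v : R3 → R3) : Prop where
  smooth : ContDiff ℝ ∞ v
  periodic : ∀ x j, v (x + Pi.single j 1) = v x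
  divFree : ∀ x, ∑ i, pd i (fun y => v y i) x = 0

/-- `(u, p)` is a smooth periodic solution of the Navier-Stokes equations in which the products
`u_j ∂_j u_i` are replaced by `prod φ u_j (∂_j u_i)`, with viscosity `ν` and initial velocity `v`:
`u` and `p` are `C^∞` on `ℝ³ × [0,∞)` (with one-sided time derivatives at `t = 0`) and `ℤ³`-periodic in `x`,
`∂_t u_i + ∑_j prod φ u_j (∂_j u_i) = ν Δ u_i - ∂_i p`, `div u = 0` and `u(·,0) = v`. -/
structure Sol (φ : (Fin 3 → ℤ) → (Fin 3 → ℤ) → ℝ) (ν : ℝ) (v : R3 → R3) (u : ℝ → R3 → R3)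
    (p : ℝ → R3 → ℝ) : Prop where
  smooth_u : ContDiffOn ℝ ∞ (fun z : ℝ × R3 => u z.1 z.2) (Ici 0 ×ˢ univ)
  smooth_p : ContDiffOn ℝ ∞ (fun z : ℝ × R3 => p z.1 z.2) (Ici 0 ×ˢ univ)
  periodic_u : ∀ t, 0 ≤ t → ∀ x j, u t (x + Pi.single j 1) = u t x
  periodic_p : ∀ t, 0 ≤ t → ∀ x j, p t (x + Pi.single j 1) = p t x
  momentum : ∀ t, 0 ≤ t → ∀ x i,
    derivWithin (fun s => u s x i) (Ici 0) t
        + ∑ j, prod φ (fun y => u t y j) (pd j fun y => u t y i) x
      = ν * ∑ j, pd j (pd j fun y => u t y i) x - pd i (p t) x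
  divFree : ∀ t, 0 ≤ t → ∀ x, ∑ i, pd i (fun y => u t y i) x = 0
  initial : u 0 = v

/-- Admissible weights: bounded by one, equal to one on the mean, and depending on the triad
`k = l + (k - l)` only. Real fields stay real, and energy is conserved by the nonlinear term. -/
structure Wt (φ : (Fin 3 → ℤ) → (Fin 3 → ℤ) → ℝ) : Prop where
  bd : ∀ l k, |φ l k| ≤ 1
  zero : ∀ k, φ 0 k = 1
  neg : ∀ l k, φ (-l) (-k) = φ l k
  swap : ∀ l k, φ (k - l) k = φ l k
  sym : ∀ l k, φ k l = φ l k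

theorem wt_Wt (Θ : Fin 3 → ℝ) : Wt (wt Θ) where
  bd l k := Real.abs_cos_le_one _
  zero k := by simp [wt]
  neg l k := by unfold wt; congr 1; simp
  swap l k := by
    unfold wt
    rw [← Real.cos_neg]
    congr 1
    simp only [Pi.sub_apply, Int.cast_sub]
    ring
  sym l k := by
    unfold wt
    rw [← Real.cos_neg]
    congr 1
    ring

end Pool.Agent.K1H29.NC
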