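import Pool.Agent.K1H29.NC.TriOf
import Pool.Agent.K1H29.NC.InfDefs

/-!
# The trilinear form if the block inequality holds at one scale
-/

open Set ComplexConjugate MeasureTheory

namespace Pool.Agent.K1H29.NC

open Pool.Agent.H356R3.NS (K C3)
open Pool.Agent.K1H29.SH (nn nn_nonneg nn_neg one_le_nn)

lemma cl_le_iff {k : K} {n : ℕ} : cl k ≤ n ↔ nn k ≤ 2 ^ n := by
  unfold cl nn
  rw [Nat.clog_le_iff_le_pow (by norm_num)]
  exact_mod_cast Iff.rfl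

/-- multiplication by `x` has norm at most `Y` -/
def Mul (φ : K → K → ℝ) (B : Finset K) (x : K → ℂ) (Y : ℝ) : Prop := (∀ k, k ∉ B → x k = 0) ∧
  ∀ y z : K → ℂ, (∀ k, k ∉ B → y k = 0) → (∀ k, k ∉ B → z k = 0) →
    ‖Tr φ B x y z‖ ≤ Y * (n2 B y * n2 B z)

variable {φ : K → K → ℝ} {B : Finset K} {x x' y z f g h : K → ℂ} {Y Y' : ℝ}

lemma Mul.slot2 (hφ : Wt φ) (hx : Mul φ B x Y) (hy : ∀ k, k ∉ B → y k = 0) (hz : ∀ k, k ∉ B → z k = 0) :
    ‖Tr φ B y x z‖ ≤ Y * (n2 B y * n2 B z) := by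
  rw [Tr_swap hφ hy hx.1]
  exact hx.2 y z hy hz

lemma neg_supp (hB : ∀ k ∈ B, -k ∈ B) (hy : ∀ k, k ∉ B → y k = 0) : ∀ k, k ∉ B → conj (y (-k)) = 0 := by
  intro k hk
  have h1 : -k ∉ B := fun h2 => hk (by have := hB _ h2; rwa [neg_neg] at this)
  rw [hy _ h1, map_zero]

lemma Mul.slot3 (hφ : Wt φ) (hB : ∀ k ∈ B, -k ∈ B) (hx : Mul φ B x Y) (hy : ∀ k, k ∉ B → y k = 0)
    (hz : ∀ k, k ∉ B → z k = 0) : ‖Tr φ B y z x‖ ≤ Y * (n2 B y * n2 B z) := by
  rw [Tr_rot hφ, RCLike.norm_conj]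
  refine (hx.2 _ y (neg_supp hB hz) hy).trans (le_of_eq ?_)
  rw [n2_neg hB, mul_comm (n2 B z)]

lemma Tr_add1 : Tr φ B (x + x') y z = Tr φ B x y z + Tr φ B x' y z := by
  unfold Tr
  rw [← Finset.sum_add_distrib]
  refine Finset.sum_congr rfl fun k _ => ?_
  rw [← Finset.sum_add_distrib]
  refine Finset.sum_congr rfl fun l _ => ?_
  simp only [Pi.add_apply]; ring

lemma Tr_add2 : Tr φ B y (x + x') z = Tr φ B y x z + Tr φ B y x' z := by
  unfold Tr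
  rw [← Finset.sum_add_distrib]
  refine Finset.sum_congr rfl fun k _ => ?_
  rw [← Finset.sum_add_distrib]
  refine Finset.sum_congr rfl fun l _ => ?_
  simp only [Pi.add_apply]; ring

lemma Tr_add3 : Tr φ B y z (x + x') = Tr φ B y z x + Tr φ B y z x' := by
  unfold Tr
  rw [← Finset.sum_add_distrib]
  refine Finset.sum_congr rfl fun k _ => ?_
  rw [← Finset.sum_add_distrib]
  refine Finset.sum_congr rfl fun l _ => ?_
  simp only [Pi.add_apply, map_add]; ring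

lemma Mul.add (hx : Mul φ B x Y) (hx' : Mul φ B x' Y') : Mul φ B (x + x') (Y + Y') := by
  refine ⟨fun k hk => by simp [hx.1 k hk, hx'.1 k hk], fun y z hy hz => ?_⟩
  rw [Tr_add1, add_mul]
  exact (norm_add_le _ _).trans (add_le_add (hx.2 y z hy hz) (hx'.2 y z hy hz))

lemma Mul.mono (hx : Mul φ B x Y) (h : Y ≤ Y') : Mul φ B x Y' :=
  ⟨hx.1, fun y z hy hz => (hx.2 y z hy hz).trans
    (mul_le_mul_of_nonneg_right h (mul_nonneg (n2_nonneg _ _) (n2_nonneg _ _)))⟩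

lemma mul_blk {X : ℝ} {n m : ℕ} (h : BlkAt φ X n) (hm : n ≤ m) (hx : ∀ k, k ∉ B → x k = 0)
    (hl : ∀ k, 2 ^ m < nn k → x k = 0) : Mul φ B x (X * (4 ^ m / 2 ^ n) * n2 B x) := by
  refine ⟨hx, fun y z hy hz => ?_⟩
  refine (h m hm B x y z hx hy hz hl).trans (le_of_eq ?_)
  ring

lemma mul_l1 (hφ : Wt φ) (hx : ∀ k, k ∉ B → x k = 0) : Mul φ B x (∑ k ∈ B, ‖x k‖) := by
  refine ⟨hx, fun y z hy hz => ?_⟩
  unfold Tr
  rw [Finset.sum_comm]
  refine (norm_sum_le _ _).trans ?_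
  rw [Finset.sum_mul]
  refine Finset.sum_le_sum fun l _ => ?_
  refine (norm_sum_le _ _).trans ?_
  have h1 : ∀ k ∈ B, ‖(φ l k : ℂ) * (x l * y (k - l) * conj (z k))‖ ≤ ‖x l‖ * (‖y (k - l)‖ * ‖z k‖) := by
    intro k _
    rw [norm_mul, norm_mul, norm_mul, RCLike.norm_conj, Complex.norm_real]
    calc ‖φ l k‖ * (‖x l‖ * ‖y (k - l)‖ * ‖z k‖) ≤ 1 * (‖x l‖ * ‖y (k - l)‖ * ‖z k‖) :=
          mul_le_mul_of_nonneg_right (hφ.bd l k) (by positivity)
      _ = _ := by ring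
  refine (Finset.sum_le_sum h1).trans ?_
  rw [← Finset.mul_sum]
  apply mul_le_mul_of_nonneg_left _ (norm_nonneg _)
  refine (Real.sum_mul_le_sqrt_mul_sqrt _ _ _).trans ?_
  apply mul_le_mul_of_nonneg_right _ (Real.sqrt_nonneg _)
  unfold n2
  apply Real.sqrt_le_sqrt
  -- the sum over the shifted frequencies
  have h2 : ∑ k ∈ B, ‖y (k - l)‖ ^ 2 = ∑ k ∈ B.filter (fun k => k - l ∈ B), ‖y (k - l)‖ ^ 2 := by
    rw [Finset.sum_filter]
    refine Finset.sum_congr rfl fun k _ => ?_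
    split_ifs with h3
    · rfl
    · rw [hy _ h3]; simp
  rw [h2]
  calc ∑ k ∈ B.filter (fun k => k - l ∈ B), ‖y (k - l)‖ ^ 2
      = ∑ k ∈ (B.filter (fun k => k - l ∈ B)).image (fun k => k - l), ‖y k‖ ^ 2 := by
        rw [Finset.sum_image fun a _ b _ h => sub_left_injective h]
    _ ≤ _ := by
        apply Finset.sum_le_sum_of_subset_of_nonneg
        · intro k hk
          rw [Finset.mem_image] at hk
          obtain ⟨k', hk', rfl⟩ := hk
          exact (Finset.mem_filter.1 hk').2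
        · intro _ _ _; positivity

lemma rs_add (p : ℕ → Prop) [DecidablePred p] (f : K → ℂ) : f = rs p f + rs (fun n => ¬ p n) f := by
  funext k
  unfold rs
  simp only [Pi.add_apply]
  split_ifs <;> simp_all

/-- the low part of `f` -/
noncomputable abbrev lo (n : ℕ) (f : K → ℂ) : K → ℂ := rs (fun a => a ≤ n) f
/-- the high part of `f` -/
noncomputable abbrev hi (n : ℕ) (f : K → ℂ) : K → ℂ := rs (fun a => ¬ a ≤ n) f

lemma lo_hi (n : ℕ) (f : K → ℂ) : f = lo n f + hi n f := rs_add _ f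

lemma n2_le {F : K → ℝ} (hf : ∀ k, ‖f k‖ ≤ F k) : n2 B f ≤ √(∑ k ∈ B, F k ^ 2) := by
  unfold n2
  exact Real.sqrt_le_sqrt (Finset.sum_le_sum fun k _ => pow_le_pow_left₀ (norm_nonneg _) (hf k) 2)

lemma norm_rs_le (p : ℕ → Prop) [DecidablePred p] (f : K → ℂ) (k : K) : ‖rs p f k‖ ≤ ‖f k‖ := by
  unfold rs
  split_ifs
  · exact le_rfl
  · simp

/-- multiplication by the low part -/
lemma mul_lo (hφ : Wt φ) {X : ℝ} (hX : 0 ≤ X) {n₀ n : ℕ} (hn : n₀ ≤ n) (h : BlkAt φ X n) {F : K → ℝ}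
    (hf : ∀ k, ‖f k‖ ≤ F k) (hfB : ∀ k, k ∉ B → f k = 0) :
    Mul φ B (lo n f) ((∑ k ∈ B, if cl k ≤ n₀ then F k else 0)
      + X * 2 ^ n * √(∑ k ∈ B, if n₀ < cl k ∧ cl k ≤ n then F k ^ 2 else 0)) := by
  have hsplit : lo n f = lo n₀ f + rs (fun a => n₀ < a ∧ a ≤ n) f := by
    funext k
    simp only [lo, rs, Pi.add_apply]
    by_cases h1 : cl k ≤ n₀
    · rw [if_pos h1, if_pos (h1.trans hn), if_neg (by omega), add_zero]
    · rw [if_neg h1]
      by_cases h2 : cl k ≤ n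
      · rw [if_pos h2, if_pos (by omega), zero_add]
      · rw [if_neg h2, if_neg (by omega), zero_add]
  rw [hsplit]
  refine Mul.add ?_ ?_
  · refine (mul_l1 hφ (rs_supp hfB _)).mono (Finset.sum_le_sum fun k _ => ?_)
    unfold rs
    split_ifs
    · exact hf k
    · simp
  · have h1 := mul_blk h le_rfl (x := rs (fun a => n₀ < a ∧ a ≤ n) f) (rs_supp hfB _) (fun k hk => by
      unfold rs
      rw [if_neg]
      rintro ⟨_, h2⟩
      rw [cl_le_iff] at h2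
      linarith)
    refine h1.mono ?_
    have e : X * (4 ^ n / 2 ^ n) = X * 2 ^ n := by
      congr 1
      rw [← div_pow]; norm_num
    rw [e]
    exact mul_le_mul_of_nonneg_left (n2_rs_le hf _) (by positivity)

/-- the sum over the shells -/
lemma shells4 {B : Finset K} {F : K → ℝ} (hF0 : F 0 = 0) (M : ℕ) :
    ∑ m ∈ Finset.range M, 4 ^ m * (√(∑ k ∈ B, if cl k = m then F k ^ 2 else 0) *
      ∑ k ∈ B, if m ≤ cl k then F k ^ 2 else 0)
      ≤ (16 / 3) * (√(∑ k ∈ B, F k ^ 2) * ∑ k ∈ B, nn k ^ 2 * F k ^ 2) := by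
  set A := ∑ k ∈ B, F k ^ 2 with hA
  set D := ∑ k ∈ B, nn k ^ 2 * F k ^ 2 with hD
  set a : ℕ → ℝ := fun m => ∑ k ∈ B, if cl k = m then F k ^ 2 else 0 with ha
  set S : ℕ → ℝ := fun m => ∑ k ∈ B, if m ≤ cl k then F k ^ 2 else 0 with hS
  have hS0 : ∀ m, 0 ≤ S m := fun m => Finset.sum_nonneg fun k _ => by split_ifs <;> positivity
  have haA : ∀ m, √(a m) ≤ √A := fun m => Real.sqrt_le_sqrt (Finset.sum_le_sum fun k _ => by
    split_ifs
    · exact le_rfl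
    · positivity)
  have h2 : ∑ m ∈ Finset.range M, 4 ^ m * S m ≤ (16 / 3) * D := by
    simp only [hS, Finset.mul_sum]
    rw [Finset.sum_comm, hD, Finset.mul_sum]
    refine Finset.sum_le_sum fun k _ => ?_
    by_cases hk : k = 0
    · subst hk
      rw [hF0]
      simp
    have h3 : ∑ m ∈ Finset.range M, (4 : ℝ) ^ m * (if m ≤ cl k then F k ^ 2 else 0)
        ≤ ∑ m ∈ Finset.range (cl k + 1), (4 : ℝ) ^ m * F k ^ 2 := by
      calc ∑ m ∈ Finset.range M, (4 : ℝ) ^ m * (if m ≤ cl k then F k ^ 2 else 0)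
          = ∑ m ∈ (Finset.range M).filter (fun m => m ≤ cl k), (4 : ℝ) ^ m * F k ^ 2 := by
            rw [Finset.sum_filter]
            exact Finset.sum_congr rfl fun m _ => by split_ifs <;> simp
        _ ≤ _ := by
            apply Finset.sum_le_sum_of_subset_of_nonneg
            · intro m hm
              rw [Finset.mem_filter] at hm
              rw [Finset.mem_range]
              omega
            · intro m _ _; positivity
    have h4 : ∑ m ∈ Finset.range (cl k + 1), (4 : ℝ) ^ m ≤ (4 / 3) * 4 ^ cl k := by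
      have := geom_sum_eq (x := (4 : ℝ)) (by norm_num) (cl k + 1)
      rw [this, pow_succ]
      have h5 : (0 : ℝ) ≤ 4 ^ cl k := by positivity
      rw [div_le_iff₀ (by norm_num)]
      linarith
    have h5 : (4 : ℝ) ^ cl k ≤ 4 * nn k ^ 2 := by
      have h6 := cl_le_nn hk
      have h7 : (4 : ℝ) ^ cl k = (2 ^ cl k) ^ 2 := by
        rw [← pow_mul, mul_comm, pow_mul]; norm_num
      rw [h7]
      have h8 : (0 : ℝ) ≤ 2 ^ cl k := by positivity
      nlinarith [nn_nonneg k]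
    calc _ ≤ _ := h3
      _ = (∑ m ∈ Finset.range (cl k + 1), (4 : ℝ) ^ m) * F k ^ 2 := by rw [Finset.sum_mul]
      _ ≤ ((4 / 3) * (4 * nn k ^ 2)) * F k ^ 2 := by
          apply mul_le_mul_of_nonneg_right _ (by positivity)
          linarith
      _ = _ := by ring
  calc _ ≤ ∑ m ∈ Finset.range M, √A * (4 ^ m * S m) := by
        refine Finset.sum_le_sum fun m _ => ?_
        calc 4 ^ m * (√(a m) * S m) = √(a m) * (4 ^ m * S m) := by ring
          _ ≤ _ := mul_le_mul_of_nonneg_right (haA m) (mul_nonneg (by positivity) (hS0 m))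
    _ = √A * ∑ m ∈ Finset.range M, 4 ^ m * S m := by rw [Finset.mul_sum]
    _ ≤ √A * ((16 / 3) * D) := mul_le_mul_of_nonneg_left h2 (Real.sqrt_nonneg _)
    _ = _ := by ring

/-- the trilinear form of three high functions -/
lemma tri_high (hφ : Wt φ) {X : ℝ} (hX : 0 ≤ X) {n : ℕ} (h : BlkAt φ X n) (hB : ∀ k ∈ B, -k ∈ B)
    {F : K → ℝ} (hF0 : F 0 = 0) {f g w : K → ℂ} (hf : ∀ k, ‖f k‖ ≤ F k) (hg : ∀ k, ‖g k‖ ≤ F k)
    (hw : ∀ k, ‖w k‖ ≤ F k) (hf0 : ∀ k, k ∉ B → f k = 0) (hg0 : ∀ k, k ∉ B → g k = 0)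
    (hw0 : ∀ k, k ∉ B → w k = 0) (hfn : ∀ k, cl k ≤ n → f k = 0) (hgn : ∀ k, cl k ≤ n → g k = 0)
    (hwn : ∀ k, cl k ≤ n → w k = 0) :
    ‖Tr φ B f g w‖ ≤ 16 * X / 2 ^ n * (√(∑ k ∈ B, F k ^ 2) * ∑ k ∈ B, nn k ^ 2 * F k ^ 2) := by
  set M := B.sup cl + 1 with hMd
  have hM : ∀ k ∈ B, cl k < M := fun k hk => Nat.lt_succ_of_le (Finset.le_sup (f := cl) hk)
  rw [Tr_split hg0 hM]
  set a : ℕ → ℝ := fun m => ∑ k ∈ B, if cl k = m then F k ^ 2 else 0 with ha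
  set S : ℕ → ℝ := fun m => ∑ k ∈ B, if m ≤ cl k then F k ^ 2 else 0 with hS
  have hS0 : ∀ m, 0 ≤ S m := fun m => Finset.sum_nonneg fun k _ => by split_ifs <;> positivity
  have e1 : ∀ (v : K → ℂ), (∀ k, ‖v k‖ ≤ F k) → ∀ m, n2 B (rs (fun n => n = m) v) ≤ √(a m) :=
    fun v hv m => n2_rs_le hv _
  have e2 : ∀ (v : K → ℂ), (∀ k, ‖v k‖ ≤ F k) → ∀ m, n2 B (rs (fun n => m ≤ n) v) ≤ √(S m) :=
    fun v hv m => n2_rs_le hv _
  have e3 : ∀ (v : K → ℂ), (∀ k, ‖v k‖ ≤ F k) → ∀ m, n2 B (rs (fun n => m < n) v) ≤ √(S m) := by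
    intro v hv m
    refine (n2_rs_le hv _).trans (Real.sqrt_le_sqrt ?_)
    refine Finset.sum_le_sum fun k _ => ?_
    by_cases h1 : m < cl k
    · rw [if_pos h1, if_pos h1.le]
    · rw [if_neg h1]
      split_ifs <;> positivity
  -- multiplication by a shell
  have hmul : ∀ (v : K → ℂ), (∀ k, ‖v k‖ ≤ F k) → (∀ k, k ∉ B → v k = 0) → (∀ k, cl k ≤ n → v k = 0) →
      ∀ m, Mul φ B (rs (fun n => n = m) v) (X / 2 ^ n * (4 ^ m * √(a m))) := by
    intro v hv hv0 hvn m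
    rcases le_total m n with hmn | hmn
    · have hz : rs (fun n => n = m) v = 0 := by
        funext k
        unfold rs
        split_ifs with h1
        · exact hvn k (by omega)
        · rfl
      rw [hz]
      refine ⟨fun _ _ => rfl, fun y z _ _ => ?_⟩
      have : Tr φ B 0 y z = 0 := by unfold Tr; simp
      rw [this, norm_zero]
      have := n2_nonneg B y
      have := n2_nonneg B z
      positivity
    · have h1 := mul_blk h hmn (x := rs (fun n => n = m) v) (rs_supp hv0 _) (fun k hk => by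
        unfold rs
        rw [if_neg]
        intro h2
        have := nn_le_cl k
        rw [h2] at this
        linarith)
      refine h1.mono ?_
      calc X * (4 ^ m / 2 ^ n) * n2 B (rs (fun n => n = m) v) ≤ X * (4 ^ m / 2 ^ n) * √(a m) :=
            mul_le_mul_of_nonneg_left (e1 v hv m) (by positivity)
        _ = _ := by ring
  have fin : ∀ (m : ℕ) {T p q : ℝ}, T ≤ X / 2 ^ n * (4 ^ m * √(a m)) * (p * q) → 0 ≤ p → 0 ≤ q →
      p ≤ √(S m) → q ≤ √(S m) → T ≤ X / 2 ^ n * (4 ^ m * (√(a m) * S m)) := by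
    intro m T p q hT hp hq h1 h2
    have h3 : p * q ≤ S m := by
      calc p * q ≤ √(S m) * √(S m) := mul_le_mul h1 h2 hq (Real.sqrt_nonneg _)
        _ = _ := Real.mul_self_sqrt (hS0 m)
    calc T ≤ _ := hT
      _ ≤ X / 2 ^ n * (4 ^ m * √(a m)) * S m :=
          mul_le_mul_of_nonneg_left h3 (by positivity)
      _ = _ := by ring
  have hm : ∀ m ∈ Finset.range M,
      ‖Tr φ B (rs (fun n => n = m) f) (rs (fun n => m ≤ n) g) (rs (fun n => m ≤ n) w)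
      + Tr φ B (rs (fun n => m < n) f) (rs (fun n => n = m) g) (rs (fun n => m ≤ n) w)
      + Tr φ B (rs (fun n => m < n) f) (rs (fun n => m < n) g) (rs (fun n => n = m) w)‖
      ≤ 3 * (X / 2 ^ n) * (4 ^ m * (√(a m) * S m)) := by
    intro m _
    have b1 := fin m ((hmul f hf hf0 hfn m).2 (rs (fun n => m ≤ n) g) (rs (fun n => m ≤ n) w)
      (rs_supp hg0 _) (rs_supp hw0 _)) (n2_nonneg _ _) (n2_nonneg _ _) (e2 g hg m) (e2 w hw m)
    have b2 := fin m ((hmul g hg hg0 hgn m).slot2 hφ (y := rs (fun n => m < n) f)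
      (z := rs (fun n => m ≤ n) w) (rs_supp hf0 _) (rs_supp hw0 _)) (n2_nonneg _ _) (n2_nonneg _ _)
      (e3 f hf m) (e2 w hw m)
    have b3 := fin m ((hmul w hw hw0 hwn m).slot3 hφ hB (y := rs (fun n => m < n) f)
      (z := rs (fun n => m < n) g) (rs_supp hf0 _) (rs_supp hg0 _)) (n2_nonneg _ _) (n2_nonneg _ _)
      (e3 f hf m) (e3 g hg m)
    refine (norm_add_le _ _).trans ?_
    have b4 := norm_add_le
      (Tr φ B (rs (fun n => n = m) f) (rs (fun n => m ≤ n) g) (rs (fun n => m ≤ n) w))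
      (Tr φ B (rs (fun n => m < n) f) (rs (fun n => n = m) g) (rs (fun n => m ≤ n) w))
    linarith
  refine (norm_sum_le _ _).trans ((Finset.sum_le_sum hm).trans ?_)
  rw [← Finset.mul_sum]
  have hsh := shells4 (B := B) hF0 M
  calc _ ≤ 3 * (X / 2 ^ n) * ((16 / 3) * (√(∑ k ∈ B, F k ^ 2) * ∑ k ∈ B, nn k ^ 2 * F k ^ 2)) :=
        mul_le_mul_of_nonneg_left hsh (by positivity)
    _ = _ := by ring

/-- **The trilinear form.** -/
theorem tri_inf (hφ : Wt φ) {X : ℝ} (hX : 0 ≤ X) {n₀ n : ℕ} (hn : n₀ ≤ n) (h : BlkAt φ X n)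
    (hB : ∀ k ∈ B, -k ∈ B) {F : K → ℝ} (hFB : ∀ k, k ∉ B → F k = 0) (hF0 : F 0 = 0) {f g w : K → ℂ}
    (hf : ∀ k, ‖f k‖ ≤ F k) (hg : ∀ k, ‖g k‖ ≤ F k) (hw : ∀ k, ‖w k‖ ≤ F k) :
    ‖Tr φ B f g w‖ ≤ 3 * (((∑ k ∈ B, if cl k ≤ n₀ then F k else 0)
      + X * 2 ^ n * √(∑ k ∈ B, if n₀ < cl k ∧ cl k ≤ n then F k ^ 2 else 0)) * ∑ k ∈ B, F k ^ 2)
      + 16 * X / 2 ^ n * (√(∑ k ∈ B, F k ^ 2) * ∑ k ∈ B, nn k ^ 2 * F k ^ 2) := by
  have hz : ∀ {v : K → ℂ}, (∀ k, ‖v k‖ ≤ F k) → ∀ k, k ∉ B → v k = 0 := by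
    intro v hv k hk
    have := hv k
    rw [hFB k hk] at this
    exact norm_le_zero_iff.1 this
  have hf0 := hz hf
  have hg0 := hz hg
  have hw0 := hz hw
  set L := ((∑ k ∈ B, if cl k ≤ n₀ then F k else 0)
      + X * 2 ^ n * √(∑ k ∈ B, if n₀ < cl k ∧ cl k ≤ n then F k ^ 2 else 0)) with hL
  set A := ∑ k ∈ B, F k ^ 2 with hA
  have hA0 : 0 ≤ A := Finset.sum_nonneg fun _ _ => sq_nonneg _
  have hFn : ∀ k, 0 ≤ F k := fun k => (norm_nonneg _).trans (hf k)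
  have hL0 : 0 ≤ L := by
    have h1 : 0 ≤ ∑ k ∈ B, if cl k ≤ n₀ then F k else 0 :=
      Finset.sum_nonneg fun k _ => by split_ifs; exacts [hFn k, le_rfl]
    positivity
  have hmul : ∀ (v : K → ℂ), (∀ k, ‖v k‖ ≤ F k) → Mul φ B (lo n v) L := fun v hv =>
    mul_lo hφ hX hn h hv (hz hv)
  have hhi : ∀ (v : K → ℂ), (∀ k, ‖v k‖ ≤ F k) → ∀ k, ‖hi n v k‖ ≤ F k := fun v hv k =>
    (norm_rs_le _ v k).trans (hv k)
  have hn2 : ∀ (v : K → ℂ), (∀ k, ‖v k‖ ≤ F k) → n2 B v ≤ √A := fun v hv => n2_le hv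
  have fin : ∀ {T p q : ℝ}, T ≤ L * (p * q) → 0 ≤ p → 0 ≤ q → p ≤ √A → q ≤ √A → T ≤ L * A := by
    intro T p q hT hp hq h1 h2
    have h3 : p * q ≤ A := by
      calc p * q ≤ √A * √A := mul_le_mul h1 h2 hq (Real.sqrt_nonneg _)
        _ = _ := Real.mul_self_sqrt hA0
    exact hT.trans (mul_le_mul_of_nonneg_left h3 hL0)
  have e : Tr φ B f g w = Tr φ B (lo n f) g w + Tr φ B (hi n f) (lo n g) w
      + Tr φ B (hi n f) (hi n g) (lo n w) + Tr φ B (hi n f) (hi n g) (hi n w) := by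
    conv_lhs => rw [lo_hi n f, Tr_add1]
    conv_lhs => rw [lo_hi n g, Tr_add2 (y := hi n f), ← lo_hi n g]
    conv_lhs => rw [lo_hi n w, Tr_add3 (y := hi n f) (z := hi n g), ← lo_hi n w]
    ring
  rw [e]
  have b1 := fin ((hmul f hf).2 g w hg0 hw0) (n2_nonneg _ _) (n2_nonneg _ _) (hn2 g hg) (hn2 w hw)
  have b2 := fin ((hmul g hg).slot2 hφ (rs_supp hf0 (fun a => ¬ a ≤ n)) hw0) (n2_nonneg _ _)
    (n2_nonneg _ _) (hn2 _ (hhi f hf)) (hn2 w hw)
  have b3 := fin ((hmul w hw).slot3 hφ hB (rs_supp hf0 (fun a => ¬ a ≤ n))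
    (rs_supp hg0 (fun a => ¬ a ≤ n))) (n2_nonneg _ _)
    (n2_nonneg _ _) (hn2 _ (hhi f hf)) (hn2 _ (hhi g hg))
  have hcut : ∀ (v : K → ℂ) k, cl k ≤ n → hi n v k = 0 := by
    intro v k hk
    simp only [hi, rs]
    rw [if_neg (not_not.2 hk)]
  have b4 := tri_high hφ hX h hB hF0 (hhi f hf) (hhi g hg) (hhi w hw) (rs_supp hf0 _) (rs_supp hg0 _)
    (rs_supp hw0 _) (hcut f) (hcut g) (hcut w)
  have b5 := norm_add_le (Tr φ B (lo n f) g w + Tr φ B (hi n f) (lo n g) w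
      + Tr φ B (hi n f) (hi n g) (lo n w)) (Tr φ B (hi n f) (hi n g) (hi n w))
  have b6 := norm_add_le (Tr φ B (lo n f) g w + Tr φ B (hi n f) (lo n g) w)
    (Tr φ B (hi n f) (hi n g) (lo n w))
  have b7 := norm_add_le (Tr φ B (lo n f) g w) (Tr φ B (hi n f) (lo n g) w)
  linarith

end Pool.Agent.K1H29.NC
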