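import Pool.Agent.K1H29.NC.W2

/-!
# The weighted Galerkin system: existence of trajectories, uniform bounds
-/

open Set ComplexConjugate MeasureTheory

namespace Pool.Agent.K1H29.NC

open Pool.Agent.H356R3.NS hiding Sol
open Pool.Agent.K1H29.SH (nn nn_nonneg nn_neg ipc ipc_bt abs_le_nn dt_sub norm_ipc_le norm_dt_le tri mem_tri
  en en_nonneg norm_sq_le_en nn_sub_le nn_le_nk nk_le_two_nn one_le_nn nn_eq_zero en_deriv ipc_add_left
  ipc_smul_left ipc_self mvi ext ext_of_mem ext_of_notMem dt_add' dt_smul_real Esp ext_contDiff)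
open Pool.Agent.K1H29.RD (Es Es_nonneg dec sum_m_ge)

/-- A trajectory of the weighted Galerkin system with the frequencies in `B`. -/
structure GalW (φ : K → K → ℝ) (m : K → ℝ) (B : Finset K) (T : ℝ) (V : K → C3) (u : ℝ → K → C3) :
    Prop where
  symB : ∀ k ∈ B, -k ∈ B
  supp : ∀ t ∈ Icc 0 T, ∀ k, k ∉ B → u t k = 0
  sym : ∀ t ∈ Icc 0 T, Sym (u t)
  div : ∀ t ∈ Icc 0 T, ∀ k, dt k (u t k) = 0
  init : ∀ k ∈ B, u 0 k = V k
  der : ∀ k ∈ B, ∀ t ∈ Icc 0 T,
    HasDerivWithinAt (fun s => u s k) (-(m k) • u t k + Bw φ (u t) (u t) k) (Icc 0 T) t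

variable {φ : K → K → ℝ} {m : K → ℝ} {B : Finset K} {T : ℝ} {V : K → C3} {u : ℝ → K → C3}

lemma GalW.dW (h : GalW φ m B T V u) (w : K → ℝ) {t : ℝ} (ht : t ∈ Icc 0 T) :
    HasDerivWithinAt (fun s => ∑ k ∈ B, w k * en (u s k))
      (-(2 * ∑ k ∈ B, w k * (m k * en (u t k))) +
        ∑ k ∈ B, w k * (2 * (ipc (Bw φ (u t) (u t) k) (u t k)).re)) (Icc 0 T) t := by
  have h1 : HasDerivWithinAt (fun s => ∑ k ∈ B, w k * en (u s k))
      (∑ k ∈ B, w k * (2 * (ipc (-(m k) • u t k + Bw φ (u t) (u t) k) (u t k)).re)) (Icc 0 T) t :=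
    HasDerivWithinAt.fun_sum fun k hk => (en_deriv (h.der k hk t ht)).const_mul (w k)
  refine h1.congr_deriv ?_
  rw [Finset.mul_sum, ← Finset.sum_neg_distrib, ← Finset.sum_add_distrib]
  refine Finset.sum_congr rfl fun k _ => ?_
  rw [ipc_add_left, ipc_smul_left, ipc_self, Complex.add_re, ← Complex.ofReal_mul,
    Complex.ofReal_re]
  ring

lemma GalW.energy (h : GalW φ m B T V u) (hφ : Wt φ) (hm : ∀ k, 0 ≤ m k) {t : ℝ} (ht : t ∈ Icc 0 T) :
    ∑ k ∈ B, en (u t k) ≤ ∑ k ∈ B, en (V k) := by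
  have h1 := mvi (f := fun s => ∑ k ∈ B, (fun _ => (1 : ℝ)) k * en (u s k)) (K := 0)
    (fun s hs => h.dW (fun _ => 1) hs) le_rfl ht.1 ht.2 (fun s hs => by
      have hs' : s ∈ Icc 0 T := ⟨hs.1, hs.2.trans ht.2⟩
      have h2 := flux_zero hφ h.symB (h.supp s hs') (h.sym s hs') (h.div s hs') 1
      rw [h2, add_zero]
      have : 0 ≤ ∑ k ∈ B, (1 : ℝ) * (m k * en (u s k)) :=
        Finset.sum_nonneg fun k _ => by rw [one_mul]; exact mul_nonneg (hm k) (en_nonneg _)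
      linarith)
  simp only [one_mul, zero_mul] at h1
  have h4 : ∑ k ∈ B, en (u 0 k) = ∑ k ∈ B, en (V k) :=
    Finset.sum_congr rfl fun k hk => by rw [h.init k hk]
  linarith

/-! ### existence -/

variable (B φ m) in
/-- the vector field -/
noncomputable def Vfw (x : B → C3) : B → C3 :=
  fun k => -(m k) • x k + Bw φ (ext B x) (ext B x) k

lemma Vfw_contDiff : ContDiff ℝ 1 (Vfw φ m B) := by
  rw [contDiff_pi]
  intro k
  rw [contDiff_pi]
  intro i
  have h1 : (fun x : B → C3 => Vfw φ m B x k i)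
      = fun x => -(m k) • x k i + ∑ l ∈ B, (φ l k : ℂ) * ∑ j, ∑ j', coef k i j j' *
        (ext B x l j * ext B x (k - l) j') := by
    funext x
    unfold Vfw
    rw [Bw_eq_sum (B := B) (fun k hk => ext_of_notMem x hk)]
    simp only [Pi.add_apply, Pi.smul_apply, Finset.sum_apply]
    rfl
  rw [h1]
  refine ContDiff.add ?_ ?_
  · fun_prop
  · refine ContDiff.sum fun l _ => contDiff_const.mul (ContDiff.sum fun j _ => ContDiff.sum fun j' _ => ?_)
    exact contDiff_const.mul ((ext_contDiff l j).mul (ext_contDiff _ j'))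

lemma Vfw_mem (hφ : Wt φ) (hm : ∀ k, m (-k) = m k) (hB : ∀ k ∈ B, -k ∈ B) {x : B → C3}
    (hx : x ∈ Esp B) : Vfw φ m B x ∈ Esp B := by
  have hext : ∀ k, ext B (Vfw φ m B x) k
      = if k ∈ B then -(m k) • ext B x k + Bw φ (ext B x) (ext B x) k else 0 := by
    intro k
    unfold Vfw
    by_cases h : k ∈ B
    · rw [ext_of_mem _ h, if_pos h, ext_of_mem x h]
    · rw [ext_of_notMem _ h, if_neg h]
  have hBn : ∀ k, -k ∈ B ↔ k ∈ B := fun k => ⟨fun h => by simpa using hB _ h, hB k⟩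
  refine ⟨fun k i => ?_, fun k => ?_⟩
  · rw [hext, hext]
    by_cases h : k ∈ B
    · rw [if_pos h, if_pos ((hBn k).2 h)]
      have h1 := Bw_sym hφ hx.1 hx.1 k i
      have h2 := hx.1 k i
      simp only [Pi.add_apply, Pi.smul_apply, h1, h2, hm]
      simp
    · rw [if_neg h, if_neg (fun h' => h ((hBn k).1 h'))]; simp
  · rw [hext]
    split_ifs with h
    · rw [dt_add', dt_smul_real, hx.2, Bw_div]; simp
    · simp [dt]

theorem exists_galW (hφ : Wt φ) (hm0 : ∀ k, 0 ≤ m k) (hm : ∀ k, m (-k) = m k)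
    (hB : ∀ k ∈ B, -k ∈ B) (hVs : Sym V) (hVd : ∀ k, dt k (V k) = 0) (hT : 0 < T) :
    ∃ u, GalW φ m B T V u := by
  classical
  have hBn : ∀ k, -k ∈ B ↔ k ∈ B := fun k => ⟨fun h => by simpa using hB _ h, hB k⟩
  let X : Esp B → Esp B := fun x => ⟨Vfw φ m B x, Vfw_mem hφ hm hB x.2⟩
  have hlip : ∀ r : ℝ, ∃ K : NNReal, LipschitzOnWith K X (Metric.closedBall 0 r) := by
    intro r
    have h1 : LocallyLipschitzOn (Metric.closedBall (0 : B → C3) r) (Vfw φ m B) :=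
      (Vfw_contDiff).locallyLipschitz.locallyLipschitzOn
    obtain ⟨K, hK⟩ := LocallyLipschitzOn.exists_lipschitzOnWith_of_compact
      (isCompact_closedBall (0 : B → C3) r) h1
    refine ⟨K, fun x hx y hy => ?_⟩
    exact hK (x := (x : B → C3)) (by simpa using hx) (y := (y : B → C3)) (by simpa using hy)
  let x0' : B → C3 := fun k => V k
  have hx0 : x0' ∈ Esp B := by
    have hext : ∀ k, ext B x0' k = if k ∈ B then V k else 0 := by
      intro k
      by_cases h : k ∈ B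
      · rw [ext_of_mem _ h, if_pos h]
      · rw [ext_of_notMem _ h, if_neg h]
    refine ⟨fun k i => ?_, fun k => ?_⟩
    · rw [hext, hext]
      by_cases h : k ∈ B
      · rw [if_pos h, if_pos ((hBn k).2 h)]; exact hVs k i
      · rw [if_neg h, if_neg (fun h' => h ((hBn k).1 h'))]; simp
    · rw [hext]
      split_ifs
      · exact hVd k
      · simp [dt]
  let x0 : Esp B := ⟨x0', hx0⟩
  have hgal : ∀ (T' : ℝ) (x : ℝ → Esp B), 0 < T' → x 0 = x0 →
      (∀ t ∈ Icc 0 T', HasDerivWithinAt x (X (x t)) (Icc 0 T') t) →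
      GalW φ m B T' V (fun t => ext B (x t)) := by
    intro T' x _ hx0 hx
    refine ⟨hB, fun t _ k hk => ext_of_notMem _ hk, fun t _ => (x t).2.1, fun t _ => (x t).2.2,
      fun k hk => ?_, fun k hk t ht => ?_⟩
    · rw [hx0, ext_of_mem _ hk]
    · have h1 : HasDerivWithinAt (fun s => ((x s : Esp B) : B → C3)) (Vfw φ m B (x t)) (Icc 0 T') t :=
        ((Esp B).subtypeL.hasFDerivAt.comp_hasDerivWithinAt t (hx t ht))
      have h2 := hasDerivWithinAt_pi.1 h1 ⟨k, hk⟩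
      have e1 : (fun s => ext B (x s) k) = fun s => ((x s : Esp B) : B → C3) ⟨k, hk⟩ := by
        funext s; rw [ext_of_mem _ hk]
      rw [e1]
      refine h2.congr_deriv ?_
      unfold Vfw
      rw [ext_of_mem _ hk]
  set r : ℝ := √(∑ k ∈ B, en (V k)) with hr
  obtain ⟨x, hx0', hx⟩ := Pool.Agent.K1H29.SH.Ode.exists_sol X hlip x0 T r hT (fun T' x hT' _ h0 hx t ht => by
    have hG := hgal T' x hT' h0 hx
    have hE := hG.energy hφ hm0 ht
    have h3 : ‖((x t : Esp B) : B → C3)‖ ≤ r := by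
      rw [pi_norm_le_iff_of_nonneg (Real.sqrt_nonneg _)]
      intro k
      apply Real.le_sqrt_of_sq_le
      have h4 : ‖(x t : B → C3) k‖ ^ 2 ≤ en (ext B (x t) k) := by
        rw [ext_of_mem _ k.2]; exact norm_sq_le_en _
      refine h4.trans (le_trans ?_ hE)
      exact Finset.single_le_sum (f := fun k => en (ext B (x t) k)) (fun _ _ => en_nonneg _) k.2
    exact h3)
  exact ⟨_, hgal T x hT hx0' hx⟩

/-! ### enstrophy -/

lemma GalW.bal0 (h : GalW φ m B T V u) (hφ : Wt φ) {m0 : ℝ} (hm : ∀ k, m0 * nn k ^ 2 ≤ m k) :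
    ∃ D : ℝ → ℝ, ∀ t ∈ Icc 0 T, HasDerivWithinAt (fun s => Es 0 B (u s)) (D t) (Icc 0 T) t ∧
      D t ≤ -(2 * (m0 * Es 1 B (u t))) := by
  refine ⟨_, fun t ht => ⟨h.dW (fun k => nn k ^ (2 * 0)) ht, ?_⟩⟩
  have h2 := flux_zero hφ h.symB (h.supp t ht) (h.sym t ht) (h.div t ht) 1
  have h3 : ∑ k ∈ B, nn k ^ (2 * 0) * (2 * (ipc (Bw φ (u t) (u t) k) (u t k)).re) = 0 := by
    rw [← h2]
    exact Finset.sum_congr rfl fun k _ => by simp
  rw [h3, add_zero]
  have := sum_m_ge (B := B) hm 0 (u t)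
  linarith

/-- the enstrophy -/
noncomputable def Qe (B : Finset K) (u : K → C3) : ℝ := ∑ k ∈ B, Pool.Agent.H356R3.NS.sq k * en (u k)

lemma Es_le_Qe (B : Finset K) (u : K → C3) : Es 1 B u ≤ Qe B u := by
  refine Finset.sum_le_sum fun k _ => mul_le_mul_of_nonneg_right ?_ (en_nonneg _)
  rw [mul_one, ← nk_sq]
  exact pow_le_pow_left₀ (nn_nonneg k) (nn_le_nk k) 2

lemma Qe_le_Es (B : Finset K) (u : K → C3) : Qe B u ≤ 4 * Es 1 B u := by
  unfold Qe Es
  rw [Finset.mul_sum]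
  refine Finset.sum_le_sum fun k _ => ?_
  rw [← mul_assoc]
  refine mul_le_mul_of_nonneg_right ?_ (en_nonneg _)
  rw [mul_one, ← nk_sq]
  have := pow_le_pow_left₀ (nk_nonneg k) (nk_le_two_nn k) 2
  linarith [this, show (2 * nn k) ^ 2 = 4 * nn k ^ 2 by ring]

theorem enstrophy_boundW (hφ : Wt φ) {CT : ℝ} (hT : Tri φ CT) {m0 : ℝ} (hm0 : 0 < m0)
    (hm : ∀ k, m0 * nn k ^ 2 ≤ m k) : ∃ c : ℝ, 0 ≤ c ∧
    ∀ (B : Finset K) (T : ℝ) (V : K → C3) (u : ℝ → K → C3), GalW φ m B T V u →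
      ∃ H H' : ℝ → ℝ, (∀ t ∈ Icc 0 T, HasDerivWithinAt H (H' t) (Icc 0 T) t) ∧
        (∀ t ∈ Icc 0 T, H' t ≤ -(m0 * Es 2 B (u t))) ∧ (∀ t, Es 1 B (u t) ≤ H t) ∧
        H 0 = Qe B (u 0) * Real.exp (c * Es 0 B (u 0)) := by
  have hpi := Real.pi_pos
  set C := 54 * Real.pi * CT with hC
  have hC0 : 0 ≤ C := mul_nonneg (by positivity) hT.1
  set c : ℝ := C ^ 2 / m0 / (2 * m0) with hc
  have hc0 : 0 ≤ c := by positivity
  refine ⟨c, hc0, fun B T V u h => ?_⟩
  obtain ⟨D0, hD0⟩ := h.bal0 hφ hm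
  set D1 : ℝ → ℝ := fun t => -(2 * ∑ k ∈ B, Pool.Agent.H356R3.NS.sq k * (m k * en (u t k))) +
        ∑ k ∈ B, Pool.Agent.H356R3.NS.sq k * (2 * (ipc (Bw φ (u t) (u t) k) (u t k)).re) with hD1
  have hD1d : ∀ t ∈ Icc 0 T, HasDerivWithinAt (fun s => Qe B (u s)) (D1 t) (Icc 0 T) t :=
    fun t ht => h.dW Pool.Agent.H356R3.NS.sq ht
  have hD1b : ∀ t ∈ Icc 0 T, D1 t + 2 * (m0 * Es 2 B (u t)) ≤ 2 * C * (Es 1 B (u t) * √(Es 2 B (u t))) := by
    intro t ht
    have h1 := enst_flux hφ hT h.symB (h.supp t ht) (h.sym t ht) (h.div t ht)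
    have h2 := (le_abs_self _).trans h1
    have h3 : m0 * Es 2 B (u t) ≤ ∑ k ∈ B, Pool.Agent.H356R3.NS.sq k * (m k * en (u t k)) := by
      unfold Es
      rw [Finset.mul_sum]
      refine Finset.sum_le_sum fun k _ => ?_
      have h4 : nn k ^ 2 ≤ Pool.Agent.H356R3.NS.sq k := by
        rw [← nk_sq]; exact pow_le_pow_left₀ (nn_nonneg k) (nn_le_nk k) 2
      have h5 : 0 ≤ nn k ^ 2 := sq_nonneg _
      calc m0 * (nn k ^ (2 * 2) * en (u t k)) = nn k ^ 2 * ((m0 * nn k ^ 2) * en (u t k)) := by ring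
        _ ≤ nn k ^ 2 * (m k * en (u t k)) :=
            mul_le_mul_of_nonneg_left (mul_le_mul_of_nonneg_right (hm k) (en_nonneg _)) h5
        _ ≤ _ := mul_le_mul_of_nonneg_right h4
            (mul_nonneg (le_trans (mul_nonneg hm0.le h5) (hm k)) (en_nonneg _))
    have h6 : 108 * Real.pi * CT * (Es 1 B (u t) * √(Es 2 B (u t)))
        = 2 * C * (Es 1 B (u t) * √(Es 2 B (u t))) := by rw [hC]; ring
    rw [h6] at h2
    simp only [hD1]
    linarith
  refine ⟨fun t => Qe B (u t) * Real.exp (c * Es 0 B (u t)),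
    fun t => D1 t * Real.exp (c * Es 0 B (u t))
      + Qe B (u t) * (Real.exp (c * Es 0 B (u t)) * (c * D0 t)), fun t ht => ?_, fun t ht => ?_,
      fun t => ?_, rfl⟩
  · exact (hD1d t ht).mul ((hD0 t ht).1.const_mul c).exp
  · have h1 := hD1b t ht
    have h2 := (hD0 t ht).2
    have hE1 := Es_nonneg 1 B (u t)
    have hE2 := Es_nonneg 2 B (u t)
    have hE0 := Es_nonneg 0 B (u t)
    have hQ := Es_le_Qe B (u t)
    set E1 := Es 1 B (u t)
    set E2 := Es 2 B (u t)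
    set Q := Qe B (u t)
    have h3 : √E2 ^ 2 = E2 := Real.sq_sqrt hE2
    have h4 : D1 t ≤ -(m0 * E2) + C ^ 2 / m0 * (E1 * E1) := by
      have h5 : 0 ≤ m0 * (√E2 - C / m0 * E1) ^ 2 := by positivity
      have h6 : m0 * (√E2 - C / m0 * E1) ^ 2 = m0 * √E2 ^ 2 + C ^ 2 / m0 * (E1 * E1)
          - 2 * C * (E1 * √E2) := by field_simp; ring
      rw [h3] at h6
      linarith
    have h5 : D1 t + c * D0 t * Q ≤ -(m0 * E2) := by
      have h6 : c * D0 t ≤ -(C ^ 2 / m0 * E1) := by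
        have h7 : c * D0 t ≤ c * -(2 * (m0 * E1)) := mul_le_mul_of_nonneg_left h2 hc0
        have h8 : c * -(2 * (m0 * E1)) = -(C ^ 2 / m0 * E1) := by rw [hc]; field_simp
        linarith
      have h9 : c * D0 t * Q ≤ -(C ^ 2 / m0 * E1) * Q :=
        mul_le_mul_of_nonneg_right h6 (hE1.trans hQ)
      have h10 : C ^ 2 / m0 * (E1 * E1) ≤ C ^ 2 / m0 * (E1 * Q) := by
        apply mul_le_mul_of_nonneg_left _ (by positivity)
        exact mul_le_mul_of_nonneg_left hQ hE1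
      have : -(C ^ 2 / m0 * E1) * Q = -(C ^ 2 / m0 * (E1 * Q)) := by ring
      linarith
    have h6 : 1 ≤ Real.exp (c * Es 0 B (u t)) := Real.one_le_exp (by positivity)
    have h7 : 0 ≤ m0 * E2 := by positivity
    calc D1 t * Real.exp (c * Es 0 B (u t)) + Q * (Real.exp (c * Es 0 B (u t)) * (c * D0 t))
        = (D1 t + c * D0 t * Q) * Real.exp (c * Es 0 B (u t)) := by ring
      _ ≤ -(m0 * E2) * Real.exp (c * Es 0 B (u t)) :=
          mul_le_mul_of_nonneg_right h5 (Real.exp_pos _).le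
      _ ≤ -(m0 * E2) * 1 := by nlinarith
      _ = _ := by ring
  · have h6 : 1 ≤ Real.exp (c * Es 0 B (u t)) :=
      Real.one_le_exp (mul_nonneg hc0 (Es_nonneg _ _ _))
    have h7 := (Es_nonneg 1 B (u t)).trans (Es_le_Qe B (u t))
    exact (Es_le_Qe B (u t)).trans (le_mul_of_one_le_right h7 h6)

end Pool.Agent.K1H29.NC
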