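import Pool.Agent.K1H29.NC.I1
import Pool.Agent.K1H29.NC.W3

/-!
# The fluxes if the block inequality holds at one scale
-/

open Set ComplexConjugate MeasureTheory

namespace Pool.Agent.K1H29.NC

open Pool.Agent.H356R3.NS hiding Sol
open Pool.Agent.K1H29.SH (nn nn_nonneg nn_neg ipc ipc_bt abs_le_nn dt_sub norm_ipc_le norm_dt_le tri mem_tri
  en en_nonneg norm_sq_le_en nn_sub_le nn_le_nk nk_le_two_nn one_le_nn nn_eq_zero)
open Pool.Agent.K1H29.RD (Es Es_nonneg)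

variable {φ : K → K → ℝ} {B : Finset K} {u : K → C3}

/-! ### the enstrophy -/

/-- the flux of the enstrophy is bounded by the trilinear forms of the derivatives -/
theorem enst_flux_gen (hφ : Wt φ) {G : ℝ} (hG : ∀ f g h : K → ℂ, (∀ k, ‖f k‖ ≤ nn k * ‖u k‖) →
      (∀ k, ‖g k‖ ≤ nn k * ‖u k‖) → (∀ k, ‖h k‖ ≤ nn k * ‖u k‖) → ‖Tr φ B f g h‖ ≤ G)
    (hB : ∀ k ∈ B, -k ∈ B) (hs : ∀ k, k ∉ B → u k = 0) (hsym : Sym u) (hdiv : ∀ k, dt k (u k) = 0) :
    |∑ k ∈ B, Pool.Agent.H356R3.NS.sq k * (2 * (ipc (Bw φ u u k) (u k)).re)| ≤ 108 * Real.pi * G := by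
  rw [flux_eq hs hdiv]
  refine (Complex.abs_re_le_norm _).trans ?_
  have h2 := flux_two hφ hB hsym hdiv (w := Pool.Agent.H356R3.NS.sq) (fun k => sq_neg k)
  set S : ℂ := ∑ p ∈ tri B, (Pool.Agent.H356R3.NS.sq p.1 : ℂ) * TT' φ u p.1 p.2
  have h6 : -(4 * (Real.pi : ℂ) * Complex.I) * S = (-(2 * Real.pi * Complex.I)) * (2 * S) := by ring
  rw [h6, norm_mul]
  have h7 : ‖-(2 * (Real.pi : ℂ) * Complex.I)‖ = 2 * Real.pi := by
    rw [norm_neg, norm_mul, norm_mul, Complex.norm_I, Complex.norm_real]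
    simp [abs_of_pos Real.pi_pos]
  rw [h7, h2, enst_id hs hdiv]
  have hpi := Real.pi_pos
  have h8 : ‖∑ a, ∑ j, ∑ i, (Tr φ B (Dc u a j) (Dc u j i) (Dc u a i)
      + Tr φ B (Dc u a j) (Dc u a i) (Dc u j i))‖ ≤ 54 * G := by
    refine (norm_sum_le _ _).trans ((Finset.sum_le_sum fun a _ => (norm_sum_le _ _).trans
      (Finset.sum_le_sum fun j _ => (norm_sum_le _ _).trans (Finset.sum_le_sum fun i _ =>
        (norm_add_le _ _).trans (add_le_add
          (hG _ _ _ (norm_Dc u a j) (norm_Dc u j i) (norm_Dc u a i))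
          (hG _ _ _ (norm_Dc u a j) (norm_Dc u a i) (norm_Dc u j i)))))).trans (le_of_eq ?_))
    simp only [Finset.sum_const, Finset.card_univ, Fintype.card_fin, nsmul_eq_mul]
    push_cast
    ring
  calc _ ≤ 2 * Real.pi * (54 * G) := mul_le_mul_of_nonneg_left h8 (by positivity)
    _ = _ := by ring

/-- the frequencies with `nn k ≤ 2 ^ n` -/
noncomputable def bx (n : ℕ) : Finset K := Fintype.piFinset fun _ => Finset.Icc (-(2 ^ n : ℤ)) (2 ^ n)

lemma mem_bx {n : ℕ} {k : K} : k ∈ bx n ↔ cl k ≤ n := by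
  rw [cl_le_iff]
  have : ((2 : ℝ) ^ n) = ((2 ^ n : ℕ) : ℝ) := by push_cast; ring
  rw [this, SH.nn_le_iff]
  unfold bx
  rw [Fintype.mem_piFinset]
  refine forall_congr' fun j => ?_
  rw [Finset.mem_Icc, abs_le]
  push_cast
  exact Iff.rfl

/-- the constant for the frequencies with `nn k ≤ 2 ^ n` -/
noncomputable def Kc (n : ℕ) : ℝ := 2 ^ n * (bx n).card

lemma Kc_nonneg (n : ℕ) : 0 ≤ Kc n := by unfold Kc; positivity

lemma low_l1 (n : ℕ) (B : Finset K) (u : K → C3) {E : ℝ} (hE : Es 0 B u ≤ E) :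
    (∑ k ∈ B, if cl k ≤ n then nn k * ‖u k‖ else 0) ≤ Kc n * √E := by
  classical
  have h1 : ∀ k ∈ B, ‖u k‖ ≤ √E := by
    intro k hk
    apply Real.le_sqrt_of_sq_le
    refine (norm_sq_le_en (u k)).trans (le_trans ?_ hE)
    unfold Es
    have := Finset.single_le_sum (f := fun k => nn k ^ (2 * 0) * en (u k))
      (fun k _ => mul_nonneg (pow_nonneg (nn_nonneg k) _) (en_nonneg _)) hk
    simpa using this
  rw [← Finset.sum_filter]
  calc ∑ k ∈ B.filter (fun k => cl k ≤ n), nn k * ‖u k‖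
      ≤ ∑ k ∈ B.filter (fun k => cl k ≤ n), 2 ^ n * √E := by
        refine Finset.sum_le_sum fun k hk => ?_
        rw [Finset.mem_filter] at hk
        exact mul_le_mul (cl_le_iff.1 hk.2) (h1 k hk.1) (norm_nonneg _) (by positivity)
    _ = ((B.filter (fun k => cl k ≤ n)).card : ℝ) * (2 ^ n * √E) := by
        rw [Finset.sum_const, nsmul_eq_mul]
    _ ≤ ((bx n).card : ℝ) * (2 ^ n * √E) := by
        apply mul_le_mul_of_nonneg_right _ (by positivity)
        exact_mod_cast Finset.card_le_card fun k hk => mem_bx.2 (Finset.mem_filter.1 hk).2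
    _ = _ := by unfold Kc; ring

/-- the energy of the frequencies with `nn k > 2 ^ n` -/
noncomputable def tail (n : ℕ) (B : Finset K) (u : K → C3) : ℝ := ∑ k ∈ B, if n < cl k then en (u k) else 0

lemma tail_nonneg (n : ℕ) (B : Finset K) (u : K → C3) : 0 ≤ tail n B u :=
  Finset.sum_nonneg fun k _ => by split_ifs; exacts [en_nonneg _, le_rfl]

lemma tail_anti {n m : ℕ} (h : n ≤ m) (B : Finset K) (u : K → C3) : tail m B u ≤ tail n B u :=
  Finset.sum_le_sum fun k _ => by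
    by_cases h1 : m < cl k
    · rw [if_pos h1, if_pos (by omega)]
    · rw [if_neg h1]; split_ifs; exacts [en_nonneg _, le_rfl]

/-- **The flux of the enstrophy**, if the block inequality holds at the scale `2 ^ n`. -/
theorem enst_flux_inf (hφ : Wt φ) {X : ℝ} (hX : 0 ≤ X) {n₀ n : ℕ} (hn : n₀ ≤ n) (h : BlkAt φ X n)
    (hB : ∀ k ∈ B, -k ∈ B) (hs : ∀ k, k ∉ B → u k = 0) (hsym : Sym u) (hdiv : ∀ k, dt k (u k) = 0)
    {E ε : ℝ} (hE : Es 0 B u ≤ E) (hε : tail n₀ B u ≤ ε ^ 2) (hε0 : 0 ≤ ε) :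
    |∑ k ∈ B, Pool.Agent.H356R3.NS.sq k * (2 * (ipc (Bw φ u u k) (u k)).re)|
      ≤ 324 * Real.pi * (Kc n₀ * √E + X * 4 ^ n * ε) * Es 1 B u
        + 1728 * Real.pi * X / 2 ^ n * (√(Es 1 B u) * Es 2 B u) := by
  have hpi := Real.pi_pos
  set F : K → ℝ := fun k => nn k * ‖u k‖ with hF
  have hF0 : ∀ k, k ∉ B → F k = 0 := fun k hk => by simp only [hF, hs k hk, norm_zero, mul_zero]
  have hF1 : F 0 = 0 := by simp only [hF, nn_eq_zero.2 rfl, zero_mul]
  have hE1 : ∑ k ∈ B, F k ^ 2 ≤ Es 1 B u := by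
    unfold Es
    refine Finset.sum_le_sum fun k _ => ?_
    have h5 := norm_sq_le_en (u k)
    have : 0 ≤ nn k ^ 2 := by positivity
    simp only [hF]
    rw [mul_pow]
    exact mul_le_mul_of_nonneg_left h5 this
  have hE2 : ∑ k ∈ B, nn k ^ 2 * F k ^ 2 ≤ Es 2 B u := by
    unfold Es
    refine Finset.sum_le_sum fun k _ => ?_
    have h5 := norm_sq_le_en (u k)
    have h6 : 0 ≤ nn k ^ (2 * 2) := pow_nonneg (nn_nonneg k) _
    simp only [hF]
    calc nn k ^ 2 * (nn k * ‖u k‖) ^ 2 = nn k ^ (2 * 2) * ‖u k‖ ^ 2 := by ring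
      _ ≤ _ := mul_le_mul_of_nonneg_left h5 h6
  have hL2 : √(∑ k ∈ B, if n₀ < cl k ∧ cl k ≤ n then F k ^ 2 else 0) ≤ 2 ^ n * ε := by
    rw [Real.sqrt_le_left (by positivity), mul_pow]
    refine le_trans ?_ (mul_le_mul_of_nonneg_left hε (by positivity))
    unfold tail
    rw [Finset.mul_sum]
    refine Finset.sum_le_sum fun k _ => ?_
    by_cases h1 : n₀ < cl k ∧ cl k ≤ n
    · rw [if_pos h1, if_pos h1.1]
      simp only [hF]
      rw [mul_pow]
      have h2 := cl_le_iff.1 h1.2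
      exact mul_le_mul (pow_le_pow_left₀ (nn_nonneg k) h2 2) (norm_sq_le_en (u k)) (by positivity)
        (by positivity)
    · rw [if_neg h1]
      split_ifs
      · have := en_nonneg (u k); positivity
      · simp
  have hL1 := low_l1 n₀ B u hE
  have hEs1 := Es_nonneg 1 B u
  have hEs2 := Es_nonneg 2 B u
  have hL0 : 0 ≤ ∑ k ∈ B, if cl k ≤ n₀ then F k else 0 := Finset.sum_nonneg fun k _ => by
    split_ifs
    · have := nn_nonneg k; simp only [hF]; positivity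
    · exact le_rfl
  have hG : ∀ f g h : K → ℂ, (∀ k, ‖f k‖ ≤ F k) → (∀ k, ‖g k‖ ≤ F k) → (∀ k, ‖h k‖ ≤ F k) →
      ‖Tr φ B f g h‖ ≤ 3 * ((Kc n₀ * √E + X * 4 ^ n * ε) * Es 1 B u)
        + 16 * X / 2 ^ n * (√(Es 1 B u) * Es 2 B u) := by
    intro f g w hf hg hw
    refine (tri_inf hφ hX hn h hB hF0 hF1 hf hg hw).trans ?_
    apply add_le_add
    · apply mul_le_mul_of_nonneg_left _ (by norm_num)
      apply mul_le_mul _ hE1 (Finset.sum_nonneg fun _ _ => sq_nonneg _)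
      · have := Kc_nonneg n₀
        positivity
      · apply add_le_add hL1
        calc X * 2 ^ n * √(∑ k ∈ B, if n₀ < cl k ∧ cl k ≤ n then F k ^ 2 else 0)
            ≤ X * 2 ^ n * (2 ^ n * ε) := mul_le_mul_of_nonneg_left hL2 (by positivity)
          _ = X * (2 ^ n * 2 ^ n) * ε := by ring
          _ = _ := by rw [← mul_pow]; norm_num
    · apply mul_le_mul_of_nonneg_left _ (by positivity)
      exact mul_le_mul (Real.sqrt_le_sqrt hE1) hE2 (Finset.sum_nonneg fun k _ => by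
        have := nn_nonneg k; positivity) (Real.sqrt_nonneg _)
  refine (enst_flux_gen hφ hG hB hs hsym hdiv).trans (le_of_eq ?_)
  ring

/-! ### the energy -/

/-- a component -/
def Uc (u : K → C3) (j : Fin 3) (k : K) : ℂ := u k j

lemma Uc_supp (hs : ∀ k, k ∉ B → u k = 0) (j : Fin 3) : ∀ k, k ∉ B → Uc u j k = 0 := fun k hk => by
  unfold Uc; rw [hs k hk]; rfl

lemma Dc_supp (hs : ∀ k, k ∉ B → u k = 0) (a j : Fin 3) : ∀ k, k ∉ B → Dc u a j k = 0 := fun k hk => by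
  unfold Dc; rw [hs k hk]; simp

lemma norm_Uc (u : K → C3) (j : Fin 3) (k : K) : ‖Uc u j k‖ ≤ √(en (u k)) := by
  apply Real.le_sqrt_of_sq_le
  refine le_trans ?_ (norm_sq_le_en (u k))
  exact pow_le_pow_left₀ (norm_nonneg _) (norm_le_pi_norm _ j) 2

lemma norm_Dc' (u : K → C3) (a j : Fin 3) (k : K) : ‖Dc u a j k‖ ≤ nn k * √(en (u k)) := by
  refine (norm_Dc u a j k).trans (mul_le_mul_of_nonneg_left ?_ (nn_nonneg k))
  exact Real.le_sqrt_of_sq_le (norm_sq_le_en (u k))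

lemma n2_Uc (p : ℕ → Prop) [DecidablePred p] (B : Finset K) (u : K → C3) (j : Fin 3) :
    n2 B (rs p (Uc u j)) ≤ √(∑ k ∈ B, if p (cl k) then en (u k) else 0) := by
  refine (n2_rs_le (norm_Uc u j) p).trans (le_of_eq ?_)
  congr 1
  exact Finset.sum_congr rfl fun k _ => by rw [Real.sq_sqrt (en_nonneg _)]

lemma n2_Dc (p : ℕ → Prop) [DecidablePred p] (B : Finset K) (u : K → C3) (a j : Fin 3) :
    n2 B (rs p (Dc u a j)) ≤ √(∑ k ∈ B, if p (cl k) then nn k ^ 2 * en (u k) else 0) := by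
  refine (n2_rs_le (norm_Dc' u a j) p).trans (le_of_eq ?_)
  congr 1
  exact Finset.sum_congr rfl fun k _ => by rw [mul_pow, Real.sq_sqrt (en_nonneg _)]

/-- the flux of the energy through the scale `2 ^ n`, as trilinear forms -/
lemma hi_id (hs : ∀ k, k ∉ B → u k = 0) (hdiv : ∀ k, dt k (u k) = 0) (n : ℕ) :
    ∑ p ∈ tri B, (((if n < cl p.1 then (1 : ℝ) else 0) - (if n < cl (p.1 - p.2) then (1 : ℝ) else 0) : ℝ) : ℂ)
        * TT' φ u p.1 p.2
      = ∑ j, ∑ i, (Tr φ B (Uc u j) (lo n (Dc u j i)) (hi n (Uc u i))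
          - Tr φ B (Uc u j) (hi n (Uc u i)) (lo n (Dc u j i))) := by
  have hg1 : ∀ j i, ∀ k, k ∉ B → lo n (Dc u j i) k = 0 := fun j i => rs_supp (Dc_supp hs j i) _
  have hg2 : ∀ i, ∀ k, k ∉ B → hi n (Uc u i) k = 0 := fun i => rs_supp (Uc_supp hs i) _
  simp only [Tr_tri (hg1 _ _), Tr_tri (hg2 _)]
  simp only [← Finset.sum_sub_distrib]
  have e1 : ∀ (G : Fin 3 → Fin 3 → K × K → ℂ), ∑ j, ∑ i, ∑ p ∈ tri B, G j i p = ∑ p ∈ tri B, ∑ j, ∑ i, G j i p := by
    intro G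
    rw [Finset.sum_comm (s := tri B)]
    refine Finset.sum_congr rfl fun a _ => ?_
    exact Finset.sum_comm
  rw [e1]
  refine Finset.sum_congr rfl fun p _ => ?_
  obtain ⟨k, l⟩ := p
  simp only
  have h1 : dt k (u l) = ∑ j, ((k - l) j : ℂ) * u l j := by
    have h2 : dt k (u l) = dt (k - l) (u l) := by rw [dt_sub, hdiv l, sub_zero]
    rw [h2]; rfl
  have h2 : dt k (u l) = ∑ j, (k j : ℂ) * u l j := rfl
  unfold TT'
  have h4 : (((if n < cl k then (1 : ℝ) else 0) - (if n < cl (k - l) then (1 : ℝ) else 0) : ℝ) : ℂ)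
      = (if n < cl k ∧ cl (k - l) ≤ n then 1 else 0) - (if cl k ≤ n ∧ n < cl (k - l) then 1 else 0) := by
    rcases le_or_gt (cl k) n with h3 | h3 <;> rcases le_or_gt (cl (k - l)) n with h5 | h5 <;>
      simp [h3, h5, not_lt.2, not_le.2]
  rw [h4, sub_mul]
  have e2 : (if n < cl k ∧ cl (k - l) ≤ n then (1 : ℂ) else 0) *
      ((φ l k : ℂ) * (dt k (u l) * ipc (u (k - l)) (u k)))
      = ∑ j, ∑ i, (φ l k : ℂ) * (Uc u j l * lo n (Dc u j i) (k - l) * conj (hi n (Uc u i) k)) := by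
    rw [h1]
    unfold ipc
    rw [Finset.sum_mul_sum, Finset.mul_sum, Finset.mul_sum]
    refine Finset.sum_congr rfl fun j _ => ?_
    rw [Finset.mul_sum, Finset.mul_sum]
    refine Finset.sum_congr rfl fun i _ => ?_
    simp only [lo, hi, rs, Uc, Dc]
    rcases le_or_gt (cl k) n with h3 | h3 <;> rcases le_or_gt (cl (k - l)) n with h5 | h5 <;>
      simp [h3, h5, not_lt.2, not_le.2, -mul_eq_mul_left_iff, -mul_eq_mul_right_iff]
    ring
  have e3 : (if cl k ≤ n ∧ n < cl (k - l) then (1 : ℂ) else 0) *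
      ((φ l k : ℂ) * (dt k (u l) * ipc (u (k - l)) (u k)))
      = ∑ j, ∑ i, (φ l k : ℂ) * (Uc u j l * hi n (Uc u i) (k - l) * conj (lo n (Dc u j i) k)) := by
    rw [h2]
    unfold ipc
    rw [Finset.sum_mul_sum, Finset.mul_sum, Finset.mul_sum]
    refine Finset.sum_congr rfl fun j _ => ?_
    rw [Finset.mul_sum, Finset.mul_sum]
    refine Finset.sum_congr rfl fun i _ => ?_
    simp only [lo, hi, rs, Uc, Dc]
    rcases le_or_gt (cl k) n with h3 | h3 <;> rcases le_or_gt (cl (k - l)) n with h5 | h5 <;>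
      simp [h3, h5, not_lt.2, not_le.2, -mul_eq_mul_left_iff, -mul_eq_mul_right_iff]
    ring
  rw [e2, e3, ← Finset.sum_sub_distrib]
  refine Finset.sum_congr rfl fun j _ => ?_
  rw [← Finset.sum_sub_distrib]

/-- the two halves of the flux have the same modulus -/
lemma halves (hφ : Wt φ) (hs : ∀ k, k ∉ B → u k = 0) (hsym : Sym u) (n : ℕ) (j i : Fin 3) :
    ‖Tr φ B (Uc u j) (hi n (Uc u i)) (lo n (Dc u j i))‖
      = ‖Tr φ B (Uc u j) (lo n (Dc u j i)) (hi n (Uc u i))‖ := by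
  have h1 : (fun q => conj (Uc u j (-q))) = Uc u j := by
    funext q
    unfold Uc
    rw [hsym q j]
    simp
  rw [Tr_swap hφ (Uc_supp hs j) (rs_supp (Uc_supp hs i) (fun a => ¬ a ≤ n)), Tr_rot hφ, RCLike.norm_conj, h1,
    Tr_swap hφ (rs_supp (Dc_supp hs j i) (fun a => a ≤ n)) (Uc_supp hs j)]

end Pool.Agent.K1H29.NC
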