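import Pool.Agent.K1H29.NC.I2

/-!
# The flux of the energy through a scale at which the block inequality holds
-/

open Set ComplexConjugate MeasureTheory

namespace Pool.Agent.K1H29.NC

open Pool.Agent.H356R3.NS hiding Sol
open Pool.Agent.K1H29.SH (nn nn_nonneg nn_neg ipc ipc_bt abs_le_nn dt_sub norm_ipc_le norm_dt_le tri mem_tri
  en en_nonneg norm_sq_le_en nn_sub_le nn_le_nk nk_le_two_nn one_le_nn nn_eq_zero)
open Pool.Agent.K1H29.RD (Es Es_nonneg)

variable {φ : K → K → ℝ} {B : Finset K} {u : K → C3}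

/-- the dissipation near the scale `2 ^ n` -/
noncomputable def Wn (n a : ℕ) (B : Finset K) (u : K → C3) : ℝ :=
  ∑ k ∈ B, ((if n ≤ cl k ∧ cl k ≤ n + a then (1 : ℝ) else 0) + 1 / 4 ^ a) * (nn k ^ 2 * en (u k))

lemma nsq_nonneg (u : K → C3) (k : K) : 0 ≤ nn k ^ 2 * en (u k) :=
  mul_nonneg (sq_nonneg _) (en_nonneg _)

lemma Wn_nonneg (n a : ℕ) (B : Finset K) (u : K → C3) : 0 ≤ Wn n a B u :=
  Finset.sum_nonneg fun k _ => mul_nonneg (by split_ifs <;> positivity) (nsq_nonneg u k)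

lemma Tr_congr3 {n : ℕ} {f g h h' : K → ℂ} (hf : ∀ k, n < cl k → f k = 0)
    (hg : ∀ k, n < cl k → g k = 0) (hh : ∀ k, cl k ≤ n + 1 → h k = h' k) :
    Tr φ B f g h = Tr φ B f g h' := by
  unfold Tr
  refine Finset.sum_congr rfl fun k _ => Finset.sum_congr rfl fun l _ => ?_
  by_cases h1 : n < cl l
  · rw [hf l h1]; ring
  by_cases h2 : n < cl (k - l)
  · rw [hg _ h2]; ring
  · rw [hh k]
    rw [not_lt, cl_le_iff] at *
    rw [pow_succ]
    have := nn_sub_le k l
    linarith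

lemma Tr_zero {n : ℕ} {f g h : K → ℂ} (hf : ∀ k, n ≤ cl k → f k = 0)
    (hg : ∀ k, n ≤ cl k → g k = 0) (hh : ∀ k, cl k ≤ n → h k = 0) : Tr φ B f g h = 0 := by
  unfold Tr
  refine Finset.sum_eq_zero fun k _ => Finset.sum_eq_zero fun l _ => ?_
  by_cases h1 : n ≤ cl l
  · rw [hf l h1]; ring
  by_cases h2 : n ≤ cl (k - l)
  · rw [hg _ h2]; ring
  · rw [hh k]
    · simp
    rw [not_le] at *
    obtain ⟨n', rfl⟩ : ∃ n', n = n' + 1 := ⟨n - 1, by omega⟩
    rw [Nat.lt_succ_iff, cl_le_iff] at *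
    rw [pow_succ]
    have := nn_sub_le k l
    linarith

lemma n2_lo_Dc {E : ℝ} (hE : Es 0 B u ≤ E) (n : ℕ) (j i : Fin 3) :
    n2 B (lo n (Dc u j i)) ≤ 2 ^ n * √E := by
  refine (n2_Dc _ B u j i).trans ?_
  have h1 : (∑ k ∈ B, if cl k ≤ n then nn k ^ 2 * en (u k) else 0) ≤ (2 ^ n) ^ 2 * E := by
    refine le_trans ?_ (mul_le_mul_of_nonneg_left hE (by positivity))
    unfold Es
    rw [Finset.mul_sum]
    refine Finset.sum_le_sum fun k _ => ?_
    split_ifs with h2
    · rw [mul_zero, pow_zero, one_mul]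
      exact mul_le_mul_of_nonneg_right (pow_le_pow_left₀ (nn_nonneg k) (cl_le_iff.1 h2) 2) (en_nonneg _)
    · exact mul_nonneg (by positivity) (mul_nonneg (pow_nonneg (nn_nonneg k) _) (en_nonneg _))
  refine (Real.sqrt_le_sqrt h1).trans (le_of_eq ?_)
  rw [Real.sqrt_mul (by positivity), Real.sqrt_sq (by positivity)]

lemma n2_Uc_all {E : ℝ} (hE : Es 0 B u ≤ E) (p : ℕ → Prop) [DecidablePred p] (j : Fin 3) :
    n2 B (rs p (Uc u j)) ≤ √E := by
  refine (n2_Uc p B u j).trans (Real.sqrt_le_sqrt (le_trans ?_ hE))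
  unfold Es
  refine Finset.sum_le_sum fun k _ => ?_
  have := en_nonneg (u k)
  split_ifs
  · simp
  · simpa using this

/-- the energy above the scale -/
lemma pow_hi (n a : ℕ) :
    4 ^ n * (∑ k ∈ B, if ¬ cl k ≤ n then en (u k) else 0) ≤ Wn n a B u := by
  unfold Wn
  rw [Finset.mul_sum]
  refine Finset.sum_le_sum fun k _ => ?_
  have he := en_nonneg (u k)
  by_cases h1 : cl k ≤ n
  · rw [if_neg (not_not.2 h1), mul_zero]
    exact mul_nonneg (by split_ifs <;> positivity) (nsq_nonneg u k)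
  · rw [if_pos h1]
    have h4 : (4 : ℝ) ^ n = (2 ^ n) ^ 2 := by rw [← pow_mul, mul_comm, pow_mul]; norm_num
    by_cases h2 : cl k ≤ n + a
    · rw [if_pos ⟨by omega, h2⟩]
      rw [cl_le_iff, not_le] at h1
      have h3 : (2 ^ n) ^ 2 ≤ nn k ^ 2 := pow_le_pow_left₀ (by positivity) h1.le 2
      calc 4 ^ n * en (u k) ≤ nn k ^ 2 * en (u k) := by
            rw [h4]; exact mul_le_mul_of_nonneg_right h3 he
        _ ≤ _ := by
            have : (0 : ℝ) ≤ 1 / 4 ^ a := by positivity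
            nlinarith [nsq_nonneg u k]
    · rw [if_neg (fun h => h2 h.2), zero_add]
      rw [cl_le_iff, not_le] at h2
      have h3 : (2 ^ (n + a)) ^ 2 ≤ nn k ^ 2 := pow_le_pow_left₀ (by positivity) h2.le 2
      have h5 : (4 : ℝ) ^ n = 1 / 4 ^ a * (2 ^ (n + a)) ^ 2 := by
        rw [← pow_mul, mul_comm (n + a), pow_mul]
        norm_num
        rw [pow_add]
        field_simp
      rw [h5, mul_assoc]
      apply mul_le_mul_of_nonneg_left _ (by positivity)
      exact mul_le_mul_of_nonneg_right h3 he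

/-- the shell `cl k = n` -/
lemma pow_eq (h0 : (0 : K) ∉ B) (n : ℕ) :
    4 ^ n * (∑ k ∈ B, if cl k = n then en (u k) else 0)
      ≤ 4 * ∑ k ∈ B, if cl k = n then nn k ^ 2 * en (u k) else 0 := by
  rw [Finset.mul_sum, Finset.mul_sum]
  refine Finset.sum_le_sum fun k hk => ?_
  split_ifs with h1
  · have h2 := cl_le_nn (k := k) (fun h => h0 (h ▸ hk))
    rw [h1] at h2
    have h3 : (2 ^ n) ^ 2 ≤ (2 * nn k) ^ 2 := pow_le_pow_left₀ (by positivity) h2 2
    have h4 : (4 : ℝ) ^ n = (2 ^ n) ^ 2 := by rw [← pow_mul, mul_comm, pow_mul]; norm_num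
    rw [h4]
    calc (2 ^ n) ^ 2 * en (u k) ≤ (2 * nn k) ^ 2 * en (u k) :=
          mul_le_mul_of_nonneg_right h3 (en_nonneg _)
      _ = _ := by ring
  · simp

/-- the shell `cl k = n + 1` -/
lemma pow_succ_eq (n : ℕ) :
    4 ^ n * (∑ k ∈ B, if cl k = n + 1 then en (u k) else 0)
      ≤ ∑ k ∈ B, if cl k = n + 1 then nn k ^ 2 * en (u k) else 0 := by
  rw [Finset.mul_sum]
  refine Finset.sum_le_sum fun k _ => ?_
  split_ifs with h1
  · have h2 : ¬ cl k ≤ n := by omega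
    rw [cl_le_iff, not_le] at h2
    have h3 : (2 ^ n) ^ 2 ≤ nn k ^ 2 := pow_le_pow_left₀ (by positivity) h2.le 2
    have h4 : (4 : ℝ) ^ n = (2 ^ n) ^ 2 := by rw [← pow_mul, mul_comm, pow_mul]; norm_num
    rw [h4]
    exact mul_le_mul_of_nonneg_right h3 (en_nonneg _)
  · simp

lemma two_shells {a : ℕ} (ha : 1 ≤ a) (n : ℕ) :
    (∑ k ∈ B, if cl k = n then nn k ^ 2 * en (u k) else 0)
      + (∑ k ∈ B, if cl k = n + 1 then nn k ^ 2 * en (u k) else 0) ≤ Wn n a B u := by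
  unfold Wn
  rw [← Finset.sum_add_distrib]
  refine Finset.sum_le_sum fun k _ => ?_
  have h1 := nsq_nonneg u k
  have h2 : (0 : ℝ) ≤ 1 / 4 ^ a := by positivity
  by_cases h3 : cl k = n
  · rw [if_pos h3, if_neg (by omega), if_pos (by omega), add_zero]
    nlinarith
  · rw [if_neg h3]
    by_cases h4 : cl k = n + 1
    · rw [if_pos h4, if_pos (by omega), zero_add]
      nlinarith
    · rw [if_neg h4, add_zero]
      exact mul_nonneg (by split_ifs <;> positivity) h1

lemma pow_sqrt {n : ℕ} {x y : ℝ} (h : 4 ^ n * x ≤ y) : 2 ^ n * √x ≤ √y := by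
  have h1 : (2 : ℝ) ^ n = √(4 ^ n) := by
    rw [show (4 : ℝ) ^ n = (2 ^ n) ^ 2 by rw [← pow_mul, mul_comm, pow_mul]; norm_num,
      Real.sqrt_sq (by positivity)]
  rw [h1, ← Real.sqrt_mul (by positivity)]
  exact Real.sqrt_le_sqrt h

lemma hi_term (hφ : Wt φ) {X : ℝ} (hX : 0 ≤ X) {n a : ℕ} (ha : 1 ≤ a) (h : BlkAt φ X n)
    (h0 : (0 : K) ∉ B) (hs : ∀ k, k ∉ B → u k = 0) {E : ℝ} (hE : Es 0 B u ≤ E) (j i : Fin 3) :
    ‖Tr φ B (Uc u j) (lo n (Dc u j i)) (hi n (Uc u i))‖ ≤ 3 * (X * √E * Wn n a B u) := by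
  have hUs := Uc_supp hs
  have hDs := Dc_supp hs
  set x := lo n (Dc u j i) with hx
  have hW0 := Wn_nonneg n a B u
  have e2 : (4 : ℝ) ^ n / 2 ^ n = 2 ^ n := by rw [← div_pow]; norm_num
  have hxs : ∀ k, k ∉ B → x k = 0 := rs_supp (hDs j i) _
  have hxl : ∀ k, (2 : ℝ) ^ n < nn k → x k = 0 := by
    intro k hk
    simp only [hx, lo, rs]
    rw [if_neg]
    rw [cl_le_iff]
    linarith
  have hMx : Mul φ B x (X * √E * 4 ^ n) := by
    refine (mul_blk h le_rfl hxs hxl).mono ?_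
    rw [e2]
    calc X * 2 ^ n * n2 B x ≤ X * 2 ^ n * (2 ^ n * √E) :=
          mul_le_mul_of_nonneg_left (n2_lo_Dc hE n j i) (by positivity)
      _ = X * √E * (2 ^ n * 2 ^ n) := by ring
      _ = _ := by rw [← mul_pow]; norm_num
  set V := rs (fun b => b = n + 1) (Uc u i) with hV
  have hVs : ∀ k, k ∉ B → V k = 0 := rs_supp (hUs i) _
  set b0 := ∑ k ∈ B, if cl k = n then nn k ^ 2 * en (u k) else 0 with hb0
  set b1 := ∑ k ∈ B, if cl k = n + 1 then nn k ^ 2 * en (u k) else 0 with hb1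
  have hb00 : 0 ≤ b0 := Finset.sum_nonneg fun k _ => by split_ifs; exacts [nsq_nonneg u k, le_rfl]
  have hb10 : 0 ≤ b1 := Finset.sum_nonneg fun k _ => by split_ifs; exacts [nsq_nonneg u k, le_rfl]
  have hbW : b0 + b1 ≤ Wn n a B u := two_shells ha n
  have hbb : √b0 * √b1 ≤ Wn n a B u / 2 := by
    have h1 := sq_nonneg (√b0 - √b1)
    have h2 := Real.sq_sqrt hb00
    have h3 := Real.sq_sqrt hb10
    nlinarith
  have hVn : 2 ^ n * n2 B V ≤ √b1 :=
    (mul_le_mul_of_nonneg_left (n2_Uc _ B u i) (by positivity)).trans (pow_sqrt (pow_succ_eq n))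
  -- the decomposition
  have f1 : Tr φ B (Uc u j) x (hi n (Uc u i)) = Tr φ B (hi n (Uc u j)) x (hi n (Uc u i))
      + Tr φ B (rs (fun b => b = n) (Uc u j)) x V
      + Tr φ B (rs (fun b => b < n) (Uc u j)) (rs (fun b => b = n) (Dc u j i)) V := by
    have g1 : Tr φ B (lo n (Uc u j)) x (hi n (Uc u i)) = Tr φ B (lo n (Uc u j)) x V := by
      refine Tr_congr3 (n := n) (fun k hk => ?_) (fun k hk => ?_) (fun k hk => ?_)
      · simp only [lo, rs]; rw [if_neg (by omega)]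
      · simp only [hx, lo, rs]; rw [if_neg (by omega)]
      · simp only [hi, hV, rs]
        by_cases h1 : cl k = n + 1
        · rw [if_pos (by omega), if_pos h1]
        · rw [if_neg (by omega), if_neg h1]
    have g2 : lo n (Uc u j) = rs (fun b => b = n) (Uc u j) + rs (fun b => b < n) (Uc u j) := by
      funext k
      simp only [lo, rs, Pi.add_apply]
      rcases lt_trichotomy (cl k) n with h1 | h1 | h1
      · rw [if_pos h1.le, if_neg h1.ne, if_pos h1, zero_add]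
      · rw [if_pos h1.le, if_pos h1, if_neg (by omega), add_zero]
      · rw [if_neg (by omega), if_neg (by omega), if_neg (by omega), add_zero]
    have g3 : x = rs (fun b => b = n) (Dc u j i) + rs (fun b => b < n) (Dc u j i) := by
      funext k
      simp only [hx, lo, rs, Pi.add_apply]
      rcases lt_trichotomy (cl k) n with h1 | h1 | h1
      · rw [if_pos h1.le, if_neg h1.ne, if_pos h1, zero_add]
      · rw [if_pos h1.le, if_pos h1, if_neg (by omega), add_zero]
      · rw [if_neg (by omega), if_neg (by omega), if_neg (by omega), add_zero]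
    have g4 : Tr φ B (rs (fun b => b < n) (Uc u j)) (rs (fun b => b < n) (Dc u j i)) V = 0 := by
      refine Tr_zero (n := n) (fun k hk => ?_) (fun k hk => ?_) (fun k hk => ?_)
      · simp only [rs]; rw [if_neg (by omega)]
      · simp only [rs]; rw [if_neg (by omega)]
      · simp only [hV, rs]; rw [if_neg (by omega)]
    have g5 : Tr φ B (rs (fun b => b < n) (Uc u j)) x V
        = Tr φ B (rs (fun b => b < n) (Uc u j)) (rs (fun b => b = n) (Dc u j i)) V := by
      conv_lhs => rw [g3]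
      rw [Tr_add2, g4, add_zero]
    calc Tr φ B (Uc u j) x (hi n (Uc u i))
        = Tr φ B (lo n (Uc u j)) x (hi n (Uc u i)) + Tr φ B (hi n (Uc u j)) x (hi n (Uc u i)) := by
          rw [← Tr_add1, ← lo_hi]
      _ = _ := by rw [g1, g2, Tr_add1, g5]; ring
  rw [f1]
  -- the three terms
  have t1 : ‖Tr φ B (hi n (Uc u j)) x (hi n (Uc u i))‖ ≤ X * √E * Wn n a B u := by
    refine (hMx.slot2 hφ (rs_supp (hUs j) _) (rs_supp (hUs i) _)).trans ?_
    have h1 : ∀ i : Fin 3, 2 ^ n * n2 B (hi n (Uc u i)) ≤ √(Wn n a B u) := fun i =>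
      (mul_le_mul_of_nonneg_left (n2_Uc _ B u i) (by positivity)).trans (pow_sqrt (pow_hi n a))
    have h2 : (2 ^ n * n2 B (hi n (Uc u j))) * (2 ^ n * n2 B (hi n (Uc u i))) ≤ Wn n a B u := by
      refine (mul_le_mul (h1 j) (h1 i) (mul_nonneg (by positivity) (n2_nonneg _ _)) (Real.sqrt_nonneg _)).trans
        (le_of_eq (Real.mul_self_sqrt hW0))
    calc X * √E * 4 ^ n * (n2 B (hi n (Uc u j)) * n2 B (hi n (Uc u i)))
        = X * √E * ((2 ^ n * n2 B (hi n (Uc u j))) * (2 ^ n * n2 B (hi n (Uc u i)))) := by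
          rw [show (4 : ℝ) ^ n = 2 ^ n * 2 ^ n by rw [← mul_pow]; norm_num]; ring
      _ ≤ _ := mul_le_mul_of_nonneg_left h2 (by positivity)
  have t2 : ‖Tr φ B (rs (fun b => b = n) (Uc u j)) x V‖ ≤ X * √E * Wn n a B u := by
    refine (hMx.slot2 hφ (rs_supp (hUs j) _) hVs).trans ?_
    have h1 : 2 ^ n * n2 B (rs (fun b => b = n) (Uc u j)) ≤ 2 * √b0 := by
      refine (mul_le_mul_of_nonneg_left (n2_Uc _ B u j) (by positivity)).trans ?_
      refine (pow_sqrt (pow_eq h0 n)).trans (le_of_eq ?_)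
      rw [Real.sqrt_mul (by norm_num)]
      congr 1
      rw [show (4 : ℝ) = 2 ^ 2 by norm_num, Real.sqrt_sq (by norm_num)]
    have h2 : (2 ^ n * n2 B (rs (fun b => b = n) (Uc u j))) * (2 ^ n * n2 B V) ≤ Wn n a B u := by
      refine (mul_le_mul h1 hVn (mul_nonneg (by positivity) (n2_nonneg _ _)) (by positivity)).trans ?_
      linarith
    calc X * √E * 4 ^ n * (n2 B (rs (fun b => b = n) (Uc u j)) * n2 B V)
        = X * √E * ((2 ^ n * n2 B (rs (fun b => b = n) (Uc u j))) * (2 ^ n * n2 B V)) := by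
          rw [show (4 : ℝ) ^ n = 2 ^ n * 2 ^ n by rw [← mul_pow]; norm_num]; ring
      _ ≤ _ := mul_le_mul_of_nonneg_left h2 (by positivity)
  have t3 : ‖Tr φ B (rs (fun b => b < n) (Uc u j)) (rs (fun b => b = n) (Dc u j i)) V‖
      ≤ X * √E * Wn n a B u := by
    have h1 := mul_blk h le_rfl (x := rs (fun b => b < n) (Uc u j)) (rs_supp (hUs j) _) (fun k hk => by
      simp only [rs]
      rw [if_neg]
      intro h2
      have := cl_le_iff.1 h2.le
      linarith)
    refine (h1.2 _ _ (rs_supp (hDs j i) _) hVs).trans ?_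
    rw [e2]
    have h2 := n2_Uc_all hE (fun b => b < n) j
    have h3 : n2 B (rs (fun b => b = n) (Dc u j i)) ≤ √b0 := n2_Dc _ B u j i
    calc X * 2 ^ n * n2 B (rs (fun b => b < n) (Uc u j)) * (n2 B (rs (fun b => b = n) (Dc u j i)) * n2 B V)
        ≤ X * 2 ^ n * √E * (√b0 * n2 B V) := by
          apply mul_le_mul
          · exact mul_le_mul_of_nonneg_left h2 (by positivity)
          · exact mul_le_mul_of_nonneg_right h3 (n2_nonneg _ _)
          · exact mul_nonneg (n2_nonneg _ _) (n2_nonneg _ _)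
          · positivity
      _ = X * √E * (√b0 * (2 ^ n * n2 B V)) := by ring
      _ ≤ X * √E * (√b0 * √b1) := by
          apply mul_le_mul_of_nonneg_left _ (by positivity)
          exact mul_le_mul_of_nonneg_left hVn (Real.sqrt_nonneg _)
      _ ≤ X * √E * Wn n a B u := by
          apply mul_le_mul_of_nonneg_left _ (by positivity)
          linarith
  have b5 := norm_add_le (Tr φ B (hi n (Uc u j)) x (hi n (Uc u i))
      + Tr φ B (rs (fun b => b = n) (Uc u j)) x V)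
      (Tr φ B (rs (fun b => b < n) (Uc u j)) (rs (fun b => b = n) (Dc u j i)) V)
  have b6 := norm_add_le (Tr φ B (hi n (Uc u j)) x (hi n (Uc u i)))
      (Tr φ B (rs (fun b => b = n) (Uc u j)) x V)
  linarith

lemma cl_neg (k : K) : cl (-k) = cl k := by
  unfold cl; rw [H459R3.NS.N_neg]

/-- **The flux of the energy** through the scale `2 ^ n`. -/
theorem flux_hi (hφ : Wt φ) {X : ℝ} (hX : 0 ≤ X) {n a : ℕ} (ha : 1 ≤ a) (h : BlkAt φ X n)
    (hB : ∀ k ∈ B, -k ∈ B) (h0 : (0 : K) ∉ B) (hs : ∀ k, k ∉ B → u k = 0) (hsym : Sym u)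
    (hdiv : ∀ k, dt k (u k) = 0) {E : ℝ} (hE : Es 0 B u ≤ E) :
    |∑ k ∈ B, (if n < cl k then (1 : ℝ) else 0) * (2 * (ipc (Bw φ u u k) (u k)).re)|
      ≤ 108 * Real.pi * (X * √E * Wn n a B u) := by
  rw [flux_eq hs hdiv]
  refine (Complex.abs_re_le_norm _).trans ?_
  have h2 := flux_two hφ hB hsym hdiv (w := fun k => if n < cl k then (1 : ℝ) else 0)
    (fun k => by rw [cl_neg])
  set S : ℂ := ∑ p ∈ tri B, ((if n < cl p.1 then (1 : ℝ) else 0 : ℝ) : ℂ) * TT' φ u p.1 p.2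
  have h6 : -(4 * (Real.pi : ℂ) * Complex.I) * S = (-(2 * Real.pi * Complex.I)) * (2 * S) := by ring
  rw [h6, norm_mul]
  have h7 : ‖-(2 * (Real.pi : ℂ) * Complex.I)‖ = 2 * Real.pi := by
    rw [norm_neg, norm_mul, norm_mul, Complex.norm_I, Complex.norm_real]
    simp [abs_of_pos Real.pi_pos]
  rw [h7, h2, hi_id hs hdiv n]
  have hpi := Real.pi_pos
  have h8 : ‖∑ j, ∑ i, (Tr φ B (Uc u j) (lo n (Dc u j i)) (hi n (Uc u i))
          - Tr φ B (Uc u j) (hi n (Uc u i)) (lo n (Dc u j i)))‖ ≤ 54 * (X * √E * Wn n a B u) := by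
    refine (norm_sum_le _ _).trans ((Finset.sum_le_sum fun j _ => (norm_sum_le _ _).trans
      (Finset.sum_le_sum fun i _ => ((norm_sub_le _ _).trans (add_le_add
          (hi_term hφ hX ha h h0 hs hE j i)
          ((halves hφ hs hsym n j i).le.trans (hi_term hφ hX ha h h0 hs hE j i)))))).trans (le_of_eq ?_))
    simp only [Finset.sum_const, Finset.card_univ, Fintype.card_fin, nsmul_eq_mul]
    push_cast
    ring
  calc _ ≤ 2 * Real.pi * (54 * (X * √E * Wn n a B u)) := mul_le_mul_of_nonneg_left h8 (by positivity)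
    _ = _ := by ring

end Pool.Agent.K1H29.NC
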