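import Pool.Agent.K1H29.NC.W3
import Pool.Agent.H356R3.NS.Four2

/-!
# Uniform bounds for all Sobolev norms of the weighted Galerkin trajectories
-/

open Set ComplexConjugate MeasureTheory

namespace Pool.Agent.K1H29.NC

open Pool.Agent.H356R3.NS hiding Sol
open Pool.Agent.K1H29.SH (nn nn_nonneg nn_neg ipc ipc_bt abs_le_nn dt_sub norm_ipc_le norm_dt_le tri mem_tri
  en en_nonneg norm_sq_le_en nn_sub_le nn_le_nk nk_le_two_nn one_le_nn nn_eq_zero en_deriv ipc_add_left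
  ipc_smul_left ipc_self mvi sum_tri_eq sum_tri_eq')
open Pool.Agent.K1H29.RD (Es Es_nonneg dec sum_m_ge)

variable {φ : K → K → ℝ} {m : K → ℝ} {B : Finset K} {T : ℝ} {V : K → C3}

lemma conv_a (B : Finset K) {f g h : K → ℝ} (hf : ∀ k, 0 ≤ f k) :
    ∑ p ∈ tri B, f p.2 * (g (p.1 - p.2) * h p.1) ≤
      (∑ l ∈ B, f l) * (√(∑ l ∈ B, g l ^ 2) * √(∑ l ∈ B, h l ^ 2)) := by
  classical
  rw [sum_tri_eq' B (fun k l => f l * (g (k - l) * h k)), Finset.sum_mul]
  refine Finset.sum_le_sum fun l _ => ?_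
  rw [← Finset.mul_sum]
  apply mul_le_mul_of_nonneg_left _ (hf l)
  refine (Real.sum_mul_le_sqrt_mul_sqrt _ _ _).trans ?_
  apply mul_le_mul _ _ (Real.sqrt_nonneg _) (Real.sqrt_nonneg _)
  · apply Real.sqrt_le_sqrt
    have := Pool.Agent.K1H29.SH.sum_shift_le B (f := fun l => g l ^ 2) (fun k => sq_nonneg _) (fun k => k - l)
      (fun a b h => sub_left_injective h)
    exact this
  · apply Real.sqrt_le_sqrt
    exact Finset.sum_le_sum_of_subset_of_nonneg (Finset.filter_subset _ _) fun _ _ _ => sq_nonneg _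

lemma conv_b (B : Finset K) {f g h : K → ℝ} (hf : ∀ k, 0 ≤ f k) :
    ∑ p ∈ tri B, f (p.1 - p.2) * (g p.2 * h p.1) ≤
      (∑ l ∈ B, f l) * (√(∑ l ∈ B, g l ^ 2) * √(∑ l ∈ B, h l ^ 2)) := by
  refine le_trans (le_of_eq ?_) (conv_a B hf (g := g) (h := h))
  refine Finset.sum_nbij' (fun p => (p.1, p.1 - p.2)) (fun p => (p.1, p.1 - p.2)) ?_ ?_ ?_ ?_ ?_
  · intro p hp; rw [mem_tri] at *; simpa using ⟨hp.1, hp.2.2, hp.2.1⟩
  · intro p hp; rw [mem_tri] at *; simpa using ⟨hp.1, hp.2.2, hp.2.1⟩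
  · intro p _; simp
  · intro p _; simp
  · intro p _; simp

lemma pow_add_le' {a b c : ℝ} (ha : 0 ≤ a) (hb : 0 ≤ b) (hc : 0 ≤ c) (h : a ≤ b + c) (s : ℕ) :
    a ^ s ≤ 2 ^ s * (b ^ s + c ^ s) := by
  rcases le_total b c with h1 | h1
  · calc a ^ s ≤ (2 * c) ^ s := pow_le_pow_left₀ ha (by linarith) s
      _ = 2 ^ s * c ^ s := mul_pow _ _ _
      _ ≤ _ := mul_le_mul_of_nonneg_left (le_add_of_nonneg_left (by positivity)) (by positivity)
  · calc a ^ s ≤ (2 * b) ^ s := pow_le_pow_left₀ ha (by linarith) s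
      _ = 2 ^ s * b ^ s := mul_pow _ _ _
      _ ≤ _ := mul_le_mul_of_nonneg_left (le_add_of_nonneg_right (by positivity)) (by positivity)

/-- the flux of the Sobolev norms -/
lemma hi_flux (hφ : Wt φ) {u : K → C3} (hs : ∀ k, k ∉ B → u k = 0) (hdiv : ∀ k, dt k (u k) = 0) (s : ℕ) :
    ∑ k ∈ B, nn k ^ (2 * s) * (2 * (ipc (Bw φ u u k) (u k)).re)
      ≤ 72 * Real.pi * 2 ^ s * (∑ k ∈ B, ‖u k‖) * (√(Es s B u) * √(Es (s + 1) B u)) := by
  have hpi := Real.pi_pos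
  have h1 : ∀ k ∈ B, nn k ^ (2 * s) * (2 * (ipc (Bw φ u u k) (u k)).re)
      ≤ ∑ l ∈ B.filter (fun l => k - l ∈ B), 36 * Real.pi * 2 ^ s *
        (‖u (k - l)‖ * ((nn l ^ s * ‖u l‖) * (nn k ^ (s + 1) * ‖u k‖))
          + ‖u l‖ * ((nn (k - l) ^ s * ‖u (k - l)‖) * (nn k ^ (s + 1) * ‖u k‖))) := by
    intro k _
    have h2 : 2 * (ipc (Bw φ u u k) (u k)).re ≤ ∑ l ∈ B.filter (fun l => k - l ∈ B),
        36 * Real.pi * (nn k * ‖u l‖ * (‖u (k - l)‖ * ‖u k‖)) := by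
      have h3 : (ipc (Bw φ u u k) (u k)).re ≤ ‖ipc (Bw φ u u k) (u k)‖ := Complex.re_le_norm _
      have h4 : ‖ipc (Bw φ u u k) (u k)‖ ≤ ∑ l ∈ B.filter (fun l => k - l ∈ B),
          18 * Real.pi * (nn k * ‖u l‖ * (‖u (k - l)‖ * ‖u k‖)) := by
        rw [ipc_Bw hs (hdiv k), norm_mul]
        have h7 : ‖-(2 * (Real.pi : ℂ) * Complex.I)‖ = 2 * Real.pi := by
          rw [norm_neg, norm_mul, norm_mul, Complex.norm_I, Complex.norm_real]
          simp [abs_of_pos Real.pi_pos]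
        rw [h7]
        have h8 : ∑ l ∈ B, (φ l k : ℂ) * (dt k (u l) * ipc (u (k - l)) (u k))
            = ∑ l ∈ B.filter (fun l => k - l ∈ B), (φ l k : ℂ) * (dt k (u l) * ipc (u (k - l)) (u k)) := by
          rw [Finset.sum_filter]
          refine Finset.sum_congr rfl fun l _ => ?_
          split_ifs with h9
          · rfl
          · exact TT'_zero hs h9
        rw [h8]
        have h9 : ∀ l ∈ B.filter (fun l => k - l ∈ B), ‖(φ l k : ℂ) * (dt k (u l) * ipc (u (k - l)) (u k))‖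
            ≤ 9 * (nn k * ‖u l‖ * (‖u (k - l)‖ * ‖u k‖)) := by
          intro l _
          rw [norm_mul, norm_mul]
          have := norm_dt_le k (u l)
          have h10 := norm_ipc_le (u (k - l)) (u k)
          calc ‖(φ l k : ℂ)‖ * (‖dt k (u l)‖ * ‖ipc (u (k - l)) (u k)‖)
              ≤ 1 * ((3 * nn k * ‖u l‖) * (3 * (‖u (k - l)‖ * ‖u k‖))) := by
                have hn := nn_nonneg k
                apply mul_le_mul (hφ.nm l k) _ (by positivity) zero_le_one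
                exact mul_le_mul this h10 (norm_nonneg _) (by positivity)
            _ = _ := by ring
        calc 2 * Real.pi * ‖_‖ ≤ 2 * Real.pi * ∑ l ∈ B.filter (fun l => k - l ∈ B),
              9 * (nn k * ‖u l‖ * (‖u (k - l)‖ * ‖u k‖)) :=
              mul_le_mul_of_nonneg_left ((norm_sum_le _ _).trans (Finset.sum_le_sum h9)) (by positivity)
          _ = _ := by
              rw [Finset.mul_sum]
              exact Finset.sum_congr rfl fun l _ => by ring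
      have h5 : ∑ l ∈ B.filter (fun l => k - l ∈ B), 36 * Real.pi * (nn k * ‖u l‖ * (‖u (k - l)‖ * ‖u k‖))
          = 2 * ∑ l ∈ B.filter (fun l => k - l ∈ B), 18 * Real.pi * (nn k * ‖u l‖ * (‖u (k - l)‖ * ‖u k‖)) := by
        rw [Finset.mul_sum]
        exact Finset.sum_congr rfl fun l _ => by ring
      rw [h5]
      linarith
    have hn := nn_nonneg k
    calc nn k ^ (2 * s) * (2 * (ipc (Bw φ u u k) (u k)).re)
        ≤ nn k ^ (2 * s) * ∑ l ∈ B.filter (fun l => k - l ∈ B),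
          36 * Real.pi * (nn k * ‖u l‖ * (‖u (k - l)‖ * ‖u k‖)) :=
          mul_le_mul_of_nonneg_left h2 (by positivity)
      _ ≤ _ := by
          rw [Finset.mul_sum]
          refine Finset.sum_le_sum fun l _ => ?_
          have hl := nn_nonneg l
          have hkl := nn_nonneg (k - l)
          have h6 := pow_add_le' hn hl hkl (nn_sub_le k l) s
          calc nn k ^ (2 * s) * (36 * Real.pi * (nn k * ‖u l‖ * (‖u (k - l)‖ * ‖u k‖)))
              = nn k ^ s * (36 * Real.pi * (‖u l‖ * ‖u (k - l)‖ * (nn k ^ (s + 1) * ‖u k‖))) := by ring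
            _ ≤ (2 ^ s * (nn l ^ s + nn (k - l) ^ s)) *
                (36 * Real.pi * (‖u l‖ * ‖u (k - l)‖ * (nn k ^ (s + 1) * ‖u k‖))) :=
                mul_le_mul_of_nonneg_right h6 (by positivity)
            _ = _ := by ring
  refine (Finset.sum_le_sum h1).trans ?_
  have h2 : ∑ k ∈ B, ∑ l ∈ B.filter (fun l => k - l ∈ B), 36 * Real.pi * 2 ^ s *
        (‖u (k - l)‖ * ((nn l ^ s * ‖u l‖) * (nn k ^ (s + 1) * ‖u k‖))
          + ‖u l‖ * ((nn (k - l) ^ s * ‖u (k - l)‖) * (nn k ^ (s + 1) * ‖u k‖)))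
      = 36 * Real.pi * 2 ^ s * (∑ p ∈ tri B, ‖u (p.1 - p.2)‖ * ((nn p.2 ^ s * ‖u p.2‖) * (nn p.1 ^ (s + 1) * ‖u p.1‖))
        + ∑ p ∈ tri B, ‖u p.2‖ * ((nn (p.1 - p.2) ^ s * ‖u (p.1 - p.2)‖) * (nn p.1 ^ (s + 1) * ‖u p.1‖))) := by
    rw [sum_tri_eq B (fun k l => ‖u (k - l)‖ * ((nn l ^ s * ‖u l‖) * (nn k ^ (s + 1) * ‖u k‖))),
      sum_tri_eq B (fun k l => ‖u l‖ * ((nn (k - l) ^ s * ‖u (k - l)‖) * (nn k ^ (s + 1) * ‖u k‖))),
      ← Finset.sum_add_distrib, Finset.mul_sum]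
    refine Finset.sum_congr rfl fun k _ => ?_
    rw [← Finset.sum_add_distrib, Finset.mul_sum]
  rw [h2]
  have hsq : ∀ r : ℕ, ∑ l ∈ B, (nn l ^ r * ‖u l‖) ^ 2 ≤ Es r B u := by
    intro r
    unfold Es
    refine Finset.sum_le_sum fun k _ => ?_
    have h5 := norm_sq_le_en (u k)
    calc (nn k ^ r * ‖u k‖) ^ 2 = nn k ^ (2 * r) * ‖u k‖ ^ 2 := by ring
      _ ≤ _ := mul_le_mul_of_nonneg_left h5 (pow_nonneg (nn_nonneg k) _)
  have h3 := conv_b B (f := fun k => ‖u k‖) (g := fun k => nn k ^ s * ‖u k‖)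
    (h := fun k => nn k ^ (s + 1) * ‖u k‖) (fun k => norm_nonneg _)
  have h4 := conv_a B (f := fun k => ‖u k‖) (g := fun k => nn k ^ s * ‖u k‖)
    (h := fun k => nn k ^ (s + 1) * ‖u k‖) (fun k => norm_nonneg _)
  have h5 : √(∑ l ∈ B, (nn l ^ s * ‖u l‖) ^ 2) * √(∑ l ∈ B, (nn l ^ (s + 1) * ‖u l‖) ^ 2)
      ≤ √(Es s B u) * √(Es (s + 1) B u) :=
    mul_le_mul (Real.sqrt_le_sqrt (hsq s)) (Real.sqrt_le_sqrt (hsq (s + 1))) (Real.sqrt_nonneg _)
      (Real.sqrt_nonneg _)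
  have h6 : 0 ≤ ∑ k ∈ B, ‖u k‖ := Finset.sum_nonneg fun _ _ => norm_nonneg _
  have h7 := mul_le_mul_of_nonneg_left h5 h6
  calc _ ≤ 36 * Real.pi * 2 ^ s * ((∑ k ∈ B, ‖u k‖) * (√(Es s B u) * √(Es (s + 1) B u))
        + (∑ k ∈ B, ‖u k‖) * (√(Es s B u) * √(Es (s + 1) B u))) := by
        apply mul_le_mul_of_nonneg_left _ (by positivity)
        exact add_le_add (h3.trans h7) (h4.trans h7)
    _ = _ := by ring

/-- the constant of the embedding -/
noncomputable def CZ : ℝ := 16 * ∑' k : K, (1 / nk k) ^ 4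

lemma CZ_nonneg : 0 ≤ CZ := by
  unfold CZ
  have : 0 ≤ ∑' k : K, (1 / nk k) ^ 4 := tsum_nonneg fun k => by have := nk_nonneg k; positivity
  positivity

lemma l1_sq_le (h0 : (0 : K) ∉ B) (u : K → C3) : (∑ k ∈ B, ‖u k‖) ^ 2 ≤ CZ * Es 2 B u := by
  have h1 : ∑ k ∈ B, ‖u k‖ = ∑ k ∈ B, (1 / nn k ^ 2) * (nn k ^ 2 * ‖u k‖) := by
    refine Finset.sum_congr rfl fun k hk => ?_
    have : 0 < nn k := lt_of_lt_of_le one_pos (one_le_nn fun h => h0 (h ▸ hk))
    field_simp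
  rw [h1]
  refine (Finset.sum_mul_sq_le_sq_mul_sq _ _ _).trans ?_
  apply mul_le_mul _ _ (Finset.sum_nonneg fun _ _ => sq_nonneg _) CZ_nonneg
  · unfold CZ
    rw [← tsum_mul_left]
    refine le_trans ?_ (Summable.sum_le_tsum B (fun k _ => by have := nk_nonneg k; positivity)
      (summ_nk4.mul_left 16))
    refine Finset.sum_le_sum fun k hk => ?_
    have hk0 : k ≠ 0 := fun h => h0 (h ▸ hk)
    have h2 : 0 < nn k := lt_of_lt_of_le one_pos (one_le_nn hk0)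
    have h3 := nk_pos hk0
    have h4 := nk_le_two_nn k
    have h5 : nk k ^ 4 ≤ (2 * nn k) ^ 4 := pow_le_pow_left₀ h3.le h4 4
    rw [div_pow, div_pow, one_pow, one_pow, mul_one_div, div_le_div_iff₀ (by positivity) (by positivity)]
    nlinarith
  · unfold Es
    refine Finset.sum_le_sum fun k _ => ?_
    have h5 := norm_sq_le_en (u k)
    calc (nn k ^ 2 * ‖u k‖) ^ 2 = nn k ^ (2 * 2) * ‖u k‖ ^ 2 := by ring
      _ ≤ _ := mul_le_mul_of_nonneg_left h5 (pow_nonneg (nn_nonneg k) _)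

/-- **Uniform bounds.** -/
theorem unifW (hφ : Wt φ) {CT : ℝ} (hT : Tri φ CT) {m0 : ℝ} (hm0 : 0 < m0)
    (hm : ∀ k, m0 * nn k ^ 2 ≤ m k)
    (hV : ∀ s : ℕ, ∃ C, ∀ B : Finset K, ∑ k ∈ B, nn k ^ (2 * s) * en (V k) ≤ C) (s : ℕ) :
    ∃ C, ∀ (B : Finset K) (T : ℝ) (u : ℝ → K → C3), (0 : K) ∉ B → 0 ≤ T → GalW φ m B T V u →
      ∀ t ∈ Icc 0 T, Es s B (u t) ≤ C := by
  obtain ⟨c, hc0, hc⟩ := enstrophy_boundW (m := m) hφ hT hm0 hm
  obtain ⟨V0, hV0⟩ := hV 0
  obtain ⟨V1, hV1⟩ := hV 1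
  obtain ⟨Vs, hVs⟩ := hV s
  have hV00 : 0 ≤ V0 := (hV0 ∅).trans' (by simp)
  have hV10 : 0 ≤ V1 := (hV1 ∅).trans' (by simp)
  have hVs0 : 0 ≤ Vs := (hVs ∅).trans' (by simp)
  have hpi := Real.pi_pos
  set M1 := 4 * V1 * Real.exp (c * V0) with hM1
  have hM10 : 0 ≤ M1 := by positivity
  have hinit : ∀ (B : Finset K) (T : ℝ) (u : ℝ → K → C3), GalW φ m B T V u → ∀ s,
      Es s B (u 0) = ∑ k ∈ B, nn k ^ (2 * s) * en (V k) := fun B T u h s =>
    Finset.sum_congr rfl fun k hk => by rw [h.init k hk]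
  set a : ℝ := 72 * Real.pi * 2 ^ s with ha
  have ha0 : 0 ≤ a := by positivity
  set κ : ℝ := a ^ 2 / (4 * m0) * CZ with hκ
  have hκ0 : 0 ≤ κ := mul_nonneg (by positivity) CZ_nonneg
  refine ⟨Vs * Real.exp (κ / m0 * M1), fun B T u h0 hT0 h t ht => ?_⟩
  obtain ⟨H, H', h1, h2, h3, h4⟩ := hc B T V u h
  have hH0 : H 0 ≤ M1 := by
    rw [h4, hM1]
    apply mul_le_mul _ _ (Real.exp_pos _).le (by positivity)
    · refine (Qe_le_Es B (u 0)).trans ?_
      rw [hinit B T u h]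
      exact mul_le_mul_of_nonneg_left (hV1 B) (by norm_num)
    · rw [hinit B T u h]
      exact Real.exp_le_exp.2 (mul_le_mul_of_nonneg_left (hV0 B) hc0)
  have h5 := dec (T := T) (f := fun r => Es s B (u r)) (f' := fun r =>
      (-(2 * ∑ k ∈ B, nn k ^ (2 * s) * (m k * en (u r k))) +
        ∑ k ∈ B, nn k ^ (2 * s) * (2 * (ipc (Bw φ (u r) (u r) k) (u r k)).re)))
    (g := fun r => κ / m0 * H r) (g' := fun r => κ / m0 * H' r)
    (fun r hr => h.dW (fun k => nn k ^ (2 * s)) hr)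
    (fun r hr => (h1 r hr).const_mul _) (fun r hr => by
      have f1 := hi_flux hφ (h.supp r hr) (h.div r hr) s
      have f2 := sum_m_ge (B := B) hm s (u r)
      have f3 := l1_sq_le h0 (u r)
      have hE := Es_nonneg s B (u r)
      have hE' := Es_nonneg (s + 1) B (u r)
      have hE2 := Es_nonneg 2 B (u r)
      have f4 : κ / m0 * H' r ≤ -(κ * Es 2 B (u r)) := by
        have : κ / m0 * H' r ≤ κ / m0 * -(m0 * Es 2 B (u r)) :=
          mul_le_mul_of_nonneg_left (h2 r hr) (by positivity)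
        have e : κ / m0 * -(m0 * Es 2 B (u r)) = -(κ * Es 2 B (u r)) := by field_simp
        linarith
      set A := ∑ k ∈ B, ‖u r k‖ with hA
      have hA0 : 0 ≤ A := Finset.sum_nonneg fun _ _ => norm_nonneg _
      set E := Es s B (u r)
      set E' := Es (s + 1) B (u r)
      have f5 : a * A * (√E * √E') ≤ m0 * E' + a ^ 2 / (4 * m0) * A ^ 2 * E := by
        have g1 : √E ^ 2 = E := Real.sq_sqrt hE
        have g2 : √E' ^ 2 = E' := Real.sq_sqrt hE'
        have g3 : 0 ≤ m0 * (√E' - a * A * √E / (2 * m0)) ^ 2 := by positivity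
        have g4 : m0 * (√E' - a * A * √E / (2 * m0)) ^ 2
            = m0 * √E' ^ 2 + a ^ 2 / (4 * m0) * A ^ 2 * √E ^ 2 - a * A * (√E * √E') := by
          field_simp; ring
        rw [g1, g2] at g4
        linarith
      have f6 : a ^ 2 / (4 * m0) * A ^ 2 * E ≤ κ * Es 2 B (u r) * E := by
        apply mul_le_mul_of_nonneg_right _ hE
        calc a ^ 2 / (4 * m0) * A ^ 2 ≤ a ^ 2 / (4 * m0) * (CZ * Es 2 B (u r)) :=
              mul_le_mul_of_nonneg_left f3 (by positivity)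
          _ = _ := by rw [hκ]; ring
      have f7 := mul_le_mul_of_nonneg_right f4 hE
      have f8 : 0 ≤ m0 * E' := by positivity
      show -(2 * ∑ k ∈ B, nn k ^ (2 * s) * (m k * en (u r k))) +
        ∑ k ∈ B, nn k ^ (2 * s) * (2 * (ipc (Bw φ (u r) (u r) k) (u r k)).re)
          + κ / m0 * H' r * E ≤ 0
      have e1 : -(κ * Es 2 B (u r)) * E = -(κ * Es 2 B (u r) * E) := by ring
      rw [e1] at f7
      linarith) ht
  have hHt : 0 ≤ H t := (Es_nonneg 1 B (u t)).trans (h3 t)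
  have h6 : Es s B (u t) ≤ Es s B (u t) * Real.exp (κ / m0 * H t) :=
    le_mul_of_one_le_right (Es_nonneg _ _ _) (Real.one_le_exp (by positivity))
  refine h6.trans (h5.trans ?_)
  apply mul_le_mul _ _ (Real.exp_pos _).le hVs0
  · show Es s B (u 0) ≤ Vs
    rw [hinit B T u h]; exact hVs B
  · apply Real.exp_le_exp.2
    exact mul_le_mul_of_nonneg_left hH0 (by positivity)

end Pool.Agent.K1H29.NC
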