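import Pool.Agent.K1H29.NC.I3
import Pool.Agent.K1H29.NC.W4

/-!
# Uniform bounds if the block inequality holds at infinitely many scales
-/

open Set ComplexConjugate MeasureTheory Filter Topology

namespace Pool.Agent.K1H29.NC

open Pool.Agent.H356R3.NS hiding Sol
open Pool.Agent.K1H29.SH (nn nn_nonneg nn_neg ipc ipc_bt abs_le_nn dt_sub norm_ipc_le norm_dt_le tri mem_tri
  en en_nonneg norm_sq_le_en nn_sub_le nn_le_nk nk_le_two_nn one_le_nn nn_eq_zero mvi)
open Pool.Agent.K1H29.RD (Es Es_nonneg dec sum_m_ge)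

variable {φ : K → K → ℝ} {m : K → ℝ} {B : Finset K} {T : ℝ} {V : K → C3} {u : ℝ → K → C3}

/-- an increasing sequence of good scales with gaps larger than `a` -/
lemma exists_lev {X : ℝ} (h : BlkInf φ X) (n₁ a : ℕ) : ∃ lev : ℕ → ℕ, n₁ ≤ lev 0 ∧
    (∀ j, lev j + a < lev (j + 1)) ∧ ∀ j, BlkAt φ X (lev j) := by
  choose N hN hN' using h.2
  refine ⟨fun j => Nat.rec (N n₁) (fun _ r => N (r + a + 1)) j, hN n₁, fun j => ?_, fun j => ?_⟩
  · have := hN ((Nat.rec (N n₁) (fun _ r => N (r + a + 1)) j : ℕ) + a + 1)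
    show (Nat.rec (N n₁) (fun _ r => N (r + a + 1)) j : ℕ) + a
      < N ((Nat.rec (N n₁) (fun _ r => N (r + a + 1)) j : ℕ) + a + 1)
    omega
  · cases j with
    | zero => exact hN' n₁
    | succ j => exact hN' _

lemma lev_mono {lev : ℕ → ℕ} {a : ℕ} (h : ∀ j, lev j + a < lev (j + 1)) {i j : ℕ} (hij : i < j) :
    lev i + a < lev j := by
  have hm : StrictMono lev := strictMono_nat_of_lt_succ fun j => by have := h j; omega
  exact (h i).trans_le (hm.monotone hij)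

/-- the average of the localised dissipations -/
lemma sum_Wn {lev : ℕ → ℕ} {a : ℕ} (h : ∀ j, lev j + a < lev (j + 1)) (J : ℕ) (B : Finset K) (u : K → C3) :
    ∑ j ∈ Finset.range J, Wn (lev j) a B u ≤ (1 + J / 4 ^ a) * Es 1 B u := by
  unfold Wn Es
  rw [Finset.sum_comm, Finset.mul_sum]
  refine Finset.sum_le_sum fun k _ => ?_
  rw [← Finset.sum_mul, mul_one]
  apply mul_le_mul_of_nonneg_right _ (nsq_nonneg u k)
  rw [Finset.sum_add_distrib]
  apply add_le_add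
  · rw [← Finset.sum_filter, Finset.sum_const, nsmul_eq_mul, mul_one]
    have : ((Finset.range J).filter (fun j => lev j ≤ cl k ∧ cl k ≤ lev j + a)).card ≤ 1 := by
      rw [Finset.card_le_one]
      intro i hi j hj
      rw [Finset.mem_filter] at hi hj
      by_contra hne
      rcases lt_or_gt_of_ne hne with h1 | h1
      · have := lev_mono h h1; omega
      · have := lev_mono h h1; omega
    exact_mod_cast this
  · rw [Finset.sum_const, nsmul_eq_mul, Finset.card_range]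
    exact le_of_eq (by ring)

lemma tail_le_Es1 (n : ℕ) (B : Finset K) (u : K → C3) : tail n B u ≤ 1 / 4 ^ n * Es 1 B u := by
  unfold tail Es
  rw [Finset.mul_sum]
  refine Finset.sum_le_sum fun k _ => ?_
  split_ifs with h1
  · have h2 : ¬ cl k ≤ n := by omega
    rw [cl_le_iff, not_le] at h2
    have h3 : (2 ^ n) ^ 2 ≤ nn k ^ 2 := pow_le_pow_left₀ (by positivity) h2.le 2
    have h4 : (4 : ℝ) ^ n = (2 ^ n) ^ 2 := by rw [← pow_mul, mul_comm, pow_mul]; norm_num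
    rw [mul_one, ← mul_assoc]
    have h5 : (1 : ℝ) ≤ 1 / 4 ^ n * nn k ^ 2 := by
      rw [h4, one_div, inv_mul_eq_div, one_le_div (by positivity)]
      exact h3
    exact le_mul_of_one_le_left (en_nonneg _) h5
  · exact mul_nonneg (by positivity) (mul_nonneg (pow_nonneg (nn_nonneg k) _) (en_nonneg _))

lemma GalW.es0 (h : GalW φ m B T V u) (hφ : Wt φ) (hm : ∀ k, 0 ≤ m k) {E : ℝ}
    (hE : ∀ B : Finset K, ∑ k ∈ B, nn k ^ (2 * 0) * en (V k) ≤ E) {t : ℝ} (ht : t ∈ Icc 0 T) :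
    Es 0 B (u t) ≤ E := by
  have h1 := h.energy hφ hm ht
  have h2 := hE B
  unfold Es
  simp only [mul_zero, pow_zero, one_mul] at *
  linarith

/-- **The energy in the high frequencies is uniformly small.** -/
theorem tail_bound (hφ : Wt φ) {X : ℝ} (hX : BlkInf φ X) {m0 : ℝ} (hm0 : 0 < m0)
    (hm : ∀ k, m0 * nn k ^ 2 ≤ m k)
    (hV : ∀ s : ℕ, ∃ C, ∀ B : Finset K, ∑ k ∈ B, nn k ^ (2 * s) * en (V k) ≤ C) {ε : ℝ} (hε : 0 < ε) :
    ∃ n₀ : ℕ, ∀ (B : Finset K) (T : ℝ) (u : ℝ → K → C3), (0 : K) ∉ B → 0 ≤ T → GalW φ m B T V u →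
      ∀ t ∈ Icc 0 T, tail n₀ B (u t) ≤ ε := by
  obtain ⟨E, hE⟩ := hV 0
  obtain ⟨V1, hV1⟩ := hV 1
  have hE0 : 0 ≤ E := (hE ∅).trans' (by simp)
  have hV10 : 0 ≤ V1 := (hV1 ∅).trans' (by simp)
  have hX0 := hX.1
  have hpi := Real.pi_pos
  have hmm : ∀ k, 0 ≤ m k := fun k => le_trans (mul_nonneg hm0.le (sq_nonneg _)) (hm k)
  set c : ℝ := 108 * Real.pi * (X * √E) with hc
  have hc0 : 0 ≤ c := by positivity
  -- the parameters
  obtain ⟨n₁, hn₁⟩ : ∃ n₁ : ℕ, 1 / 4 ^ n₁ * V1 ≤ ε / 2 := by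
    obtain ⟨n, hn⟩ := exists_pow_lt_of_lt_one (show (0 : ℝ) < ε / 2 / (V1 + 1) by positivity)
      (show (1 / 4 : ℝ) < 1 by norm_num)
    refine ⟨n, ?_⟩
    rw [one_div_pow, lt_div_iff₀ (by positivity)] at hn
    have : (0 : ℝ) ≤ 1 / 4 ^ n := by positivity
    nlinarith
  obtain ⟨a, ha1, ha⟩ : ∃ a : ℕ, 1 ≤ a ∧ c * E / (2 * m0) * (1 / 4 ^ a) ≤ ε / 4 := by
    obtain ⟨n, hn⟩ := exists_pow_lt_of_lt_one (show (0 : ℝ) < ε / 4 / (c * E / (2 * m0) + 1) by positivity)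
      (show (1 / 4 : ℝ) < 1 by norm_num)
    refine ⟨n + 1, by omega, ?_⟩
    rw [one_div_pow, lt_div_iff₀ (by positivity)] at hn
    have h1 : (0 : ℝ) ≤ 1 / 4 ^ n := by positivity
    have h2 : (1 : ℝ) / 4 ^ (n + 1) ≤ 1 / 4 ^ n := by
      apply one_div_le_one_div_of_le (by positivity)
      exact pow_le_pow_right₀ (by norm_num) (by omega)
    have h3 : 0 ≤ c * E / (2 * m0) := by positivity
    nlinarith
  obtain ⟨J, hJ1, hJ⟩ : ∃ J : ℕ, 0 < J ∧ c * E / (2 * m0) * (1 / J) ≤ ε / 4 := by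
    obtain ⟨n, hn⟩ := exists_nat_gt ((c * E / (2 * m0)) / (ε / 4))
    refine ⟨n + 1, by omega, ?_⟩
    rw [div_lt_iff₀ (by positivity)] at hn
    rw [mul_one_div, div_le_iff₀ (by positivity)]
    push_cast
    have : 0 ≤ ε / 4 := by positivity
    nlinarith
  obtain ⟨lev, hl0, hl1, hl2⟩ := exists_lev hX n₁ a
  have hJr : (0 : ℝ) < J := by exact_mod_cast hJ1
  set κ : ℝ := c * (1 / J + 1 / 4 ^ a) / (2 * m0) with hκ
  have hκ0 : 0 ≤ κ := by positivity
  have hκE : κ * E ≤ ε / 2 := by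
    have : κ * E = c * E / (2 * m0) * (1 / J) + c * E / (2 * m0) * (1 / 4 ^ a) := by
      rw [hκ]; ring
    rw [this]; linarith
  refine ⟨lev J, fun B T u h0 hT h t ht => ?_⟩
  -- the weight
  set w : K → ℝ := fun k => 1 / J * (∑ j ∈ Finset.range J, if lev j < cl k then (1 : ℝ) else 0) + κ with hw
  have hwκ : ∀ k, κ ≤ w k := fun k => by
    simp only [hw]
    have : 0 ≤ ∑ j ∈ Finset.range J, if lev j < cl k then (1 : ℝ) else 0 :=
      Finset.sum_nonneg fun j _ => by split_ifs <;> norm_num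
    have := mul_nonneg (show (0 : ℝ) ≤ 1 / J by positivity) this
    linarith
  have h1 := mvi (f := fun s => ∑ k ∈ B, w k * en (u s k)) (K := 0)
    (fun s hs => h.dW w hs) le_rfl ht.1 ht.2 (fun s hs => by
      have hs' : s ∈ Icc 0 T := ⟨hs.1, hs.2.trans ht.2⟩
      have e0 : Es 0 B (u s) ≤ E := h.es0 hφ hmm hE hs'
      have f1 : κ * (m0 * Es 1 B (u s)) ≤ ∑ k ∈ B, w k * (m k * en (u s k)) := by
        unfold Es
        rw [Finset.mul_sum, Finset.mul_sum]
        refine Finset.sum_le_sum fun k _ => ?_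
        apply mul_le_mul (hwκ k) _ (mul_nonneg hm0.le (mul_nonneg (pow_nonneg (nn_nonneg k) _) (en_nonneg _)))
          (hκ0.trans (hwκ k))
        rw [mul_one, ← mul_assoc]
        exact mul_le_mul_of_nonneg_right (hm k) (en_nonneg _)
      have f2 : ∑ k ∈ B, w k * (2 * (ipc (Bw φ (u s) (u s) k) (u s k)).re)
          = 1 / J * ∑ j ∈ Finset.range J, ∑ k ∈ B, (if lev j < cl k then (1 : ℝ) else 0) *
            (2 * (ipc (Bw φ (u s) (u s) k) (u s k)).re) := by
        have g1 := flux_zero hφ h.symB (h.supp s hs') (h.sym s hs') (h.div s hs') κ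
        rw [Finset.sum_comm, Finset.mul_sum]
        calc ∑ k ∈ B, w k * (2 * (ipc (Bw φ (u s) (u s) k) (u s k)).re)
            = ∑ k ∈ B, (1 / J * ∑ j ∈ Finset.range J, (if lev j < cl k then (1 : ℝ) else 0) *
            (2 * (ipc (Bw φ (u s) (u s) k) (u s k)).re) + κ * (2 * (ipc (Bw φ (u s) (u s) k) (u s k)).re)) := by
              refine Finset.sum_congr rfl fun k _ => ?_
              simp only [hw]
              rw [add_mul, mul_assoc (1 / (J : ℝ)), Finset.sum_mul]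
          _ = _ := by rw [Finset.sum_add_distrib, g1, add_zero]
      have f3 : ∑ j ∈ Finset.range J, ∑ k ∈ B, (if lev j < cl k then (1 : ℝ) else 0) *
            (2 * (ipc (Bw φ (u s) (u s) k) (u s k)).re) ≤ c * ((1 + J / 4 ^ a) * Es 1 B (u s)) := by
        calc _ ≤ ∑ j ∈ Finset.range J, c * Wn (lev j) a B (u s) := by
              refine Finset.sum_le_sum fun j _ => ?_
              have g2 := flux_hi hφ hX0 ha1 (hl2 j) h.symB h0 (h.supp s hs') (h.sym s hs') (h.div s hs') e0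
              refine (le_abs_self _).trans (g2.trans (le_of_eq ?_))
              rw [hc]; ring
          _ = c * ∑ j ∈ Finset.range J, Wn (lev j) a B (u s) := by rw [Finset.mul_sum]
          _ ≤ _ := mul_le_mul_of_nonneg_left (sum_Wn hl1 J B (u s)) hc0
      have f4 : 1 / (J : ℝ) * (c * ((1 + J / 4 ^ a) * Es 1 B (u s))) = 2 * (κ * (m0 * Es 1 B (u s))) := by
        rw [hκ]; field_simp
      have f5 := mul_le_mul_of_nonneg_left f3 (show (0 : ℝ) ≤ 1 / J by positivity)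
      rw [f2]
      linarith)
  simp only [zero_mul] at h1
  -- the final time
  have h2 : tail (lev J) B (u t) ≤ ∑ k ∈ B, w k * en (u t k) := by
    unfold tail
    refine Finset.sum_le_sum fun k _ => ?_
    have he := en_nonneg (u t k)
    split_ifs with h3
    · have h4 : (1 : ℝ) ≤ w k := by
        simp only [hw]
        have : ∑ j ∈ Finset.range J, (if lev j < cl k then (1 : ℝ) else 0) = J := by
          rw [Finset.sum_congr rfl (fun j hj => by
            rw [if_pos]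
            have := lev_mono hl1 (Finset.mem_range.1 hj)
            omega : ∀ j ∈ Finset.range J, (if lev j < cl k then (1 : ℝ) else 0) = 1)]
          simp
        rw [this, one_div, inv_mul_cancel₀ hJr.ne']
        linarith
      exact le_mul_of_one_le_left he h4
    · exact mul_nonneg (hκ0.trans (hwκ k)) he
  -- the initial time
  have h3 : ∑ k ∈ B, w k * en (u 0 k) ≤ ε := by
    have h4 : ∑ k ∈ B, w k * en (u 0 k) = ∑ k ∈ B, w k * en (V k) :=
      Finset.sum_congr rfl fun k hk => by rw [h.init k hk]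
    rw [h4]
    have h5 : ∑ k ∈ B, w k * en (V k) ≤ tail n₁ B V + κ * ∑ k ∈ B, nn k ^ (2 * 0) * en (V k) := by
      unfold tail
      rw [Finset.mul_sum, ← Finset.sum_add_distrib]
      refine Finset.sum_le_sum fun k _ => ?_
      have he := en_nonneg (V k)
      simp only [hw, mul_zero, pow_zero, one_mul, add_mul]
      apply add_le_add_left
      by_cases h6 : n₁ < cl k
      · rw [if_pos h6]
        have h7 : 1 / (J : ℝ) * (∑ j ∈ Finset.range J, if lev j < cl k then (1 : ℝ) else 0) ≤ 1 := by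
          rw [one_div, inv_mul_le_iff₀ hJr, mul_one]
          calc _ ≤ ∑ j ∈ Finset.range J, (1 : ℝ) := Finset.sum_le_sum fun j _ => by
                split_ifs <;> norm_num
            _ = J := by simp
        exact mul_le_of_le_one_left he h7
      · rw [if_neg h6]
        have : ∑ j ∈ Finset.range J, (if lev j < cl k then (1 : ℝ) else 0) = 0 := by
          refine Finset.sum_eq_zero fun j _ => ?_
          rw [if_neg]
          have : lev 0 ≤ lev j := by
            rcases Nat.eq_zero_or_pos j with h8 | h8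
            · rw [h8]
            · have := lev_mono hl1 h8; omega
          omega
        rw [this, mul_zero, zero_mul]
    have h6 := tail_le_Es1 n₁ B V
    have h7 : Es 1 B V ≤ V1 := hV1 B
    have h8 : 1 / 4 ^ n₁ * Es 1 B V ≤ 1 / 4 ^ n₁ * V1 := mul_le_mul_of_nonneg_left h7 (by positivity)
    have h9 := mul_le_mul_of_nonneg_left (hE B) hκ0
    linarith
  linarith

/-- a barrier -/
lemma barrier {f H H' : ℝ → ℝ} {T R : ℝ} (hf : ContinuousOn f (Icc 0 T))
    (hd : ∀ t ∈ Icc 0 T, HasDerivWithinAt H (H' t) (Icc 0 T) t) (hfH : ∀ t ∈ Icc 0 T, f t ≤ H t)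
    (h0 : H 0 < R) (hn : ∀ t ∈ Icc 0 T, f t ≤ R → H' t ≤ 0) : ∀ t ∈ Icc 0 T, f t ≤ R := by
  by_contra hcon
  push Not at hcon
  obtain ⟨t1, ht1, hft1⟩ := hcon
  set S := Icc 0 T ∩ f ⁻¹' Ici R with hS
  have hScl : IsClosed S := hf.preimage_isClosed_of_isClosed isClosed_Icc isClosed_Ici
  have hSne : S.Nonempty := ⟨t1, ht1, hft1.le⟩
  have hSb : BddBelow S := ⟨0, fun s hs => hs.1.1⟩
  set τ := sInf S with hτ
  have hτS : τ ∈ S := hScl.csInf_mem hSne hSb
  have hlt : ∀ s ∈ Ico 0 τ, f s ≤ R := by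
    intro s hs
    by_contra h1
    rw [not_le] at h1
    have : τ ≤ s := csInf_le hSb ⟨⟨hs.1, hs.2.le.trans hτS.1.2⟩, h1.le⟩
    exact absurd hs.2 (not_lt.2 this)
  have hsub : Icc 0 τ ⊆ Icc 0 T := Icc_subset_Icc le_rfl hτS.1.2
  have key := image_le_of_deriv_right_le_deriv_boundary (f := H) (f' := H') (a := 0) (b := τ)
    (fun t ht => ((hd t (hsub ht)).continuousWithinAt).mono hsub)
    (fun t ht => by
      have h1 := hd t (hsub (Ico_subset_Icc_self ht))
      refine h1.mono_of_mem_nhdsWithin (Filter.mem_of_superset (Icc_mem_nhdsGE_of_mem ht) hsub))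
    (B := fun _ => H 0) (B' := fun _ => 0) le_rfl continuousOn_const
    (fun t _ => hasDerivWithinAt_const _ _ _)
    (fun t ht => hn t (hsub (Ico_subset_Icc_self ht)) (hlt t ht))
  have h2 := key ⟨hτS.1.1, le_rfl⟩
  have h3 := hfH τ hτS.1
  have h4 : R ≤ f τ := hτS.2
  linarith

/-- **The enstrophy is uniformly bounded.** -/
theorem enstrophy_boundI (hφ : Wt φ) {X : ℝ} (hX : BlkInf φ X) {m0 : ℝ} (hm0 : 0 < m0)
    (hm : ∀ k, m0 * nn k ^ 2 ≤ m k)
    (hV : ∀ s : ℕ, ∃ C, ∀ B : Finset K, ∑ k ∈ B, nn k ^ (2 * s) * en (V k) ≤ C) :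
    ∃ R : ℝ, ∀ (B : Finset K) (T : ℝ) (u : ℝ → K → C3), (0 : K) ∉ B → 0 ≤ T → GalW φ m B T V u →
      ∃ H H' : ℝ → ℝ, (∀ t ∈ Icc 0 T, HasDerivWithinAt H (H' t) (Icc 0 T) t) ∧
        (∀ t ∈ Icc 0 T, H' t ≤ -(m0 * Es 2 B (u t))) ∧ (∀ t, Es 1 B (u t) ≤ H t) ∧ H 0 ≤ R := by
  obtain ⟨E, hE⟩ := hV 0
  obtain ⟨V1, hV1⟩ := hV 1
  have hE0 : 0 ≤ E := (hE ∅).trans' (by simp)
  have hV10 : 0 ≤ V1 := (hV1 ∅).trans' (by simp)
  have hX0 := hX.1
  have hpi := Real.pi_pos
  have hmm : ∀ k, 0 ≤ m k := fun k => le_trans (mul_nonneg hm0.le (sq_nonneg _)) (hm k)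
  set c2 : ℝ := 1728 * Real.pi * X with hc2
  have hc20 : 0 ≤ c2 := by positivity
  set ρ : ℝ := (m0 / (c2 + 1)) ^ 2 with hρ
  have hρ0 : 0 < ρ := by positivity
  have hρs : c2 * √ρ ≤ m0 := by
    rw [hρ, Real.sqrt_sq (by positivity), mul_div_assoc']
    rw [div_le_iff₀ (by positivity)]
    nlinarith
  set d : ℝ := 324 * Real.pi / (2 * m0) * E with hd
  have hd0 : 0 ≤ d := by positivity
  set ε : ℝ := ρ / (4 * (d * X + 1)) with hε
  have hε0 : 0 < ε := by positivity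
  have hdX : d * X * ε ≤ ρ / 4 := by
    rw [hε, mul_div_assoc', div_le_div_iff₀ (by positivity) (by norm_num)]
    have : 0 ≤ d * X := by positivity
    nlinarith
  obtain ⟨n₀, hn₀⟩ := tail_bound (V := V) hφ hX hm0 hm hV (show 0 < ε ^ 2 by positivity)
  -- the scale
  obtain ⟨N1, hN1⟩ : ∃ N1 : ℕ, 4 * V1 + d * (Kc n₀ * √E) ≤ ρ / 4 * 4 ^ N1 := by
    obtain ⟨n, hn⟩ := pow_unbounded_of_one_lt ((4 * V1 + d * (Kc n₀ * √E)) / (ρ / 4))
      (show (1 : ℝ) < 4 by norm_num)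
    refine ⟨n, ?_⟩
    rw [div_lt_iff₀ (by positivity)] at hn
    linarith
  obtain ⟨n, hn, hblk⟩ := hX.2 (max n₀ N1)
  have hnn₀ : n₀ ≤ n := (le_max_left _ _).trans hn
  have hnN : N1 ≤ n := (le_max_right _ _).trans hn
  have h4n : (4 : ℝ) ^ N1 ≤ 4 ^ n := pow_le_pow_right₀ (by norm_num) hnN
  set c1 : ℝ := 324 * Real.pi * (Kc n₀ * √E + X * 4 ^ n * ε) with hc1
  have hKc := Kc_nonneg n₀
  have hc10 : 0 ≤ c1 := by positivity
  set lam : ℝ := c1 / (2 * m0) with hlam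
  have hlam0 : 0 ≤ lam := by positivity
  set R : ℝ := ρ * 4 ^ n with hR
  refine ⟨R, fun B T u h0 hT h => ?_⟩
  have hQ0 : Qe B (u 0) ≤ 4 * V1 := by
    refine (Qe_le_Es B (u 0)).trans ?_
    have : Es 1 B (u 0) = ∑ k ∈ B, nn k ^ (2 * 1) * en (V k) :=
      Finset.sum_congr rfl fun k hk => by rw [h.init k hk]
    rw [this]
    exact mul_le_mul_of_nonneg_left (hV1 B) (by norm_num)
  have hH0 : Qe B (u 0) + lam * Es 0 B (u 0) < R := by
    have e1 : Es 0 B (u 0) ≤ E := h.es0 hφ hmm hE ⟨le_rfl, hT⟩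
    have e2 : lam * Es 0 B (u 0) ≤ lam * E := mul_le_mul_of_nonneg_left e1 hlam0
    have e3 : lam * E = d * (Kc n₀ * √E) + d * X * ε * 4 ^ n := by
      have g : ∀ x y : ℝ, 324 * Real.pi * (x + y) / (2 * m0) * E
          = (324 * Real.pi / (2 * m0) * E) * x + (324 * Real.pi / (2 * m0) * E) * y := by
        intro x y; ring
      have g1 := g (Kc n₀ * √E) (X * 4 ^ n * ε)
      rw [← hd, ← hc1, ← hlam] at g1
      rw [g1]; ring
    have e4 : d * X * ε * 4 ^ n ≤ ρ / 4 * 4 ^ n := mul_le_mul_of_nonneg_right hdX (by positivity)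
    have e5 : ρ / 4 * 4 ^ N1 ≤ ρ / 4 * 4 ^ n := mul_le_mul_of_nonneg_left h4n (by positivity)
    have e6 : 0 < ρ * 4 ^ n := by positivity
    rw [hR]
    linarith
  obtain ⟨D0, hD0⟩ := h.bal0 hφ hm
  set D1 : ℝ → ℝ := fun t => -(2 * ∑ k ∈ B, Pool.Agent.H356R3.NS.sq k * (m k * en (u t k))) +
        ∑ k ∈ B, Pool.Agent.H356R3.NS.sq k * (2 * (ipc (Bw φ (u t) (u t) k) (u t k)).re) with hD1
  have hD1d : ∀ t ∈ Icc 0 T, HasDerivWithinAt (fun s => Qe B (u s)) (D1 t) (Icc 0 T) t :=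
    fun t ht => h.dW Pool.Agent.H356R3.NS.sq ht
  have hD1b : ∀ t ∈ Icc 0 T, D1 t + 2 * (m0 * Es 2 B (u t)) ≤ c1 * Es 1 B (u t)
      + c2 / 2 ^ n * (√(Es 1 B (u t)) * Es 2 B (u t)) := by
    intro t ht
    have h1 := enst_flux_inf hφ hX0 hnn₀ hblk h.symB (h.supp t ht) (h.sym t ht) (h.div t ht)
      (h.es0 hφ hmm hE ht) (hn₀ B T u h0 hT h t ht) hε0.le
    have h2 := (le_abs_self _).trans h1
    have h3 : m0 * Es 2 B (u t) ≤ ∑ k ∈ B, Pool.Agent.H356R3.NS.sq k * (m k * en (u t k)) := by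
      unfold Es
      rw [Finset.mul_sum]
      refine Finset.sum_le_sum fun k _ => ?_
      have h4 : nn k ^ 2 ≤ Pool.Agent.H356R3.NS.sq k := by
        rw [← nk_sq]; exact pow_le_pow_left₀ (nn_nonneg k) (nn_le_nk k) 2
      have h5 : 0 ≤ nn k ^ 2 := sq_nonneg _
      calc m0 * (nn k ^ (2 * 2) * en (u t k)) = nn k ^ 2 * ((m0 * nn k ^ 2) * en (u t k)) := by ring
        _ ≤ nn k ^ 2 * (m k * en (u t k)) :=
            mul_le_mul_of_nonneg_left (mul_le_mul_of_nonneg_right (hm k) (en_nonneg _)) h5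
        _ ≤ _ := mul_le_mul_of_nonneg_right h4
            (mul_nonneg (le_trans (mul_nonneg hm0.le h5) (hm k)) (en_nonneg _))
    simp only [hD1]
    rw [hc1, hc2]
    linarith
  -- the derivative if the enstrophy is below the barrier
  have hneg : ∀ t ∈ Icc 0 T, Es 1 B (u t) ≤ R → D1 t + lam * D0 t ≤ -(m0 * Es 2 B (u t)) := by
    intro t ht hR1
    have h1 := hD1b t ht
    have h2 := mul_le_mul_of_nonneg_left (hD0 t ht).2 hlam0
    have h3 : lam * -(2 * (m0 * Es 1 B (u t))) = -(c1 * Es 1 B (u t)) := by rw [hlam]; field_simp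
    have h4 : √(Es 1 B (u t)) ≤ √ρ * 2 ^ n := by
      refine (Real.sqrt_le_sqrt hR1).trans (le_of_eq ?_)
      rw [hR, Real.sqrt_mul hρ0.le, show (4 : ℝ) ^ n = (2 ^ n) ^ 2 by
        rw [← pow_mul, mul_comm, pow_mul]; norm_num, Real.sqrt_sq (show (0 : ℝ) ≤ 2 ^ n by positivity)]
    have hE2 := Es_nonneg 2 B (u t)
    have h5 : c2 / 2 ^ n * (√(Es 1 B (u t)) * Es 2 B (u t)) ≤ m0 * Es 2 B (u t) := by
      calc c2 / 2 ^ n * (√(Es 1 B (u t)) * Es 2 B (u t))
          ≤ c2 / 2 ^ n * ((√ρ * 2 ^ n) * Es 2 B (u t)) :=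
            mul_le_mul_of_nonneg_left (mul_le_mul_of_nonneg_right h4 hE2) (by positivity)
        _ = (c2 * √ρ) * Es 2 B (u t) := by field_simp
        _ ≤ _ := mul_le_mul_of_nonneg_right hρs hE2
    linarith
  have hHd : ∀ t ∈ Icc 0 T, HasDerivWithinAt (fun s => Qe B (u s) + lam * Es 0 B (u s))
      (D1 t + lam * D0 t) (Icc 0 T) t := fun t ht => (hD1d t ht).add ((hD0 t ht).1.const_mul lam)
  have hle : ∀ t, Es 1 B (u t) ≤ Qe B (u t) + lam * Es 0 B (u t) := fun t => by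
    have := mul_nonneg hlam0 (Es_nonneg 0 B (u t))
    have := Es_le_Qe B (u t)
    linarith
  have hcont : ContinuousOn (fun t => Es 1 B (u t)) (Icc 0 T) := fun t ht =>
    (h.dW (fun k => nn k ^ (2 * 1)) ht).continuousWithinAt
  have hbar := barrier (f := fun t => Es 1 B (u t)) (R := R) hcont hHd (fun t _ => hle t) hH0
    (fun t ht hR1 => (hneg t ht hR1).trans (by
      have := Es_nonneg 2 B (u t)
      have : 0 ≤ m0 * Es 2 B (u t) := by positivity
      linarith))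
  exact ⟨_, _, hHd, fun t ht => hneg t ht (hbar t ht), hle, hH0.le⟩

/-- **Uniform bounds.** -/
theorem unifI (hφ : Wt φ) {X : ℝ} (hX : BlkInf φ X) {m0 : ℝ} (hm0 : 0 < m0)
    (hm : ∀ k, m0 * nn k ^ 2 ≤ m k)
    (hV : ∀ s : ℕ, ∃ C, ∀ B : Finset K, ∑ k ∈ B, nn k ^ (2 * s) * en (V k) ≤ C) (s : ℕ) :
    ∃ C, ∀ (B : Finset K) (T : ℝ) (u : ℝ → K → C3), (0 : K) ∉ B → 0 ≤ T → GalW φ m B T V u →
      ∀ t ∈ Icc 0 T, Es s B (u t) ≤ C := by
  obtain ⟨M1, hc⟩ := enstrophy_boundI (m := m) (V := V) hφ hX hm0 hm hV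
  obtain ⟨Vs, hVs⟩ := hV s
  have hVs0 : 0 ≤ Vs := (hVs ∅).trans' (by simp)
  have hpi := Real.pi_pos
  have hinit : ∀ (B : Finset K) (T : ℝ) (u : ℝ → K → C3), GalW φ m B T V u → ∀ s,
      Es s B (u 0) = ∑ k ∈ B, nn k ^ (2 * s) * en (V k) := fun B T u h s =>
    Finset.sum_congr rfl fun k hk => by rw [h.init k hk]
  set a : ℝ := 72 * Real.pi * 2 ^ s with ha
  have ha0 : 0 ≤ a := by positivity
  set κ : ℝ := a ^ 2 / (4 * m0) * CZ with hκ
  have hκ0 : 0 ≤ κ := mul_nonneg (by positivity) CZ_nonneg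
  refine ⟨Vs * Real.exp (κ / m0 * M1), fun B T u h0 hT0 h t ht => ?_⟩
  obtain ⟨H, H', h1, h2, h3, hH0⟩ := hc B T u h0 hT0 h
  have h5 := dec (T := T) (f := fun r => Es s B (u r)) (f' := fun r =>
      (-(2 * ∑ k ∈ B, nn k ^ (2 * s) * (m k * en (u r k))) +
        ∑ k ∈ B, nn k ^ (2 * s) * (2 * (ipc (Bw φ (u r) (u r) k) (u r k)).re)))
    (g := fun r => κ / m0 * H r) (g' := fun r => κ / m0 * H' r)
    (fun r hr => h.dW (fun k => nn k ^ (2 * s)) hr)
    (fun r hr => (h1 r hr).const_mul _) (fun r hr => by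
      have f1 := hi_flux hφ (h.supp r hr) (h.div r hr) s
      have f2 := sum_m_ge (B := B) hm s (u r)
      have f3 := l1_sq_le h0 (u r)
      have hE := Es_nonneg s B (u r)
      have hE' := Es_nonneg (s + 1) B (u r)
      have hE2 := Es_nonneg 2 B (u r)
      have f4 : κ / m0 * H' r ≤ -(κ * Es 2 B (u r)) := by
        have : κ / m0 * H' r ≤ κ / m0 * -(m0 * Es 2 B (u r)) :=
          mul_le_mul_of_nonneg_left (h2 r hr) (by positivity)
        have e : κ / m0 * -(m0 * Es 2 B (u r)) = -(κ * Es 2 B (u r)) := by field_simp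
        linarith
      set A := ∑ k ∈ B, ‖u r k‖ with hA
      have hA0 : 0 ≤ A := Finset.sum_nonneg fun _ _ => norm_nonneg _
      set E := Es s B (u r)
      set E' := Es (s + 1) B (u r)
      have f5 : a * A * (√E * √E') ≤ m0 * E' + a ^ 2 / (4 * m0) * A ^ 2 * E := by
        have g1 : √E ^ 2 = E := Real.sq_sqrt hE
        have g2 : √E' ^ 2 = E' := Real.sq_sqrt hE'
        have g3 : 0 ≤ m0 * (√E' - a * A * √E / (2 * m0)) ^ 2 := by positivity
        have g4 : m0 * (√E' - a * A * √E / (2 * m0)) ^ 2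
            = m0 * √E' ^ 2 + a ^ 2 / (4 * m0) * A ^ 2 * √E ^ 2 - a * A * (√E * √E') := by
          field_simp; ring
        rw [g1, g2] at g4
        linarith
      have f6 : a ^ 2 / (4 * m0) * A ^ 2 * E ≤ κ * Es 2 B (u r) * E := by
        apply mul_le_mul_of_nonneg_right _ hE
        calc a ^ 2 / (4 * m0) * A ^ 2 ≤ a ^ 2 / (4 * m0) * (CZ * Es 2 B (u r)) :=
              mul_le_mul_of_nonneg_left f3 (by positivity)
          _ = _ := by rw [hκ]; ring
      have f7 := mul_le_mul_of_nonneg_right f4 hE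
      have f8 : 0 ≤ m0 * E' := by positivity
      show -(2 * ∑ k ∈ B, nn k ^ (2 * s) * (m k * en (u r k))) +
        ∑ k ∈ B, nn k ^ (2 * s) * (2 * (ipc (Bw φ (u r) (u r) k) (u r k)).re)
          + κ / m0 * H' r * E ≤ 0
      have e1 : -(κ * Es 2 B (u r)) * E = -(κ * Es 2 B (u r) * E) := by ring
      rw [e1] at f7
      linarith) ht
  have hHt : 0 ≤ H t := (Es_nonneg 1 B (u t)).trans (h3 t)
  have h6 : Es s B (u t) ≤ Es s B (u t) * Real.exp (κ / m0 * H t) :=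
    le_mul_of_one_le_right (Es_nonneg _ _ _) (Real.one_le_exp (by positivity))
  refine h6.trans (h5.trans ?_)
  apply mul_le_mul _ _ (Real.exp_pos _).le hVs0
  · show Es s B (u 0) ≤ Vs
    rw [hinit B T u h]; exact hVs B
  · apply Real.exp_le_exp.2
    exact mul_le_mul_of_nonneg_left hH0 (by positivity)

end Pool.Agent.K1H29.NC
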