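import Pool.Agent.K1H29.NC.W6
import Pool.Agent.K1H29.RD.Phy

/-!
# Global regularity for weights with the planar trilinear inequality
-/

open Set ComplexConjugate Filter Topology MeasureTheory
open scoped ContDiff

namespace Pool.Agent.K1H29.NC

open Pool.Agent.H356R3.NS hiding Sol
open Pool.Agent.K1H29.SH (ee_eq_ex GS_zero nn nn_nonneg en)
open Pool.Agent.K1H29.RD (Es Es_nonneg)

variable {φ : K → K → ℝ} {V : K → C3} {u : Fam} {ν : ℝ}

/-- product of real Fourier series -/
lemma prod_series {c d : K → ℂ} (hc : Summable c) (hd : Summable d) (hcs : ∀ k, c (-k) = star (c k))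
    (hds : ∀ k, d (-k) = star (d k)) (x : R3) :
    prod φ (fun y => (∑' l, c l * ex l y).re) (fun y => (∑' l, d l * ex l y).re) x
      = (∑' k, (∑' l, (φ l k : ℂ) * (c l * d (k - l))) * ex k x).re := by
  unfold prod
  have h1 : ∀ k, four (fun y => (∑' l, c l * ex l y).re) k = c k := fun k => SH.four_series hc hcs k
  have h2 : ∀ k, four (fun y => (∑' l, d l * ex l y).re) k = d k := fun k => SH.four_series hd hds k
  simp only [h1, h2]
  rfl

/-- Solutions on the Fourier side. -/
structure FSW (φ : K → K → ℝ) (m : K → ℝ) (V : K → C3) (u : Fam) : Prop where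
  cf : CF u
  rd : ∀ p : ℕ, ∃ b : K → ℝ, Summable b ∧ ∀ k t, pw k ^ p * ‖u k t‖ ≤ b k
  sym : SymF u
  div : ∀ k t, dt k (u k t) = 0
  init : ∀ k, u k 0 = V k
  der : ∀ k, ∀ t, 0 < t → HasDerivAt (u k) (-(m k) • u k t + Btw φ u k t) t

lemma FSW.rdi {m : K → ℝ} (h : FSW φ m V u) (i : Fin 3) : RD (cf' u i) := by
  intro p
  obtain ⟨b, hb, hb'⟩ := h.rd p
  refine ⟨b, hb, fun k t => le_trans ?_ (hb' k t)⟩
  exact mul_le_mul_of_nonneg_left (norm_le_pi_norm _ i) (by have := pw_pos k; positivity)

lemma FSW.deri (h : FSW φ (fun k => 4 * Real.pi ^ 2 * ν * Pool.Agent.H356R3.NS.sq k) V u) (i : Fin 3)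
    (k : K) {t : ℝ} (ht : 0 < t) : HasDerivAt (cf' u i k) (dUw φ (4 * Real.pi ^ 2 * ν) u i k t) t := by
  have h5 := (hasDerivAt_pi.1 (h.der k t ht)) i
  refine h5.congr_deriv ?_
  unfold dUw Btw Bw cvw cw at' cf'
  simp only [Pi.add_apply, Pi.smul_apply, Complex.real_smul]
  push_cast
  ring

lemma FSW.tt (hφ : Wt φ) (h : FSW φ (fun k => 4 * Real.pi ^ 2 * ν * Pool.Agent.H356R3.NS.sq k) V u) (n : ℕ) :
    ∀ i : Fin 3, TT n (cf' u i) := by
  have hc : ∀ i k, Continuous fun t => u k t i := fun i k => (continuous_apply i).comp (h.cf k)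
  induction n with
  | zero => intro i; exact ⟨h.rdi i, hc i⟩
  | succ n ih =>
    intro i
    exact ⟨h.rdi i, hc i, dUw φ (4 * Real.pi ^ 2 * ν) u i, fun k t ht => h.deri i k ht, TT_dUw hφ ih i⟩

lemma summ_mul_ex {c : K → ℂ} (hc : Summable c) (x : E3) : Summable fun k => c k * ex k x :=
  Summable.of_norm (by simpa only [norm_mul, norm_ex, mul_one] using hc.norm)

lemma ex_sub_smul (k : K) (x m : E3) (t : ℝ) : ex k (x - t • m) = ex k (-(t • m)) * ex k x := by
  unfold ex
  rw [← Complex.exp_add, ← mul_add, ← Finset.sum_add_distrib]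
  congr 2
  refine Finset.sum_congr rfl fun j _ => ?_
  simp only [Pi.sub_apply, Pi.neg_apply]
  push_cast
  ring

lemma GS_eq (m : E3) (c : SFam) (t : ℝ) (x : E3) :
    GS m c t x = ∑' k, (c k t * ex k (-(t • m))) * ex k x := by
  unfold GS SF
  refine tsum_congr fun k => ?_
  simp only
  rw [ex_sub_smul]; ring

/-- the mean -/
lemma mean_series (a : ℝ) {c : K → ℂ} (hc : Summable c) (x : E3) :
    a + (∑' k, c k * ex k x).re = (∑' k, (c k + (if k = 0 then (a : ℂ) else 0)) * ex k x).re := by
  have h1 : Summable fun k : K => (if k = 0 then (a : ℂ) else 0) :=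
    summable_of_ne_finset_zero (s := {0}) fun k hk => by rw [if_neg (by simpa using hk)]
  have h2 : ∑' k : K, (if k = 0 then (a : ℂ) else 0) * ex k x = a := by
    rw [tsum_eq_single 0 fun k hk => by rw [if_neg hk, zero_mul]]
    unfold ex
    simp
  simp only [add_mul]
  rw [(summ_mul_ex hc x).tsum_add (summ_mul_ex h1 x), h2]
  simp [add_comm]

/-- the product in the shifted frame -/
lemma prod_GS (hφ : Wt φ) (m : E3) (j : Fin 3) {c d : SFam} (hc : RD c) (hd : RD d) (t : ℝ)
    (hcs : ∀ k, c (-k) t = star (c k t)) (hds : ∀ k, d (-k) t = star (d k t)) (x : R3) :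
    prod φ (fun y => m j + (GS m c t y).re) (fun y => (GS m d t y).re) x
      = m j * (GS m d t x).re + (GS m (cvw φ c d) t x).re := by
  obtain ⟨b, hb, hb'⟩ := hc.summ
  obtain ⟨b', hbb, hbb'⟩ := hd.summ
  have hcsum : Summable fun k => c k t := Summable.of_norm_bounded hb fun k => hb' k t
  have hdsum : Summable fun k => d k t := Summable.of_norm_bounded hbb fun k => hbb' k t
  have hsh : ∀ {e : K → ℂ}, Summable e → Summable fun k => e k * ex k (-(t • m)) := fun {e} he =>
    summ_mul_ex he _
  have hsy : ∀ {e : K → ℂ}, (∀ k, e (-k) = star (e k)) →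
      ∀ k, e (-k) * ex (-k) (-(t • m)) = star (e k * ex k (-(t • m))) := fun {e} he k => by
    rw [he, ex_neg, star_mul']
  set c1 : K → ℂ := fun k => c k t * ex k (-(t • m)) + (if k = 0 then ((m j : ℝ) : ℂ) else 0) with hc1
  set d1 : K → ℂ := fun k => d k t * ex k (-(t • m)) with hd1
  have hc1s : Summable c1 := (hsh hcsum).add
    (summable_of_ne_finset_zero (s := {0}) fun k hk => by rw [if_neg (by simpa using hk)])
  have hd1s : Summable d1 := hsh hdsum
  have e1 : (fun y => m j + (GS m c t y).re) = fun y => (∑' l, c1 l * ex l y).re := by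
    funext y
    rw [GS_eq, mean_series (m j) (hsh hcsum)]
  have e2 : (fun y => (GS m d t y).re) = fun y => (∑' l, d1 l * ex l y).re := by
    funext y
    rw [GS_eq]
  rw [e1, e2, prod_series hc1s hd1s (fun k => by
    simp only [hc1, star_add]
    have h12 := hsy (e := fun k => c k t) hcs k
    rw [h12]
    congr 1
    by_cases h : k = 0
    · subst h
      simp only [neg_zero, if_true, Complex.star_def, Complex.conj_ofReal]
    · rw [if_neg h, if_neg (by simpa using h), star_zero]) (hsy (e := fun k => d k t) hds)]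
  have e3 : ∀ k, ∑' l, (φ l k : ℂ) * (c1 l * d1 (k - l))
      = (m j : ℂ) * d1 k + cvw φ c d k t * ex k (-(t • m)) := by
    intro k
    have f1 : ∀ l, (φ l k : ℂ) * (c1 l * d1 (k - l))
        = (φ l k : ℂ) * (c l t * d (k - l) t) * ex k (-(t • m))
          + (if l = 0 then (m j : ℂ) * d1 k else 0) := by
      intro l
      simp only [hc1, hd1]
      have f2 : ex k (-(t • m)) = ex l (-(t • m)) * ex (k - l) (-(t • m)) := by
        rw [← ex_add, add_sub_cancel]
      by_cases h : l = 0
      · subst h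
        rw [if_pos rfl, if_pos rfl, hφ.zero, sub_zero]
        have : ex (0 : K) (-(t • m)) = 1 := by unfold ex; simp
        rw [this]
        push_cast
        ring
      · rw [if_neg h, if_neg h, f2]
        ring
    simp only [f1]
    have g1 : Summable fun l => (φ l k : ℂ) * (c l t * d (k - l) t) * ex k (-(t • m)) :=
      (cvw_summ hφ hc hd k t).mul_right _
    have g2 : Summable fun l : K => (if l = 0 then (m j : ℂ) * d1 k else 0) :=
      summable_of_ne_finset_zero (s := {0}) fun k hk => by rw [if_neg (by simpa using hk)]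
    rw [g1.tsum_add g2, tsum_mul_right, tsum_ite_eq]
    unfold cvw
    ring
  simp only [e3, add_mul]
  have g3 : Summable fun k => (m j : ℂ) * d1 k * ex k x := by
    have := (summ_mul_ex hd1s x).mul_left (m j : ℂ)
    refine this.congr fun k => by ring
  have g4 : Summable fun k => cvw φ c d k t * ex k (-(t • m)) * ex k x := by
    obtain ⟨b2, hb2, hb2'⟩ := (RDconv hφ hc hd).summ
    exact summ_mul_ex (hsh (Summable.of_norm_bounded hb2 fun k => hb2' k t)) x
  rw [g3.tsum_add g4, Complex.add_re, GS_eq m d, GS_eq m (cvw φ c d)]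
  congr 1
  have g5 : ∑' k, (m j : ℂ) * d1 k * ex k x = (m j : ℂ) * ∑' k, d1 k * ex k x := by
    rw [← tsum_mul_left]
    exact tsum_congr fun k => by ring
  rw [g5, Complex.re_ofReal_mul]

theorem FSW.physical (hφ : Wt φ) (h : FSW φ (fun k => 4 * Real.pi ^ 2 * ν * Pool.Agent.H356R3.NS.sq k) V u)
    (m : E3) {v : R3 → R3} (hv : ∀ x i, m i + (∑' k, V k i * ex k x).re = v x i) :
    Sol φ ν v (fun t x i => m i + (GS m (cf' u i) t x).re) (fun t x => (GS m (PFw φ u) t x).re) := by
  have hT : ∀ n i, TT n (cf' u i) := fun n i => h.tt hφ n i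
  have hP : ∀ n, TT n (PFw φ u) := fun n => TT_PFw hφ (hT n)
  have hdT : ∀ n i, TT n (dUw φ (4 * Real.pi ^ 2 * ν) u i) := fun n i => TT_dUw hφ (hT n) i
  have hsym : ∀ i k t, cf' u i (-k) t = star (cf' u i k t) := fun i k t => h.sym t k i
  have hre : ∀ i t x, (GS m (cf' u i) t x).im = 0 := fun i t x => SF_real (hsym i) _
  have hsymd : ∀ i j k t, dS j (cf' u i) (-k) t = star (dS j (cf' u i) k t) := by
    intro i j k t
    unfold dS
    rw [hsym, star_mul']
    congr 1
    unfold fj
    simp only [Pi.neg_apply, Int.cast_neg, Complex.star_def, map_mul, Complex.conj_I, Complex.conj_ofReal,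
      map_ofNat, map_intCast]
    ring
  refine ⟨?_, ?_, ?_, ?_, ?_, ?_, ?_⟩
  · rw [contDiffOn_pi]
    intro i
    exact contDiffOn_const.add (GS_smooth_re m fun n => hT n i)
  · exact GS_smooth_re m hP
  · intro t _ x j
    funext i
    simp only [GS_periodic]
  · intro t _ x j
    simp only [GS_periodic]
  · intro t ht x i
    have hd0 : HasDerivWithinAt (fun s => m i + (GS m (cf' u i) s x).re)
        (GS m (dUw φ (4 * Real.pi ^ 2 * ν) u i) t x
          + ∑ j, GS m (dS j (cf' u i)) t x * (-(m j) : ℝ)).re (Ici 0) t := by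
      have h1 := GS_dt m (hT 1 i) (fun k t ht => h.deri i k ht) (hdT 0 i) ht x
      have h2 := (Complex.reCLM.hasFDerivAt.comp_hasDerivWithinAt t h1).const_add (m i)
      exact h2
    have hd := hd0.derivWithin (uniqueDiffOn_Ici (0 : ℝ) t ht)
    have e1 : ∀ j, pd j (fun y => m i + (GS m (cf' u i) t y).re) = fun x => (GS m (dS j (cf' u i)) t x).re :=
      fun j => funext fun x => pd_GS m (hT 1 i) ht (m i) j x
    have e2 : ∀ j, pd j (fun x => (GS m (dS j (cf' u i)) t x).re) x = (GS m (dS j (dS j (cf' u i))) t x).re :=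
      fun j => pd_GS' m ((hT 1 i).dS j) ht j x
    have e3 : pd i (fun x => (GS m (PFw φ u) t x).re) x = (GS m (dS i (PFw φ u)) t x).re := pd_GS' m (hP 1) ht i x
    have hU : ∀ i, RD (cf' u i) := fun i => (hT 0 i).rd
    have hdS : ∀ j, RD (dS j (cf' u i)) := fun j => ((hT 0 i).dS j).rd
    have e4 : ∀ j, prod φ (fun y => m j + (GS m (cf' u j) t y).re) (fun x => (GS m (dS j (cf' u i)) t x).re) x
        = m j * (GS m (dS j (cf' u i)) t x).re + (GS m (cvw φ (cf' u j) (dS j (cf' u i))) t x).re :=
      fun j => prod_GS hφ m j (hU j) (hdS j) t (fun k => hsym j k t) (fun k => hsymd i j k t) x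
    rw [hd]
    simp only [e1, e2, e3, e4]
    have key : GS m (dUw φ (4 * Real.pi ^ 2 * ν) u i) t x
          + ∑ j, GS m (cvw φ (cf' u j) (dS j (cf' u i))) t x
        = (ν : ℂ) * ∑ j, GS m (dS j (dS j (cf' u i))) t x + (-1) * GS m (dS i (PFw φ u)) t x := by
      have hdd : ∀ j, RD (dS j (dS j (cf' u i))) := fun j => (((hT 0 i).dS j).dS j).rd
      have hdP : RD (dS i (PFw φ u)) := ((hP 0).dS i).rd
      have hcv : ∀ j, RD (cvw φ (cf' u j) (dS j (cf' u i))) := fun j => RDconv hφ (hU j) (hdS j)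
      have hsum1 : RD fun k t => ∑ j, cvw φ (cf' u j) (dS j (cf' u i)) k t :=
        (TT.sum (n := 0) Finset.univ fun j _ => TTconv hφ (hT 0 j) ((hT 0 i).dS j)).rd
      have hsum2 : RD fun k t => ∑ j, dS j (dS j (cf' u i)) k t :=
        (TT.sum (n := 0) Finset.univ fun j _ => ((hT 0 i).dS j).dS j).rd
      have hone : ∀ (z : ℂ) {c : SFam}, RD c → RD fun k t => z * c k t := fun z c hc =>
        hc.mul (C := ‖z‖) (r := 0) (p := fun _ => z) fun k => by simp
      unfold GS
      rw [← SF_sum hcv, ← SF_sum hdd, ← SF_const_mul, ← SF_const_mul, ← SF_add (hdT 0 i).rd hsum1,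
        ← SF_add (hone _ hsum2) (hone _ hdP)]
      congr 1
      funext k t
      exact fourier_eqW hφ hU h.div i k t
    have keyre := congrArg Complex.re key
    simp only [Complex.add_re, Complex.re_sum, Complex.mul_re, Complex.ofReal_re, Complex.ofReal_im,
      Complex.neg_re, Complex.one_re, Complex.neg_im, Complex.one_im] at keyre ⊢
    have e5 : ∑ j, ((GS m (dS j (cf' u i)) t x).re * -m j - (GS m (dS j (cf' u i)) t x).im * 0)
        = -∑ j, m j * (GS m (dS j (cf' u i)) t x).re := by
      rw [← Finset.sum_neg_distrib]; exact Finset.sum_congr rfl fun j _ => by ring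
    rw [e5, Finset.sum_add_distrib]
    simp only [zero_mul, sub_zero, neg_zero] at keyre
    linarith
  · intro t ht x
    have e1 : ∀ i, pd i (fun y => m i + (GS m (cf' u i) t y).re) x = (GS m (dS i (cf' u i)) t x).re :=
      fun i => pd_GS m (hT 1 i) ht (m i) i x
    simp only [e1]
    rw [← Complex.re_sum]
    have : ∑ i, GS m (dS i (cf' u i)) t x = 0 := by
      unfold GS
      rw [← SF_sum fun i => ((hT 0 i).dS i).rd]
      have h0 : (fun k t => ∑ j, dS j (cf' u j) k t) = fun _ _ => (0 : ℂ) := by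
        funext k t
        have := h.div k t
        unfold dt at this
        unfold dS fj cf'
        calc ∑ j, 2 * Real.pi * Complex.I * (k j : ℂ) * u k t j
            = 2 * Real.pi * Complex.I * ∑ j, (k j : ℂ) * u k t j := by
              rw [Finset.mul_sum]; exact Finset.sum_congr rfl fun j _ => by ring
          _ = 0 := by rw [this, mul_zero]
      rw [h0]
      simp [SF]
    rw [this]; rfl
  · funext x i
    rw [← hv x i]
    show m i + (GS m (cf' u i) 0 x).re = m i + (∑' k, V k i * ex k x).re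
    unfold GS SF
    simp only [zero_smul, sub_zero, cf', h.init]

/-- **Global regularity** for weights with the planar trilinear inequality. -/
theorem tri_regular (hφ : Wt φ) {C : ℝ} (hT : Tri φ C) (hν : 0 < ν) {v : R3 → R3} (hv : Data v) :
    ∃ u p, Sol φ ν v u p := by
  have hv' : SH.Data v := ⟨hv.smooth, hv.periodic, hv.divFree⟩
  set W : K → C3 := fun k => if k = 0 then 0 else fc v k with hW
  have hWen : ∀ k, en (W k) ≤ en (fc v k) := fun k => by
    simp only [hW]
    split_ifs
    · unfold en; simp only [Pi.zero_apply, norm_zero]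
      have := SH.en_nonneg (fc v k)
      unfold en at this
      simpa using this
    · exact le_rfl
  set m : K → ℝ := fun k => 4 * Real.pi ^ 2 * ν * Pool.Agent.H356R3.NS.sq k with hm
  have hpi := Real.pi_pos
  have hm0 : ∀ k, 0 ≤ m k := fun k => by
    have := sq_nonneg' k
    positivity
  have hme : ∀ k, m (-k) = m k := fun k => by simp only [hm, sq_neg]
  have hmn : ∀ k, (4 * Real.pi ^ 2 * ν) * nn k ^ 2 ≤ m k := fun k => by
    simp only [hm]
    apply mul_le_mul_of_nonneg_left _ (by positivity)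
    have := pow_le_pow_left₀ (nn_nonneg k) (SH.nn_le_nk k) 2
    rwa [nk_sq] at this
  have hVb : ∀ s : ℕ, ∃ C, ∀ B : Finset K, ∑ k ∈ B, nn k ^ (2 * s) * en (W k) ≤ C := by
    intro s
    obtain ⟨C, hC⟩ := hv'.hV s
    refine ⟨C, fun B => (Finset.sum_le_sum fun k _ => ?_).trans (hC B)⟩
    exact mul_le_mul_of_nonneg_left (hWen k) (pow_nonneg (nn_nonneg k) _)
  have hu := unifW (m := m) (V := W) hφ hT (m0 := 4 * Real.pi ^ 2 * ν) (by positivity) hmn hVb
  have hWs : Sym W := by
    intro k i
    simp only [hW]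
    by_cases h : k = 0
    · rw [if_pos h, if_pos (by rw [h, neg_zero])]; simp
    · rw [if_neg h, if_neg (by simpa using h)]; exact fc_sym v k i
  have hWd : ∀ k, dt k (W k) = 0 := by
    intro k
    simp only [hW]
    split_ifs
    · simp [dt]
    · exact fc_div (hv.smooth.of_le (by norm_cast)) hv.periodic hv.divFree k
  set Λ : Set K := {k | k ≠ 0} with hΛ
  have hΛn : ∀ k ∈ Λ, -k ∈ Λ := fun k hk => by
    simp only [hΛ, mem_setOf_eq] at *
    simpa using hk
  have hVL : ∀ k, k ∉ Λ → W k = 0 := by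
    intro k hk
    have : k = 0 := by simpa [hΛ] using hk
    simp only [hW, this, if_true]
  have hbd' : ∀ p : ℕ, ∃ b : K → ℝ, Summable b ∧ ∀ (B : Finset K) (T : ℝ) (u : ℝ → K → C3),
      (∀ k ∈ B, k ∈ Λ) → 0 ≤ T → GalW φ m B T W u → ∀ t ∈ Icc 0 T, ∀ k, pw k ^ p * ‖u t k‖ ≤ b k := by
    intro p
    obtain ⟨b, hb, hb'⟩ := SH.dom_of_bound (P := fun w => ∃ (B : Finset K) (T : ℝ) (u : ℝ → K → C3),
      (∀ k ∈ B, k ∈ Λ) ∧ 0 ≤ T ∧ GalW φ m B T W u ∧ ∃ t ∈ Icc 0 T, u t = w) (fun σ => by
        obtain ⟨C, hC⟩ := hu σ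
        refine ⟨C, ?_⟩
        rintro w ⟨B, T, u, hB, hT, hu, t, ht, rfl⟩ k
        have h1 := hC B T u (fun h => hB 0 h rfl) hT hu t ht
        refine le_trans ?_ h1
        by_cases hk : k ∈ B
        · calc nn k ^ (2 * σ) * ‖u t k‖ ^ 2 ≤ nn k ^ (2 * σ) * en (u t k) :=
                mul_le_mul_of_nonneg_left (SH.norm_sq_le_en _) (pow_nonneg (nn_nonneg k) _)
            _ ≤ _ := Finset.single_le_sum (f := fun k => nn k ^ (2 * σ) * en (u t k))
                (fun k _ => mul_nonneg (pow_nonneg (nn_nonneg k) _) (SH.en_nonneg _)) hk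
        · rw [hu.supp t ht k hk, norm_zero]
          have := Es_nonneg σ B (u t)
          simpa using this) p
    exact ⟨b, hb, fun B T u hB hT hu t ht k => hb' _ ⟨B, T, u, hB, hT, hu, t, ht, rfl⟩ k⟩
  obtain ⟨u, h1, h2, h3, h4, h5, h6, h7⟩ := exists_limitW hφ hΛn hm0 hme hWs hWd hVL hbd'
  have hF : FSW φ m W u := by
    refine ⟨h1, h2, h3, h4, h5, fun k t ht => ?_⟩
    by_cases hk : k ∈ Λ
    · exact h6 k hk t ht
    · have hk0 : k = 0 := by simpa [hΛ] using hk
      have e1 : u k = fun _ => 0 := funext fun s => h7 k hk s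
      have e2 : -(m k) • u k t + Btw φ u k t = 0 := by
        rw [h7 k hk t, smul_zero, zero_add, hk0]
        exact Bw_zero _ _
      rw [e2, e1]
      exact hasDerivAt_const _ _
  refine ⟨_, _, hF.physical hφ (fun i => (fc v 0 i).re) fun x i => ?_⟩
  have hs : Summable fun k => W k i := by
    have h8 : Summable fun k => fc v k i := by
      have := (H459R3.NS.rap_fr (hv'.sp i)).summable
      refine Summable.of_norm (this.norm.congr fun k => ?_)
      rw [SH.fc_eq_fr]
    have h9 : (fun k => W k i) = fun k => fc v k i - (if k = 0 then fc v 0 i else 0) := by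
      funext k
      simp only [hW]
      by_cases h : k = 0
      · subst h; simp
      · simp [h]
    rw [h9]
    exact h8.sub (summable_of_ne_finset_zero (s := {0}) fun k hk => by rw [if_neg (by simpa using hk)])
  have him : (fc v 0 i).im = 0 := by
    have h10 := fc_sym v 0 i
    rw [neg_zero] at h10
    have h11 := congrArg Complex.im h10
    rw [Complex.star_def, Complex.conj_im] at h11
    linarith
  rw [mean_series _ hs, ← hv'.inv x i]
  congr 1
  refine tsum_congr fun k => ?_
  congr 1
  simp only [hW]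
  by_cases h : k = 0
  · subst h
    simp only [if_true, Pi.zero_apply, zero_add]
    exact Complex.ext (by simp) (by simp [him])
  · rw [if_neg h, if_neg h, add_zero]

end Pool.Agent.K1H29.NC
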