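import Pool.Agent.K1H29.NC.I4
import Pool.Agent.K1H29.NC.W7

/-!
# Global regularity for weights with the block inequality at infinitely many scales
-/

open Set ComplexConjugate Filter Topology MeasureTheory
open scoped ContDiff

namespace Pool.Agent.K1H29.NC

open Pool.Agent.H356R3.NS hiding Sol
open Pool.Agent.K1H29.SH (ee_eq_ex GS_zero nn nn_nonneg en)
open Pool.Agent.K1H29.RD (Es Es_nonneg)

variable {φ : K → K → ℝ} {V : K → C3} {u : Fam} {ν : ℝ}

/-- **Global regularity** for weights with the block inequality at infinitely many scales. -/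
theorem inf_regular (hφ : Wt φ) {X : ℝ} (hX : BlkInf φ X) (hν : 0 < ν) {v : R3 → R3} (hv : Data v) :
    ∃ u p, Sol φ ν v u p := by
  have hv' : SH.Data v := ⟨hv.smooth, hv.periodic, hv.divFree⟩
  set W : K → C3 := fun k => if k = 0 then 0 else fc v k with hW
  have hWen : ∀ k, en (W k) ≤ en (fc v k) := fun k => by
    simp only [hW]
    split_ifs
    · unfold en; simp only [Pi.zero_apply, norm_zero]
      have := SH.en_nonneg (fc v k)
      unfold en at this
      simpa using this
    · exact le_rfl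
  set m : K → ℝ := fun k => 4 * Real.pi ^ 2 * ν * Pool.Agent.H356R3.NS.sq k with hm
  have hpi := Real.pi_pos
  have hm0 : ∀ k, 0 ≤ m k := fun k => by
    have := sq_nonneg' k
    positivity
  have hme : ∀ k, m (-k) = m k := fun k => by simp only [hm, sq_neg]
  have hmn : ∀ k, (4 * Real.pi ^ 2 * ν) * nn k ^ 2 ≤ m k := fun k => by
    simp only [hm]
    apply mul_le_mul_of_nonneg_left _ (by positivity)
    have := pow_le_pow_left₀ (nn_nonneg k) (SH.nn_le_nk k) 2
    rwa [nk_sq] at this
  have hVb : ∀ s : ℕ, ∃ C, ∀ B : Finset K, ∑ k ∈ B, nn k ^ (2 * s) * en (W k) ≤ C := by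
    intro s
    obtain ⟨C, hC⟩ := hv'.hV s
    refine ⟨C, fun B => (Finset.sum_le_sum fun k _ => ?_).trans (hC B)⟩
    exact mul_le_mul_of_nonneg_left (hWen k) (pow_nonneg (nn_nonneg k) _)
  have hu := unifI (m := m) (V := W) hφ hX (m0 := 4 * Real.pi ^ 2 * ν) (by positivity) hmn hVb
  have hWs : Sym W := by
    intro k i
    simp only [hW]
    by_cases h : k = 0
    · rw [if_pos h, if_pos (by rw [h, neg_zero])]; simp
    · rw [if_neg h, if_neg (by simpa using h)]; exact fc_sym v k i
  have hWd : ∀ k, dt k (W k) = 0 := by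
    intro k
    simp only [hW]
    split_ifs
    · simp [dt]
    · exact fc_div (hv.smooth.of_le (by norm_cast)) hv.periodic hv.divFree k
  set Λ : Set K := {k | k ≠ 0} with hΛ
  have hΛn : ∀ k ∈ Λ, -k ∈ Λ := fun k hk => by
    simp only [hΛ, mem_setOf_eq] at *
    simpa using hk
  have hVL : ∀ k, k ∉ Λ → W k = 0 := by
    intro k hk
    have : k = 0 := by simpa [hΛ] using hk
    simp only [hW, this, if_true]
  have hbd' : ∀ p : ℕ, ∃ b : K → ℝ, Summable b ∧ ∀ (B : Finset K) (T : ℝ) (u : ℝ → K → C3),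
      (∀ k ∈ B, k ∈ Λ) → 0 ≤ T → GalW φ m B T W u → ∀ t ∈ Icc 0 T, ∀ k, pw k ^ p * ‖u t k‖ ≤ b k := by
    intro p
    obtain ⟨b, hb, hb'⟩ := SH.dom_of_bound (P := fun w => ∃ (B : Finset K) (T : ℝ) (u : ℝ → K → C3),
      (∀ k ∈ B, k ∈ Λ) ∧ 0 ≤ T ∧ GalW φ m B T W u ∧ ∃ t ∈ Icc 0 T, u t = w) (fun σ => by
        obtain ⟨C, hC⟩ := hu σ
        refine ⟨C, ?_⟩
        rintro w ⟨B, T, u, hB, hT, hu, t, ht, rfl⟩ k
        have h1 := hC B T u (fun h => hB 0 h rfl) hT hu t ht
        refine le_trans ?_ h1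
        by_cases hk : k ∈ B
        · calc nn k ^ (2 * σ) * ‖u t k‖ ^ 2 ≤ nn k ^ (2 * σ) * en (u t k) :=
                mul_le_mul_of_nonneg_left (SH.norm_sq_le_en _) (pow_nonneg (nn_nonneg k) _)
            _ ≤ _ := Finset.single_le_sum (f := fun k => nn k ^ (2 * σ) * en (u t k))
                (fun k _ => mul_nonneg (pow_nonneg (nn_nonneg k) _) (SH.en_nonneg _)) hk
        · rw [hu.supp t ht k hk, norm_zero]
          have := Es_nonneg σ B (u t)
          simpa using this) p
    exact ⟨b, hb, fun B T u hB hT hu t ht k => hb' _ ⟨B, T, u, hB, hT, hu, t, ht, rfl⟩ k⟩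
  obtain ⟨u, h1, h2, h3, h4, h5, h6, h7⟩ := exists_limitW hφ hΛn hm0 hme hWs hWd hVL hbd'
  have hF : FSW φ m W u := by
    refine ⟨h1, h2, h3, h4, h5, fun k t ht => ?_⟩
    by_cases hk : k ∈ Λ
    · exact h6 k hk t ht
    · have hk0 : k = 0 := by simpa [hΛ] using hk
      have e1 : u k = fun _ => 0 := funext fun s => h7 k hk s
      have e2 : -(m k) • u k t + Btw φ u k t = 0 := by
        rw [h7 k hk t, smul_zero, zero_add, hk0]
        exact Bw_zero _ _
      rw [e2, e1]
      exact hasDerivAt_const _ _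
  refine ⟨_, _, hF.physical hφ (fun i => (fc v 0 i).re) fun x i => ?_⟩
  have hs : Summable fun k => W k i := by
    have h8 : Summable fun k => fc v k i := by
      have := (H459R3.NS.rap_fr (hv'.sp i)).summable
      refine Summable.of_norm (this.norm.congr fun k => ?_)
      rw [SH.fc_eq_fr]
    have h9 : (fun k => W k i) = fun k => fc v k i - (if k = 0 then fc v 0 i else 0) := by
      funext k
      simp only [hW]
      by_cases h : k = 0
      · subst h; simp
      · simp [h]
    rw [h9]
    exact h8.sub (summable_of_ne_finset_zero (s := {0}) fun k hk => by rw [if_neg (by simpa using hk)])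
  have him : (fc v 0 i).im = 0 := by
    have h10 := fc_sym v 0 i
    rw [neg_zero] at h10
    have h11 := congrArg Complex.im h10
    rw [Complex.star_def, Complex.conj_im] at h11
    linarith
  rw [mean_series _ hs, ← hv'.inv x i]
  congr 1
  refine tsum_congr fun k => ?_
  congr 1
  simp only [hW]
  by_cases h : k = 0
  · subst h
    simp only [if_true, Pi.zero_apply, zero_add]
    exact Complex.ext (by simp) (by simp [him])
  · rw [if_neg h, if_neg h, add_zero]

end Pool.Agent.K1H29.NC
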