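import Pool.Agent.K1H29.NC.Ae

/-!
# A large sieve inequality for the multiples of an irrational number
-/

open ComplexConjugate Finset

namespace Pool.Agent.K1H29.NC.SV

open BM

/-! ### The kernel -/

/-- the distance to the nearest integer, with sign -/
noncomputable def rd (x : ℝ) : ℝ := x - round x

lemma abs_rd_le (x : ℝ) : |rd x| ≤ 1 / 2 := abs_sub_round x

lemma dk_rd (M : ℕ) (x : ℝ) : dk M x = dk M (rd x) := by
  have := (AE.dk_periodic M).sub_int_mul_eq (x := x) (n := round x)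
  rw [mul_one] at this
  exact this.symm

lemma dk_mul_rd (M : ℕ) (x : ℝ) : dk M x * (2 * |rd x|) ≤ 1 := by
  rw [dk_rd]
  refine le_trans ?_ (AE.dk_sin M (rd x))
  apply mul_le_mul_of_nonneg_left _ (AE.dk_nonneg _ _)
  have h1 := abs_rd_le x
  have hpi := Real.pi_pos
  have h2 := Real.mul_le_sin (x := Real.pi * |rd x|) (by positivity) (by nlinarith)
  calc 2 * |rd x| = 2 / Real.pi * (Real.pi * |rd x|) := by field_simp
    _ ≤ Real.sin (Real.pi * |rd x|) := h2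
    _ ≤ |Real.sin (Real.pi * rd x)| := by
        rcases abs_cases (rd x) with ⟨h, _⟩ | ⟨h, _⟩
        · rw [h]; exact le_abs_self _
        · rw [h, mul_neg, Real.sin_neg]; exact neg_le_abs _

/-- the bound of the kernel at distance at least `z / (2 q)` -/
noncomputable def gz (M q z : ℕ) : ℝ := if z = 0 then (2 * (M : ℝ) + 1) ^ 2 else (q : ℝ) ^ 2 * ((z : ℝ) ^ 2)⁻¹

lemma gz_nonneg (M q z : ℕ) : 0 ≤ gz M q z := by unfold gz; split_ifs <;> positivity

lemma sum_gz (M q n : ℕ) : ∑ z ∈ range n, gz M q z ≤ (2 * (M : ℝ) + 1) ^ 2 + 2 * (q : ℝ) ^ 2 := by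
  rcases Nat.eq_zero_or_pos n with hn | hn
  · subst hn; simp; positivity
  · have h1 : range n = insert 0 (Ioo 0 n) := by
      ext z; simp only [mem_range, mem_insert, mem_Ioo]; omega
    rw [h1, sum_insert (by simp)]
    apply add_le_add
    · unfold gz; rw [if_pos rfl]
    · have h2 : ∑ z ∈ Ioo 0 n, gz M q z = (q : ℝ) ^ 2 * ∑ z ∈ Ioo 0 n, ((z : ℝ) ^ 2)⁻¹ := by
        rw [mul_sum]
        refine sum_congr rfl fun z hz => ?_
        rw [mem_Ioo] at hz
        unfold gz; rw [if_neg (by omega)]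
      rw [h2]
      have h3 := sum_Ioo_inv_sq_le (α := ℝ) 0 n
      have h4 : (2 : ℝ) / ((0 : ℕ) + 1) = 2 := by norm_num
      rw [h4] at h3
      nlinarith [sq_nonneg (q : ℝ)]

lemma dk_sq_le (M : ℕ) {q : ℕ} (hq : 0 < q) (x : ℝ) : dk M x ^ 2 ≤ gz M q ⌊2 * q * |rd x|⌋₊ := by
  have hq' : (0 : ℝ) < q := by exact_mod_cast hq
  unfold gz
  split_ifs with h
  · exact pow_le_pow_left₀ (AE.dk_nonneg _ _) (AE.dk_le _ _) 2
  · set z := ⌊2 * q * |rd x|⌋₊ with hz
    have hz0 : (0 : ℝ) < z := by exact_mod_cast Nat.pos_of_ne_zero h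
    have h1 : (z : ℝ) ≤ 2 * q * |rd x| := Nat.floor_le (by positivity)
    have h2 := dk_mul_rd M x
    have h3 := AE.dk_nonneg M x
    have h4 : dk M x ≤ q / z := by
      rw [le_div_iff₀ hz0]
      calc dk M x * z ≤ dk M x * (2 * q * |rd x|) := mul_le_mul_of_nonneg_left h1 h3
        _ = q * (dk M x * (2 * |rd x|)) := by ring
        _ ≤ q * 1 := mul_le_mul_of_nonneg_left h2 hq'.le
        _ = q := mul_one _
    calc dk M x ^ 2 ≤ (q / z) ^ 2 := pow_le_pow_left₀ h3 h4 2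
      _ = _ := by rw [div_pow, div_eq_mul_inv]

/-! ### The spacing -/

/-- The rational number `p / q` approximates `θ`. -/
def App (θ : ℝ) (p : ℤ) (q : ℕ) : Prop := 0 < q ∧ IsCoprime p (q : ℤ) ∧ |θ - p / q| ≤ 1 / (q : ℝ) ^ 2

lemma App.neg {θ : ℝ} {p : ℤ} {q : ℕ} (h : App θ p q) : App (-θ) (-p) q := by
  refine ⟨h.1, h.2.1.neg_left, ?_⟩
  have := h.2.2
  rw [← abs_neg]
  convert this using 2
  push_cast; ring

lemma spacing {θ : ℝ} {p : ℤ} {q : ℕ} (h : App θ p q) {d : ℤ} (hd : d ≠ 0) (hd' : 2 * |d| ≤ q - 1)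
    (z : ℤ) : 1 / (2 * (q : ℝ)) < |d * θ - z| := by
  obtain ⟨hq, hc, ha⟩ := h
  have hq' : (0 : ℝ) < q := by exact_mod_cast hq
  have h1 : d * p - z * q ≠ 0 := by
    intro h2
    have h3 : (q : ℤ) ∣ d * p := ⟨z, by linarith⟩
    have h4 : (q : ℤ) ∣ d := hc.symm.dvd_of_dvd_mul_right h3
    have h5 := Int.le_of_dvd (abs_pos.2 hd) ((dvd_abs _ _).2 h4)
    have h6 := abs_pos.2 hd
    omega
  have h2 : (1 : ℝ) ≤ |(d * p - z * q : ℤ)| := by
    exact_mod_cast Int.one_le_abs h1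
  have h3 : (d : ℝ) * θ - z = ((d * p - z * q : ℤ) : ℝ) / q + d * (θ - p / q) := by
    push_cast; field_simp; ring
  have h4 : 1 / (q : ℝ) ≤ |((d * p - z * q : ℤ) : ℝ) / q| := by
    rw [abs_div, abs_of_pos hq']
    rw [Int.cast_abs] at h2
    exact div_le_div_of_nonneg_right h2 hq'.le
  have h5 : |(d : ℝ) * (θ - p / q)| < 1 / (2 * (q : ℝ)) := by
    rw [abs_mul]
    have h6 : (2 : ℝ) * |(d : ℝ)| ≤ q - 1 := by
      have : ((2 * |d| : ℤ) : ℝ) ≤ ((q - 1 : ℤ) : ℝ) := by exact_mod_cast hd'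
      push_cast at this
      exact this
    have h7 : |(d : ℝ)| * |θ - p / q| ≤ (q - 1) / 2 * (1 / (q : ℝ) ^ 2) := by
      apply mul_le_mul (by linarith) ha (abs_nonneg _)
      have := abs_nonneg (d : ℝ)
      linarith
    refine h7.trans_lt ?_
    rw [div_mul_div_comm, div_lt_div_iff₀ (by positivity) (by positivity)]
    nlinarith
  have h6 := abs_sub_abs_le_abs_sub (((d * p - z * q : ℤ) : ℝ) / q) (-(d * (θ - p / q)))
  rw [abs_neg, sub_neg_eq_add] at h6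
  rw [h3]
  have h7 : 1 / (q : ℝ) = 1 / (2 * q) + 1 / (2 * q) := by field_simp; norm_num
  linarith

/-- one window -/
lemma window {θ : ℝ} {p : ℤ} {q : ℕ} (h : App θ p q) (M : ℕ) (W : Finset ℤ)
    (hW : ∀ x ∈ W, ∀ y ∈ W, 2 * |x - y| ≤ q - 1) :
    ∑ x ∈ W, dk M (x * θ) ^ 2 ≤ 2 * ((2 * (M : ℝ) + 1) ^ 2 + 2 * (q : ℝ) ^ 2) := by
  have hq' : (0 : ℝ) < q := by exact_mod_cast h.1
  set z : ℤ → ℕ := fun x => ⌊2 * q * |rd (x * θ)|⌋₊ with hz
  -- the key to injectivity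
  have hkey : ∀ x ∈ W, ∀ y ∈ W, z x = z y → (0 ≤ rd (x * θ) ↔ 0 ≤ rd (y * θ)) → x = y := by
    intro x hx y hy hxy hs
    by_contra hne
    have h1 : abs (2 * q * |rd (x * θ)| - 2 * q * |rd (y * θ)|) < 1 := by
      have a1 : (z x : ℝ) ≤ 2 * q * |rd (x * θ)| := Nat.floor_le (by positivity)
      have a2 : (z y : ℝ) ≤ 2 * q * |rd (y * θ)| := Nat.floor_le (by positivity)
      have a3 : 2 * q * |rd (x * θ)| < z x + 1 := Nat.lt_floor_add_one _
      have a4 : 2 * q * |rd (y * θ)| < z y + 1 := Nat.lt_floor_add_one _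
      rw [hxy] at a1 a3
      rw [abs_lt]; constructor <;> linarith
    have h2 : |rd (x * θ) - rd (y * θ)| = abs (|rd (x * θ)| - |rd (y * θ)|) := by
      by_cases hx0 : 0 ≤ rd (x * θ)
      · rw [abs_of_nonneg hx0, abs_of_nonneg (hs.1 hx0)]
      · have hy0 : ¬ 0 ≤ rd (y * θ) := fun h => hx0 (hs.2 h)
        rw [not_le] at hx0 hy0
        rw [abs_of_neg hx0, abs_of_neg hy0, ← abs_neg]
        congr 1; ring
    have h3 : |rd (x * θ) - rd (y * θ)| < 1 / (2 * q) := by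
      rw [h2, lt_div_iff₀ (by positivity)]
      rw [← mul_sub, abs_mul, abs_of_pos (by positivity : (0 : ℝ) < 2 * q)] at h1
      linarith
    have h4 := spacing h (sub_ne_zero.2 hne) (hW x hx y hy) (round (x * θ) - round (y * θ))
    have h5 : ((x - y : ℤ) : ℝ) * θ - ((round (x * θ) - round (y * θ) : ℤ) : ℝ)
        = rd (x * θ) - rd (y * θ) := by
      unfold rd; push_cast; ring
    rw [h5] at h4
    linarith
  have hzr : ∀ x, z x < q + 1 := by
    intro x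
    have h1 := abs_rd_le (x * θ)
    have h2 : 2 * q * |rd (x * θ)| ≤ q := by nlinarith
    have h3 : z x ≤ q := by
      have := Nat.floor_le_floor h2
      rwa [Nat.floor_natCast] at this
    omega
  have hpart : ∀ S : Finset ℤ, S ⊆ W → (∀ x ∈ S, ∀ y ∈ S, (0 ≤ rd (x * θ) ↔ 0 ≤ rd (y * θ))) →
      ∑ x ∈ S, dk M (x * θ) ^ 2 ≤ (2 * (M : ℝ) + 1) ^ 2 + 2 * (q : ℝ) ^ 2 := by
    intro S hS hs
    calc ∑ x ∈ S, dk M (x * θ) ^ 2 ≤ ∑ x ∈ S, gz M q (z x) := sum_le_sum fun x _ => dk_sq_le M h.1 _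
      _ = ∑ y ∈ S.image z, gz M q y := by
          rw [sum_image fun x hx y hy hxy => hkey x (hS hx) y (hS hy) hxy (hs x hx y hy)]
      _ ≤ ∑ y ∈ range (q + 1), gz M q y := by
          apply sum_le_sum_of_subset_of_nonneg _ fun _ _ _ => gz_nonneg _ _ _
          intro y hy
          rw [mem_image] at hy
          obtain ⟨x, _, rfl⟩ := hy
          exact mem_range.2 (hzr x)
      _ ≤ _ := sum_gz _ _ _
  rw [← sum_filter_add_sum_filter_not W (fun x => 0 ≤ rd (x * θ))]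
  have h1 := hpart (W.filter fun x => 0 ≤ rd (x * θ)) (filter_subset _ _) (fun x hx y hy => by
    rw [mem_filter] at hx hy; exact ⟨fun _ => hy.2, fun _ => hx.2⟩)
  have h2 := hpart (W.filter fun x => ¬ 0 ≤ rd (x * θ)) (filter_subset _ _) (fun x hx y hy => by
    rw [mem_filter] at hx hy; exact ⟨fun h => absurd h hx.2, fun h => absurd h hy.2⟩)
  linarith

lemma sum_blocks (F : ℕ → ℝ) (L n : ℕ) :
    ∑ m ∈ range (n * L), F m = ∑ i ∈ range n, ∑ j ∈ range L, F (i * L + j) := by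
  induction n with
  | zero => simp
  | succ n ih => rw [sum_range_succ, Nat.succ_mul, sum_range_add, ih]

/-- the sum of the squares of the kernel -/
lemma sum_dk_sq {θ : ℝ} {p : ℤ} {q : ℕ} (h : App θ p q) {M : ℕ} (hM : q ≤ M) :
    ∑ x ∈ I (2 * M), dk M (x * θ) ^ 2 ≤ 242 * ((M : ℝ) ^ 3 / q) := by
  have hq := h.1
  have hq' : (0 : ℝ) < q := by exact_mod_cast hq
  have hqM : (q : ℝ) ≤ M := by exact_mod_cast hM
  set L := (q + 1) / 2 with hL
  have hL1 : 1 ≤ L := by omega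
  have hL2 : 2 * (L - 1) ≤ q - 1 := by omega
  have hLq : (q : ℝ) / 2 ≤ L := by
    have : q ≤ 2 * L := by omega
    have : (q : ℝ) ≤ 2 * L := by exact_mod_cast this
    linarith
  set n := (4 * M + 1) / L + 1 with hn
  have hnL : 4 * M + 1 ≤ n * L := by
    have h1 := Nat.lt_div_mul_add (show 0 < L by omega) (a := 4 * M + 1)
    rw [hn]; linarith [Nat.succ_mul ((4 * M + 1) / L) L]
  set F : ℕ → ℝ := fun m => dk M (((m : ℤ) - 2 * M : ℤ) * θ) ^ 2 with hF
  have h1 : ∑ x ∈ I (2 * M), dk M (x * θ) ^ 2 = ∑ m ∈ range (4 * M + 1), F m := by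
    refine sum_nbij' (fun x : ℤ => (x + 2 * M).toNat) (fun m => (m : ℤ) - 2 * M) ?_ ?_ ?_ ?_ ?_
    · intro x hx
      rw [mem_I, abs_le] at hx
      rw [mem_range]; omega
    · intro m hm
      rw [mem_range] at hm
      rw [mem_I, abs_le]; omega
    · intro x hx
      rw [mem_I, abs_le] at hx
      show ((x + 2 * M).toNat : ℤ) - 2 * M = x
      omega
    · intro m _
      show ((m : ℤ) - 2 * M + 2 * M).toNat = m
      omega
    · intro x hx
      rw [mem_I, abs_le] at hx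
      simp only [hF]
      congr 3
      have : ((x + 2 * M).toNat : ℤ) - 2 * M = x := by omega
      rw [this]
  have h2 : ∑ m ∈ range (4 * M + 1), F m ≤ ∑ m ∈ range (n * L), F m :=
    sum_le_sum_of_subset_of_nonneg (range_subset_range.2 hnL) fun _ _ _ => sq_nonneg _
  have h3 : ∀ i ∈ range n, ∑ j ∈ range L, F (i * L + j) ≤ 2 * ((2 * (M : ℝ) + 1) ^ 2 + 2 * (q : ℝ) ^ 2) := by
    intro i _
    have h4 := window h M ((range L).image fun j : ℕ => ((i * L + j : ℕ) : ℤ) - 2 * M) (by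
      intro x hx y hy
      rw [mem_image] at hx hy
      obtain ⟨a, ha, rfl⟩ := hx
      obtain ⟨b, hb, rfl⟩ := hy
      rw [mem_range] at ha hb
      have : ((i * L + a : ℕ) : ℤ) - 2 * M - (((i * L + b : ℕ) : ℤ) - 2 * M) = (a : ℤ) - b := by
        push_cast; ring
      rw [this]
      have h5 : |(a : ℤ) - b| ≤ L - 1 := by rw [abs_le]; omega
      omega)
    rw [sum_image (fun a _ b _ hab => by
      have : ((i * L + a : ℕ) : ℤ) = ((i * L + b : ℕ) : ℤ) := by linarith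
      have : i * L + a = i * L + b := by exact_mod_cast this
      omega)] at h4
    exact h4
  have h4 : ∑ m ∈ range (n * L), F m ≤ n * (2 * ((2 * (M : ℝ) + 1) ^ 2 + 2 * (q : ℝ) ^ 2)) := by
    rw [sum_blocks]
    refine (sum_le_sum h3).trans (le_of_eq ?_)
    rw [sum_const, card_range, nsmul_eq_mul]
  have h5 : (n : ℝ) ≤ 11 * (M / q) := by
    have h6 : (((4 * M + 1) / L : ℕ) : ℝ) ≤ (4 * M + 1 : ℕ) / (L : ℝ) := Nat.cast_div_le
    have h7 : ((4 * M + 1 : ℕ) : ℝ) / L ≤ 10 * (M / q) := by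
      have hM1 : (1 : ℝ) ≤ M := by
        have : 1 ≤ M := le_trans hq hM
        exact_mod_cast this
      rw [div_le_iff₀ (by linarith)]
      push_cast
      calc (4 * (M : ℝ) + 1) ≤ 5 * M := by linarith
        _ = 10 * (M / q) * (q / 2) := by field_simp; norm_num
        _ ≤ 10 * (M / q) * L := mul_le_mul_of_nonneg_left hLq (by positivity)
    have h8 : 1 ≤ (M : ℝ) / q := by rw [le_div_iff₀ hq']; linarith
    rw [hn]; push_cast at *
    linarith
  have hM1 : (1 : ℝ) ≤ M := by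
    have : 1 ≤ M := le_trans hq hM
    exact_mod_cast this
  have h6 : 2 * ((2 * (M : ℝ) + 1) ^ 2 + 2 * (q : ℝ) ^ 2) ≤ 22 * (M : ℝ) ^ 2 := by nlinarith
  calc _ = _ := h1
    _ ≤ _ := h2
    _ ≤ _ := h4
    _ ≤ (11 * (M / q)) * (22 * (M : ℝ) ^ 2) := mul_le_mul h5 h6 (by positivity) (by positivity)
    _ = _ := by field_simp; ring

/-! ### The sieve -/

/-- the Fejer majorant of the window -/
lemma fejer (M : ℕ) (G : ℤ → ℝ) (hG : ∀ n, 0 ≤ G n) :
    (M + 1) * ∑ n ∈ I M, G n ≤ ∑ a ∈ I M, ∑ b ∈ I M, G (a - b) := by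
  have h1 : ∑ a ∈ I (M : ℤ), ∑ b ∈ I (M : ℤ), G (a - b) = ∑ p ∈ I (M : ℤ) ×ˢ I (M : ℤ), G (p.1 - p.2) := by
    rw [sum_product]
  have h2 : ∑ n ∈ I (M : ℤ), ∑ p ∈ (I (M : ℤ) ×ˢ I (M : ℤ)).filter (fun p => p.1 - p.2 = n), G (p.1 - p.2)
      ≤ ∑ p ∈ I (M : ℤ) ×ˢ I (M : ℤ), G (p.1 - p.2) := by
    rw [← sum_biUnion]
    · apply sum_le_sum_of_subset_of_nonneg _ fun _ _ _ => hG _
      intro p hp
      rw [mem_biUnion] at hp
      obtain ⟨n, _, hp⟩ := hp
      exact (mem_filter.1 hp).1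
    · intro a _ b _ hab
      rw [Function.onFun, disjoint_left]
      intro p hp hp'
      rw [mem_filter] at hp hp'
      exact hab (hp.2.symm.trans hp'.2)
  rw [h1]
  refine le_trans ?_ h2
  rw [mul_sum]
  refine sum_le_sum fun n hn => ?_
  rw [mem_I, abs_le] at hn
  rw [sum_congr rfl fun p hp => by rw [(mem_filter.1 hp).2], sum_const, nsmul_eq_mul]
  apply mul_le_mul_of_nonneg_right _ (hG n)
  have h3 : (range (M + 1)).card ≤ ((I (M : ℤ) ×ˢ I (M : ℤ)).filter (fun p => p.1 - p.2 = n)).card := by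
    rcases le_total 0 n with h | h
    · refine card_le_card_of_injOn (fun j : ℕ => ((n - j : ℤ), (-j : ℤ))) ?_ ?_
      · intro j hj
        have hj' : j < M + 1 := by simpa using hj
        simp only [coe_filter, mem_product, Set.mem_setOf_eq, mem_I, abs_le]
        refine ⟨⟨⟨?_, ?_⟩, ?_, ?_⟩, ?_⟩ <;> omega
      · intro a _ b _ hab
        simp only [Prod.mk.injEq] at hab
        omega
    · refine card_le_card_of_injOn (fun j : ℕ => ((n + j : ℤ), (j : ℤ))) ?_ ?_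
      · intro j hj
        have hj' : j < M + 1 := by simpa using hj
        simp only [coe_filter, mem_product, Set.mem_setOf_eq, mem_I, abs_le]
        refine ⟨⟨⟨?_, ?_⟩, ?_, ?_⟩, ?_⟩ <;> omega
      · intro a _ b _ hab
        simp only [Prod.mk.injEq] at hab
        omega
  rw [card_range] at h3
  exact_mod_cast h3

lemma dirichlet_sq (M : ℕ) (x : ℝ) :
    ∑ a ∈ I M, ∑ b ∈ I M, e (((a - b : ℤ) : ℝ) * x) = ((dk M x ^ 2 : ℝ) : ℂ) := by
  rw [dk_eq]
  push_cast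
  rw [← Complex.mul_conj', map_sum, sum_mul_sum]
  refine sum_congr rfl fun a _ => sum_congr rfl fun b _ => ?_
  rw [conj_e, ← e_add]
  congr 1
  ring

/-- **Large sieve.** -/
lemma sieve1 (θ : ℝ) (M : ℕ) (D : ℝ) (hD : ∑ h ∈ I (2 * M), dk M (h * θ) ^ 2 ≤ D) (b : ℤ → ℂ) (α : ℝ) :
    (M + 1) * ∑ n ∈ I M, ‖∑ l ∈ I M, b l * e (l * (α + n * θ))‖ ^ 2 ≤ D * ∑ l ∈ I M, ‖b l‖ ^ 2 := by
  set G : ℤ → ℝ := fun n => ‖∑ l ∈ I M, b l * e (l * (α + n * θ))‖ ^ 2 with hG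
  refine (fejer M G fun n => sq_nonneg _).trans ?_
  have hker : ∀ x : ℝ, 0 ≤ dk M x ^ 2 := fun x => sq_nonneg _
  have h1 : ((∑ a ∈ I M, ∑ c ∈ I M, G (a - c) : ℝ) : ℂ)
      = ∑ l ∈ I M, ∑ k ∈ I M, (b l * conj (b k) * e (((l - k : ℤ) : ℝ) * α)) *
        ((dk M (((l - k : ℤ) : ℝ) * θ) ^ 2 : ℝ) : ℂ) := by
    have h2 : ∀ n : ℤ, ((G n : ℝ) : ℂ) = ∑ l ∈ I M, ∑ k ∈ I M,
        (b l * conj (b k) * e (((l - k : ℤ) : ℝ) * α)) * e (n * (((l - k : ℤ) : ℝ) * θ)) := by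
      intro n
      simp only [hG]
      push_cast
      rw [← Complex.mul_conj', map_sum, sum_mul_sum]
      refine sum_congr rfl fun l _ => sum_congr rfl fun k _ => ?_
      rw [map_mul, conj_e]
      have : e (l * (α + n * θ)) * e (-(k * (α + n * θ)))
          = e (((l : ℝ) - k) * α) * e (n * (((l : ℝ) - k) * θ)) := by
        rw [← e_add, ← e_add]; congr 1; ring
      linear_combination (b l * conj (b k)) * this
    push_cast
    simp only [h2]
    calc _ = ∑ a ∈ I (M : ℤ), ∑ l ∈ I (M : ℤ), ∑ k ∈ I (M : ℤ), ∑ c ∈ I (M : ℤ),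
          (b l * conj (b k) * e (((l - k : ℤ) : ℝ) * α)) * e (((a - c : ℤ) : ℝ) * (((l - k : ℤ) : ℝ) * θ)) := by
          refine sum_congr rfl fun a _ => ?_
          rw [sum_comm]
          refine sum_congr rfl fun l _ => ?_
          rw [sum_comm]
      _ = ∑ l ∈ I (M : ℤ), ∑ k ∈ I (M : ℤ), ∑ a ∈ I (M : ℤ), ∑ c ∈ I (M : ℤ),
          (b l * conj (b k) * e (((l - k : ℤ) : ℝ) * α)) * e (((a - c : ℤ) : ℝ) * (((l - k : ℤ) : ℝ) * θ)) := by
          rw [sum_comm]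
          refine sum_congr rfl fun l _ => ?_
          rw [sum_comm]
      _ = _ := by
          refine sum_congr rfl fun l _ => sum_congr rfl fun k _ => ?_
          have := dirichlet_sq M (((l - k : ℤ) : ℝ) * θ)
          push_cast at this ⊢
          rw [← this, mul_sum]
          refine sum_congr rfl fun a _ => ?_
          rw [mul_sum]
  have h2 : ∑ a ∈ I (M : ℤ), ∑ c ∈ I (M : ℤ), G (a - c)
      ≤ ∑ l ∈ I (M : ℤ), ∑ k ∈ I (M : ℤ), (‖b l‖ * ‖b k‖) * dk M (((l - k : ℤ) : ℝ) * θ) ^ 2 := by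
    have h0 : 0 ≤ ∑ a ∈ I (M : ℤ), ∑ c ∈ I (M : ℤ), G (a - c) :=
      sum_nonneg fun _ _ => sum_nonneg fun _ _ => sq_nonneg _
    calc _ = ‖((∑ a ∈ I (M : ℤ), ∑ c ∈ I (M : ℤ), G (a - c) : ℝ) : ℂ)‖ := by
            rw [Complex.norm_real, Real.norm_eq_abs, abs_of_nonneg h0]
      _ ≤ _ := by
            rw [h1]
            refine (norm_sum_le _ _).trans (sum_le_sum fun l _ => (norm_sum_le _ _).trans
              (sum_le_sum fun k _ => ?_))
            rw [norm_mul, norm_mul, norm_mul, RCLike.norm_conj, norm_e, mul_one, Complex.norm_real,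
              Real.norm_eq_abs, abs_of_nonneg (hker _)]
  have hsym : ∀ x : ℝ, dk M (-x) ^ 2 = dk M x ^ 2 := fun x => by rw [dk_neg]
  have h3 : ∀ l ∈ I (M : ℤ), ∑ k ∈ I (M : ℤ), dk M (((l - k : ℤ) : ℝ) * θ) ^ 2 ≤ D := by
    intro l hl
    refine le_trans ?_ hD
    rw [← Finset.sum_image (f := fun h : ℤ => dk M (h * θ) ^ 2) (g := fun k => l - k) (s := I (M : ℤ))
      (fun x _ y _ h => by simpa using h)]
    refine sum_le_sum_of_subset_of_nonneg ?_ fun _ _ _ => hker _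
    intro x hx
    rw [Finset.mem_image] at hx
    obtain ⟨k, hk, rfl⟩ := hx
    rw [mem_I] at *
    rw [abs_le] at *
    constructor <;> linarith [hk.1, hk.2, hl.1, hl.2]
  have h4 : ∀ l ∈ I (M : ℤ), ∑ k ∈ I (M : ℤ), dk M (((k - l : ℤ) : ℝ) * θ) ^ 2 ≤ D := by
    intro l hl
    rw [sum_congr rfl fun k _ => (by
      rw [← hsym]; congr 2; push_cast; ring :
        dk M (((k - l : ℤ) : ℝ) * θ) ^ 2 = dk M (((l - k : ℤ) : ℝ) * θ) ^ 2)]
    exact h3 l hl
  calc _ ≤ _ := h2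
    _ ≤ ∑ l ∈ I (M : ℤ), ∑ k ∈ I (M : ℤ), ((‖b l‖ ^ 2 * dk M (((l - k : ℤ) : ℝ) * θ) ^ 2) / 2
        + (‖b k‖ ^ 2 * dk M (((l - k : ℤ) : ℝ) * θ) ^ 2) / 2) := by
        refine sum_le_sum fun l _ => sum_le_sum fun k _ => ?_
        have := mul_nonneg (sq_nonneg (‖b l‖ - ‖b k‖)) (hker (((l - k : ℤ) : ℝ) * θ))
        nlinarith
    _ = (∑ l ∈ I (M : ℤ), ‖b l‖ ^ 2 * ∑ k ∈ I (M : ℤ), dk M (((l - k : ℤ) : ℝ) * θ) ^ 2) / 2
        + (∑ k ∈ I (M : ℤ), ‖b k‖ ^ 2 * ∑ l ∈ I (M : ℤ), dk M (((l - k : ℤ) : ℝ) * θ) ^ 2) / 2 := by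
        simp only [Finset.sum_add_distrib]
        congr 1
        · rw [Finset.sum_div]
          refine sum_congr rfl fun l _ => ?_
          rw [Finset.mul_sum, Finset.sum_div]
        · rw [Finset.sum_comm, Finset.sum_div]
          refine sum_congr rfl fun l _ => ?_
          rw [Finset.mul_sum, Finset.sum_div]
    _ ≤ (∑ l ∈ I (M : ℤ), ‖b l‖ ^ 2 * D) / 2 + (∑ k ∈ I (M : ℤ), ‖b k‖ ^ 2 * D) / 2 := by
        gcongr with l hl k hk
        · exact h3 l hl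
        · exact h4 k hk
    _ = _ := by rw [← Finset.sum_mul]; ring

end Pool.Agent.K1H29.NC.SV
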