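import Pool.Agent.K1H29.NC.Defs
import Pool.Agent.K1H29.SH.Flux

/-!
# The trilinear form with weights: definitions
-/

open Set ComplexConjugate MeasureTheory

namespace Pool.Agent.K1H29.NC

open Pool.Agent.H356R3.NS (K C3)
open Pool.Agent.K1H29.SH (nn)

/-- the trilinear form `∑_{k,l ∈ B} φ(l,k) f(l) g(k-l) conj h(k)` -/
noncomputable def Tr (φ : K → K → ℝ) (B : Finset K) (f g h : K → ℂ) : ℂ :=
  ∑ k ∈ B, ∑ l ∈ B, (φ l k : ℂ) * (f l * g (k - l) * conj (h k))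

/-- the `ℓ²` norm on `B` -/
noncomputable def n2 (B : Finset K) (f : K → ℂ) : ℝ := √(∑ k ∈ B, ‖f k‖ ^ 2)

/-- The trilinear form is bounded by `X 2^m` if one of the functions has frequencies at most `2^m`. -/
def Blk (φ : K → K → ℝ) (X : ℝ) : Prop := ∀ (m : ℕ) (B : Finset K) (f g h : K → ℂ),
  (∀ k, k ∉ B → f k = 0) → (∀ k, k ∉ B → g k = 0) → (∀ k, k ∉ B → h k = 0) →
  (∀ k, 2 ^ m < nn k → f k = 0) →
  ‖Tr φ B f g h‖ ≤ X * 2 ^ m * (n2 B f * n2 B g * n2 B h)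

/-- The planar inequality for the trilinear form. -/
def Tri (φ : K → K → ℝ) (C : ℝ) : Prop := 0 ≤ C ∧ ∀ B : Finset K, (∀ k ∈ B, -k ∈ B) →
  ∀ (f g h : K → ℂ) (F : K → ℝ), (∀ k, k ∉ B → F k = 0) → F 0 = 0 → (∀ k, ‖f k‖ ≤ F k) →
    (∀ k, ‖g k‖ ≤ F k) → (∀ k, ‖h k‖ ≤ F k) →
    ‖Tr φ B f g h‖ ≤ C * (∑ k ∈ B, F k ^ 2) * √(∑ k ∈ B, nn k ^ 2 * F k ^ 2)

/-- modulus of the Dirichlet kernel -/
noncomputable def dk (M : ℕ) (x : ℝ) : ℝ :=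
  ‖∑ n ∈ Finset.Icc (-(M : ℤ)) M, Complex.exp (2 * Real.pi * Complex.I * ((n : ℂ) * (x : ℂ)))‖

/-- The arithmetic condition on `Θ`. -/
def Good (Θ : Fin 3 → ℝ) (C : ℝ) : Prop := ∀ m : ℕ,
  ∑ h ∈ Finset.Icc (-(2 ^ (m + 1) : ℤ)) (2 ^ (m + 1)),
    dk (2 ^ m) (h * Θ 0) * dk (2 ^ m) (h * Θ 2) ≤ C * 4 ^ m

end Pool.Agent.K1H29.NC
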