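import Pool.Agent.K1H29.NC.TriDefs

/-!
# From the block inequality to the planar inequality
-/

open Set ComplexConjugate MeasureTheory

namespace Pool.Agent.K1H29.NC

open Pool.Agent.H356R3.NS (K C3)
open Pool.Agent.K1H29.SH (nn nn_nonneg nn_neg one_le_nn)

/-- the shell of a frequency -/
noncomputable def cl (k : K) : ℕ := Nat.clog 2 (H459R3.NS.N k)

lemma nn_le_cl (k : K) : nn k ≤ 2 ^ cl k := by
  unfold nn cl
  exact_mod_cast Nat.le_pow_clog (by norm_num) _

lemma cl_le_nn {k : K} (hk : k ≠ 0) : (2 : ℝ) ^ cl k ≤ 2 * nn k := by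
  have h1 : 1 ≤ H459R3.NS.N k := by
    have := one_le_nn hk
    unfold nn at this
    exact_mod_cast this
  unfold nn cl
  rcases Nat.lt_or_ge 1 (H459R3.NS.N k) with h | h
  · have h2 := Nat.pow_pred_clog_lt_self (b := 2) (by norm_num) h
    have h3 : 0 < Nat.clog 2 (H459R3.NS.N k) := Nat.clog_pos (by norm_num) h
    obtain ⟨c, hc⟩ : ∃ c, Nat.clog 2 (H459R3.NS.N k) = c + 1 := ⟨_, (Nat.succ_pred_eq_of_pos h3).symm⟩
    rw [hc] at h2 ⊢
    rw [Nat.pred_succ] at h2
    have h4 : (2 : ℝ) ^ c ≤ (H459R3.NS.N k : ℝ) := by exact_mod_cast h2.le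
    rw [pow_succ]
    linarith
  · have h2 : H459R3.NS.N k = 1 := le_antisymm h h1
    rw [h2]
    norm_num

/-! ### the symmetries of the trilinear form -/

section sym

variable {φ : K → K → ℝ} (hφ : Wt φ) {B : Finset K} {f g h : K → ℂ}

include hφ

lemma Tr_swap (hf : ∀ k, k ∉ B → f k = 0) (hg : ∀ k, k ∉ B → g k = 0) :
    Tr φ B f g h = Tr φ B g f h := by
  unfold Tr
  refine Finset.sum_congr rfl fun k _ => ?_
  have h1 : ∀ a b : K → ℂ, (∀ k, k ∉ B → b k = 0) →
      ∑ l ∈ B, (φ l k : ℂ) * (a l * b (k - l) * conj (h k))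
        = ∑ l ∈ B.filter (fun l => k - l ∈ B), (φ l k : ℂ) * (a l * b (k - l) * conj (h k)) := by
    intro a b hb
    rw [Finset.sum_filter]
    refine Finset.sum_congr rfl fun l _ => ?_
    split_ifs with h2
    · rfl
    · rw [hb _ h2]; ring
  rw [h1 f g hg, h1 g f hf]
  refine Finset.sum_nbij' (fun l => k - l) (fun l => k - l) ?_ ?_ ?_ ?_ ?_
  · intro l hl
    rw [Finset.mem_filter] at hl ⊢
    exact ⟨hl.2, by rw [sub_sub_cancel]; exact hl.1⟩
  · intro l hl
    rw [Finset.mem_filter] at hl ⊢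
    exact ⟨hl.2, by rw [sub_sub_cancel]; exact hl.1⟩
  · intro l _; exact sub_sub_cancel _ _
  · intro l _; exact sub_sub_cancel _ _
  · intro l _
    rw [hφ.swap, sub_sub_cancel]
    ring

lemma Tr_rot : Tr φ B f g h = conj (Tr φ B h (fun q => conj (g (-q))) f) := by
  unfold Tr
  rw [map_sum, Finset.sum_comm]
  refine Finset.sum_congr rfl fun l _ => ?_
  rw [map_sum]
  refine Finset.sum_congr rfl fun k _ => ?_
  simp only [map_mul, Complex.conj_ofReal, Complex.conj_conj]
  rw [hφ.sym l k, neg_sub]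
  ring

end sym

lemma n2_nonneg (B : Finset K) (f : K → ℂ) : 0 ≤ n2 B f := Real.sqrt_nonneg _

lemma n2_neg {B : Finset K} (hB : ∀ k ∈ B, -k ∈ B) (g : K → ℂ) :
    n2 B (fun q => conj (g (-q))) = n2 B g := by
  unfold n2
  congr 1
  refine Finset.sum_nbij' (fun k => -k) (fun k => -k) hB hB ?_ ?_ ?_
  · intro k _; exact neg_neg k
  · intro k _; exact neg_neg k
  · intro k _; simp

/-- the restriction to shells -/
noncomputable def rs (p : ℕ → Prop) [DecidablePred p] (f : K → ℂ) (k : K) : ℂ :=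
  if p (cl k) then f k else 0

lemma rs_supp {B : Finset K} {f : K → ℂ} (hf : ∀ k, k ∉ B → f k = 0) (p : ℕ → Prop)
    [DecidablePred p] : ∀ k, k ∉ B → rs p f k = 0 := by
  intro k hk
  unfold rs
  rw [hf k hk, ite_self]

lemma n2_rs_le {B : Finset K} {f : K → ℂ} {F : K → ℝ} (hf : ∀ k, ‖f k‖ ≤ F k) (p : ℕ → Prop)
    [DecidablePred p] : n2 B (rs p f) ≤ √(∑ k ∈ B, if p (cl k) then F k ^ 2 else 0) := by
  unfold n2
  apply Real.sqrt_le_sqrt
  refine Finset.sum_le_sum fun k _ => ?_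
  unfold rs
  split_ifs
  · exact pow_le_pow_left₀ (norm_nonneg _) (hf k) 2
  · simp

lemma part {M a b d : ℕ} (ha : a < M) (hb : b < M) (hd : d < M) :
    ∑ m ∈ Finset.range M,
      ((if a = m then (1 : ℂ) else 0) * (if m ≤ b then 1 else 0) * (if m ≤ d then 1 else 0)
      + (if m < a then (1 : ℂ) else 0) * (if b = m then 1 else 0) * (if m ≤ d then 1 else 0)
      + (if m < a then (1 : ℂ) else 0) * (if m < b then 1 else 0) * (if d = m then 1 else 0)) = 1 := by
  rw [Finset.sum_add_distrib, Finset.sum_add_distrib]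
  have h1 : ∑ m ∈ Finset.range M,
      (if a = m then (1 : ℂ) else 0) * (if m ≤ b then 1 else 0) * (if m ≤ d then 1 else 0)
      = (if a ≤ b then 1 else 0) * (if a ≤ d then 1 else 0) := by
    rw [Finset.sum_eq_single a]
    · simp
    · intro m _ hm
      rw [if_neg (fun h => hm h.symm)]
      simp
    · intro h
      exact absurd (Finset.mem_range.2 ha) h
  have h2 : ∑ m ∈ Finset.range M,
      (if m < a then (1 : ℂ) else 0) * (if b = m then 1 else 0) * (if m ≤ d then 1 else 0)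
      = (if b < a then 1 else 0) * (if b ≤ d then 1 else 0) := by
    rw [Finset.sum_eq_single b]
    · simp
    · intro m _ hm
      rw [if_neg (fun h => hm h.symm : ¬ b = m)]
      simp
    · intro h
      exact absurd (Finset.mem_range.2 hb) h
  have h3 : ∑ m ∈ Finset.range M,
      (if m < a then (1 : ℂ) else 0) * (if m < b then 1 else 0) * (if d = m then 1 else 0)
      = (if d < a then 1 else 0) * (if d < b then 1 else 0) := by
    rw [Finset.sum_eq_single d]
    · simp
    · intro m _ hm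
      rw [if_neg (fun h => hm h.symm : ¬ d = m)]
      simp
    · intro h
      exact absurd (Finset.mem_range.2 hd) h
  rw [h1, h2, h3]
  rcases lt_trichotomy a b with h | h | h <;> rcases lt_trichotomy a d with h' | h' | h' <;>
    rcases lt_trichotomy b d with h'' | h'' | h'' <;>
    (first
      | omega
      | (split_ifs <;> first | omega | norm_num))

lemma Tr_split {φ : K → K → ℝ} {B : Finset K} {f g h : K → ℂ} (hg : ∀ k, k ∉ B → g k = 0)
    {M : ℕ} (hM : ∀ k ∈ B, cl k < M) :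
    Tr φ B f g h = ∑ m ∈ Finset.range M,
      (Tr φ B (rs (fun n => n = m) f) (rs (fun n => m ≤ n) g) (rs (fun n => m ≤ n) h)
      + Tr φ B (rs (fun n => m < n) f) (rs (fun n => n = m) g) (rs (fun n => m ≤ n) h)
      + Tr φ B (rs (fun n => m < n) f) (rs (fun n => m < n) g) (rs (fun n => n = m) h)) := by
  unfold Tr
  symm
  simp only [← Finset.sum_add_distrib]
  rw [Finset.sum_comm]
  refine Finset.sum_congr rfl fun k hk => ?_
  rw [Finset.sum_comm]
  refine Finset.sum_congr rfl fun l hl => ?_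
  symm
  by_cases hq : k - l ∈ B
  · have h1 := part (hM l hl) (hM _ hq) (hM k hk)
    calc (φ l k : ℂ) * (f l * g (k - l) * conj (h k))
        = (φ l k : ℂ) * (f l * g (k - l) * conj (h k)) * 1 := (mul_one _).symm
      _ = _ := by
        rw [← h1, Finset.mul_sum]
        refine Finset.sum_congr rfl fun m _ => ?_
        unfold rs
        simp only [apply_ite conj, map_zero]
        split_ifs <;> ring
  · have h1 : ∀ (p : ℕ → Prop) [DecidablePred p], rs p g (k - l) = 0 := by
      intro p _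
      exact rs_supp hg p _ hq
    simp only [h1, hg _ hq]
    simp

/-- the sum over the shells -/
lemma shells {B : Finset K} {F : K → ℝ} (hF0 : F 0 = 0) (M : ℕ) :
    ∑ m ∈ Finset.range M, 2 ^ m * (√(∑ k ∈ B, if cl k = m then F k ^ 2 else 0) *
      ∑ k ∈ B, if m ≤ cl k then F k ^ 2 else 0)
      ≤ (5 / 2) * (∑ k ∈ B, F k ^ 2) * √(∑ k ∈ B, nn k ^ 2 * F k ^ 2) := by
  set A := ∑ k ∈ B, F k ^ 2 with hA
  set D := ∑ k ∈ B, nn k ^ 2 * F k ^ 2 with hD
  have hA0 : 0 ≤ A := Finset.sum_nonneg fun _ _ => by positivity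
  have hD0 : 0 ≤ D := Finset.sum_nonneg fun _ _ => by positivity
  set a : ℕ → ℝ := fun m => ∑ k ∈ B, if cl k = m then F k ^ 2 else 0 with ha
  set S : ℕ → ℝ := fun m => ∑ k ∈ B, if m ≤ cl k then F k ^ 2 else 0 with hS
  have ha0 : ∀ m, 0 ≤ a m := fun m => Finset.sum_nonneg fun k _ => by split_ifs <;> positivity
  have hS0 : ∀ m, 0 ≤ S m := fun m => Finset.sum_nonneg fun k _ => by split_ifs <;> positivity
  have hSA : ∀ m, S m ≤ A := fun m => Finset.sum_le_sum fun k _ => by
    split_ifs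
    · exact le_rfl
    · positivity
  -- the first factor
  have h1 : ∑ m ∈ Finset.range M, a m ≤ A := by
    simp only [ha]
    rw [Finset.sum_comm]
    refine Finset.sum_le_sum fun k _ => ?_
    rw [Finset.sum_ite_eq]
    split_ifs
    · exact le_rfl
    · positivity
  -- the second factor
  have h2 : ∑ m ∈ Finset.range M, 4 ^ m * S m ≤ (16 / 3) * D := by
    simp only [hS, Finset.mul_sum]
    rw [Finset.sum_comm, hD, Finset.mul_sum]
    refine Finset.sum_le_sum fun k _ => ?_
    by_cases hk : k = 0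
    · subst hk
      rw [hF0]
      simp
    have h3 : ∑ m ∈ Finset.range M, (4 : ℝ) ^ m * (if m ≤ cl k then F k ^ 2 else 0)
        ≤ ∑ m ∈ Finset.range (cl k + 1), (4 : ℝ) ^ m * F k ^ 2 := by
      calc ∑ m ∈ Finset.range M, (4 : ℝ) ^ m * (if m ≤ cl k then F k ^ 2 else 0)
          = ∑ m ∈ (Finset.range M).filter (fun m => m ≤ cl k), (4 : ℝ) ^ m * F k ^ 2 := by
            rw [Finset.sum_filter]
            exact Finset.sum_congr rfl fun m _ => by split_ifs <;> simp
        _ ≤ _ := by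
            apply Finset.sum_le_sum_of_subset_of_nonneg
            · intro m hm
              rw [Finset.mem_filter] at hm
              rw [Finset.mem_range]
              omega
            · intro m _ _; positivity
    have h4 : ∑ m ∈ Finset.range (cl k + 1), (4 : ℝ) ^ m ≤ (4 / 3) * 4 ^ cl k := by
      have := geom_sum_eq (x := (4 : ℝ)) (by norm_num) (cl k + 1)
      rw [this, pow_succ]
      have h5 : (0 : ℝ) ≤ 4 ^ cl k := by positivity
      rw [div_le_iff₀ (by norm_num)]
      linarith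
    have h5 : (4 : ℝ) ^ cl k ≤ 4 * nn k ^ 2 := by
      have h6 := cl_le_nn hk
      have h7 : (4 : ℝ) ^ cl k = (2 ^ cl k) ^ 2 := by
        rw [← pow_mul, mul_comm, pow_mul]; norm_num
      rw [h7]
      have h8 : (0 : ℝ) ≤ 2 ^ cl k := by positivity
      nlinarith [nn_nonneg k]
    calc _ ≤ _ := h3
      _ = (∑ m ∈ Finset.range (cl k + 1), (4 : ℝ) ^ m) * F k ^ 2 := by rw [Finset.sum_mul]
      _ ≤ ((4 / 3) * (4 * nn k ^ 2)) * F k ^ 2 := by
          apply mul_le_mul_of_nonneg_right _ (by positivity)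
          linarith
      _ = _ := by ring
  -- Cauchy-Schwarz
  have h3 : ∑ m ∈ Finset.range M, 2 ^ m * (√(a m) * S m)
      ≤ √(∑ m ∈ Finset.range M, a m) * √(∑ m ∈ Finset.range M, (2 ^ m * S m) ^ 2) := by
    have h4 := Finset.sum_mul_sq_le_sq_mul_sq (Finset.range M) (fun m => √(a m)) (fun m => 2 ^ m * S m)
    have h5 : ∑ m ∈ Finset.range M, √(a m) ^ 2 = ∑ m ∈ Finset.range M, a m :=
      Finset.sum_congr rfl fun m _ => Real.sq_sqrt (ha0 m)
    rw [h5] at h4
    rw [← Real.sqrt_mul (Finset.sum_nonneg fun m _ => ha0 m)]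
    apply Real.le_sqrt_of_sq_le
    refine le_trans (le_of_eq ?_) h4
    congr 1
    exact Finset.sum_congr rfl fun m _ => by ring
  have h4 : ∑ m ∈ Finset.range M, (2 ^ m * S m) ^ 2 ≤ A * ((16 / 3) * D) := by
    calc ∑ m ∈ Finset.range M, (2 ^ m * S m) ^ 2 ≤ ∑ m ∈ Finset.range M, A * (4 ^ m * S m) := by
          refine Finset.sum_le_sum fun m _ => ?_
          have h5 : ((2 : ℝ) ^ m * S m) ^ 2 = 4 ^ m * S m * S m := by
            rw [mul_pow, ← pow_mul, mul_comm m 2, pow_mul]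
            norm_num
            ring
          rw [h5, mul_comm A]
          exact mul_le_mul_of_nonneg_left (hSA m) (mul_nonneg (by positivity) (hS0 m))
      _ = A * ∑ m ∈ Finset.range M, 4 ^ m * S m := by rw [Finset.mul_sum]
      _ ≤ _ := mul_le_mul_of_nonneg_left h2 hA0
  calc _ ≤ _ := h3
    _ ≤ √A * √(A * ((16 / 3) * D)) := by
        gcongr
    _ = A * √((16 / 3) * D) := by
        rw [Real.sqrt_mul hA0, ← mul_assoc, Real.mul_self_sqrt hA0]
    _ ≤ A * ((5 / 2) * √D) := by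
        apply mul_le_mul_of_nonneg_left _ hA0
        rw [Real.sqrt_mul (by norm_num)]
        apply mul_le_mul_of_nonneg_right _ (Real.sqrt_nonneg _)
        rw [Real.sqrt_le_left (by norm_num)]
        norm_num
    _ = _ := by ring

/-- **The planar inequality follows from the block inequality.** -/
theorem tri_of_blk {φ : K → K → ℝ} {X : ℝ} (hφ : Wt φ) (hX : 0 ≤ X) (h : Blk φ X) :
    ∃ C, Tri φ C := by
  refine ⟨X * 3 * (5 / 2), by positivity, ?_⟩
  intro B hB f g w F hFB hF0 hf hg hw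
  have hFn : ∀ k, 0 ≤ F k := fun k => (norm_nonneg _).trans (hf k)
  have hz : ∀ {v : K → ℂ}, (∀ k, ‖v k‖ ≤ F k) → ∀ k, k ∉ B → v k = 0 := by
    intro v hv k hk
    have := hv k
    rw [hFB k hk] at this
    exact norm_le_zero_iff.1 this
  have hf0 := hz hf
  have hg0 := hz hg
  have hw0 := hz hw
  set M := B.sup cl + 1 with hMd
  have hM : ∀ k ∈ B, cl k < M := fun k hk => Nat.lt_succ_of_le (Finset.le_sup (f := cl) hk)
  rw [Tr_split hg0 hM]
  set a : ℕ → ℝ := fun m => ∑ k ∈ B, if cl k = m then F k ^ 2 else 0 with ha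
  set S : ℕ → ℝ := fun m => ∑ k ∈ B, if m ≤ cl k then F k ^ 2 else 0 with hS
  have hS0 : ∀ m, 0 ≤ S m := fun m => Finset.sum_nonneg fun k _ => by split_ifs <;> positivity
  have e1 : ∀ (v : K → ℂ), (∀ k, ‖v k‖ ≤ F k) → ∀ m, n2 B (rs (fun n => n = m) v) ≤ √(a m) :=
    fun v hv m => n2_rs_le hv _
  have e2 : ∀ (v : K → ℂ), (∀ k, ‖v k‖ ≤ F k) → ∀ m, n2 B (rs (fun n => m ≤ n) v) ≤ √(S m) :=
    fun v hv m => n2_rs_le hv _
  have e3 : ∀ (v : K → ℂ), (∀ k, ‖v k‖ ≤ F k) → ∀ m, n2 B (rs (fun n => m < n) v) ≤ √(S m) := by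
    intro v hv m
    refine (n2_rs_le hv _).trans (Real.sqrt_le_sqrt ?_)
    refine Finset.sum_le_sum fun k _ => ?_
    by_cases h1 : m < cl k
    · rw [if_pos h1, if_pos h1.le]
    · rw [if_neg h1]
      split_ifs <;> positivity
  have hlow : ∀ (v : K → ℂ) (m : ℕ) (k : K), (2 : ℝ) ^ m < nn k → rs (fun n => n = m) v k = 0 := by
    intro v m k hk
    unfold rs
    rw [if_neg]
    intro h1
    have := nn_le_cl k
    rw [h1] at this
    linarith
  have key : ∀ (m : ℕ) (x y z : K → ℂ), (∀ k, k ∉ B → x k = 0) → (∀ k, k ∉ B → y k = 0) →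
      (∀ k, k ∉ B → z k = 0) → (∀ k, (2 : ℝ) ^ m < nn k → x k = 0) → n2 B x ≤ √(a m) →
      n2 B y ≤ √(S m) → n2 B z ≤ √(S m) →
      ‖Tr φ B x y z‖ ≤ X * (2 ^ m * (√(a m) * S m)) := by
    intro m x y z hx hy hz' hl h1 h2 h3
    refine (h m B x y z hx hy hz' hl).trans ?_
    have h4 : n2 B x * n2 B y * n2 B z ≤ √(a m) * S m := by
      calc n2 B x * n2 B y * n2 B z ≤ √(a m) * √(S m) * √(S m) := by
            gcongr
            · exact n2_nonneg _ _
            · exact n2_nonneg _ _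
        _ = _ := by rw [mul_assoc, Real.mul_self_sqrt (hS0 m)]
    calc _ ≤ X * 2 ^ m * (√(a m) * S m) := mul_le_mul_of_nonneg_left h4 (by positivity)
      _ = _ := by ring
  have hm : ∀ m ∈ Finset.range M,
      ‖Tr φ B (rs (fun n => n = m) f) (rs (fun n => m ≤ n) g) (rs (fun n => m ≤ n) w)
      + Tr φ B (rs (fun n => m < n) f) (rs (fun n => n = m) g) (rs (fun n => m ≤ n) w)
      + Tr φ B (rs (fun n => m < n) f) (rs (fun n => m < n) g) (rs (fun n => n = m) w)‖
      ≤ (X * 3) * (2 ^ m * (√(a m) * S m)) := by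
    intro m _
    have b1 := key m _ _ _ (rs_supp hf0 (fun n => n = m)) (rs_supp hg0 (fun n => m ≤ n))
      (rs_supp hw0 (fun n => m ≤ n)) (hlow f m) (e1 f hf m) (e2 g hg m) (e2 w hw m)
    have b2 := key m _ _ _ (rs_supp hg0 (fun n => n = m)) (rs_supp hf0 (fun n => m < n))
      (rs_supp hw0 (fun n => m ≤ n)) (hlow g m) (e1 g hg m) (e3 f hf m) (e2 w hw m)
    rw [Tr_swap hφ (rs_supp hg0 _) (rs_supp hf0 _)] at b2
    have b3 : ‖Tr φ B (rs (fun n => m < n) f) (rs (fun n => m < n) g) (rs (fun n => n = m) w)‖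
        ≤ X * (2 ^ m * (√(a m) * S m)) := by
      rw [Tr_rot hφ, RCLike.norm_conj]
      refine key m _ _ _ (rs_supp hw0 _) ?_ (rs_supp hf0 _) (hlow w m) (e1 w hw m) ?_ (e3 f hf m)
      · intro k hk
        have h1 : -k ∉ B := fun h2 => hk (by have := hB _ h2; rwa [neg_neg] at this)
        rw [rs_supp hg0 _ _ h1, map_zero]
      · rw [n2_neg hB]
        exact e3 g hg m
    refine (norm_add_le _ _).trans ?_
    have b4 := norm_add_le
      (Tr φ B (rs (fun n => n = m) f) (rs (fun n => m ≤ n) g) (rs (fun n => m ≤ n) w))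
      (Tr φ B (rs (fun n => m < n) f) (rs (fun n => n = m) g) (rs (fun n => m ≤ n) w))
    linarith
  refine (norm_sum_le _ _).trans ((Finset.sum_le_sum hm).trans ?_)
  rw [← Finset.mul_sum]
  have hsh := shells (B := B) hF0 M
  calc _ ≤ (X * 3) * ((5 / 2) * (∑ k ∈ B, F k ^ 2) * √(∑ k ∈ B, nn k ^ 2 * F k ^ 2)) :=
        mul_le_mul_of_nonneg_left hsh (by positivity)
    _ = _ := by ring

end Pool.Agent.K1H29.NC
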