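import Pool.Agent.H459R3.NS.Gen
import Pool.Agent.H459R3.NS.Evo
import Pool.Agent.H459R3.NS.High2
import Pool.Agent.K1H29.RD.Phy
import Pool.Agent.K1H29.NC.Defs

/-!
# Integrals of weighted products
-/

open MeasureTheory Set Filter Topology
open scoped ContDiff

namespace Pool.Agent.K1H29.NC

open H459R3.NS

variable {φ : K3 → K3 → ℝ} {f g h : V → ℝ}

lemma four_eq_fr' (f : V → ℝ) (k : K3) : four f k = fr f k := SH.four_eq_fr f k

lemma fr_star (f : V → ℝ) (k : K3) : fr f (-k) = star (fr f k) := by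
  unfold fr fc
  rw [Complex.star_def, ← integral_conj]
  congr 1
  funext x
  rw [map_mul, ← ee_neg, Complex.conj_ofReal]

lemma Wt.nm' (hφ : Wt φ) (l k : K3) : ‖(φ l k : ℂ)‖ ≤ 1 := by
  rw [Complex.norm_real]; exact hφ.bd l k

/-- change of variables in the double sums -/
def eqv2 : K3 × K3 ≃ K3 × K3 where
  toFun p := (p.2, p.1 - p.2)
  invFun p := (p.1 + p.2, p.1)
  left_inv p := by simp
  right_inv p := by simp

lemma summ_pair {a b : K3 → ℝ} (ha : Summable a) (hb : Summable b) (ha0 : ∀ k, 0 ≤ a k)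
    (hb0 : ∀ k, 0 ≤ b k) : Summable fun p : K3 × K3 => a p.2 * b (p.1 - p.2) :=
  (eqv2.summable_iff).2 (ha.mul_of_nonneg hb ha0 hb0)

/-- the terms of the double series -/
noncomputable def Tm (φ : K3 → K3 → ℝ) (f g h : V → ℝ) (p : K3 × K3) : ℂ :=
  (φ p.2 p.1 : ℂ) * (fr f p.2 * fr g (p.1 - p.2)) * fr h (-p.1)

lemma norm_Tm_le (hφ : Wt φ) (p : K3 × K3) :
    ‖Tm φ f g h p‖ ≤ ‖fr f p.2‖ * ‖fr g (p.1 - p.2)‖ * ‖fr h (-p.1)‖ := by
  unfold Tm
  rw [norm_mul, norm_mul, norm_mul]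
  apply mul_le_mul_of_nonneg_right _ (norm_nonneg _)
  calc _ ≤ 1 * (‖fr f p.2‖ * ‖fr g (p.1 - p.2)‖) :=
        mul_le_mul_of_nonneg_right (hφ.nm' _ _) (by positivity)
    _ = _ := one_mul _

lemma summ_Tm (hφ : Wt φ) (hf : SP f) (hg : SP g) (hh : SP h) : Summable (Tm φ f g h) := by
  have h1 := (rap_fr hf).summable.norm
  have h2 := (rap_fr hg).summable.norm
  have h3 := (rap_fr hh).summable.norm
  have h4 := summ_pair h1 h2 (fun _ => norm_nonneg _) (fun _ => norm_nonneg _)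
  refine Summable.of_norm_bounded (h4.mul_right (∑' k, ‖fr h k‖)) fun p => (norm_Tm_le hφ p).trans ?_
  apply mul_le_mul_of_nonneg_left _ (by positivity)
  exact h3.le_tsum _ fun _ _ => norm_nonneg _

/-- the Fourier coefficients of the product -/
noncomputable def Ap (φ : K3 → K3 → ℝ) (f g : V → ℝ) (k : K3) : ℂ :=
  ∑' l, (φ l k : ℂ) * (fr f l * fr g (k - l))

lemma summ_Ap' (hφ : Wt φ) (hf : SP f) (hg : SP g) :
    Summable fun p : K3 × K3 => (φ p.2 p.1 : ℂ) * (fr f p.2 * fr g (p.1 - p.2)) := by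
  have h1 := (rap_fr hf).summable.norm
  have h2 := (rap_fr hg).summable.norm
  refine Summable.of_norm_bounded (summ_pair h1 h2 (fun _ => norm_nonneg _) (fun _ => norm_nonneg _))
    fun p => ?_
  rw [norm_mul, norm_mul]
  calc _ ≤ 1 * (‖fr f p.2‖ * ‖fr g (p.1 - p.2)‖) :=
        mul_le_mul_of_nonneg_right (hφ.nm' _ _) (by positivity)
    _ = _ := one_mul _

lemma summ_Ap (hφ : Wt φ) (hf : SP f) (hg : SP g) : Summable (Ap φ f g) :=
  (summ_Ap' hφ hf hg).prod

lemma prod_eq_S (f g : V → ℝ) (x : V) : prod φ f g x = (S (Ap φ f g) x).re := by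
  unfold prod S Ap
  simp only [four_eq_fr', SH.ee_eq_ex]
  rfl

lemma prod_cont (hφ : Wt φ) (hf : SP f) (hg : SP g) : Continuous (prod φ f g) := by
  have : prod φ f g = fun x => (S (Ap φ f g) x).re := funext (prod_eq_S f g)
  rw [this]
  exact Complex.continuous_re.comp (S_continuous (summ_Ap hφ hf hg))

lemma int_prod (hφ : Wt φ) (hf : SP f) (hg : SP g) (hh : SP h) :
    ∫ x in cube, h x * prod φ f g x = (∑' p, Tm φ f g h p).re := by
  have hs := summ_Ap hφ hf hg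
  have hc : Continuous fun x => (h x : ℂ) := Complex.continuous_ofReal.comp hh.cont
  have h1 := (integral_S_mul hs hc).tsum_eq
  have h2 : (∫ x in cube, S (Ap φ f g) x * (h x : ℂ)).re = ∫ x in cube, h x * prod φ f g x := by
    have hi : Integrable (fun x => S (Ap φ f g) x * (h x : ℂ)) (volume.restrict cube) :=
      integrableOn_cube ((S_continuous hs).mul hc)
    have h3 := Complex.reCLM.integral_comp_comm hi
    rw [Complex.reCLM_apply] at h3
    rw [← h3]
    congr 1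
    funext x
    rw [prod_eq_S, Complex.reCLM_apply, mul_comm, Complex.re_ofReal_mul]
  rw [← h2, ← h1]
  congr 1
  have h4 := (summ_Tm hφ hf hg hh).tsum_prod
  have h5 : ∀ k, (∫ x in cube, ee k x * (h x : ℂ)) = fr h (-k) := fun k => by
    unfold fr fc; rw [neg_neg]
  simp only [h5]
  rw [h4]
  refine tsum_congr fun k => ?_
  unfold Ap Tm
  rw [← tsum_mul_right]

/-- the bound of the double series -/
lemma Tm_bound (hφ : Wt φ) (hf : SP f) (hg : SP g) (hh : SP h) :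
    |(∑' p, Tm φ f g h p).re| ≤ (∑' k, ‖fr g k‖) *
      ((∫ x in cube, f x ^ 2) / 2 + (∫ x in cube, h x ^ 2) / 2) := by
  refine (Complex.abs_re_le_norm _).trans ?_
  have h1 := (summ_Tm hφ hf hg hh).norm
  refine (norm_tsum_le_tsum_norm h1).trans ?_
  have sf := summable_sq (rap_fr hf).summable
  have sh := summable_sq (rap_fr hh).summable
  have sg := (rap_fr hg).summable.norm
  -- majorants
  have e1 : Summable fun p : K3 × K3 => ‖fr g (p.1 - p.2)‖ * (‖fr f p.2‖ ^ 2 / 2) := by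
    have := summ_pair (a := fun k => ‖fr f k‖ ^ 2 / 2) (b := fun k => ‖fr g k‖) (sf.div_const 2) sg
      (fun _ => by positivity) (fun _ => norm_nonneg _)
    exact this.congr fun p => by ring
  have e2 : Summable fun p : K3 × K3 => ‖fr g (p.1 - p.2)‖ * (‖fr h (-p.1)‖ ^ 2 / 2) := by
    let e : K3 × K3 ≃ K3 × K3 :=
      { toFun := fun p => (-p.1, p.1 - p.2)
        invFun := fun p => (-p.1, -p.1 - p.2)
        left_inv := fun p => by ext <;> simp
        right_inv := fun p => by ext <;> simp }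
    have h2 := (sh.div_const 2).mul_of_nonneg sg (fun _ => by positivity) (fun _ => norm_nonneg _)
    have h3 := (e.summable_iff).2 h2
    exact h3.congr fun p => by simp [e, mul_comm]
  have h2 : ∀ p : K3 × K3, ‖Tm φ f g h p‖ ≤ ‖fr g (p.1 - p.2)‖ * (‖fr f p.2‖ ^ 2 / 2)
      + ‖fr g (p.1 - p.2)‖ * (‖fr h (-p.1)‖ ^ 2 / 2) := by
    intro p
    refine (norm_Tm_le hφ p).trans ?_
    have h3 : ‖fr f p.2‖ * ‖fr h (-p.1)‖ ≤ ‖fr f p.2‖ ^ 2 / 2 + ‖fr h (-p.1)‖ ^ 2 / 2 := by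
      nlinarith [sq_nonneg (‖fr f p.2‖ - ‖fr h (-p.1)‖)]
    have h4 := mul_le_mul_of_nonneg_left h3 (norm_nonneg (fr g (p.1 - p.2)))
    linarith
  refine (h1.tsum_le_tsum h2 (e1.add e2)).trans ?_
  rw [e1.tsum_add e2, mul_add]
  have t1 : ∑' p : K3 × K3, ‖fr g (p.1 - p.2)‖ * (‖fr f p.2‖ ^ 2 / 2)
      = (∑' k, ‖fr g k‖) * ((∫ x in cube, f x ^ 2) / 2) := by
    rw [← n2_fr hf, n2_sq, ← tsum_div_const]
    have h5 := (sf.div_const 2).mul_of_nonneg sg (fun _ => by positivity) (fun _ => norm_nonneg _)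
    have h6 := eqv2.tsum_eq (fun q : K3 × K3 => ‖fr f q.1‖ ^ 2 / 2 * ‖fr g q.2‖)
    have h7 : ∑' p : K3 × K3, ‖fr g (p.1 - p.2)‖ * (‖fr f p.2‖ ^ 2 / 2)
        = ∑' q : K3 × K3, ‖fr f q.1‖ ^ 2 / 2 * ‖fr g q.2‖ := by
      rw [← h6]
      exact tsum_congr fun p => by simp [eqv2, mul_comm]
    rw [h7, h5.tsum_prod]
    simp only [tsum_mul_left, tsum_mul_right]
    ring
  have t2 : ∑' p : K3 × K3, ‖fr g (p.1 - p.2)‖ * (‖fr h (-p.1)‖ ^ 2 / 2)
      = (∑' k, ‖fr g k‖) * ((∫ x in cube, h x ^ 2) / 2) := by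
    rw [← n2_fr hh, n2_sq, ← tsum_div_const]
    let e : K3 × K3 ≃ K3 × K3 :=
      { toFun := fun p => (-p.1, p.1 - p.2)
        invFun := fun p => (-p.1, -p.1 - p.2)
        left_inv := fun p => by ext <;> simp
        right_inv := fun p => by ext <;> simp }
    have h5 := (sh.div_const 2).mul_of_nonneg sg (fun _ => by positivity) (fun _ => norm_nonneg _)
    have h6 := e.tsum_eq (fun q : K3 × K3 => ‖fr h q.1‖ ^ 2 / 2 * ‖fr g q.2‖)
    have h7 : ∑' p : K3 × K3, ‖fr g (p.1 - p.2)‖ * (‖fr h (-p.1)‖ ^ 2 / 2)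
        = ∑' q : K3 × K3, ‖fr h q.1‖ ^ 2 / 2 * ‖fr g q.2‖ := by
      rw [← h6]
      exact tsum_congr fun p => by simp [e, mul_comm]
    rw [h7, h5.tsum_prod]
    simp only [tsum_mul_left, tsum_mul_right]
    ring
  rw [t1, t2]

/-- the transport term vanishes -/
lemma transport (hφ : Wt φ) {a w : Fin 3 → V → ℝ} (ha : ∀ i, SP (a i)) (hw : ∀ i, SP (w i))
    (hdiv : ∀ x, ∑ i, pd i (a i) x = 0) :
    ∑ i, ∑ j, ∫ x in cube, w i x * prod φ (a j) (pd j (w i)) x = 0 := by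
  have h1 : ∀ i j, ∫ x in cube, w i x * prod φ (a j) (pd j (w i)) x
      = (∑' p, Tm φ (a j) (pd j (w i)) (w i) p).re := fun i j => int_prod hφ (ha j) ((hw i).pd j) (hw i)
  simp only [h1]
  have hs : ∀ i j, Summable (Tm φ (a j) (pd j (w i)) (w i)) := fun i j =>
    summ_Tm hφ (ha j) ((hw i).pd j) (hw i)
  have h2 : ∑ i, ∑ j, (∑' p, Tm φ (a j) (pd j (w i)) (w i) p).re
      = (∑' p, ∑ i, ∑ j, Tm φ (a j) (pd j (w i)) (w i) p).re := by
    rw [Summable.tsum_finsetSum fun i _ => summable_sum fun j _ => hs i j, Complex.re_sum]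
    refine Finset.sum_congr rfl fun i _ => ?_
    rw [Summable.tsum_finsetSum fun j _ => hs i j, Complex.re_sum]
  rw [h2]
  set G : K3 × K3 → ℂ := fun p => ∑ i, ∑ j, Tm φ (a j) (pd j (w i)) (w i) p with hG
  let e : K3 × K3 ≃ K3 × K3 :=
    { toFun := fun p => (p.2 - p.1, p.2)
      invFun := fun p => (p.2 - p.1, p.2)
      left_inv := fun p => by ext <;> simp
      right_inv := fun p => by ext <;> simp }
  have hd : ∀ l : K3, ∑ j, (l j : ℂ) * fr (a j) l = 0 := fun l => fr_div (v := a) ha hdiv l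
  have hGe : ∀ p, G (e p) = -G p := by
    rintro ⟨k, l⟩
    have hsw : φ l (l - k) = φ l k := by
      rw [← hφ.sym l (l - k), hφ.swap k l, hφ.sym l k]
    have e1 : G (e (k, l)) = ∑ i, (-(φ l k : ℂ) * (2 * Real.pi * Complex.I) * (∑ j, (k j : ℂ) * fr (a j) l)
        * (fr (w i) (-k) * fr (w i) (k - l))) := by
      simp only [hG, e, Equiv.coe_fn_mk, Tm]
      refine Finset.sum_congr rfl fun i _ => ?_
      rw [Finset.mul_sum, Finset.sum_mul]
      refine Finset.sum_congr rfl fun j _ => ?_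
      rw [fr_pd (hw i), hsw, show l - k - l = -k by abel, show -(l - k) = k - l by abel]
      unfold D
      simp only [Pi.neg_apply, Int.cast_neg]
      ring
    have e2 : G (k, l) = ∑ i, ((φ l k : ℂ) * (2 * Real.pi * Complex.I) * (∑ j, (k j : ℂ) * fr (a j) l)
        * (fr (w i) (-k) * fr (w i) (k - l))) := by
      simp only [hG, Tm]
      refine Finset.sum_congr rfl fun i _ => ?_
      have e3 : ∑ j, (k j : ℂ) * fr (a j) l = ∑ j, ((k - l) j : ℂ) * fr (a j) l := by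
        have : ∑ j, ((k - l) j : ℂ) * fr (a j) l
            = ∑ j, (k j : ℂ) * fr (a j) l - ∑ j, (l j : ℂ) * fr (a j) l := by
          rw [← Finset.sum_sub_distrib]
          refine Finset.sum_congr rfl fun j _ => ?_
          simp only [Pi.sub_apply, Int.cast_sub]
          ring
        rw [this, hd l, sub_zero]
      rw [e3, Finset.mul_sum, Finset.sum_mul]
      refine Finset.sum_congr rfl fun j _ => ?_
      rw [fr_pd (hw i)]
      unfold D
      ring
    rw [e1, e2, ← Finset.sum_neg_distrib]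
    exact Finset.sum_congr rfl fun i _ => by ring
  have h3 : ∑' p, G p = -∑' p, G p := by
    conv_lhs => rw [← e.tsum_eq]
    simp only [hGe]
    rw [tsum_neg]
  have h4 : ∑' p, G p = 0 := by
    have h5 : 2 * ∑' p, G p = 0 := by linear_combination h3
    exact (mul_eq_zero.1 h5).resolve_left (by norm_num)
  rw [h4]; rfl

/-- the `ℓ¹` norm of the Fourier coefficients -/
theorem l1_le (hf : SP f) : ∑' k, ‖fr f k‖ ≤ nrm f + Real.sqrt C4 * nrm (lap f) := by
  have hr := rap_fr hf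
  have hl := rap_fr hf.lap
  have hbd : ∀ k, ‖fr f k‖ ≤ (if k = 0 then ‖fr f 0‖ else 0)
      + Real.sqrt (if k = 0 then (0 : ℝ) else 1 / (N k : ℝ) ^ 4) * ‖fr (lap f) k‖ := by
    intro k
    by_cases hk : k = 0
    · rw [if_pos hk, if_pos hk, hk]
      simp
    · rw [if_neg hk, if_neg hk, zero_add]
      have hN : 1 ≤ N k := Nat.one_le_iff_ne_zero.2 fun h => hk (N_eq_zero.1 h)
      have hN' : (0 : ℝ) < N k := by exact_mod_cast hN
      have e1 : fr (lap f) k = -(((2 * Real.pi) ^ 2 * ∑ j, (k j : ℝ) ^ 2 : ℝ) : ℂ) * fr f k := by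
        unfold lap
        rw [fr_sum fun j _ => (hf.pd j).pd j]
        push_cast
        rw [Finset.mul_sum, ← Finset.sum_neg_distrib, Finset.sum_mul]
        refine Finset.sum_congr rfl fun j _ => ?_
        rw [fr_pd (hf.pd j), fr_pd hf, D, D]
        have := Complex.I_sq
        linear_combination ((2 * Real.pi : ℂ) ^ 2 * (k j : ℂ) ^ 2 * fr f k) * this
      have e2 : (N k : ℝ) ^ 2 * ‖fr f k‖ ≤ ‖fr (lap f) k‖ := by
        rw [e1, norm_mul, norm_neg, Complex.norm_real, Real.norm_eq_abs,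
          abs_of_nonneg (by positivity)]
        refine mul_le_mul_of_nonneg_right ?_ (norm_nonneg _)
        have a1 := N_sq_le k
        have a2 : (1 : ℝ) ≤ (2 * Real.pi) ^ 2 := by nlinarith [Real.pi_gt_three]
        have a3 : (0 : ℝ) ≤ ∑ j, (k j : ℝ) ^ 2 := by positivity
        nlinarith
      have e3 : Real.sqrt (1 / (N k : ℝ) ^ 4) = 1 / (N k : ℝ) ^ 2 := by
        rw [show (1 : ℝ) / (N k : ℝ) ^ 4 = (1 / (N k : ℝ) ^ 2) ^ 2 by
          rw [div_pow, one_pow, ← pow_mul], Real.sqrt_sq (by positivity)]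
      rw [e3, div_mul_eq_mul_div, one_mul, le_div_iff₀ (by positivity), mul_comm]
      exact e2
  have s1 : Summable fun k : K3 => if k = 0 then ‖fr f 0‖ else 0 :=
    (hasSum_ite_eq (0 : K3) ‖fr f 0‖).summable
  have sq1 : Summable fun k : K3 => (Real.sqrt (if k = 0 then (0 : ℝ) else 1 / (N k : ℝ) ^ 4)) ^ 2 := by
    refine summable_N4.congr fun k => ?_
    rw [Real.sq_sqrt (by split_ifs <;> positivity)]
  have sq2 := summable_sq hl.summable
  have s2 : Summable fun k : K3 =>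
      Real.sqrt (if k = 0 then (0 : ℝ) else 1 / (N k : ℝ) ^ 4) * ‖fr (lap f) k‖ := by
    refine Summable.of_nonneg_of_le (fun k => by positivity) (fun k => ?_) (sq1.add sq2)
    nlinarith [sq_nonneg (Real.sqrt (if k = 0 then (0 : ℝ) else 1 / (N k : ℝ) ^ 4)
      - ‖fr (lap f) k‖), sq_nonneg (Real.sqrt (if k = 0 then (0 : ℝ) else 1 / (N k : ℝ) ^ 4)),
      sq_nonneg ‖fr (lap f) k‖]
  refine (hr.summable.norm.tsum_le_tsum hbd (s1.add s2)).trans ?_
  rw [s1.tsum_add s2, tsum_ite_eq]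
  have t1 : ‖fr f 0‖ ≤ nrm f := by
    have a1 : ‖fr f 0‖ ^ 2 ≤ n2 (fr f) ^ 2 := by
      rw [n2_sq]
      exact (summable_sq hr.summable).le_tsum (0 : K3) fun _ _ => sq_nonneg _
    have a2 : n2 (fr f) ^ 2 = nrm f ^ 2 := by rw [n2_fr hf, nrm_sq]
    rw [a2] at a1
    exact (pow_le_pow_iff_left₀ (norm_nonneg _) (nrm_nonneg _) (by norm_num)).1 a1
  have t2 : ∑' k : K3, Real.sqrt (if k = 0 then (0 : ℝ) else 1 / (N k : ℝ) ^ 4) * ‖fr (lap f) k‖
      ≤ Real.sqrt C4 * nrm (lap f) := by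
    refine s2.tsum_le_of_sum_le fun F => ?_
    have b1 := Finset.sum_mul_sq_le_sq_mul_sq F
      (fun k : K3 => Real.sqrt (if k = 0 then (0 : ℝ) else 1 / (N k : ℝ) ^ 4))
      (fun k => ‖fr (lap f) k‖)
    have b2 : ∑ k ∈ F, (Real.sqrt (if k = 0 then (0 : ℝ) else 1 / (N k : ℝ) ^ 4)) ^ 2 ≤ C4 := by
      have : ∑' k : K3, (Real.sqrt (if k = 0 then (0 : ℝ) else 1 / (N k : ℝ) ^ 4)) ^ 2 = C4 :=
        tsum_congr fun k => Real.sq_sqrt (by split_ifs <;> positivity)
      rw [← this]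
      exact sq1.sum_le_tsum F fun _ _ => sq_nonneg _
    have b3 : ∑ k ∈ F, ‖fr (lap f) k‖ ^ 2 ≤ nrm (lap f) ^ 2 := by
      rw [nrm_sq, ← n2_fr hf.lap, n2_sq]
      exact sq2.sum_le_tsum F fun _ _ => sq_nonneg _
    have b4 : (∑ k ∈ F, Real.sqrt (if k = 0 then (0 : ℝ) else 1 / (N k : ℝ) ^ 4)
        * ‖fr (lap f) k‖) ^ 2 ≤ (Real.sqrt C4 * nrm (lap f)) ^ 2 := by
      rw [mul_pow, Real.sq_sqrt C4_nonneg]
      exact b1.trans (mul_le_mul b2 b3 (Finset.sum_nonneg fun _ _ => sq_nonneg _) C4_nonneg)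
    exact (pow_le_pow_iff_left₀ (Finset.sum_nonneg fun _ _ => by positivity)
      (mul_nonneg (Real.sqrt_nonneg _) (nrm_nonneg _)) (by norm_num)).1 b4
  linarith

lemma nrm_le {b : ℝ} (hf : Continuous f) (hb : ∀ x ∈ cube, |f x| ≤ b) : nrm f ≤ |b| := by
  unfold nrm
  rw [Real.sqrt_le_left (abs_nonneg _), sq_abs]
  have hi : IntegrableOn (fun x => f x ^ 2) cube := integrableOn_cube (hf.pow 2)
  have h1 : ∫ x in cube, f x ^ 2 ≤ ∫ _ in cube, b ^ 2 := by
    refine setIntegral_mono_on hi ?_ measurableSet_Icc fun x hx => ?_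
    · exact integrableOn_const (by rw [volume_cube]; norm_num)
    · rw [← sq_abs (f x)]
      have := hb x hx
      exact pow_le_pow_left₀ (abs_nonneg _) this 2
  have h2 : ∫ _ in cube, b ^ 2 = b ^ 2 := by
    rw [setIntegral_const, Measure.real, volume_cube]; simp
  linarith

end Pool.Agent.K1H29.NC
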