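import Pool.Agent.K1H29.NC.U1

/-!
# Uniqueness of smooth solutions of the equations with weighted triads
-/

open MeasureTheory Set Filter Topology
open scoped ContDiff

namespace Pool.Agent.K1H29.NC

open H459R3.NS

lemma fr_sub' {f g : V → ℝ} (hf : SP f) (hg : SP g) (k : K3) :
    fr (fun x => f x - g x) k = fr f k - fr g k := by
  unfold fr fc
  rw [← integral_sub]
  · congr 1
    funext x
    push_cast
    ring
  · exact integrableOn_cube ((ee_continuous _).mul (Complex.continuous_ofReal.comp hf.cont))
  · exact integrableOn_cube ((ee_continuous _).mul (Complex.continuous_ofReal.comp hg.cont))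

theorem unique {φ : K3 → K3 → ℝ} (hφ : Wt φ) {ν : ℝ} (hν : 0 < ν) {v : V → V}
    {u u' : ℝ → V → V} {p p' : ℝ → V → ℝ} (h : Sol φ ν v u p)
    (h' : Sol φ ν v u' p') {t : ℝ} (ht : 0 ≤ t) : u t = u' t := by
  set T : ℝ := t + 1 with hT
  have htT : t ∈ Ico 0 T := ⟨ht, by rw [hT]; linarith⟩
  have hsub : Ico 0 T ×ˢ (univ : Set V) ⊆ Ici 0 ×ˢ univ :=
    prod_mono (fun s hs => hs.1) subset_rfl
  -- smoothness
  have hu : ∀ i, ContDiffOn ℝ ∞ (fun z : ℝ × V => u z.1 z.2 i) (Ico 0 T ×ˢ univ) := fun i =>
    (contDiffOn_pi.1 h.smooth_u i).mono hsub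
  have hu' : ∀ i, ContDiffOn ℝ ∞ (fun z : ℝ × V => u' z.1 z.2 i) (Ico 0 T ×ˢ univ) := fun i =>
    (contDiffOn_pi.1 h'.smooth_u i).mono hsub
  have hp : ContDiffOn ℝ ∞ (fun z : ℝ × V => p z.1 z.2) (Ico 0 T ×ˢ univ) := h.smooth_p.mono hsub
  have hp' : ContDiffOn ℝ ∞ (fun z : ℝ × V => p' z.1 z.2) (Ico 0 T ×ˢ univ) := h'.smooth_p.mono hsub
  set w : Fin 3 → ℝ → V → ℝ := fun i s x => u s x i - u' s x i with hw
  have hwC : ∀ i, ContDiffOn ℝ ∞ (fun z : ℝ × V => w i z.1 z.2) (Ico 0 T ×ˢ univ) := fun i =>
    (hu i).sub (hu' i)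
  -- slices
  have su : ∀ i, ∀ s ∈ Ico 0 T, SP (fun x => u s x i) := fun i s hs =>
    ⟨contDiff_slice (f := fun s x => u s x i) (hu i) hs,
      fun j x => by simp only [h.periodic_u s hs.1 x j]⟩
  have su' : ∀ i, ∀ s ∈ Ico 0 T, SP (fun x => u' s x i) := fun i s hs =>
    ⟨contDiff_slice (f := fun s x => u' s x i) (hu' i) hs,
      fun j x => by simp only [h'.periodic_u s hs.1 x j]⟩
  have sp : ∀ s ∈ Ico 0 T, SP (p s) := fun s hs =>
    ⟨contDiff_slice hp hs, fun j x => h.periodic_p s hs.1 x j⟩
  have sp' : ∀ s ∈ Ico 0 T, SP (p' s) := fun s hs =>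
    ⟨contDiff_slice hp' hs, fun j x => h'.periodic_p s hs.1 x j⟩
  have sw : ∀ i, ∀ s ∈ Ico 0 T, SP (w i s) := fun i s hs => (su i s hs).sub (su' i s hs)
  -- bound of the Fourier coefficients of the gradient
  obtain ⟨L, hL0, hL⟩ : ∃ L : ℝ, 0 ≤ L ∧ ∀ s ∈ Icc 0 t, ∀ i j,
      ∑' k, ‖fr (pd j (fun y => u s y i)) k‖ ≤ L := by
    have hK : IsCompact (Icc 0 t ×ˢ cube) := isCompact_Icc.prod isCompact_Icc
    have hs : Icc 0 t ×ˢ cube ⊆ Ico 0 T ×ˢ (univ : Set V) :=
      prod_mono (fun s hs => ⟨hs.1, hs.2.trans_lt htT.2⟩) (subset_univ _)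
    have hc : ∀ i j, ∃ C : ℝ, 0 ≤ C ∧ ∀ s ∈ Icc 0 t, ∑' k, ‖fr (pd j (fun y => u s y i)) k‖ ≤ C := by
      intro i j
      have h1 := contDiffOn_pd (f := fun s y => u s y i) (hu i) j
      have h2 := contDiffOn_lap (f := fun s => pd j (fun y => u s y i)) h1
      obtain ⟨C1, hC1⟩ := hK.exists_bound_of_continuousOn (h1.continuousOn.mono hs)
      obtain ⟨C2, hC2⟩ := hK.exists_bound_of_continuousOn (h2.continuousOn.mono hs)
      refine ⟨|C1| + Real.sqrt C4 * |C2|, by positivity, fun s hs' => ?_⟩
      have hsp : SP (pd j (fun y => u s y i)) := (su i s ⟨hs'.1, hs'.2.trans_lt htT.2⟩).pd j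
      refine (l1_le hsp).trans (add_le_add ?_ ?_)
      · exact nrm_le hsp.cont fun x hx => hC1 (s, x) ⟨hs', hx⟩
      · apply mul_le_mul_of_nonneg_left _ (Real.sqrt_nonneg _)
        exact nrm_le hsp.lap.cont fun x hx => hC2 (s, x) ⟨hs', hx⟩
    choose C hC0 hC using hc
    refine ⟨∑ i, ∑ j, C i j, Finset.sum_nonneg fun i _ => Finset.sum_nonneg fun j _ => hC0 i j,
      fun s hs i j => ?_⟩
    exact (hC i j s hs).trans ((Finset.single_le_sum (f := fun j => C i j) (fun _ _ => hC0 _ _)
      (Finset.mem_univ j)).trans (Finset.single_le_sum (f := fun i => ∑ j, C i j)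
        (fun _ _ => Finset.sum_nonneg fun _ _ => hC0 _ _) (Finset.mem_univ i)))
  -- the energy of the difference
  set E : ℝ → ℝ := fun s => ∑ i, ∫ x in cube, w i s x ^ 2 with hE
  have hEc : ContinuousOn E (Ico 0 T) := by
    refine continuousOn_finsetSum _ fun i _ => ?_
    exact continuousOn_int (F := fun s x => w i s x ^ 2) ((hwC i).continuousOn.pow 2)
  have hE0 : ∀ s, 0 ≤ E s := fun s =>
    Finset.sum_nonneg fun i _ => integral_nonneg fun x => sq_nonneg _
  have hdt : ∀ i, ∀ s ∈ Ioo 0 T, ∀ x, HasDerivAt (fun r => w i r x)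
      (dt (fun r y => u r y i) s x - dt (fun r y => u' r y i) s x) s := by
    intro i s hs x
    have h1 := hasDerivAt_slice (T := T) (F := fun r y => u r y i)
      (mono_Ioo (f := fun r y => u r y i) (n := 1) (hu i) (by norm_cast)) hs x
    have h2 := hasDerivAt_slice (T := T) (F := fun r y => u' r y i)
      (mono_Ioo (f := fun r y => u' r y i) (n := 1) (hu' i) (by norm_cast)) hs x
    unfold dt
    rw [h1.deriv, h2.deriv]
    exact h1.sub h2
  have hEd : ∀ s ∈ Ioo 0 T, HasDerivAt E (∑ i, ∫ x in cube, 2 * (w i s x *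
      (dt (fun r y => u r y i) s x - dt (fun r y => u' r y i) s x))) s := by
    intro s hs
    refine HasDerivAt.fun_sum fun i _ => ?_
    have h1 := hasDerivAt_int (F := fun s x => w i s x ^ 2)
      ((mono_Ioo (n := 1) (hwC i) (by norm_cast)).pow 2) hs
    refine h1.congr_deriv ?_
    congr 1
    funext x
    have h2 := ((hdt i s hs x).pow 2).deriv
    refine h2.trans ?_
    simp only [Nat.cast_ofNat, Nat.add_one_sub_one, pow_one]
    ring
  have hineq : ∀ s ∈ Ioo 0 T, s ≤ t → (∑ i, ∫ x in cube, 2 * (w i s x *
      (dt (fun r y => u r y i) s x - dt (fun r y => u' r y i) s x))) ≤ 6 * L * E s := by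
    intro s hs hst
    have hsI : s ∈ Ico 0 T := ⟨hs.1.le, hs.2⟩
    have hdc : ∀ i, Continuous (dt (fun r y => u r y i) s) := fun i => (contDiff_dt (hu i) hs).continuous
    have hdc' : ∀ i, Continuous (dt (fun r y => u' r y i) s) := fun i =>
      (contDiff_dt (hu' i) hs).continuous
    have hdt' : ∀ i x, dt (fun r y => u r y i) s x
        = ν * ∑ j, pd j (pd j fun y => u s y i) x - pd i (p s) x
          - ∑ j, prod φ (fun y => u s y j) (pd j fun y => u s y i) x := by
      intro i x
      have h1 := h.momentum s hs.1.le x i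
      have : derivWithin (fun r => u r x i) (Ici 0) s = dt (fun r y => u r y i) s x :=
        derivWithin_of_mem_nhds (Ici_mem_nhds hs.1)
      rw [this] at h1
      have h2 : dt (fun r y => u r y i) s x + ∑ j, prod φ (fun y => u s y j) (pd j fun y => u s y i) x
        = ν * ∑ j, pd j (pd j fun y => u s y i) x - pd i (p s) x := h1
      linarith
    have hdt'' : ∀ i x, dt (fun r y => u' r y i) s x
        = ν * ∑ j, pd j (pd j fun y => u' s y i) x - pd i (p' s) x
          - ∑ j, prod φ (fun y => u' s y j) (pd j fun y => u' s y i) x := by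
      intro i x
      have h1 := h'.momentum s hs.1.le x i
      have : derivWithin (fun r => u' r x i) (Ici 0) s = dt (fun r y => u' r y i) s x :=
        derivWithin_of_mem_nhds (Ici_mem_nhds hs.1)
      rw [this] at h1
      have h2 : dt (fun r y => u' r y i) s x + ∑ j, prod φ (fun y => u' s y j) (pd j fun y => u' s y i) x
        = ν * ∑ j, pd j (pd j fun y => u' s y i) x - pd i (p' s) x := h1
      linarith
    -- divergence
    have hdw : ∀ x, ∑ i, pd i (w i s) x = 0 := by
      intro x
      have h1 := h.divFree s hs.1.le x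
      have h2 := h'.divFree s hs.1.le x
      have h3 : ∀ i, pd i (w i s) x = pd i (fun y => u s y i) x - pd i (fun y => u' s y i) x := by
        intro i
        unfold pd
        have h4 : HasFDerivAt (fun y => u s y i - u' s y i) _ x :=
          ((su i s hsI).diff x).hasFDerivAt.sub ((su' i s hsI).diff x).hasFDerivAt
        have h5 : fderiv ℝ (w i s) x = _ := h4.fderiv
        rw [h5]
        rfl
      simp_rw [h3]
      rw [Finset.sum_sub_distrib]
      have h1' : ∑ i, pd i (fun y => u s y i) x = 0 := h1
      have h2' : ∑ i, pd i (fun y => u' s y i) x = 0 := h2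
      rw [h1', h2', sub_zero]
    have hpdw : ∀ i j x, pd j (w i s) x = pd j (fun y => u s y i) x - pd j (fun y => u' s y i) x := by
      intro i j x
      unfold pd
      have h4 : HasFDerivAt (fun y => u s y i - u' s y i) _ x :=
        ((su i s hsI).diff x).hasFDerivAt.sub ((su' i s hsI).diff x).hasFDerivAt
      have h5 : fderiv ℝ (w i s) x = _ := h4.fderiv
      rw [h5]
      rfl
    -- pointwise identity
    have hq := (sp s hsI).sub (sp' s hsI)
    have hid : ∀ i x, w i s x * (dt (fun r y => u r y i) s x - dt (fun r y => u' r y i) s x)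
        = ν * (lap (w i s) x * w i s x) - w i s x * pd i (fun y => p s y - p' s y) x
          - (∑ j, w i s x * prod φ (fun y => u s y j) (pd j fun y => u s y i) x
            - ∑ j, w i s x * prod φ (fun y => u' s y j) (pd j fun y => u' s y i) x) := by
      intro i x
      have e1 : lap (w i s) x = ∑ j, pd j (pd j fun y => u s y i) x - ∑ j, pd j (pd j fun y => u' s y i) x := by
        unfold lap
        rw [← Finset.sum_sub_distrib]
        refine Finset.sum_congr rfl fun j _ => ?_
        have e2 : pd j (w i s) = fun x => pd j (fun y => u s y i) x - pd j (fun y => u' s y i) x :=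
          funext (hpdw i j)
        rw [e2]
        unfold pd
        have h4 : HasFDerivAt (fun x => pd j (fun y => u s y i) x - pd j (fun y => u' s y i) x) _ x :=
          (((su i s hsI).pd j).diff x).hasFDerivAt.sub (((su' i s hsI).pd j).diff x).hasFDerivAt
        have h5 := h4.fderiv
        unfold pd at h5
        rw [h5]
        rfl
      have e3 : pd i (fun y => p s y - p' s y) x = pd i (p s) x - pd i (p' s) x := by
        unfold pd
        have h4 : HasFDerivAt (fun y => p s y - p' s y) _ x :=
          ((sp s hsI).diff x).hasFDerivAt.sub ((sp' s hsI).diff x).hasFDerivAt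
        rw [h4.fderiv]
        rfl
      rw [e1, e3, hdt', hdt'', ← Finset.mul_sum, ← Finset.mul_sum]
      ring
    -- integrals
    have i2 : ∀ i j, Integrable (fun x => w i s x * prod φ (fun y => u s y j) (pd j fun y => u s y i) x)
        (volume.restrict cube) := fun i j =>
      integrableOn_cube ((sw i s hsI).cont.mul (prod_cont hφ (su j s hsI) ((su i s hsI).pd j)))
    have i3 : ∀ i j, Integrable (fun x => w i s x * prod φ (fun y => u' s y j) (pd j fun y => u' s y i) x)
        (volume.restrict cube) := fun i j =>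
      integrableOn_cube ((sw i s hsI).cont.mul (prod_cont hφ (su' j s hsI) ((su' i s hsI).pd j)))
    have i4 : ∀ i, Integrable (fun x => lap (w i s) x * w i s x) (volume.restrict cube) := fun i =>
      ((sw i s hsI).lap.mul (sw i s hsI)).int
    have i5 : ∀ i, Integrable (fun x => w i s x * pd i (fun y => p s y - p' s y) x)
        (volume.restrict cube) := fun i => ((sw i s hsI).mul (hq.pd i)).int
    -- bilinearity
    have hbil : ∀ i j, (∫ x in cube, w i s x * prod φ (fun y => u s y j) (pd j fun y => u s y i) x)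
        - (∫ x in cube, w i s x * prod φ (fun y => u' s y j) (pd j fun y => u' s y i) x)
        = (∫ x in cube, w i s x * prod φ (w j s) (pd j fun y => u s y i) x)
          + ∫ x in cube, w i s x * prod φ (fun y => u' s y j) (pd j (w i s)) x := by
      intro i j
      rw [int_prod hφ (su j s hsI) ((su i s hsI).pd j) (sw i s hsI),
        int_prod hφ (su' j s hsI) ((su' i s hsI).pd j) (sw i s hsI),
        int_prod hφ (sw j s hsI) ((su i s hsI).pd j) (sw i s hsI),
        int_prod hφ (su' j s hsI) ((sw i s hsI).pd j) (sw i s hsI), ← Complex.sub_re, ← Complex.add_re]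
      congr 1
      rw [← (summ_Tm hφ (su j s hsI) ((su i s hsI).pd j) (sw i s hsI)).tsum_sub
          (summ_Tm hφ (su' j s hsI) ((su' i s hsI).pd j) (sw i s hsI)),
        ← (summ_Tm hφ (sw j s hsI) ((su i s hsI).pd j) (sw i s hsI)).tsum_add
          (summ_Tm hφ (su' j s hsI) ((sw i s hsI).pd j) (sw i s hsI))]
      refine tsum_congr fun q => ?_
      have f1 : fr (w j s) q.2 = fr (fun y => u s y j) q.2 - fr (fun y => u' s y j) q.2 :=
        fr_sub' (su j s hsI) (su' j s hsI) q.2
      have f2 : fr (pd j (w i s)) (q.1 - q.2) = fr (pd j fun y => u s y i) (q.1 - q.2)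
          - fr (pd j fun y => u' s y i) (q.1 - q.2) := by
        have e2 : pd j (w i s) = fun x => pd j (fun y => u s y i) x - pd j (fun y => u' s y i) x :=
          funext (hpdw i j)
        rw [e2]
        exact fr_sub' ((su i s hsI).pd j) ((su' i s hsI).pd j) _
      unfold Tm
      rw [f1, f2]
      ring
    have hint : ∀ i, ∫ x in cube, w i s x * (dt (fun r y => u r y i) s x - dt (fun r y => u' r y i) s x)
        = ν * (∫ x in cube, lap (w i s) x * w i s x)
          - (∫ x in cube, w i s x * pd i (fun y => p s y - p' s y) x)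
          - ∑ j, ((∫ x in cube, w i s x * prod φ (w j s) (pd j fun y => u s y i) x)
          + ∫ x in cube, w i s x * prod φ (fun y => u' s y j) (pd j (w i s)) x) := by
      intro i
      simp_rw [hid]
      have j2 : Integrable (fun x => ∑ j, w i s x * prod φ (fun y => u s y j) (pd j fun y => u s y i) x)
          (volume.restrict cube) := integrable_finsetSum _ fun j _ => i2 i j
      have j3 : Integrable (fun x => ∑ j, w i s x * prod φ (fun y => u' s y j) (pd j fun y => u' s y i) x)
          (volume.restrict cube) := integrable_finsetSum _ fun j _ => i3 i j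
      have k4 : Integrable (fun x => ν * (lap (w i s) x * w i s x)) (volume.restrict cube) :=
        (i4 i).const_mul ν
      have k5 : Integrable (fun x => ν * (lap (w i s) x * w i s x)
          - w i s x * pd i (fun y => p s y - p' s y) x) (volume.restrict cube) := k4.sub (i5 i)
      have k6 : Integrable (fun x => ∑ j, w i s x * prod φ (fun y => u s y j) (pd j fun y => u s y i) x
            - ∑ j, w i s x * prod φ (fun y => u' s y j) (pd j fun y => u' s y i) x)
          (volume.restrict cube) := j2.sub j3
      rw [integral_sub k5 k6, integral_sub k4 (i5 i), integral_sub j2 j3,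
        integral_finsetSum _ fun j _ => i2 i j, integral_finsetSum _ fun j _ => i3 i j,
        integral_const_mul, ← Finset.sum_sub_distrib]
      congr 1
      exact Finset.sum_congr rfl fun j _ => hbil i j
    have hsum : ∑ i, ∫ x in cube, w i s x * (dt (fun r y => u r y i) s x - dt (fun r y => u' r y i) s x)
        ≤ 3 * L * E s := by
      simp_rw [hint]
      rw [Finset.sum_sub_distrib, Finset.sum_sub_distrib, ← Finset.mul_sum]
      simp_rw [Finset.sum_add_distrib]
      have t1 : ∑ i, ∑ j, ∫ x in cube, w i s x * prod φ (fun y => u' s y j) (pd j (w i s)) x = 0 :=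
        transport hφ (a := fun i x => u' s x i) (w := fun i => w i s) (fun i => su' i s hsI)
          (fun i => sw i s hsI) (fun x => h'.divFree s hs.1.le x)
      have t2 : ∑ i, ∫ x in cube, w i s x * pd i (fun y => p s y - p' s y) x = 0 :=
        int_press (v := fun i x => w i s x) (fun i => sw i s hsI) hdw hq
      have t3 : ν * ∑ i, ∫ x in cube, lap (w i s) x * w i s x ≤ 0 := by
        apply mul_nonpos_of_nonneg_of_nonpos hν.le
        refine Finset.sum_nonpos fun i _ => ?_
        rw [int_lap_mul (sw i s hsI) (sw i s hsI), neg_nonpos]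
        exact Finset.sum_nonneg fun j _ => integral_nonneg fun x => mul_self_nonneg _
      have t4 : -∑ i, ∑ j, ∫ x in cube, w i s x * prod φ (w j s) (pd j fun y => u s y i) x
          ≤ 3 * L * E s := by
        rw [← Finset.sum_neg_distrib]
        have h1 : ∀ i j, -∫ x in cube, w i s x * prod φ (w j s) (pd j fun y => u s y i) x
            ≤ L / 2 * ((∫ x in cube, w i s x ^ 2) + ∫ x in cube, w j s x ^ 2) := by
          intro i j
          rw [int_prod hφ (sw j s hsI) ((su i s hsI).pd j) (sw i s hsI)]
          have h2 := Tm_bound hφ (sw j s hsI) ((su i s hsI).pd j) (sw i s hsI)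
          have h3 := hL s ⟨hs.1.le, hst⟩ i j
          have g1 : 0 ≤ ∫ x in cube, w i s x ^ 2 := integral_nonneg fun x => sq_nonneg _
          have g2 : 0 ≤ ∫ x in cube, w j s x ^ 2 := integral_nonneg fun x => sq_nonneg _
          refine (neg_le_abs _).trans (h2.trans ?_)
          calc _ ≤ L * ((∫ x in cube, w j s x ^ 2) / 2 + (∫ x in cube, w i s x ^ 2) / 2) :=
                mul_le_mul_of_nonneg_right h3 (by positivity)
            _ = _ := by ring
        calc ∑ i, -∑ j, ∫ x in cube, w i s x * prod φ (w j s) (pd j fun y => u s y i) x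
            ≤ ∑ i : Fin 3, ∑ j : Fin 3, L / 2 * ((∫ x in cube, w i s x ^ 2) + ∫ x in cube, w j s x ^ 2) := by
              refine Finset.sum_le_sum fun i _ => ?_
              rw [← Finset.sum_neg_distrib]
              exact Finset.sum_le_sum fun j _ => h1 i j
          _ = 3 * L * E s := by
              simp only [hE, Fin.sum_univ_three]
              ring
      rw [t1, t2]
      linarith
    have e : ∑ i, ∫ x in cube, 2 * (w i s x *
        (dt (fun r y => u r y i) s x - dt (fun r y => u' r y i) s x))
        = 2 * ∑ i, ∫ x in cube, w i s x * (dt (fun r y => u r y i) s x - dt (fun r y => u' r y i) s x) := by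
      rw [Finset.mul_sum]
      exact Finset.sum_congr rfl fun i _ => integral_const_mul _ _
    rw [e]
    linarith
  -- Gronwall
  have hEt : E t = 0 := by
    have hg : AntitoneOn (fun s => E s * Real.exp (-(6 * L) * s)) (Icc 0 t) := by
      have hsub' : Icc 0 t ⊆ Ico 0 T := fun s hs => ⟨hs.1, hs.2.trans_lt htT.2⟩
      have hd : ∀ s ∈ Ioo 0 t, HasDerivAt (fun s => E s * Real.exp (-(6 * L) * s))
          ((∑ i, ∫ x in cube, 2 * (w i s x * (dt (fun r y => u r y i) s x
            - dt (fun r y => u' r y i) s x))) * Real.exp (-(6 * L) * s)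
            + E s * (Real.exp (-(6 * L) * s) * (-(6 * L)))) s := by
        intro s hs
        have h1 : HasDerivAt (fun s : ℝ => -(6 * L) * s) (-(6 * L)) s := by
          simpa using (hasDerivAt_id s).const_mul (-(6 * L))
        exact (hEd s ⟨hs.1, hs.2.trans htT.2⟩).mul h1.exp
      refine antitoneOn_of_deriv_nonpos (convex_Icc 0 t) ?_ ?_ ?_
      · exact (hEc.mono hsub').mul (by fun_prop)
      · rw [interior_Icc]
        exact fun s hs => (hd s hs).differentiableAt.differentiableWithinAt
      · rw [interior_Icc]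
        intro s hs
        rw [(hd s hs).deriv]
        have h1 := hineq s ⟨hs.1, hs.2.trans htT.2⟩ hs.2.le
        have h2 := Real.exp_pos (-(6 * L) * s)
        nlinarith
    have h1 := hg (left_mem_Icc.2 ht) (right_mem_Icc.2 ht) ht
    have hE00 : E 0 = 0 := by
      have : ∀ i x, w i 0 x = 0 := by
        intro i x
        simp only [hw, h.initial, h'.initial, sub_self]
      simp only [hE, this]
      simp
    simp only [hE00, zero_mul] at h1
    have h2 := Real.exp_pos (-(6 * L) * t)
    have h3 : E t ≤ 0 := by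
      by_contra h4
      have := mul_pos (not_le.1 h4) h2
      linarith
    exact le_antisymm h3 (hE0 t)
  -- conclusion
  funext x i
  have h1 : ∫ x in cube, w i t x ^ 2 = 0 := by
    have h2 := (Finset.sum_eq_zero_iff_of_nonneg (fun i _ => integral_nonneg fun x => sq_nonneg _)).1
      hEt i (Finset.mem_univ i)
    exact h2
  have h2 := n2_fr (sw i t htT)
  rw [h1, n2_sq] at h2
  have h3 : ∀ k, fr (w i t) k = 0 := by
    intro k
    have h4 := (hasSum_zero_iff_of_nonneg (fun k => by positivity)).1
      (h2 ▸ (summable_sq (rap_fr (sw i t htT)).summable).hasSum)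
    have h5 := congrFun h4 k
    simpa using h5
  have h4 := S_fr (sw i t htT) x
  have h5 : S (fr (w i t)) x = 0 := by
    unfold S
    simp [h3]
  rw [h5] at h4
  have h6 : w i t x = 0 := by exact_mod_cast h4.symm
  simp only [hw] at h6
  linarith

end Pool.Agent.K1H29.NC
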