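import Pool.Agent.K1H29.NC.TriDefs
import Pool.Agent.K1H29.SH.Exi
import Pool.Agent.H356R3.NS.Reg4

/-!
# The weighted nonlinear term on the Fourier side
-/

open Set ComplexConjugate Filter Topology MeasureTheory
open scoped ENNReal NNReal

namespace Pool.Agent.K1H29.NC

open Pool.Agent.H356R3.NS hiding Sol
open Pool.Agent.K1H29.SH (nn nn_nonneg ipc ipc_bt)

/-- weighted convolution -/
noncomputable def cw (φ : K → K → ℝ) (x y : K → C3) (k : K) (i j : Fin 3) : ℂ :=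
  ∑' l, (φ l k : ℂ) * (x l i * y (k - l) j)

/-- the weighted nonlinear term -/
noncomputable def Bw (φ : K → K → ℝ) (x y : K → C3) (k : K) : C3 :=
  fun i => ∑ j, ∑ m, coef k i j m * cw φ x y k j m

variable {φ : K → K → ℝ}

lemma Wt.nm (h : Wt φ) (l k : K) : ‖(φ l k : ℂ)‖ ≤ 1 := by
  rw [Complex.norm_real]; exact h.bd l k

lemma cw_sym (h : Wt φ) {x y : K → C3} (hx : Sym x) (hy : Sym y) (k : K) (i j : Fin 3) :
    cw φ x y (-k) i j = star (cw φ x y k i j) := by
  unfold cw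
  rw [show star (∑' l, (φ l k : ℂ) * (x l i * y (k - l) j))
    = ∑' l, star ((φ l k : ℂ) * (x l i * y (k - l) j)) from tsum_star]
  rw [← (Equiv.neg K).tsum_eq]
  refine tsum_congr fun l => ?_
  simp only [Equiv.neg_apply, star_mul']
  rw [← hx, ← hy, h.neg, Complex.star_def, Complex.conj_ofReal]
  congr 3
  abel

lemma Bw_sym (h : Wt φ) {x y : K → C3} (hx : Sym x) (hy : Sym y) : Sym (Bw φ x y) := by
  intro k i
  unfold Bw
  simp only [star_sum, star_mul', ← coef_neg, ← cw_sym h hx hy]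

lemma proj_div (c : Fin 3 → Fin 3 → ℂ) (k : K) :
    ∑ i, (k i : ℂ) * (∑ j, ∑ m, coef k i j m * c j m) = 0 := by
  by_cases hk : k = 0
  · subst hk; simp
  have h1 : ∀ j m, ∑ i, (k i : ℂ) * coef k i j m = 0 := by
    intro j m
    unfold coef
    have hs : ((sq k : ℝ) : ℂ) ≠ 0 := by exact_mod_cast (sq_pos hk).ne'
    have h2 : ∑ i, (k i : ℂ) * (-(2 * Real.pi * Complex.I) * (k j : ℂ) *
        ((if m = i then 1 else 0) - (k i : ℂ) * (k m : ℂ) / ((sq k : ℝ) : ℂ)))
        = -(2 * Real.pi * Complex.I) * (k j : ℂ) * (∑ i, (k i : ℂ) * (if m = i then 1 else 0)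
          - (∑ i, (k i : ℂ) * (k i : ℂ)) * (k m : ℂ) / ((sq k : ℝ) : ℂ)) := by
      rw [Finset.sum_mul, Finset.sum_div, ← Finset.sum_sub_distrib, Finset.mul_sum]
      refine Finset.sum_congr rfl fun i _ => ?_
      ring
    rw [h2]
    have h3 : ∑ i, (k i : ℂ) * (k i : ℂ) = ((sq k : ℝ) : ℂ) := by
      unfold Pool.Agent.H356R3.NS.sq
      push_cast
      exact Finset.sum_congr rfl fun i _ => by ring
    rw [h3]
    simp only [mul_ite, mul_one, mul_zero, Finset.sum_ite_eq, Finset.mem_univ, if_true]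
    rw [mul_div_assoc, mul_div_cancel₀]
    · ring
    · exact hs
  simp only [Finset.mul_sum]
  rw [Finset.sum_comm]
  refine Finset.sum_eq_zero fun j _ => ?_
  rw [Finset.sum_comm]
  refine Finset.sum_eq_zero fun m _ => ?_
  have := h1 j m
  calc ∑ i, (k i : ℂ) * (coef k i j m * c j m)
      = (∑ i, (k i : ℂ) * coef k i j m) * c j m := by
        rw [Finset.sum_mul]; exact Finset.sum_congr rfl fun i _ => by ring
    _ = 0 := by rw [this, zero_mul]

lemma Bw_div (x y : K → C3) (k : K) : dt k (Bw φ x y k) = 0 := proj_div _ k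

lemma Bw_zero (x y : K → C3) : Bw φ x y 0 = 0 := by
  funext i
  simp [Bw, coef_zero]

lemma Bw_eq_sum {B : Finset K} {u : K → C3} (hs : ∀ k, k ∉ B → u k = 0) (k : K) :
    Bw φ u u k = ∑ l ∈ B, (φ l k : ℂ) • bt k (u l) (u (k - l)) := by
  funext i
  rw [Finset.sum_apply]
  unfold Bw bt
  have h1 : ∀ j m, cw φ u u k j m = ∑ l ∈ B, (φ l k : ℂ) * (u l j * u (k - l) m) := by
    intro j m
    unfold cw
    rw [tsum_eq_sum (s := B)]
    intro l hl
    rw [hs l hl]; simp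
  simp only [h1, Finset.mul_sum, Pi.smul_apply, smul_eq_mul]
  have h2 : ∀ j, ∑ m, ∑ l ∈ B, coef k i j m * ((φ l k : ℂ) * (u l j * u (k - l) m))
      = ∑ l ∈ B, ∑ m, coef k i j m * ((φ l k : ℂ) * (u l j * u (k - l) m)) := fun j => Finset.sum_comm
  simp only [h2]
  rw [Finset.sum_comm]
  refine Finset.sum_congr rfl fun l _ => Finset.sum_congr rfl fun j _ =>
    Finset.sum_congr rfl fun m _ => ?_
  ring

lemma ipc_Bw {B : Finset K} {u : K → C3} (hs : ∀ k, k ∉ B → u k = 0) {k : K}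
    (hd : dt k (u k) = 0) :
    ipc (Bw φ u u k) (u k) = -(2 * Real.pi * Complex.I) *
      ∑ l ∈ B, (φ l k : ℂ) * (dt k (u l) * ipc (u (k - l)) (u k)) := by
  rw [Bw_eq_sum hs]
  have h1 : ipc (∑ l ∈ B, (φ l k : ℂ) • bt k (u l) (u (k - l))) (u k)
      = ∑ l ∈ B, (φ l k : ℂ) * ipc (bt k (u l) (u (k - l))) (u k) := by
    unfold ipc
    simp only [Finset.sum_apply, Finset.sum_mul, Pi.smul_apply, smul_eq_mul, Finset.mul_sum]
    rw [Finset.sum_comm]
    exact Finset.sum_congr rfl fun _ _ => Finset.sum_congr rfl fun _ _ => by ring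
  rw [h1, Finset.mul_sum]
  refine Finset.sum_congr rfl fun l _ => ?_
  rw [ipc_bt hd]; ring

/-! ### bounds and continuity -/

lemma cw_bound (h : Wt φ) {x y : K → C3} {b b' : K → ℝ} (hb : Summable b) (hb' : Summable b')
    (hx : ∀ k, ‖x k‖ ≤ b k) (hy : ∀ k, ‖y k‖ ≤ b' k) (k : K) (i j : Fin 3) (l : K) :
    ‖(φ l k : ℂ) * (x l i * y (k - l) j)‖ ≤ b l * ∑' l', b' l' := by
  have hb0 : ∀ k, 0 ≤ b k := fun k => (norm_nonneg _).trans (hx k)
  have hb0' : ∀ k, 0 ≤ b' k := fun k => (norm_nonneg _).trans (hy k)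
  rw [norm_mul, norm_mul]
  have h1 : ‖x l i‖ * ‖y (k - l) j‖ ≤ b l * ∑' l', b' l' :=
    mul_le_mul ((norm_le_pi_norm _ i).trans (hx l)) (((norm_le_pi_norm _ j).trans (hy (k - l))).trans
      (hb'.le_tsum (k - l) fun _ _ => hb0' _)) (norm_nonneg _) (hb0 l)
  calc _ ≤ 1 * (‖x l i‖ * ‖y (k - l) j‖) :=
        mul_le_mul_of_nonneg_right (h.nm l k) (by positivity)
    _ ≤ _ := by rw [one_mul]; exact h1

lemma cw_summ (h : Wt φ) {x y : K → C3} {b b' : K → ℝ} (hb : Summable b) (hb' : Summable b')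
    (hx : ∀ k, ‖x k‖ ≤ b k) (hy : ∀ k, ‖y k‖ ≤ b' k) (k : K) (i j : Fin 3) :
    Summable fun l => (φ l k : ℂ) * (x l i * y (k - l) j) :=
  Summable.of_norm_bounded (hb.mul_right _) (cw_bound h hb hb' hx hy k i j)

lemma norm_cw_le (h : Wt φ) {x y : K → C3} {b b' : K → ℝ} (hb : Summable b) (hb' : Summable b')
    (hx : ∀ k, ‖x k‖ ≤ b k) (hy : ∀ k, ‖y k‖ ≤ b' k) (k : K) (i j : Fin 3) :
    ‖cw φ x y k i j‖ ≤ (∑' l, b l) * ∑' l, b' l := by
  unfold cw
  have h1 := cw_bound h hb hb' hx hy k i j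
  have h2 : Summable fun l => ‖(φ l k : ℂ) * (x l i * y (k - l) j)‖ :=
    (hb.mul_right _).of_nonneg_of_le (fun _ => norm_nonneg _) h1
  calc _ ≤ ∑' l, ‖(φ l k : ℂ) * (x l i * y (k - l) j)‖ := norm_tsum_le_tsum_norm h2
    _ ≤ ∑' l, b l * ∑' l', b' l' := h2.tsum_le_tsum h1 (hb.mul_right _)
    _ = _ := tsum_mul_right

lemma norm_Bw_le (hw : Wt φ) {x : K → C3} {b : K → ℝ} (hb : Summable b) (h : ∀ k, ‖x k‖ ≤ b k) (k : K) :
    ‖Bw φ x x k‖ ≤ C0 * nk k * ((∑' k, b k) * ∑' k, b k) := by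
  have hb0 : ∀ k, 0 ≤ b k := fun k => (norm_nonneg _).trans (h k)
  have hn := nk_nonneg k
  have ht : 0 ≤ ∑' k, b k := tsum_nonneg hb0
  have hpi := Real.pi_pos
  rw [pi_norm_le_iff_of_nonneg (by unfold C0; positivity)]
  intro i
  unfold Bw
  have h1 : ∀ j m, ‖coef k i j m * cw φ x x k j m‖ ≤ 4 * Real.pi * nk k * ((∑' k, b k) * ∑' k, b k) := by
    intro j m
    rw [norm_mul]
    exact mul_le_mul (norm_coef_le k i j m) (norm_cw_le hw hb hb h h k j m) (norm_nonneg _) (by positivity)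
  refine (norm_sum_le _ _).trans ((Finset.sum_le_sum fun j _ => (norm_sum_le _ _).trans
    (Finset.sum_le_sum fun m _ => h1 j m)).trans (le_of_eq ?_))
  simp only [Finset.sum_const, Finset.card_univ, Fintype.card_fin, nsmul_eq_mul]
  unfold C0
  push_cast
  ring

/-- the nonlinear term of a family -/
noncomputable def Btw (φ : K → K → ℝ) (u : Fam) : Fam := fun k t => Bw φ (at' u t) (at' u t) k

lemma cw_cont (hw : Wt φ) {u v : Fam} (hu : CF u) (hv : CF v) (hu' : Dom u) (hv' : Dom v) (k : K)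
    (i j : Fin 3) : Continuous fun t => cw φ (at' u t) (at' v t) k i j := by
  obtain ⟨b, hb, h⟩ := hu'
  obtain ⟨b', hb', h'⟩ := hv'
  unfold cw
  refine continuous_tsum (u := fun l => b l * ∑' l', b' l') (fun l => ?_) (hb.mul_right _) fun l t => ?_
  · exact continuous_const.mul
      (((continuous_apply i).comp (hu l)).mul ((continuous_apply j).comp (hv (k - l))))
  · exact cw_bound hw hb hb' (fun k => h k t) (fun k => h' k t) k i j l

lemma Btw_cont (hw : Wt φ) {u : Fam} (hu : CF u) (hu' : Dom u) : CF (Btw φ u) := by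
  intro k
  refine continuous_pi fun i => ?_
  unfold Btw Bw
  refine continuous_finsetSum _ fun j _ => continuous_finsetSum _ fun m _ => ?_
  exact continuous_const.mul (cw_cont hw hu hu hu' hu' k j m)

lemma cw_tendsto (hw : Wt φ) {x : ℕ → K → C3} {y : K → C3} {b : K → ℝ} (hb : Summable b)
    (h : ∀ n k, ‖x n k‖ ≤ b k) (ht : ∀ k, Tendsto (fun n => x n k) atTop (𝓝 (y k)))
    (k : K) (i j : Fin 3) : Tendsto (fun n => cw φ (x n) (x n) k i j) atTop (𝓝 (cw φ y y k i j)) := by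
  unfold cw
  refine tendsto_tsum_of_dominated_convergence (bound := fun l => b l * ∑' l', b l')
    (hb.mul_right _) (fun l => ?_) (Filter.Eventually.of_forall fun n l => ?_)
  · have h1 : Tendsto (fun n => x n l i) atTop (𝓝 (y l i)) :=
      ((continuous_apply i).tendsto _).comp (ht l)
    have h2 : Tendsto (fun n => x n (k - l) j) atTop (𝓝 (y (k - l) j)) :=
      ((continuous_apply j).tendsto _).comp (ht (k - l))
    exact (h1.mul h2).const_mul _
  · exact cw_bound hw hb hb (h n) (h n) k i j l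

lemma Bw_tendsto (hw : Wt φ) {x : ℕ → K → C3} {y : K → C3} {b : K → ℝ} (hb : Summable b)
    (h : ∀ n k, ‖x n k‖ ≤ b k) (ht : ∀ k, Tendsto (fun n => x n k) atTop (𝓝 (y k)))
    (k : K) : Tendsto (fun n => Bw φ (x n) (x n) k) atTop (𝓝 (Bw φ y y k)) := by
  refine tendsto_pi_nhds.2 fun i => ?_
  unfold Bw
  exact tendsto_finsetSum _ fun j _ => tendsto_finsetSum _ fun m _ =>
    (cw_tendsto hw hb h ht k j m).const_mul _

end Pool.Agent.K1H29.NC
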