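import Pool.Agent.K1H29.NC.W1
import Pool.Agent.K1H29.RD.Sob

/-!
# The flux of the Sobolev norms for the weighted nonlinear term
-/

open Set ComplexConjugate MeasureTheory

namespace Pool.Agent.K1H29.NC

open Pool.Agent.H356R3.NS hiding Sol
open Pool.Agent.K1H29.SH (nn nn_nonneg nn_neg ipc ipc_bt abs_le_nn dt_sub norm_ipc_le norm_dt_le tri mem_tri
  en en_nonneg norm_sq_le_en nn_sub_le nn_le_nk nk_le_two_nn one_le_nn nn_eq_zero)
open Pool.Agent.K1H29.RD (Es Es_nonneg)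

variable {φ : K → K → ℝ} {B : Finset K} {u : K → C3}

/-- the triad terms -/
noncomputable def TT' (φ : K → K → ℝ) (u : K → C3) (k l : K) : ℂ :=
  (φ l k : ℂ) * (dt k (u l) * ipc (u (k - l)) (u k))

lemma TT'_zero (hs : ∀ k, k ∉ B → u k = 0) {k l : K} (h : k - l ∉ B) : TT' φ u k l = 0 := by
  simp only [TT', hs _ h, ipc]
  simp

lemma TT'_sym (hφ : Wt φ) (hsym : Sym u) (hdiv : ∀ k, dt k (u k) = 0) (k l : K) :
    TT' φ u (l - k) l = -TT' φ u k l := by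
  have h0 : φ l (l - k) = φ l k := by
    rw [← hφ.sym l (l - k), hφ.swap k l, hφ.sym l k]
  have h1 : dt (l - k) (u l) = -dt k (u l) := by rw [dt_sub, hdiv l, zero_sub]
  have h2 : ipc (u (l - k - l)) (u (l - k)) = ipc (u (k - l)) (u k) := by
    unfold ipc
    refine Finset.sum_congr rfl fun m _ => ?_
    have e1 : l - k - l = -k := by abel
    have e2 : l - k = -(k - l) := by abel
    rw [e1, e2, hsym k m, hsym (k - l) m]
    simp only [Complex.star_def, Complex.conj_conj]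
    ring
  simp only [TT', h1, h2, h0]
  ring

lemma flux_eq (hs : ∀ k, k ∉ B → u k = 0) (hdiv : ∀ k, dt k (u k) = 0) (w : K → ℝ) :
    ∑ k ∈ B, w k * (2 * (ipc (Bw φ u u k) (u k)).re)
      = (-(4 * Real.pi * Complex.I) * ∑ p ∈ tri B, (w p.1 : ℂ) * TT' φ u p.1 p.2).re := by
  have h1 : ∑ p ∈ tri B, (w p.1 : ℂ) * TT' φ u p.1 p.2 = ∑ k ∈ B, (w k : ℂ) * ∑ l ∈ B, TT' φ u k l := by
    unfold tri
    rw [Finset.sum_filter, Finset.sum_product]
    refine Finset.sum_congr rfl fun k _ => ?_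
    rw [Finset.mul_sum]
    refine Finset.sum_congr rfl fun l _ => ?_
    split_ifs with h
    · rfl
    · rw [TT'_zero hs h, mul_zero]
  rw [h1, Finset.mul_sum, Complex.re_sum]
  refine Finset.sum_congr rfl fun k _ => ?_
  rw [ipc_Bw hs (hdiv k)]
  have h2 : -(4 * Real.pi * Complex.I) * ((w k : ℂ) * ∑ l ∈ B, TT' φ u k l)
      = ((2 * w k : ℝ) : ℂ) * (-(2 * Real.pi * Complex.I) * ∑ l ∈ B, TT' φ u k l) := by
    push_cast; ring
  rw [h2, Complex.re_ofReal_mul]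
  simp only [TT']
  ring

lemma flux_two (hφ : Wt φ) (hB : ∀ k ∈ B, -k ∈ B) (hsym : Sym u) (hdiv : ∀ k, dt k (u k) = 0)
    {w : K → ℝ} (hw : ∀ k, w (-k) = w k) :
    2 * ∑ p ∈ tri B, (w p.1 : ℂ) * TT' φ u p.1 p.2
      = ∑ p ∈ tri B, ((w p.1 - w (p.1 - p.2) : ℝ) : ℂ) * TT' φ u p.1 p.2 := by
  set S : ℂ := ∑ p ∈ tri B, (w p.1 : ℂ) * TT' φ u p.1 p.2 with hS
  have h3 : S = -∑ p ∈ tri B, (w (p.1 - p.2) : ℂ) * TT' φ u p.1 p.2 := by
    rw [hS, ← Finset.sum_neg_distrib]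
    refine Finset.sum_nbij' (fun p => (p.2 - p.1, p.2)) (fun p => (p.2 - p.1, p.2)) ?_ ?_ ?_ ?_ ?_
    · intro p hp
      rw [mem_tri] at *
      refine ⟨?_, hp.2.1, ?_⟩
      · have := hB _ hp.2.2; rwa [neg_sub] at this
      · have := hB _ hp.1
        show p.2 - p.1 - p.2 ∈ B
        rwa [show p.2 - p.1 - p.2 = -p.1 by abel]
    · intro p hp
      rw [mem_tri] at *
      refine ⟨?_, hp.2.1, ?_⟩
      · have := hB _ hp.2.2; rwa [neg_sub] at this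
      · have := hB _ hp.1
        show p.2 - p.1 - p.2 ∈ B
        rwa [show p.2 - p.1 - p.2 = -p.1 by abel]
    · intro p _; simp
    · intro p _; simp
    · intro p _
      show (w p.1 : ℂ) * TT' φ u p.1 p.2 = -((w (p.2 - p.1 - p.2) : ℂ) * TT' φ u (p.2 - p.1) p.2)
      rw [TT'_sym hφ hsym hdiv, show p.2 - p.1 - p.2 = -p.1 by abel, hw]
      ring
  have h4 : 2 * S = S + S := by ring
  rw [h4]
  nth_rewrite 2 [h3]
  rw [hS, ← sub_eq_add_neg, ← Finset.sum_sub_distrib]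
  refine Finset.sum_congr rfl fun p _ => ?_
  push_cast
  ring

/-- energy is conserved by the nonlinear term -/
lemma flux_zero (hφ : Wt φ) (hB : ∀ k ∈ B, -k ∈ B) (hs : ∀ k, k ∉ B → u k = 0) (hsym : Sym u)
    (hdiv : ∀ k, dt k (u k) = 0) (c : ℝ) :
    ∑ k ∈ B, c * (2 * (ipc (Bw φ u u k) (u k)).re) = 0 := by
  rw [flux_eq hs hdiv (fun _ => c)]
  have h := flux_two hφ hB hsym hdiv (w := fun _ => c) (fun _ => rfl)
  have h0 : ∑ p ∈ tri B, ((c - c : ℝ) : ℂ) * TT' φ u p.1 p.2 = 0 :=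
    Finset.sum_eq_zero fun p _ => by simp
  rw [h0] at h
  have h2 : ∑ p ∈ tri B, (c : ℂ) * TT' φ u p.1 p.2 = 0 := by
    have h3 : (2 : ℂ) ≠ 0 := by norm_num
    exact (mul_eq_zero.1 h).resolve_left h3
  rw [h2]; simp

/-- derivative of a component -/
noncomputable def Dc (u : K → C3) (a j : Fin 3) (k : K) : ℂ := (k a : ℂ) * u k j

lemma norm_Dc (u : K → C3) (a j : Fin 3) (k : K) : ‖Dc u a j k‖ ≤ nn k * ‖u k‖ := by
  unfold Dc
  rw [norm_mul, Complex.norm_intCast]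
  exact mul_le_mul (abs_le_nn k a) (norm_le_pi_norm _ j) (norm_nonneg _) (nn_nonneg k)

lemma Tr_tri {f g h : K → ℂ} (hg : ∀ k, k ∉ B → g k = 0) :
    Tr φ B f g h = ∑ p ∈ tri B, (φ p.2 p.1 : ℂ) * (f p.2 * g (p.1 - p.2) * conj (h p.1)) := by
  unfold Tr tri
  rw [Finset.sum_filter, Finset.sum_product]
  refine Finset.sum_congr rfl fun k _ => Finset.sum_congr rfl fun l _ => ?_
  split_ifs with h1
  · rfl
  · rw [hg _ h1]; simp

lemma prod3 (A B C : Fin 3 → ℂ) :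
    (∑ a, A a) * (∑ j, B j) * (∑ i, C i) = ∑ a, ∑ j, ∑ i, A a * B j * C i := by
  rw [Finset.sum_mul_sum, Finset.sum_mul]
  refine Finset.sum_congr rfl fun a _ => ?_
  rw [Finset.sum_mul]
  refine Finset.sum_congr rfl fun j _ => ?_
  rw [Finset.mul_sum]

lemma enst_id (hs : ∀ k, k ∉ B → u k = 0) (hdiv : ∀ k, dt k (u k) = 0) :
    ∑ p ∈ tri B, ((Pool.Agent.H356R3.NS.sq p.1 - Pool.Agent.H356R3.NS.sq (p.1 - p.2) : ℝ) : ℂ)
        * TT' φ u p.1 p.2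
      = ∑ a, ∑ j, ∑ i, (Tr φ B (Dc u a j) (Dc u j i) (Dc u a i) + Tr φ B (Dc u a j) (Dc u a i) (Dc u j i)) := by
  have hD : ∀ a j, ∀ k, k ∉ B → Dc u a j k = 0 := fun a j k hk => by
    unfold Dc; rw [hs k hk]; simp
  simp only [Tr_tri (hD _ _)]
  simp only [← Finset.sum_add_distrib]
  have e1 : ∀ a j, ∑ i, ∑ p ∈ tri B, ((φ p.2 p.1 : ℂ) * (Dc u a j p.2 * Dc u j i (p.1 - p.2) * conj (Dc u a i p.1))
      + (φ p.2 p.1 : ℂ) * (Dc u a j p.2 * Dc u a i (p.1 - p.2) * conj (Dc u j i p.1)))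
      = ∑ p ∈ tri B, ∑ i, ((φ p.2 p.1 : ℂ) * (Dc u a j p.2 * Dc u j i (p.1 - p.2) * conj (Dc u a i p.1))
      + (φ p.2 p.1 : ℂ) * (Dc u a j p.2 * Dc u a i (p.1 - p.2) * conj (Dc u j i p.1))) :=
    fun a j => Finset.sum_comm
  simp only [e1]
  have e2 : ∀ (G : Fin 3 → Fin 3 → K × K → ℂ), ∑ a, ∑ j, ∑ p ∈ tri B, G a j p = ∑ p ∈ tri B, ∑ a, ∑ j, G a j p := by
    intro G
    rw [Finset.sum_comm (s := tri B)]
    refine Finset.sum_congr rfl fun a _ => ?_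
    exact Finset.sum_comm
  have e3 := e2 (fun a j p => ∑ i, ((φ p.2 p.1 : ℂ) * (Dc u a j p.2 * Dc u j i (p.1 - p.2) * conj (Dc u a i p.1))
      + (φ p.2 p.1 : ℂ) * (Dc u a j p.2 * Dc u a i (p.1 - p.2) * conj (Dc u j i p.1))))
  rw [e3]
  refine Finset.sum_congr rfl fun p _ => ?_
  obtain ⟨k, l⟩ := p
  simp only
  have h1 : dt k (u l) = ∑ j, ((k - l) j : ℂ) * u l j := by
    have h2 : dt k (u l) = dt (k - l) (u l) := by rw [dt_sub, hdiv l, sub_zero]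
    rw [h2]; rfl
  have h2 : dt k (u l) = ∑ j, (k j : ℂ) * u l j := rfl
  have h3 : ((Pool.Agent.H356R3.NS.sq k - Pool.Agent.H356R3.NS.sq (k - l) : ℝ) : ℂ)
      = ∑ a, ((l a : ℂ) * (k a : ℂ) + (l a : ℂ) * ((k - l) a : ℂ)) := by
    unfold Pool.Agent.H356R3.NS.sq
    rw [← Finset.sum_sub_distrib]
    push_cast
    refine Finset.sum_congr rfl fun a _ => ?_
    simp only [Pi.sub_apply]
    push_cast
    ring
  unfold TT'
  have h4 : ((Pool.Agent.H356R3.NS.sq k - Pool.Agent.H356R3.NS.sq (k - l) : ℝ) : ℂ) *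
      ((φ l k : ℂ) * (dt k (u l) * ipc (u (k - l)) (u k)))
      = (φ l k : ℂ) * ((∑ a, (l a : ℂ) * (k a : ℂ)) * (∑ j, ((k - l) j : ℂ) * u l j) * ipc (u (k - l)) (u k)
        + (∑ a, (l a : ℂ) * ((k - l) a : ℂ)) * (∑ j, (k j : ℂ) * u l j) * ipc (u (k - l)) (u k)) := by
    rw [h3, Finset.sum_add_distrib, ← h1, ← h2]
    ring
  rw [h4]
  unfold ipc
  rw [prod3, prod3, ← Finset.sum_add_distrib, Finset.mul_sum]
  refine Finset.sum_congr rfl fun a _ => ?_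
  rw [← Finset.sum_add_distrib, Finset.mul_sum]
  refine Finset.sum_congr rfl fun j _ => ?_
  rw [← Finset.sum_add_distrib, Finset.mul_sum]
  refine Finset.sum_congr rfl fun i _ => ?_
  unfold Dc
  simp only [map_mul, map_intCast]
  ring

/-- **The flux of the enstrophy.** -/
theorem enst_flux (hφ : Wt φ) {C : ℝ} (hT : Tri φ C) (hB : ∀ k ∈ B, -k ∈ B)
    (hs : ∀ k, k ∉ B → u k = 0) (hsym : Sym u) (hdiv : ∀ k, dt k (u k) = 0) :
    |∑ k ∈ B, Pool.Agent.H356R3.NS.sq k * (2 * (ipc (Bw φ u u k) (u k)).re)|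
      ≤ 108 * Real.pi * C * (Es 1 B u * √(Es 2 B u)) := by
  rw [flux_eq hs hdiv]
  refine (Complex.abs_re_le_norm _).trans ?_
  have h2 := flux_two hφ hB hsym hdiv (w := Pool.Agent.H356R3.NS.sq) (fun k => sq_neg k)
  set S : ℂ := ∑ p ∈ tri B, (Pool.Agent.H356R3.NS.sq p.1 : ℂ) * TT' φ u p.1 p.2
  have h6 : -(4 * (Real.pi : ℂ) * Complex.I) * S = (-(2 * Real.pi * Complex.I)) * (2 * S) := by ring
  rw [h6, norm_mul]
  have h7 : ‖-(2 * (Real.pi : ℂ) * Complex.I)‖ = 2 * Real.pi := by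
    rw [norm_neg, norm_mul, norm_mul, Complex.norm_I, Complex.norm_real]
    simp [abs_of_pos Real.pi_pos]
  rw [h7, h2, enst_id hs hdiv]
  set F : K → ℝ := fun k => nn k * ‖u k‖ with hF
  have hF0 : ∀ k, k ∉ B → F k = 0 := fun k hk => by simp only [hF, hs k hk, norm_zero, mul_zero]
  have hF1 : F 0 = 0 := by simp only [hF, nn_eq_zero.2 rfl, zero_mul]
  have hE1 : ∑ k ∈ B, F k ^ 2 ≤ Es 1 B u := by
    unfold Es
    refine Finset.sum_le_sum fun k _ => ?_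
    have h5 := norm_sq_le_en (u k)
    have : 0 ≤ nn k ^ 2 := by positivity
    simp only [hF]
    rw [mul_pow]
    exact mul_le_mul_of_nonneg_left h5 this
  have hE2 : ∑ k ∈ B, nn k ^ 2 * F k ^ 2 ≤ Es 2 B u := by
    unfold Es
    refine Finset.sum_le_sum fun k _ => ?_
    have h5 := norm_sq_le_en (u k)
    have h6 : 0 ≤ nn k ^ (2 * 2) := pow_nonneg (nn_nonneg k) _
    simp only [hF]
    calc nn k ^ 2 * (nn k * ‖u k‖) ^ 2 = nn k ^ (2 * 2) * ‖u k‖ ^ 2 := by ring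
      _ ≤ _ := mul_le_mul_of_nonneg_left h5 h6
  have hbd : ∀ f g h : K → ℂ, (∀ k, ‖f k‖ ≤ F k) → (∀ k, ‖g k‖ ≤ F k) → (∀ k, ‖h k‖ ≤ F k) →
      ‖Tr φ B f g h‖ ≤ C * (Es 1 B u * √(Es 2 B u)) := by
    intro f g h hf hg hh
    refine (hT.2 B hB f g h F hF0 hF1 hf hg hh).trans ?_
    rw [mul_assoc]
    apply mul_le_mul_of_nonneg_left _ hT.1
    exact mul_le_mul hE1 (Real.sqrt_le_sqrt hE2) (Real.sqrt_nonneg _) (Es_nonneg _ _ _)
  have hpi := Real.pi_pos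
  have h8 : ‖∑ a, ∑ j, ∑ i, (Tr φ B (Dc u a j) (Dc u j i) (Dc u a i)
      + Tr φ B (Dc u a j) (Dc u a i) (Dc u j i))‖ ≤ 54 * (C * (Es 1 B u * √(Es 2 B u))) := by
    refine (norm_sum_le _ _).trans ((Finset.sum_le_sum fun a _ => (norm_sum_le _ _).trans
      (Finset.sum_le_sum fun j _ => (norm_sum_le _ _).trans (Finset.sum_le_sum fun i _ =>
        (norm_add_le _ _).trans (add_le_add
          (hbd _ _ _ (norm_Dc u a j) (norm_Dc u j i) (norm_Dc u a i))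
          (hbd _ _ _ (norm_Dc u a j) (norm_Dc u a i) (norm_Dc u j i)))))).trans (le_of_eq ?_))
    simp only [Finset.sum_const, Finset.card_univ, Fintype.card_fin, nsmul_eq_mul]
    push_cast
    ring
  calc _ ≤ 2 * Real.pi * (54 * (C * (Es 1 B u * √(Es 2 B u)))) :=
        mul_le_mul_of_nonneg_left h8 (by positivity)
    _ = _ := by ring

end Pool.Agent.K1H29.NC
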