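import Pool.Agent.K1H29.NC.W4
import Pool.Agent.K1H29.RD.Lim

/-!
# The limit of the weighted Galerkin trajectories
-/

open Set ComplexConjugate Filter Topology MeasureTheory

namespace Pool.Agent.K1H29.NC

open Pool.Agent.H356R3.NS hiding Sol
open Pool.Agent.K1H29.SH (nn nn_nonneg nn_neg cl cl_mem cl_lip cl_eq)
open Pool.Agent.K1H29.RD (bL mem_bL bL_neg)

theorem exists_limitW {φ : K → K → ℝ} (hφw : Wt φ) {Λ : Set K} (hΛ : ∀ k ∈ Λ, -k ∈ Λ) {m : K → ℝ} (hm0 : ∀ k, 0 ≤ m k)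
    (hme : ∀ k, m (-k) = m k)
    {V : K → C3} (hVs : Sym V) (hVd : ∀ k, dt k (V k) = 0) (hVL : ∀ k, k ∉ Λ → V k = 0)
    (hbd : ∀ p : ℕ, ∃ b : K → ℝ, Summable b ∧ ∀ (B : Finset K) (T : ℝ) (u : ℝ → K → C3),
      (∀ k ∈ B, k ∈ Λ) → 0 ≤ T → GalW φ m B T V u → ∀ t ∈ Icc 0 T, ∀ k, pw k ^ p * ‖u t k‖ ≤ b k) :
    ∃ u : Fam, CF u ∧ (∀ p : ℕ, ∃ b : K → ℝ, Summable b ∧ ∀ k t, pw k ^ p * ‖u k t‖ ≤ b k) ∧
      SymF u ∧ (∀ k t, dt k (u k t) = 0) ∧ (∀ k, u k 0 = V k) ∧
      (∀ k ∈ Λ, ∀ t, 0 < t → HasDerivAt (u k) (-(m k) • u k t + Btw φ u k t) t) ∧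
      ∀ k, k ∉ Λ → ∀ t, u k t = 0 := by
  have hmemL : ∀ M : ℕ, ∀ k ∈ bL Λ M, k ∈ Λ := fun M k hk => (mem_bL.1 hk).2
  have hT : ∀ M : ℕ, (0 : ℝ) < M + 1 := fun M => by positivity
  choose uu huu using fun M : ℕ => exists_galW hφw hm0 hme (bL_neg hΛ (M := M)) hVs hVd (hT M)
  set U : ℕ → Fam := fun M k t => uu M (cl (M + 1) t) k with hU
  have hUb : ∀ (p : ℕ) (b : K → ℝ), (∀ (B : Finset K) (T : ℝ) (u : ℝ → K → C3),
      (∀ k ∈ B, k ∈ Λ) → 0 ≤ T → GalW φ m B T V u → ∀ t ∈ Icc 0 T, ∀ k, pw k ^ p * ‖u t k‖ ≤ b k) →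
      ∀ M k t, pw k ^ p * ‖U M k t‖ ≤ b k := fun p b hb M k t =>
    hb _ _ _ (hmemL M) (hT M).le (huu M) _ (cl_mem (hT M).le t) k
  obtain ⟨b, hbs, hb⟩ := hbd 0
  have hUb0 : ∀ M k t, ‖U M k t‖ ≤ b k := fun M k t => by
    have := hUb 0 b hb M k t
    rwa [pow_zero, one_mul] at this
  have hb0 : ∀ k, 0 ≤ b k := fun k => (norm_nonneg _).trans (hUb0 0 k 0)
  -- Lipschitz bounds
  set L : K → ℝ := fun k => m k * b k + C0 * nk k * ((∑' k, b k) * ∑' k, b k) with hL
  have hL0 : ∀ k, 0 ≤ L k := fun k => by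
    have h1 := hm0 k
    have h2 := hb0 k
    have h3 := C0_pos
    have h4 := nk_nonneg k
    have h5 : 0 ≤ ∑' k, b k := tsum_nonneg hb0
    positivity
  have hub : ∀ M : ℕ, ∀ t ∈ Icc 0 ((M : ℝ) + 1), ∀ k, ‖uu M t k‖ ≤ b k := fun M t ht k => by
    have := hb _ _ _ (hmemL M) (hT M).le (huu M) t ht k
    rwa [pow_zero, one_mul] at this
  have hLu : ∀ (M : ℕ) k s t, s ∈ Icc 0 ((M : ℝ) + 1) → t ∈ Icc 0 ((M : ℝ) + 1) →
      ‖uu M t k - uu M s k‖ ≤ L k * ‖t - s‖ := by
    intro M k s t hs ht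
    by_cases hk : k ∈ bL Λ M
    · refine (convex_Icc 0 ((M : ℝ) + 1)).norm_image_sub_le_of_norm_hasDerivWithin_le
        (f := fun s => uu M s k) (fun x hx => (huu M).der k hk x hx) (fun x hx => ?_) hs ht
      refine (norm_add_le _ _).trans (add_le_add ?_ ?_)
      · rw [norm_smul, norm_neg, Real.norm_of_nonneg (hm0 k)]
        exact mul_le_mul_of_nonneg_left (hub M x hx k) (hm0 k)
      · exact norm_Bw_le hφw hbs (fun k => hub M x hx k) k
    · rw [(huu M).supp t ht k hk, (huu M).supp s hs k hk, sub_zero, norm_zero]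
      exact mul_nonneg (hL0 k) (norm_nonneg _)
  have hLU : ∀ M k s t, ‖U M k t - U M k s‖ ≤ L k * |t - s| := by
    intro M k s t
    refine (hLu M k _ _ (cl_mem (hT M).le s) (cl_mem (hT M).le t)).trans ?_
    exact mul_le_mul_of_nonneg_left (cl_lip _ _ _) (hL0 k)
  have hUc : ∀ M, CF (U M) := fun M k => by
    refine LipschitzWith.continuous (K := Real.toNNReal (L k)) (LipschitzWith.of_dist_le_mul fun s t => ?_)
    rw [dist_eq_norm, Real.dist_eq, Real.coe_toNNReal _ (hL0 k)]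
    exact hLU M k t s
  -- compactness
  obtain ⟨y, -, ψ, hψ, hy⟩ := (isCompact_univ_pi (fun p : K × ℚ =>
    isCompact_closedBall (0 : C3) (b p.1))).tendsto_subseq (x := fun M p => U M p.1 (p.2 : ℝ))
    (fun M p _ => by rw [mem_closedBall_zero_iff]; exact hUb0 M _ _)
  have hyq : ∀ k (q : ℚ), Tendsto (fun n => U (ψ n) k (q : ℝ)) atTop (𝓝 (y (k, q))) := by
    intro k q
    exact ((continuous_apply (k, q)).tendsto _).comp hy
  have hcau : ∀ k t, CauchySeq fun n => U (ψ n) k t := by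
    intro k t
    rw [Metric.cauchySeq_iff']
    intro ε hε
    have hL1 : 0 < L k + 1 := by have := hL0 k; linarith
    obtain ⟨q, hq1, hq2⟩ := exists_rat_btwn (show t < t + ε / (8 * (L k + 1)) by
      have : 0 < ε / (8 * (L k + 1)) := by positivity
      linarith)
    have hq : |t - q| ≤ ε / (8 * (L k + 1)) := by rw [abs_le]; constructor <;> linarith
    obtain ⟨N, hN⟩ := (Metric.tendsto_atTop.1 (hyq k q)) (ε / 4) (by positivity)
    refine ⟨N, fun n hn => ?_⟩
    have h1 := hN n hn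
    have h2 := hN N le_rfl
    have hd : ∀ M, ‖U M k t - U M k q‖ ≤ ε / 8 := by
      intro M
      refine (hLU M k q t).trans ?_
      calc L k * |t - q| ≤ (L k + 1) * (ε / (8 * (L k + 1))) := by
            apply mul_le_mul _ hq (abs_nonneg _) hL1.le; linarith
        _ = ε / 8 := by field_simp
    have h3 := hd (ψ n)
    have h4 := hd (ψ N)
    rw [dist_eq_norm] at *
    have e : U (ψ n) k t - U (ψ N) k t = (U (ψ n) k t - U (ψ n) k q) + (U (ψ n) k q - y (k, q))
        - (U (ψ N) k q - y (k, q)) - (U (ψ N) k t - U (ψ N) k q) := by abel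
    rw [e]
    have h5 := norm_sub_le ((U (ψ n) k t - U (ψ n) k q) + (U (ψ n) k q - y (k, q))
        - (U (ψ N) k q - y (k, q))) (U (ψ N) k t - U (ψ N) k q)
    have h6 := norm_sub_le ((U (ψ n) k t - U (ψ n) k q) + (U (ψ n) k q - y (k, q)))
        (U (ψ N) k q - y (k, q))
    have h7 := norm_add_le (U (ψ n) k t - U (ψ n) k q) (U (ψ n) k q - y (k, q))
    linarith
  choose u hu using fun k t => cauchySeq_tendsto_of_complete (hcau k t)
  have hub' : ∀ k t, ‖u k t‖ ≤ b k := fun k t =>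
    le_of_tendsto ((hu k t).norm) (Eventually.of_forall fun n => hUb0 _ _ _)
  have huL : ∀ k s t, ‖u k t - u k s‖ ≤ L k * |t - s| := fun k s t =>
    le_of_tendsto (((hu k t).sub (hu k s)).norm) (Eventually.of_forall fun n => hLU _ _ _ _)
  have huc : CF u := fun k => by
    refine LipschitzWith.continuous (K := Real.toNNReal (L k)) (LipschitzWith.of_dist_le_mul fun s t => ?_)
    rw [dist_eq_norm, Real.dist_eq, Real.coe_toNNReal _ (hL0 k)]
    exact huL k t s
  have hud : Dom u := ⟨b, hbs, hub'⟩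
  have hUd : ∀ M, Dom (U M) := fun M => ⟨b, hbs, fun k t => hUb0 M k t⟩
  have hψM : ∀ R : ℝ, ∀ᶠ n in atTop, R ≤ (ψ n : ℝ) := by
    intro R
    have h1 : Tendsto (fun n => (ψ n : ℝ)) atTop atTop :=
      tendsto_natCast_atTop_atTop.comp hψ.tendsto_atTop
    exact h1.eventually_ge_atTop R
  -- the integral equation
  have hint : ∀ k ∈ Λ, ∀ t, 0 ≤ t → u k t = V k + ∫ s in (0 : ℝ)..t, (-(m k) • u k s + Btw φ u k s) := by
    intro k hkL t ht
    have hfin : ∀ᶠ n in atTop, U (ψ n) k t = V k + ∫ s in (0 : ℝ)..t,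
        (-(m k) • U (ψ n) k s + Btw φ (U (ψ n)) k s) := by
      filter_upwards [hψM t, hψM (nn k)] with n hn1 hn2
      have hk : k ∈ bL Λ (ψ n) := mem_bL.2 ⟨hn2, hkL⟩
      have htT : t ≤ (ψ n : ℝ) + 1 := by linarith
      have hcont : Continuous fun s => -(m k) • U (ψ n) k s + Btw φ (U (ψ n)) k s :=
        ((hUc (ψ n) k).const_smul (-(m k))).add (Btw_cont hφw (hUc (ψ n)) (hUd (ψ n)) k)
      have h1 := intervalIntegral.integral_eq_sub_of_hasDeriv_right (a := 0) (b := t)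
        (f := fun s => U (ψ n) k s) (f' := fun s => -(m k) • U (ψ n) k s + Btw φ (U (ψ n)) k s)
        (hUc (ψ n) k).continuousOn (fun s hs => by
          rw [min_eq_left ht, max_eq_right ht] at hs
          have hs' : s ∈ Icc 0 ((ψ n : ℝ) + 1) := ⟨hs.1.le, hs.2.le.trans htT⟩
          have h2 := (huu (ψ n)).der k hk s hs'
          have h3 : HasDerivWithinAt (fun s => U (ψ n) k s)
              (-(m k) • uu (ψ n) s k + Bw φ (uu (ψ n) s) (uu (ψ n) s) k) (Icc 0 ((ψ n : ℝ) + 1)) s := by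
            refine h2.congr (fun x hx => ?_) ?_
            · simp only [hU, cl_eq hx.1 hx.2]
            · simp only [hU, cl_eq hs'.1 hs'.2]
          have h4 : -(m k) • U (ψ n) k s + Btw φ (U (ψ n)) k s
              = -(m k) • uu (ψ n) s k + Bw φ (uu (ψ n) s) (uu (ψ n) s) k := by
            unfold Btw at'
            simp only [hU, cl_eq hs'.1 hs'.2]
          rw [h4]
          refine h3.mono_of_mem_nhdsWithin ?_
          exact mem_nhdsWithin_of_mem_nhds (Icc_mem_nhds hs.1 (by linarith [hs.2])))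
        (hcont.intervalIntegrable _ _)
      have h5 : U (ψ n) k 0 = V k := by
        simp only [hU, cl_eq le_rfl (hT (ψ n)).le]
        exact (huu (ψ n)).init k hk
      rw [h5] at h1
      rw [h1]; abel
    have hlim : Tendsto (fun n => ∫ s in (0 : ℝ)..t, (-(m k) • U (ψ n) k s + Btw φ (U (ψ n)) k s)) atTop
        (𝓝 (∫ s in (0 : ℝ)..t, (-(m k) • u k s + Btw φ u k s))) := by
      refine intervalIntegral.tendsto_integral_filter_of_dominated_convergence (fun _ => L k) ?_ ?_ ?_ ?_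
      · refine Eventually.of_forall fun n => Continuous.aestronglyMeasurable ?_
        exact ((hUc (ψ n) k).const_smul (-(m k))).add (Btw_cont hφw (hUc (ψ n)) (hUd (ψ n)) k)
      · refine Eventually.of_forall fun n => Eventually.of_forall fun s _ => ?_
        refine (norm_add_le _ _).trans (add_le_add ?_ ?_)
        · rw [norm_smul, norm_neg, Real.norm_of_nonneg (hm0 k)]
          exact mul_le_mul_of_nonneg_left (hUb0 _ _ _) (hm0 k)
        · exact norm_Bw_le hφw hbs (fun k => hUb0 (ψ n) k s) k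
      · exact intervalIntegrable_const
      · refine Eventually.of_forall fun s _ => ?_
        refine ((hu k s).const_smul _).add ?_
        exact Bw_tendsto hφw hbs (fun n k => hUb0 (ψ n) k s) (fun k => hu k s) k
    refine tendsto_nhds_unique (hu k t) ?_
    exact (hlim.const_add (V k)).congr' (hfin.mono fun n hn => hn.symm)
  have hGc : ∀ k, Continuous fun s => -(m k) • u k s + Btw φ u k s := fun k =>
    ((huc k).const_smul (-(m k))).add (Btw_cont hφw huc hud k)
  have hzero : ∀ k, k ∉ Λ → ∀ t, u k t = 0 := by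
    intro k hk t
    refine tendsto_nhds_unique (hu k t) (tendsto_const_nhds.congr fun n => ?_)
    exact ((huu (ψ n)).supp _ (cl_mem (hT (ψ n)).le t) k (fun h => hk (mem_bL.1 h).2)).symm
  refine ⟨u, huc, fun p => ?_, ?_, ?_, ?_, ?_, hzero⟩
  · obtain ⟨b', hb's, hb'⟩ := hbd p
    refine ⟨b', hb's, fun k t => ?_⟩
    exact le_of_tendsto (((hu k t).norm).const_mul _)
      (Eventually.of_forall fun n => hUb p b' hb' _ _ _)
  · intro t k i
    have h1 : Tendsto (fun n => U (ψ n) (-k) t i) atTop (𝓝 (u (-k) t i)) :=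
      ((continuous_apply i).tendsto _).comp (hu (-k) t)
    have h2 : Tendsto (fun n => star (U (ψ n) k t i)) atTop (𝓝 (star (u k t i))) :=
      (continuous_star.tendsto _).comp (((continuous_apply i).tendsto _).comp (hu k t))
    refine tendsto_nhds_unique h1 (h2.congr fun n => ?_)
    exact ((huu (ψ n)).sym _ (cl_mem (hT (ψ n)).le t) k i).symm
  · intro k t
    have h1 : Continuous fun v : C3 => dt k v := by
      unfold dt; fun_prop
    have h2 : Tendsto (fun n => dt k (U (ψ n) k t)) atTop (𝓝 (dt k (u k t))) :=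
      (h1.tendsto _).comp (hu k t)
    refine tendsto_nhds_unique h2 ?_
    refine tendsto_const_nhds.congr fun n => ?_
    exact ((huu (ψ n)).div _ (cl_mem (hT (ψ n)).le t) k).symm
  · intro k
    by_cases hk : k ∈ Λ
    · rw [hint k hk 0 le_rfl, intervalIntegral.integral_same, add_zero]
    · rw [hzero k hk, hVL k hk]
  · intro k hkL t ht
    have h1 : HasDerivAt (fun t => V k + ∫ s in (0 : ℝ)..t, (-(m k) • u k s + Btw φ u k s))
        (-(m k) • u k t + Btw φ u k t) t :=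
      ((hGc k).integral_hasStrictDerivAt 0 t).hasDerivAt.const_add _
    refine h1.congr_of_eventuallyEq ?_
    filter_upwards [lt_mem_nhds ht] with s hs
    exact hint k hkL s hs.le

end Pool.Agent.K1H29.NC
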