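import Pool.Agent.K1H29.NC.W5

/-!
# Weighted convolutions of families, the pressure, the equation on the Fourier side
-/

open Set ComplexConjugate Filter Topology MeasureTheory
open scoped ContDiff

namespace Pool.Agent.K1H29.NC

open Pool.Agent.H356R3.NS hiding Sol

variable {φ : K → K → ℝ}

/-- weighted convolution of families -/
noncomputable def cvw (φ : K → K → ℝ) (c d : SFam) : SFam := fun k t => ∑' l, (φ l k : ℂ) * (c l t * d (k - l) t)

lemma cvw_le (hφ : Wt φ) (z w : ℂ) (l k : K) : ‖(φ l k : ℂ) * (z * w)‖ ≤ ‖z‖ * ‖w‖ := by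
  rw [norm_mul, norm_mul]
  calc _ ≤ 1 * (‖z‖ * ‖w‖) := mul_le_mul_of_nonneg_right (hφ.nm l k) (by positivity)
    _ = _ := one_mul _

lemma RDconv (hφ : Wt φ) {c d : SFam} (hc : RD c) (hd : RD d) : RD (cvw φ c d) := by
  intro m
  obtain ⟨b, hb, h⟩ := hc m
  obtain ⟨b', hb', h'⟩ := hd m
  have p : ∀ k, 0 < pw k ^ m := fun k => pow_pos (pw_pos k) m
  have hb0 : ∀ k, 0 ≤ b k := fun k => (mul_nonneg (p k).le (norm_nonneg _)).trans (h k 0)
  have hb0' : ∀ k, 0 ≤ b' k := fun k => (mul_nonneg (p k).le (norm_nonneg _)).trans (h' k 0)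
  refine ⟨_, summ_conv hb hb' hb0 hb0', fun k t => ?_⟩
  have hs : Summable fun l => b l * b' (k - l) := by
    refine (hb.mul_right (∑' l, b' l)).of_nonneg_of_le (fun l => mul_nonneg (hb0 _) (hb0' _)) fun l => ?_
    exact mul_le_mul_of_nonneg_left (hb'.le_tsum _ fun _ _ => hb0' _) (hb0 l)
  have ht : ∀ l, pw k ^ m * ‖(φ l k : ℂ) * (c l t * d (k - l) t)‖ ≤ b l * b' (k - l) := by
    intro l
    calc pw k ^ m * ‖(φ l k : ℂ) * (c l t * d (k - l) t)‖
        ≤ (pw l * pw (k - l)) ^ m * (‖c l t‖ * ‖d (k - l) t‖) := by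
          apply mul_le_mul _ (cvw_le hφ _ _ l k) (norm_nonneg _)
            (pow_nonneg (mul_nonneg (pw_pos _).le (pw_pos _).le) _)
          exact pow_le_pow_left₀ (pw_pos k).le (pw_sub k l) m
      _ = (pw l ^ m * ‖c l t‖) * (pw (k - l) ^ m * ‖d (k - l) t‖) := by rw [mul_pow]; ring
      _ ≤ _ := mul_le_mul (h l t) (h' (k - l) t) (mul_nonneg (p _).le (norm_nonneg _)) (hb0 l)
  have hn : Summable fun l => ‖(φ l k : ℂ) * (c l t * d (k - l) t)‖ := by
    refine hs.of_nonneg_of_le (fun _ => norm_nonneg _) fun l => ?_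
    calc ‖(φ l k : ℂ) * (c l t * d (k - l) t)‖ = 1 * ‖(φ l k : ℂ) * (c l t * d (k - l) t)‖ := (one_mul _).symm
      _ ≤ pw k ^ m * ‖(φ l k : ℂ) * (c l t * d (k - l) t)‖ :=
          mul_le_mul_of_nonneg_right (one_le_pow₀ (one_le_pw k)) (norm_nonneg _)
      _ ≤ _ := ht l
  unfold cvw
  calc pw k ^ m * ‖∑' l, (φ l k : ℂ) * (c l t * d (k - l) t)‖
      ≤ pw k ^ m * ∑' l, ‖(φ l k : ℂ) * (c l t * d (k - l) t)‖ :=
        mul_le_mul_of_nonneg_left (norm_tsum_le_tsum_norm hn) (p k).le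
    _ = ∑' l, pw k ^ m * ‖(φ l k : ℂ) * (c l t * d (k - l) t)‖ := by rw [tsum_mul_left]
    _ ≤ _ := (hn.mul_left _).tsum_le_tsum ht hs

lemma cvw_bd (hφ : Wt φ) {x y : SFam} {bx by' : K → ℝ} (hby : Summable by')
    (hx : ∀ k t, ‖x k t‖ ≤ bx k) (hy : ∀ k t, ‖y k t‖ ≤ by' k) (k : K) (t : ℝ) (l : K) :
    ‖(φ l k : ℂ) * (x l t * y (k - l) t)‖ ≤ bx l * ∑' l', by' l' := by
  have p0 : ∀ k, 0 ≤ by' k := fun k => (norm_nonneg _).trans (hy k 0)
  refine (cvw_le hφ _ _ l k).trans ?_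
  exact mul_le_mul (hx l t) ((hy _ t).trans (hby.le_tsum _ fun _ _ => p0 _)) (norm_nonneg _)
    ((norm_nonneg _).trans (hx l t))

lemma cvw_summ (hφ : Wt φ) {c d : SFam} (hc : RD c) (hd : RD d) (k : K) (t : ℝ) :
    Summable fun l => (φ l k : ℂ) * (c l t * d (k - l) t) := by
  obtain ⟨b, hb, h⟩ := hc.summ
  obtain ⟨b', hb', h'⟩ := hd.summ
  exact Summable.of_norm_bounded (hb.mul_right _) (cvw_bd hφ hb' h h' k t)

lemma cvw_cont (hφ : Wt φ) {c d : SFam} (hc : RD c) (hd : RD d) (hcc : ∀ k, Continuous (c k))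
    (hdc : ∀ k, Continuous (d k)) (k : K) : Continuous (cvw φ c d k) := by
  obtain ⟨b, hb, h⟩ := hc.summ
  obtain ⟨b', hb', h'⟩ := hd.summ
  unfold cvw
  exact continuous_tsum (u := fun l => b l * ∑' l', b' l')
    (fun l => continuous_const.mul ((hcc l).mul (hdc (k - l))))
    (hb.mul_right _) fun l t => cvw_bd hφ hb' h h' k t l

lemma cvw_deriv (hφ : Wt φ) {c d c' d' : SFam} (hc : RD c) (hd : RD d) (hc' : RD c') (hd' : RD d')
    (h1 : ∀ k t, 0 < t → HasDerivAt (c k) (c' k t) t) (h2 : ∀ k t, 0 < t → HasDerivAt (d k) (d' k t) t)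
    (k : K) {t : ℝ} (ht : 0 < t) :
    HasDerivAt (cvw φ c d k) (cvw φ c' d k t + cvw φ c d' k t) t := by
  obtain ⟨b, hb, h⟩ := hc.summ
  obtain ⟨b', hb', h'⟩ := hd.summ
  obtain ⟨b1, hb1, hh1⟩ := hc'.summ
  obtain ⟨b1', hb1', hh1'⟩ := hd'.summ
  have s1 : ∀ t, Summable fun l => (φ l k : ℂ) * (c' l t * d (k - l) t) := fun t => cvw_summ hφ hc' hd k t
  have s2 : ∀ t, Summable fun l => (φ l k : ℂ) * (c l t * d' (k - l) t) := fun t => cvw_summ hφ hc hd' k t
  have s0 : ∀ t, Summable fun l => (φ l k : ℂ) * (c l t * d (k - l) t) := fun t => cvw_summ hφ hc hd k t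
  have key := hasDerivAt_tsum_of_isPreconnected (t := Ioi (0 : ℝ))
    (u := fun l => b1 l * (∑' l', b' l') + b l * ∑' l', b1' l')
    (g := fun l t => (φ l k : ℂ) * (c l t * d (k - l) t))
    (g' := fun l t => (φ l k : ℂ) * (c' l t * d (k - l) t + c l t * d' (k - l) t))
    ((hb1.mul_right _).add (hb.mul_right _)) isOpen_Ioi isPreconnected_Ioi
    (fun l t ht => ((h1 l t ht).mul (h2 (k - l) t ht)).const_mul _)
    (fun l t _ => by
      rw [mul_add]
      exact (norm_add_le _ _).trans (add_le_add (cvw_bd hφ hb' hh1 h' k t l) (cvw_bd hφ hb1' h hh1' k t l)))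
    (y₀ := t) ht (s0 t) ht
  have e : ∑' l, (φ l k : ℂ) * (c' l t * d (k - l) t + c l t * d' (k - l) t)
      = cvw φ c' d k t + cvw φ c d' k t := by
    simp only [mul_add]
    exact (s1 t).tsum_add (s2 t)
  rw [← e]
  exact key

lemma TTconv (hφ : Wt φ) {n : ℕ} : ∀ {c d : SFam}, TT n c → TT n d → TT n (cvw φ c d) := by
  induction n with
  | zero => intro c d hc hd; exact ⟨RDconv hφ hc.1 hd.1, cvw_cont hφ hc.1 hd.1 hc.2 hd.2⟩
  | succ n ih =>
    intro c d hc hd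
    have hc0 := hc.pred
    have hd0 := hd.pred
    obtain ⟨h1, h2, c', h3, h4⟩ := hc
    obtain ⟨g1, g2, d', g3, g4⟩ := hd
    exact ⟨RDconv hφ h1 g1, cvw_cont hφ h1 g1 h2 g2, _,
      fun k t ht => cvw_deriv hφ h1 g1 h4.rd g4.rd h3 g3 k ht, (ih h4 hd0).add (ih hc0 g4)⟩

/-- the time derivative on the Fourier side -/
noncomputable def dUw (φ : K → K → ℝ) (c : ℝ) (u : Fam) (i : Fin 3) : SFam := fun k t =>
  (-((c * Pool.Agent.H356R3.NS.sq k : ℝ) : ℂ)) * u k t i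
    + ∑ j, ∑ m, coef k i j m * cvw φ (cf' u j) (cf' u m) k t

/-- pressure -/
noncomputable def PFw (φ : K → K → ℝ) (u : Fam) : SFam := fun k t =>
  ∑ j, ∑ m, (-((k j : ℂ) * (k m : ℂ) / ((Pool.Agent.H356R3.NS.sq k : ℝ) : ℂ))) * cvw φ (cf' u j) (cf' u m) k t

lemma TT_PFw (hφ : Wt φ) {u : Fam} {n : ℕ} (h : ∀ i, TT n (cf' u i)) : TT n (PFw φ u) := by
  unfold PFw
  refine TT.sum _ fun j _ => TT.sum _ fun m _ => TT.mul (C := 1) (r := 0) (fun k => ?_) (TTconv hφ (h j) (h m))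
  rw [pow_zero, mul_one, norm_neg, norm_div, norm_mul, Complex.norm_real, Complex.norm_intCast, Complex.norm_intCast,
    Real.norm_of_nonneg (sq_nonneg' k)]
  apply div_le_one_of_le₀ _ (sq_nonneg' k)
  rw [← nk_mul_self]
  exact mul_le_mul (abs_le_nk k j) (abs_le_nk k m) (abs_nonneg _) (nk_nonneg k)

lemma TT_dUw (hφ : Wt φ) {c : ℝ} {u : Fam} {n : ℕ} (h : ∀ i, TT n (cf' u i)) (i : Fin 3) :
    TT n (dUw φ c u i) := by
  unfold dUw
  refine TT.add (TT.mul (norm_sq_le c) (h i)) ?_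
  refine TT.sum _ fun j _ => TT.sum _ fun m _ => ?_
  refine TT.mul (C := 4 * Real.pi) (r := 1) (fun k => ?_) (TTconv hφ (h j) (h m))
  refine (norm_coef_le k i j m).trans ?_
  rw [pow_one]
  exact mul_le_mul_of_nonneg_left (nk_le_pw k) (by positivity)

lemma fourier_eqW (hφ : Wt φ) {ν : ℝ} {u : Fam} (hu : ∀ i, RD (cf' u i))
    (hdiv : ∀ k t, dt k (u k t) = 0) (i : Fin 3) (k : K) (t : ℝ) :
    dUw φ (4 * Real.pi ^ 2 * ν) u i k t + ∑ j, cvw φ (cf' u j) (dS j (cf' u i)) k t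
      = (ν : ℂ) * ∑ j, dS j (dS j (cf' u i)) k t + (-1) * dS i (PFw φ u) k t := by
  have hd : ∀ j, RD (dS j (cf' u i)) := fun j => (hu i).mul (fun k => norm_fj_le k j)
  have h1 : ∑ j, cvw φ (cf' u j) (dS j (cf' u i)) k t = ∑ j, fj k j * cvw φ (cf' u j) (cf' u i) k t := by
    unfold cvw
    rw [← Summable.tsum_finsetSum fun j _ => cvw_summ hφ (hu j) (hd j) k t]
    simp_rw [← tsum_mul_left]
    rw [← Summable.tsum_finsetSum fun j _ => (cvw_summ hφ (hu j) (hu i) k t).mul_left _]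
    refine tsum_congr fun l => ?_
    have h2 : ∑ j, fj l j * cf' u j l t = 0 := by
      have := hdiv l t
      unfold dt at this
      unfold fj cf'
      calc ∑ j, 2 * Real.pi * Complex.I * (l j : ℂ) * u l t j
          = 2 * Real.pi * Complex.I * ∑ j, (l j : ℂ) * u l t j := by
            rw [Finset.mul_sum]; exact Finset.sum_congr rfl fun j _ => by ring
        _ = 0 := by rw [this, mul_zero]
    have h3 : ∀ j, fj (k - l) j = fj k j - fj l j := by
      intro j; unfold fj; simp only [Pi.sub_apply, Int.cast_sub]; ring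
    calc ∑ j, (φ l k : ℂ) * (cf' u j l t * dS j (cf' u i) (k - l) t)
        = ∑ j, fj k j * ((φ l k : ℂ) * (cf' u j l t * cf' u i (k - l) t))
          - (∑ j, fj l j * cf' u j l t) * ((φ l k : ℂ) * cf' u i (k - l) t) := by
          rw [Finset.sum_mul, ← Finset.sum_sub_distrib]
          refine Finset.sum_congr rfl fun j _ => ?_
          unfold dS
          rw [h3]; ring
      _ = _ := by rw [h2, zero_mul, sub_zero]
  rw [h1]
  unfold dUw PFw dS
  have hs : ∑ j, fj k j * (fj k j * cf' u i k t)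
      = -(4 * Real.pi ^ 2 * Pool.Agent.H356R3.NS.sq k : ℝ) * cf' u i k t := by
    calc ∑ j, fj k j * (fj k j * cf' u i k t) = (∑ j, fj k j * fj k j) * cf' u i k t := by
          rw [Finset.sum_mul]; exact Finset.sum_congr rfl fun j _ => by ring
      _ = _ := by
          congr 1
          unfold fj Pool.Agent.H356R3.NS.sq
          push_cast
          rw [Finset.mul_sum, ← Finset.sum_neg_distrib]
          refine Finset.sum_congr rfl fun j _ => ?_
          linear_combination (4 * (Real.pi : ℂ) ^ 2 * (k j : ℂ) ^ 2) * Complex.I_mul_I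
  rw [hs]
  set C : Fin 3 → Fin 3 → ℂ := fun j m => cvw φ (cf' u j) (cf' u m) k t
  have h4 : ∑ j, ∑ m, coef k i j m * C j m = -(∑ j, fj k j * C j i)
      - fj k i * ∑ j, ∑ m, (-((k j : ℂ) * (k m : ℂ) / ((Pool.Agent.H356R3.NS.sq k : ℝ) : ℂ))) * C j m := by
    rw [Finset.mul_sum, ← Finset.sum_neg_distrib, ← Finset.sum_sub_distrib]
    refine Finset.sum_congr rfl fun j _ => ?_
    rw [Finset.mul_sum]
    have h5 : fj k j * C j i = ∑ m, (if m = i then 1 else 0) * (fj k j * C j m) := by simp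
    rw [h5, ← Finset.sum_neg_distrib, ← Finset.sum_sub_distrib]
    refine Finset.sum_congr rfl fun m _ => ?_
    unfold coef fj
    ring
  have h6 : ∑ j, fj k j * cvw φ (cf' u j) (cf' u i) k t = ∑ j, fj k j * C j i := rfl
  have h8 : ∑ j, ∑ m, coef k i j m * cvw φ (cf' u j) (cf' u m) k t = ∑ j, ∑ m, coef k i j m * C j m := rfl
  rw [h8, h4, h6]
  have h7 : u k t i = cf' u i k t := rfl
  rw [h7]
  push_cast
  ring

end Pool.Agent.K1H29.NC
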