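import Pool.Agent.K1H29.NC.U2

/-!
# For `Θ = 0` the equations are the Navier-Stokes equations
-/

open MeasureTheory Set Filter Topology
open scoped ContDiff

namespace Pool.Agent.K1H29.NC

open H459R3.NS

variable {φ : K3 → K3 → ℝ} {f g h : V → ℝ}

lemma cauchy {A C : K3 → ℂ} (hA : Summable fun k => ‖A k‖) (hC : Summable fun k => ‖C k‖) :
    (∑' k, A k) * (∑' k, C k) = ∑' k, ∑' l, A l * C (k - l) := by
  have h1 : Summable fun p : K3 × K3 => A p.1 * C p.2 := summable_mul_of_summable_norm hA hC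
  have h2 := h1.comp_injective eqv2.injective
  calc (∑' k, A k) * (∑' k, C k) = ∑' p : K3 × K3, A p.1 * C p.2 :=
        tsum_mul_tsum_of_summable_norm hA hC
    _ = ∑' p : K3 × K3, A (eqv2 p).1 * C (eqv2 p).2 := (eqv2.tsum_eq (fun p : K3 × K3 => A p.1 * C p.2)).symm
    _ = ∑' k, ∑' l, A (eqv2 (k, l)).1 * C (eqv2 (k, l)).2 := h2.tsum_prod
    _ = _ := rfl

lemma ee_split (k l : K3) (x : V) : ee k x = ee l x * ee (k - l) x := by
  rw [SH.ee_eq_ex, SH.ee_eq_ex, SH.ee_eq_ex, ← Pool.Agent.H356R3.NS.ex_add, add_sub_cancel]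

/-- the product of two series -/
lemma mul_S {a b : K3 → ℂ} (ha : Summable a) (hb : Summable b) (x : V) :
    S a x * S b x = S (fun k => ∑' l, a l * b (k - l)) x := by
  have ha' : Summable fun k => ‖a k * ee k x‖ := ha.norm.congr fun k => (norm_term a k x).symm
  have hb' : Summable fun k => ‖b k * ee k x‖ := hb.norm.congr fun k => (norm_term b k x).symm
  refine (cauchy ha' hb').trans (tsum_congr fun k => ?_)
  rw [← tsum_mul_right]
  refine tsum_congr fun l => ?_
  rw [ee_split k l x]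
  ring

/-- the product with constant weights -/
theorem prod_one (hφ : ∀ l k, φ l k = 1) (hf : SP f) (hg : SP g) (x : V) : prod φ f g x = f x * g x := by
  have h1 : Ap φ f g = fun k => ∑' l, fr f l * fr g (k - l) := by
    funext k
    unfold Ap
    refine tsum_congr fun l => ?_
    rw [hφ]; simp
  rw [prod_eq_S, h1, ← mul_S (rap_fr hf).summable (rap_fr hg).summable, S_fr hf, S_fr hg]
  rw [← Complex.ofReal_mul, Complex.ofReal_re]

/-- Smooth periodic solutions of the Navier-Stokes equations. -/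
structure SolNS (ν : ℝ) (v : V → V) (u : ℝ → V → V) (p : ℝ → V → ℝ) : Prop where
  smooth_u : ContDiffOn ℝ ∞ (fun z : ℝ × V => u z.1 z.2) (Ici 0 ×ˢ univ)
  smooth_p : ContDiffOn ℝ ∞ (fun z : ℝ × V => p z.1 z.2) (Ici 0 ×ˢ univ)
  periodic_u : ∀ t, 0 ≤ t → ∀ x j, u t (x + Pi.single j 1) = u t x
  periodic_p : ∀ t, 0 ≤ t → ∀ x j, p t (x + Pi.single j 1) = p t x
  momentum : ∀ t, 0 ≤ t → ∀ x i,
    derivWithin (fun s => u s x i) (Ici 0) t + ∑ j, u t x j * pd j (fun y => u t y i) x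
      = ν * ∑ j, pd j (pd j fun y => u t y i) x - pd i (p t) x
  divFree : ∀ t, 0 ≤ t → ∀ x, ∑ i, pd i (fun y => u t y i) x = 0
  initial : u 0 = v

lemma sp_slice {u : ℝ → V → V} (hs : ContDiffOn ℝ ∞ (fun z : ℝ × V => u z.1 z.2) (Ici 0 ×ˢ univ))
    (hp : ∀ t, 0 ≤ t → ∀ x j, u t (x + Pi.single j 1) = u t x) {t : ℝ} (ht : 0 ≤ t) (i : Fin 3) :
    SP (fun x => u t x i) := by
  have h1 : ContDiffOn ℝ ∞ (fun z : ℝ × V => u z.1 z.2 i) (Ico 0 (t + 1) ×ˢ univ) :=
    (contDiffOn_pi.1 hs i).mono (prod_mono (fun s hs => hs.1) subset_rfl)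
  exact ⟨contDiff_slice (f := fun s x => u s x i) h1 ⟨ht, by linarith⟩,
    fun j x => by simp only [hp t ht x j]⟩

/-- If all weights are one, the equations are the Navier-Stokes equations. -/
theorem sol_one_iff (hφ : ∀ l k, φ l k = 1) {ν : ℝ} {v : V → V} {u : ℝ → V → V} {p : ℝ → V → ℝ} :
    Sol φ ν v u p ↔ SolNS ν v u p := by
  constructor
  · intro h
    refine ⟨h.smooth_u, h.smooth_p, h.periodic_u, h.periodic_p, fun t ht x i => ?_, h.divFree, h.initial⟩
    refine Eq.trans ?_ (h.momentum t ht x i)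
    congr 1
    refine Finset.sum_congr rfl fun j _ => ?_
    exact (prod_one hφ (sp_slice h.smooth_u h.periodic_u ht j)
      ((sp_slice h.smooth_u h.periodic_u ht i).pd j) x).symm
  · intro h
    refine ⟨h.smooth_u, h.smooth_p, h.periodic_u, h.periodic_p, fun t ht x i => ?_, h.divFree, h.initial⟩
    refine Eq.trans ?_ (h.momentum t ht x i)
    congr 1
    refine Finset.sum_congr rfl fun j _ => ?_
    exact prod_one hφ (sp_slice h.smooth_u h.periodic_u ht j)
      ((sp_slice h.smooth_u h.periodic_u ht i).pd j) x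

/-- At `Θ = 0` the equations are the Navier-Stokes equations. -/
theorem sol_zero_iff {ν : ℝ} {v : V → V} {u : ℝ → V → V} {p : ℝ → V → ℝ} :
    Sol (wt 0) ν v u p ↔ SolNS ν v u p := sol_one_iff fun l k => by simp [wt]

end Pool.Agent.K1H29.NC
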